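import Pool.Agent.Helper65.MT.Defs2

/-!
Project MT, piece D2a: weights and keys of the monomials of the hyperplane section.
-/

namespace Pool.Agent.Helper65.MT

open MvPolynomial

variable {p n e : ℕ}

/-- The number of letters of a pair of exponents. -/
def d2a_w (γ : VV p n e →₀ ℕ) (ω : YU n e →₀ ℕ) (c : Fin (n + 1)) (i : Fin e) : ℕ :=
  ∑ r, γ (c, r, i.succ) + ω (c, false, i) + ω (c, true, i)

theorem d2a_w_add (γ γ' : VV p n e →₀ ℕ) (ω ω' : YU n e →₀ ℕ) :
    d2a_w (γ + γ') (ω + ω') = d2a_w γ ω + d2a_w γ' ω' := by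
  funext c i
  simp only [d2a_w, Finsupp.add_apply, Finset.sum_add_distrib, Pi.add_apply]
  omega

/-- Elements of weight `D`. -/
def d2a_H (D : Fin (n + 1) → Fin e → ℕ) (G : Tb p n e) : Prop :=
  ∀ γ ω, coeff ω (coeff γ G) ≠ 0 → d2a_w γ ω = D

theorem d2a_H_CC (a : ℂ) : d2a_H (p := p) (n := n) (e := e) 0 (C (C a)) := by
  classical
  intro γ ω h
  rw [coeff_C] at h
  split_ifs at h with h1
  · rw [coeff_C] at h
    split_ifs at h with h2
    · subst h1
      subst h2
      funext c i
      simp [d2a_w]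
    · exact absurd rfl h
  · rw [coeff_zero] at h
    exact absurd rfl h

theorem d2a_H_mul {D D' : Fin (n + 1) → Fin e → ℕ} {G G' : Tb p n e} (h : d2a_H D G)
    (h' : d2a_H D' G') : d2a_H (D + D') (G * G') := by
  classical
  intro γ ω hne
  rw [coeff_mul, coeff_sum] at hne
  obtain ⟨g, hg, hg2⟩ := Finset.exists_ne_zero_of_sum_ne_zero hne
  rw [coeff_mul] at hg2
  obtain ⟨o, ho, ho2⟩ := Finset.exists_ne_zero_of_sum_ne_zero hg2
  rw [Finset.HasAntidiagonal.mem_antidiagonal] at hg ho
  have h1 := h _ _ (left_ne_zero_of_mul ho2)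
  have h2 := h' _ _ (right_ne_zero_of_mul ho2)
  rw [← hg, ← ho, d2a_w_add, h1, h2]

theorem d2a_H_add {D : Fin (n + 1) → Fin e → ℕ} {G G' : Tb p n e} (h : d2a_H D G)
    (h' : d2a_H D G') : d2a_H D (G + G') := by
  intro γ ω hne
  rw [coeff_add, coeff_add] at hne
  by_cases h0 : coeff ω (coeff γ G) = 0
  · rw [h0, zero_add] at hne
    exact h' _ _ hne
  · exact h _ _ h0

theorem d2a_H_pow {D : Fin (n + 1) → Fin e → ℕ} {G : Tb p n e} (h : d2a_H D G) (k : ℕ) :
    d2a_H (k • D) (G ^ k) := by
  induction k with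
  | zero =>
    rw [pow_zero, zero_smul]
    have h1 := d2a_H_CC (p := p) (n := n) (e := e) 1
    rwa [C_1, C_1] at h1
  | succ k ih =>
    rw [pow_succ, succ_nsmul]
    exact d2a_H_mul ih h

theorem d2a_H_X (x : VV p n e) :
    d2a_H (fun c i => if c = x.1 ∧ i.succ = x.2.2 then 1 else 0) (X x : Tb p n e) := by
  classical
  intro γ ω h
  rw [coeff_X] at h
  split_ifs at h with h1
  · have h2 : (1 : MvPolynomial (YU n e) ℂ) = C 1 := C_1.symm
    rw [h2, coeff_C] at h
    split_ifs at h with h3
    · subst h1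
      subst h3
      funext c i
      obtain ⟨c', r', i'⟩ := x
      simp only [d2a_w, Finsupp.single_apply, Prod.mk.injEq, Finsupp.coe_zero, Pi.zero_apply,
        add_zero]
      by_cases hc : c = c' ∧ i.succ = i'
      · obtain ⟨rfl, rfl⟩ := hc
        simp
      · rw [if_neg hc]
        refine Finset.sum_eq_zero fun r _ => if_neg ?_
        rintro ⟨h4, -, h5⟩
        exact hc ⟨h4.symm, h5.symm⟩
    · exact absurd rfl h
  · rw [coeff_zero] at h
    exact absurd rfl h

theorem d2a_H_CX (b : Bool) (c' : Fin (n + 1)) (i' : Fin e) :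
    d2a_H (fun c i => if c = c' ∧ i = i' then 1 else 0) (C (X (c', b, i')) : Tb p n e) := by
  classical
  intro γ ω h
  rw [coeff_C] at h
  split_ifs at h with h1
  · rw [coeff_X] at h
    split_ifs at h with h3
    · subst h1
      subst h3
      funext c i
      simp only [d2a_w, Finsupp.single_apply, Prod.mk.injEq, Finsupp.coe_zero, Pi.zero_apply,
        Finset.sum_const_zero, zero_add]
      by_cases hc : c = c' ∧ i = i'
      · obtain ⟨rfl, rfl⟩ := hc
        cases b <;> simp
      · have h6 : ∀ b' : Bool, ¬ (c' = c ∧ b = b' ∧ i' = i) := by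
          rintro b' ⟨h4, -, h5⟩
          exact hc ⟨h4.symm, h5.symm⟩
        rw [if_neg hc, if_neg (h6 false), if_neg (h6 true), add_zero]
    · exact absurd rfl h
  · rw [coeff_zero] at h
    exact absurd rfl h

theorem d2a_H_congr {D D' : Fin (n + 1) → Fin e → ℕ} {G : Tb p n e} (h : d2a_H D G)
    (hD : D = D') : d2a_H D' G := hD ▸ h

theorem d2a_H_barv (x : Var p n (e + 1)) :
    d2a_H (fun c i => if c = x.1 ∧ i.succ = x.2.2 then 1 else 0) (barv x : Tb p n e) := by
  classical
  have hz : ∀ c' : Fin (n + 1), (fun (c : Fin (n + 1)) (i : Fin e) =>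
      if c = c' ∧ i.succ = 0 then 1 else 0) = (0 : Fin (n + 1) → Fin e → ℕ) := by
    intro c'
    funext c i
    rw [if_neg (fun h => Fin.succ_ne_zero i h.2)]
    rfl
  have hs : ∀ (c' : Fin (n + 1)) (i' : Fin e), (fun (c : Fin (n + 1)) (i : Fin e) =>
      if c = c' ∧ i = i' then 1 else 0) = (fun c i => if c = c' ∧ i.succ = i'.succ then 1 else 0) := by
    intro c' i'
    funext c i
    simp only [Fin.succ_inj]
  obtain ⟨c', r | b, i'⟩ := x
  · exact d2a_H_X (c', r, i')
  · cases b
    · refine Fin.cases ?_ ?_ i'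
      · refine d2a_H_congr (d2a_H_CC (p := p) (n := n) (e := e) 1) ?_
        exact (hz c').symm
      · intro i'
        exact d2a_H_congr (d2a_H_CX false c' i') (hs c' i')
    · refine Fin.cases ?_ ?_ i'
      · refine d2a_H_congr (D := 0) ?_ (hz c').symm
        change d2a_H 0 (C (C (sg c') * 1))
        rw [mul_one]
        exact d2a_H_CC _
      · intro i'
        change d2a_H _ (C (C (sg c') * (X (c', false, i') + X (c', true, i'))))
        rw [C_mul, C_add]
        refine d2a_H_congr (d2a_H_mul (d2a_H_CC (sg c'))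
          (d2a_H_add (d2a_H_CX false c' i') (d2a_H_CX true c' i'))) ?_
        rw [zero_add]
        exact hs c' i'

theorem d2a_H_bar (μ : Var p n (e + 1) →₀ ℕ) (a : ℂ) :
    d2a_H (fun c i => wt μ c i.succ) (bar (monomial μ a) : Tb p n e) := by
  classical
  induction μ using Finsupp.induction generalizing a with
  | zero =>
    have h1 : (bar (monomial 0 a) : Tb p n e) = C (C a) := by
      change bar (C a) = _
      rw [← algebraMap_eq, AlgHom.commutes]
      rfl
    rw [h1]
    refine d2a_H_congr (d2a_H_CC a) ?_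
    funext c i
    simp [wt]
  | single_add x k μ hx hk ih =>
    have h3 : (monomial (Finsupp.single x k + μ) a : T p n (e + 1)) = X x ^ k * monomial μ a := by
      rw [X_pow_eq_monomial, monomial_mul, one_mul]
    have h4 : (bar (X x) : Tb p n e) = barv x := by
      rw [bar, aeval_X]
    rw [h3, map_mul, map_pow, h4]
    refine d2a_H_congr (d2a_H_mul (d2a_H_pow (d2a_H_barv x) k) (ih a)) ?_
    funext c i
    rw [wt_add]
    simp only [Pi.add_apply, wt_single, Pi.smul_apply, smul_eq_mul]
    split_ifs <;> simp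

theorem d2a_w_vexp (x : Mon p n e) : d2a_w (vexp x.1) x.2 = wb x := by
  classical
  funext c i
  simp only [d2a_w, wb, vexp, Finsupp.equivFunOnFinite_symm_apply_apply]
  rw [Finset.card_filter]

theorem d2a_cb_monomial {μ : Var p n (e + 1) →₀ ℕ} {a : ℂ} {x : Mon p n e}
    (hx : cb (monomial μ a) x ≠ 0) : (fun c i => wt μ c i.succ) = wb x := by
  rw [← d2a_w_vexp]
  exact (d2a_H_bar μ a _ _ hx).symm

/-- Proof. `bar` preserves the number of letters `i + 1` in column `c`, where `X (c, r, i + 1)`,
`y = (c, false, i)` and `u = (c, true, i)` count as a letter `i + 1` of column `c`: for a monomial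
`monomial μ a` all the monomials `(α, ω)` of `bar (monomial μ a)` have
`∑ r, α (c, r, i.succ) + ω (c, false, i) + ω (c, true, i) = wt μ c i.succ`. For `α = vexp δ` the left hand side
is `wb (δ, ω) c i`. -/
theorem cb_wt {F : T p n (e + 1)} {x : Mon p n e} (hx : cb F x ≠ 0) :
    ∃ μ, coeff μ F ≠ 0 ∧ ∀ c i, wt μ c i.succ = wb x c i := by
  rw [as_sum F, map_sum, Finset.sum_apply] at hx
  obtain ⟨μ, h1, h2⟩ := Finset.exists_ne_zero_of_sum_ne_zero hx
  refine ⟨μ, mem_support_iff.mp h1, fun c i => ?_⟩
  exact congrFun (congrFun (d2a_cb_monomial h2) c) i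

open Classical in
theorem d2a_res_monomial {σ : Type} (P : (σ →₀ ℕ) → Prop) (μ : σ →₀ ℕ) (a : ℂ) :
    res P (monomial μ a) = if P μ then monomial μ a else 0 := by
  ext ν
  rw [coeff_res]
  by_cases h : μ = ν
  · subst h
    split_ifs <;> simp
  · split_ifs <;> simp [coeff_monomial, h]

open Classical in
/-- Proof. As for `cb_wt` (linearity in `F`: it is enough to treat monomials). -/
theorem cb_res (P : (Fin (n + 1) → Fin e → ℕ) → Prop) (F : T p n (e + 1)) (x : Mon p n e) :
    cb (res (fun μ => P (fun c i => wt μ c i.succ)) F) x = if P (wb x) then cb F x else 0 := by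
  induction F using MvPolynomial.induction_on' with
  | monomial μ a =>
    rw [d2a_res_monomial]
    by_cases h : cb (monomial μ a) x = 0
    · split_ifs <;> simp [h]
    · have h1 := d2a_cb_monomial h
      simp only [h1]
      split_ifs
      · rfl
      · rw [map_zero]; rfl
  | add F G hF hG =>
    rw [map_add, map_add, map_add, Pi.add_apply, Pi.add_apply, hF, hG]
    split_ifs
    · rfl
    · rw [add_zero]

/-- Proof. Clear (the components of the key determine `x`). -/
theorem key_injective : Function.Injective (key (p := p) (n := n) (e := e)) := by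
  intro x y h
  have h1 := Prod.ext_iff.mp (toLex.injective h)
  have h2 : (fun c => toLex (x.1 c)) = fun c => toLex (y.1 c) := toLex.injective h1.1
  have h3 := Prod.ext_iff.mp (toLex.injective h1.2)
  have h4 : (fun c => toLex fun i => toLex (x.2 (c, false, i), x.2 (c, true, i))) =
      fun c => toLex fun i => toLex (y.2 (c, false, i), y.2 (c, true, i)) :=
    toLex.injective h3.2
  refine Prod.ext ?_ ?_
  · funext c
    exact toLex.injective (congrFun h2 c)
  · ext ⟨c, b, i⟩
    have h5 : (fun i => toLex (x.2 (c, false, i), x.2 (c, true, i))) =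
        fun i => toLex (y.2 (c, false, i), y.2 (c, true, i)) :=
      toLex.injective (congrFun h4 c)
    have h6 := Prod.ext_iff.mp (toLex.injective (congrFun h5 i))
    cases b
    · exact h6.1
    · exact h6.2

/-- Proof. By `cb_wt` and `sum_wt_of_ty` the entries of `x.2` are at most `p + k`. -/
theorem cb_finite (p n e k : ℕ) :
    {x : Mon p n e | ∃ F ∈ Mk p n (e + 1) k, cb F x ≠ 0}.Finite := by
  classical
  refine Set.Finite.subset ((Set.finite_univ
    (α := Fin (n + 1) → Fin p → Fin (e + 1))).prod (Set.finite_Iic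
    (Finsupp.equivFunOnFinite.symm (fun _ => p + k) : YU n e →₀ ℕ))) ?_
  rintro x ⟨F, hF, hx⟩
  obtain ⟨μ, h1, h2⟩ := cb_wt hx
  obtain ⟨k1, k2, h3, h4⟩ := mem_Mk.mp hF μ h1
  refine ⟨Set.mem_univ _, ?_⟩
  rw [Set.mem_Iic]
  rintro ⟨c, b, i⟩
  have h5 := sum_wt_of_ty h4 c
  have h6 : wt μ c i.succ ≤ ∑ j, wt μ c j :=
    Finset.single_le_sum (f := fun j => wt μ c j) (fun _ _ => Nat.zero_le _)
      (Finset.mem_univ _)
  rw [h2 c i, h5, h3] at h6
  change x.2 (c, b, i) ≤ p + k
  unfold wb at h6
  cases b <;> omega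

end Pool.Agent.Helper65.MT
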