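import Pool.Agent.Helper65.MT.Defs2

/-!
Project MT, piece H1: submodules closed under linear maps contain the components of their elements.
-/

namespace Pool.Agent.Helper65.MT

open MvPolynomial

variable {p n m : ℕ}

/-- Coefficients of polynomial functions with values in a submodule. Proof. Take `D + 1` different
values of `τ` and invert the Vandermonde matrix, or use Lagrange interpolation, or induction on `D` with the
differences `f (2 τ) - 2 ^ D • f τ`. -/
theorem coeff_mem {E : Type} [AddCommGroup E] [Module ℂ E] (Q : Submodule ℂ E) (D : ℕ)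
    (G : ℕ → E) (h : ∀ τ : ℂ, ∑ t ∈ Finset.range (D + 1), τ ^ t • G t ∈ Q) :
    ∀ t ≤ D, G t ∈ Q := by
  intro t ht
  set v : Fin (D + 1) → ℂ := fun i => ((i : ℕ) : ℂ) with hv
  have hinj : Function.Injective v := by
    intro a b hab
    exact Fin.ext (Nat.cast_injective hab)
  have hdet : IsUnit (Matrix.vandermonde v).det :=
    isUnit_iff_ne_zero.2 (Matrix.det_vandermonde_ne_zero_iff.2 hinj)
  have hinv : (Matrix.vandermonde v)⁻¹ * Matrix.vandermonde v = 1 :=
    Matrix.nonsing_inv_mul _ hdet
  have htlt : t < D + 1 := by omega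
  have key : ∑ i : Fin (D + 1), (Matrix.vandermonde v)⁻¹ ⟨t, htlt⟩ i •
      ∑ s ∈ Finset.range (D + 1), v i ^ s • G s = G t := by
    calc ∑ i : Fin (D + 1), (Matrix.vandermonde v)⁻¹ ⟨t, htlt⟩ i •
          ∑ s ∈ Finset.range (D + 1), v i ^ s • G s
        = ∑ i : Fin (D + 1), ∑ s : Fin (D + 1),
            ((Matrix.vandermonde v)⁻¹ ⟨t, htlt⟩ i * Matrix.vandermonde v i s) • G s := by
          refine Finset.sum_congr rfl fun i _ => ?_
          rw [Finset.sum_range fun s => v i ^ s • G s, Finset.smul_sum]
          refine Finset.sum_congr rfl fun s _ => ?_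
          rw [smul_smul, Matrix.vandermonde_apply]
      _ = ∑ s : Fin (D + 1), ((Matrix.vandermonde v)⁻¹ * Matrix.vandermonde v) ⟨t, htlt⟩ s •
            G s := by
          rw [Finset.sum_comm]
          refine Finset.sum_congr rfl fun s _ => ?_
          rw [Matrix.mul_apply, Finset.sum_smul]
      _ = G t := by
          rw [hinv, Finset.sum_eq_single ⟨t, htlt⟩]
          · rw [Matrix.one_apply_eq, one_smul]
          · intro b _ hb
            rw [Matrix.one_apply_ne hb.symm, zero_smul]
          · intro hb
            exact absurd (Finset.mem_univ _) hb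
  rw [← key]
  exact Submodule.sum_mem _ fun i _ => Submodule.smul_mem _ _ (h (v i))

/-- the diagonal matrices with one free entry -/
noncomputable def h1_d (c : Fin (n + 1)) (i : Fin m) (τ : ℂ) : Fin (n + 1) → Fin m → Fin m → ℂ :=
  fun c' a b => if a = b then (if c' = c ∧ a = i then τ else 1) else 0

theorem h1_wt (μ : Var p n m →₀ ℕ) (c : Fin (n + 1)) (i : Fin m) (τ : ℂ) :
    (μ.prod fun x k => (if x.1 = c ∧ x.2.2 = i then τ else (1 : ℂ)) ^ k) = τ ^ wt μ c i := by
  rw [Finsupp.prod_fintype _ _ fun x => pow_zero _]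
  have h1 : ∀ x : Var p n m, (if x.1 = c ∧ x.2.2 = i then τ else (1 : ℂ)) ^ μ x =
      τ ^ (if x.1 = c ∧ x.2.2 = i then μ x else 0) := by
    intro x
    split_ifs
    · rfl
    · rw [one_pow, pow_zero]
  rw [Finset.prod_congr rfl fun x _ => h1 x, Finset.prod_pow_eq_pow_sum]
  congr 1
  rw [Fintype.sum_prod_type, Finset.sum_eq_single c]
  · rw [Fintype.sum_prod_type]
    unfold wt
    refine Finset.sum_congr rfl fun r _ => ?_
    rw [Finset.sum_eq_single i]
    · rw [if_pos ⟨rfl, rfl⟩]
    · intro b _ hb
      rw [if_neg fun h => hb h.2]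
    · intro h
      exact absurd (Finset.mem_univ _) h
  · intro b _ hb
    refine Finset.sum_eq_zero fun x _ => ?_
    rw [if_neg fun h => hb h.1]
  · intro h
    exact absurd (Finset.mem_univ _) h

theorem h1_monomial (μ : Var p n m →₀ ℕ) (a : ℂ) (c : Fin (n + 1)) (i : Fin m) (τ : ℂ) :
    lin (h1_d c i τ) (monomial μ a) = τ ^ wt μ c i • monomial μ a := by
  unfold lin
  rw [aeval_monomial]
  have hx : ∀ x : Var p n m, (∑ j, C (h1_d c i τ x.1 j x.2.2) * X (x.1, x.2.1, j) :
      T p n m) = C (if x.1 = c ∧ x.2.2 = i then τ else (1 : ℂ)) * X x := by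
    intro x
    rw [Finset.sum_eq_single x.2.2]
    · unfold h1_d
      rw [if_pos rfl]
    · intro b _ hb
      unfold h1_d
      rw [if_neg hb, C_0, zero_mul]
    · intro h
      exact absurd (Finset.mem_univ _) h
  simp only [hx, mul_pow]
  rw [Finsupp.prod_mul]
  have h2 : (μ.prod fun x k => (C (if x.1 = c ∧ x.2.2 = i then τ else (1 : ℂ)) : T p n m) ^ k) =
      C (τ ^ wt μ c i) := by
    rw [← h1_wt μ c i τ]
    unfold Finsupp.prod
    rw [map_prod]
    refine Finset.prod_congr rfl fun x _ => ?_
    rw [C_pow]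
  rw [h2, monomial_eq (s := μ) (a := a), algebraMap_eq, smul_eq_C_mul]
  ring

theorem h1_coeff (F : T p n m) (μ : Var p n m →₀ ℕ) (c : Fin (n + 1)) (i : Fin m) (τ : ℂ) :
    coeff μ (lin (h1_d c i τ) F) = τ ^ wt μ c i * coeff μ F := by
  induction F using MvPolynomial.induction_on' with
  | monomial u a =>
    rw [h1_monomial, coeff_smul, smul_eq_mul]
    classical
    rw [coeff_monomial]
    split_ifs with h
    · rw [h]
    · rw [mul_zero, mul_zero]
  | add q r hq hr =>
    rw [map_add, coeff_add, coeff_add, hq, hr, mul_add]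

/-- the components for one column and one letter -/
theorem h1_step (N : Submodule ℂ (T p n m)) (hN : ∀ A : Fin (n + 1) → Fin m → Fin m → ℂ,
    ∀ F ∈ N, lin A F ∈ N) (c : Fin (n + 1)) (i : Fin m) (t : ℕ) {F : T p n m} (hF : F ∈ N) :
    res (fun μ => wt μ c i = t) F ∈ N := by
  classical
  set D := F.support.sup fun μ => wt μ c i with hD
  have hle : ∀ μ, coeff μ F ≠ 0 → wt μ c i ≤ D := fun μ hμ =>
    Finset.le_sup (f := fun μ => wt μ c i) (mem_support_iff.2 hμ)
  have hmem := coeff_mem N (max D t) (fun t => res (fun μ => wt μ c i = t) F) (fun τ => by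
    have h1 : ∑ t ∈ Finset.range (max D t + 1), τ ^ t • res (fun μ => wt μ c i = t) F =
        lin (h1_d c i τ) F := by
      ext μ
      rw [h1_coeff, coeff_sum]
      simp only [coeff_smul, coeff_res, smul_eq_mul]
      by_cases hμ : coeff μ F = 0
      · rw [hμ, mul_zero]
        refine Finset.sum_eq_zero fun s _ => ?_
        split_ifs <;> rw [mul_zero]
      · rw [Finset.sum_eq_single (wt μ c i)]
        · rw [if_pos rfl]
        · intro b _ hb
          rw [if_neg (Ne.symm hb), mul_zero]
        · intro h
          have := hle μ hμ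
          exact absurd (Finset.mem_range.2 (by omega)) h
    rw [h1]
    exact hN _ F hF)
  exact hmem t (le_max_right _ _)

theorem h1_set (N : Submodule ℂ (T p n m)) (hN : ∀ A : Fin (n + 1) → Fin m → Fin m → ℂ,
    ∀ F ∈ N, lin A F ∈ N) (w : Fin (n + 1) → Fin m → ℕ) (S : Finset (Fin (n + 1) × Fin m))
    {F : T p n m} (hF : F ∈ N) :
    res (fun μ => ∀ x ∈ S, wt μ x.1 x.2 = w x.1 x.2) F ∈ N := by
  classical
  induction S using Finset.induction_on with
  | empty =>
    have : res (fun μ : Var p n m →₀ ℕ => ∀ x ∈ (∅ : Finset (Fin (n + 1) × Fin m)),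
        wt μ x.1 x.2 = w x.1 x.2) F = F := by
      ext μ
      rw [coeff_res, if_pos]
      intro x hx
      exact absurd hx (Finset.notMem_empty x)
    rw [this]
    exact hF
  | insert y S hy ih =>
    have h1 := h1_step N hN y.1 y.2 (w y.1 y.2) ih
    have : res (fun μ : Var p n m →₀ ℕ => ∀ x ∈ insert y S, wt μ x.1 x.2 = w x.1 x.2) F =
        res (fun μ => wt μ y.1 y.2 = w y.1 y.2)
          (res (fun μ => ∀ x ∈ S, wt μ x.1 x.2 = w x.1 x.2) F) := by
      ext μ
      rw [coeff_res, coeff_res, coeff_res]
      by_cases h2 : wt μ y.1 y.2 = w y.1 y.2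
      · rw [if_pos h2]
        by_cases h3 : ∀ x ∈ S, wt μ x.1 x.2 = w x.1 x.2
        · rw [if_pos h3, if_pos]
          intro x hx
          rcases Finset.mem_insert.1 hx with h | h
          · rw [h]; exact h2
          · exact h3 x h
        · rw [if_neg h3, if_neg]
          intro h
          exact h3 fun x hx => h x (Finset.mem_insert_of_mem hx)
      · rw [if_neg h2, if_neg]
        intro h
        exact h2 (h y (Finset.mem_insert_self y S))
    rw [this]
    exact h1

/-- Proof. For one column `c` and one letter `i` consider the diagonal matrices `A` with entry `τ` at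
the letter `i` in column `c` and `1` elsewhere: `lin A (monomial μ a) = τ ^ (wt μ c i) • monomial μ a`, so by
`coeff_mem` the component of `F` of the exponents with `wt μ c i = t` lies in `N`. Apply this
to all pairs `(c, i)`, one after the other: the components of `F` of a given weight lie in `N`;
`res (fun μ => P (wt μ)) F` is a sum of such components. -/
theorem res_mem (N : Submodule ℂ (T p n m)) (hN : ∀ A : Fin (n + 1) → Fin m → Fin m → ℂ,
    ∀ F ∈ N, lin A F ∈ N) (P : (Fin (n + 1) → Fin m → ℕ) → Prop) {F : T p n m} (hF : F ∈ N) :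
    res (fun μ => P (wt μ)) F ∈ N := by
  classical
  have hw : ∀ w : Fin (n + 1) → Fin m → ℕ, res (fun μ => wt μ = w) F ∈ N := by
    intro w
    have h1 := h1_set N hN w Finset.univ hF
    have h2 : res (fun μ : Var p n m →₀ ℕ => wt μ = w) F =
        res (fun μ => ∀ x ∈ (Finset.univ : Finset (Fin (n + 1) × Fin m)),
          wt μ x.1 x.2 = w x.1 x.2) F := by
      ext μ
      rw [coeff_res, coeff_res]
      by_cases h : wt μ = w
      · rw [if_pos h, if_pos]
        intro x _
        rw [h]
      · rw [if_neg h, if_neg]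
        intro h'
        apply h
        funext c i
        exact h' (c, i) (Finset.mem_univ _)
    rw [h2]
    exact h1
  have hsum : res (fun μ : Var p n m →₀ ℕ => P (wt μ)) F =
      ∑ w ∈ (F.support.image wt).filter P, res (fun μ => wt μ = w) F := by
    ext μ
    rw [coeff_res, coeff_sum]
    simp only [coeff_res]
    by_cases hμ : coeff μ F = 0
    · rw [hμ]
      rw [Finset.sum_eq_zero fun w _ => by split_ifs <;> rfl]
      split_ifs <;> rfl
    · by_cases hP : P (wt μ)
      · rw [if_pos hP, Finset.sum_eq_single (wt μ)]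
        · rw [if_pos rfl]
        · intro b _ hb
          rw [if_neg (Ne.symm hb)]
        · intro h
          exact absurd (Finset.mem_filter.2 ⟨Finset.mem_image_of_mem _ (mem_support_iff.2 hμ), hP⟩) h
      · rw [if_neg hP]
        symm
        refine Finset.sum_eq_zero fun w hw' => ?_
        rw [if_neg]
        rintro rfl
        exact hP (Finset.mem_filter.1 hw').2
  rw [hsum]
  exact Submodule.sum_mem _ fun w _ => hw w

end Pool.Agent.Helper65.MT
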