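import Pool.Agent.Helper65.MT.Defs2

/-!
Project MT, piece L0: leading monomials.
-/

namespace Pool.Agent.Helper65.MT

open MvPolynomial

/-- Existence of leading monomials. Proof: maximum of `K` on the finite set of the `y ∈ B` with
`c F y ≠ 0`. -/
theorem exists_lead {E Ξ Γ : Type} [LinearOrder Γ] (c : E → Ξ → ℂ) (K : Ξ → Γ) (B : Set Ξ)
    (hB : B.Finite) (hK : Set.InjOn K B) (F : E) (hF : ∀ x, c F x ≠ 0 → x ∈ B)
    (h0 : ∃ x, c F x ≠ 0) : ∃ x, IsLead c K F x := by
  have hfin : {y | c F y ≠ 0}.Finite := hB.subset fun y hy => hF y hy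
  obtain ⟨x, hx, hmax⟩ := Set.exists_max_image {y | c F y ≠ 0} K hfin h0
  refine ⟨x, hx, fun y hy hyx => lt_of_le_of_ne (hmax y hy) fun he => hyx ?_⟩
  exact hK (hF y hy) (hF x hx) he

/-- Proof. Induction on the number of `y ∈ B` with `K y ≤ K x`, `x` the leading monomial of `f`
(if `c f = 0` take `g = 0`): choose `g ∈ V` with the same leading monomial `x`; a suitable linear combination
`f' = f - a • g ∈ V'` has `c f' x = 0`, and its leading monomial (if there is one) is smaller. By
induction `c f' = c g'` with `g' ∈ V`, and `c f = c (g' + a • g)`. -/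
theorem lead_eq {E Ξ Γ : Type} [AddCommGroup E] [Module ℂ E] [LinearOrder Γ]
    (c : E →ₗ[ℂ] Ξ → ℂ) (K : Ξ → Γ) (B : Set Ξ) (hB : B.Finite) (hK : Set.InjOn K B)
    (V V' : Submodule ℂ E) (hV : V ≤ V') (hF : ∀ f ∈ V', ∀ x, c f x ≠ 0 → x ∈ B)
    (h : ∀ f ∈ V', ∀ x, IsLead (fun f => c f) K f x → ∃ g ∈ V, IsLead (fun f => c f) K g x) :
    ∀ f ∈ V', ∃ g ∈ V, c f = c g := by
  classical
  have key : ∀ n : ℕ, ∀ f ∈ V', (∀ x, IsLead (fun f => c f) K f x →
      (hB.toFinset.filter fun y => K y ≤ K x).card ≤ n) → ∃ g ∈ V, c f = c g := by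
    intro n
    induction n with
    | zero =>
      intro f hf hn
      by_cases h0 : ∃ x, c f x ≠ 0
      · obtain ⟨x, hx⟩ := exists_lead (fun f => c f) K B hB hK f (hF f hf) h0
        have h1 := hn x hx
        have h2 : x ∈ hB.toFinset.filter fun y => K y ≤ K x :=
          Finset.mem_filter.2 ⟨hB.mem_toFinset.2 (hF f hf x hx.1), le_refl _⟩
        have h3 := Finset.card_pos.2 ⟨x, h2⟩
        omega
      · refine ⟨0, V.zero_mem, ?_⟩
        rw [map_zero]
        funext x
        by_contra hx
        exact h0 ⟨x, hx⟩
    | succ n ih =>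
      intro f hf hn
      by_cases h0 : ∃ x, c f x ≠ 0
      · obtain ⟨x, hx⟩ := exists_lead (fun f => c f) K B hB hK f (hF f hf) h0
        obtain ⟨g, hg, hgx⟩ := h f hf x hx
        have hgx1 : c g x ≠ 0 := hgx.1
        set a : ℂ := c f x / c g x with ha
        have hf' : f - a • g ∈ V' := V'.sub_mem hf (V'.smul_mem a (hV hg))
        have hc : ∀ y, c (f - a • g) y = c f y - a * c g y := by
          intro y
          rw [map_sub, map_smul]
          rfl
        obtain ⟨g', hg', he⟩ := ih (f - a • g) hf' (by
          intro x' hx'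
          have h1 : c (f - a • g) x' ≠ 0 := hx'.1
          have hne : x' ≠ x := by
            rintro rfl
            apply h1
            rw [hc, ha, div_mul_cancel₀ _ hgx1, sub_self]
          have hlt : K x' < K x := by
            by_cases h2 : c f x' ≠ 0
            · exact hx.2 x' h2 hne
            · push Not at h2
              refine hgx.2 x' ?_ hne
              intro h3
              have h3' : c g x' = 0 := h3
              apply h1
              rw [hc, h2, h3', mul_zero, sub_zero]
          have hsub : (hB.toFinset.filter fun y => K y ≤ K x') ⊂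
              hB.toFinset.filter fun y => K y ≤ K x := by
            rw [Finset.ssubset_iff_of_subset]
            · refine ⟨x, Finset.mem_filter.2 ⟨hB.mem_toFinset.2 (hF f hf x hx.1), le_refl _⟩, ?_⟩
              intro h2
              exact absurd (Finset.mem_filter.1 h2).2 (not_le.2 hlt)
            · intro y hy
              rw [Finset.mem_filter] at hy ⊢
              exact ⟨hy.1, hy.2.trans hlt.le⟩
          have h2 := Finset.card_lt_card hsub
          have h3 := hn x hx
          omega)
        refine ⟨g' + a • g, V.add_mem hg' (V.smul_mem a hg), ?_⟩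
        rw [map_add, map_smul, ← he, map_sub, map_smul, sub_add_cancel]
      · refine ⟨0, V.zero_mem, ?_⟩
        rw [map_zero]
        funext x
        by_contra hx
        exact h0 ⟨x, hx⟩
  intro f hf
  refine key hB.toFinset.card f hf fun x _ => ?_
  exact Finset.card_le_card (Finset.filter_subset _ _)

end Pool.Agent.Helper65.MT
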