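import Pool.Agent.Helper65.MT.D1
import Pool.Agent.Helper65.MT.D2a
import Pool.Agent.Helper65.MT.H1
import Pool.Agent.Helper65.MT.L0

/-!
Project MT, piece A1a: new leading monomials.
-/

namespace Pool.Agent.Helper65.MT

open MvPolynomial

variable {p e : ℕ}

/-- New leading monomials. Proof. Take `F, lam` from the hypotheses. Let `V'` be the submodule of all
`f ∈ N.N n (k + 1)` with `wt μ c i.succ = lam c i` for all exponents `μ` of `f`, and
`V = V' ⊓ (Wn p n (e + 1) * N.N n k)`. If every leading monomial of an element of `V'` were one of an element of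
`V`, then by `lead_eq` (`c = cb`, `K = key`, `cb_finite`, `key_injective`) there would be `g ∈ V` with
`cb F = cb g`, so `bar (F - g) = 0` (`bar_eq_zero`), `F - g = xx 0 * F'` with `F' ∈ Mk p n (e + 1) k`
(`dvd_of_bar`), `F' ∈ N.N n k` (`N.sat`), so `F - g` and `F` lie in `Wn p n (e + 1) * N.N n k`, contradiction. So there is `f ∈ V'` with a
leading monomial `x` which is not the leading monomial of an element of `V`. By `cb_wt` `wb x = lam`. If
`H ∈ Wn p n (e + 1) * N.N n k` had the leading monomial `x`, then the restriction of `H` to the exponents with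
`wt μ c i.succ = lam c i` (in `V` by `res_mem` and `lin_mem_Wn_mul`) would also have it by `cb_res`,
contradiction. -/
theorem new_lead (N : SFam p e) {n k : ℕ} {F : T p n (e + 1)} (hF : F ∈ N.N n (k + 1))
    (hF' : F ∉ Wn p n (e + 1) * N.N n k) (lam : Fin (n + 1) → Fin e → ℕ)
    (hlam : ∀ μ, coeff μ F ≠ 0 → ∀ c i, wt μ c i.succ = lam c i) :
    ∃ f ∈ N.N n (k + 1), ∃ x, IsLead (fun F => cb F) key f x ∧ wb x = lam ∧
      ∀ H ∈ Wn p n (e + 1) * N.N n k, ¬ IsLead (fun F => cb F) key H x := by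
  classical
  let R : Submodule ℂ (T p n (e + 1)) :=
    restrictSupport ℂ {μ | ∀ (c : Fin (n + 1)) (i : Fin e), wt μ c i.succ = lam c i}
  have hmemR : ∀ G : T p n (e + 1), G ∈ R ↔
      ∀ μ, coeff μ G ≠ 0 → ∀ (c : Fin (n + 1)) (i : Fin e), wt μ c i.succ = lam c i :=
    fun G => mem_rs
  let V' : Submodule ℂ (T p n (e + 1)) := N.N n (k + 1) ⊓ R
  let V : Submodule ℂ (T p n (e + 1)) := V' ⊓ (Wn p n (e + 1) * N.N n k)
  have hFV : F ∈ V' := ⟨hF, (hmemR F).mpr hlam⟩
  have hex : ∃ f ∈ V', ∃ x, IsLead (fun F => cb F) key f x ∧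
      ∀ g ∈ V, ¬ IsLead (fun F => cb F) key g x := by
    by_contra hcon
    push Not at hcon
    obtain ⟨g, hg, hFg⟩ := lead_eq (cb (p := p) (n := n) (e := e)) key
      {x : Mon p n e | ∃ F ∈ Mk p n (e + 1) (k + 1), cb F x ≠ 0} (cb_finite p n e (k + 1))
      (key_injective.injOn) V V' inf_le_left
      (fun f hf x hx => ⟨f, N.le n (k + 1) hf.1, hx⟩) hcon F hFV
    have h1 : F - g ∈ N.N n (k + 1) := Submodule.sub_mem _ hF hg.1.1
    have h2 : cb (F - g) = 0 := by rw [map_sub, hFg, sub_self]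
    have h3 : bar (F - g) = 0 := bar_eq_zero (N.le n (k + 1) h1) h2
    obtain ⟨F', hF'1, hF'2⟩ := dvd_of_bar (N.le n (k + 1) h1) h3
    have h4 : F' ∈ N.N n k := N.sat n k F' hF'1 (by rw [← hF'2]; exact h1)
    have h5 : F - g ∈ Wn p n (e + 1) * N.N n k := by
      rw [hF'2]
      exact Submodule.mul_mem_mul (xx_mem_Wn _) h4
    have h6 : F ∈ Wn p n (e + 1) * N.N n k := by
      have h7 := Submodule.add_mem _ h5 hg.2
      rwa [sub_add_cancel] at h7
    exact hF' h6
  obtain ⟨f, hf, x, hx, hno⟩ := hex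
  have hwb : wb x = lam := by
    obtain ⟨μ, hμ, hμ2⟩ := cb_wt hx.1
    funext c i
    rw [← hμ2 c i]
    exact (hmemR f).mp hf.2 μ hμ c i
  refine ⟨f, hf.1, x, hx, hwb, ?_⟩
  intro H hH hHx
  have hG1 : res (fun μ => (fun w : Fin (n + 1) → Fin (e + 1) → ℕ =>
      (fun (c : Fin (n + 1)) (i : Fin e) => w c i.succ) = lam) (wt μ)) H ∈
      Wn p n (e + 1) * N.N n k :=
    res_mem (Wn p n (e + 1) * N.N n k)
      (fun A G hG => lin_mem_Wn_mul (N.N n k) (N.N n k) A (N.lin n k A) hG)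
      (fun w => (fun (c : Fin (n + 1)) (i : Fin e) => w c i.succ) = lam) hH
  have hcb : ∀ y : Mon p n e, cb (res (fun μ => (fun w : Fin (n + 1) → Fin (e + 1) → ℕ =>
      (fun (c : Fin (n + 1)) (i : Fin e) => w c i.succ) = lam) (wt μ)) H) y =
      if wb y = lam then cb H y else 0 := by
    intro y
    have h := cb_res (fun w => w = lam) H y
    by_cases hy : wb y = lam
    · rw [if_pos hy] at h ⊢
      exact h
    · rw [if_neg hy] at h ⊢
      exact h
  have hG2 : res (fun μ => (fun w : Fin (n + 1) → Fin (e + 1) → ℕ =>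
      (fun (c : Fin (n + 1)) (i : Fin e) => w c i.succ) = lam) (wt μ)) H ∈ R := by
    rw [hmemR]
    intro μ hμ c i
    rw [coeff_res] at hμ
    by_cases h : (fun (c : Fin (n + 1)) (i : Fin e) => wt μ c i.succ) = lam
    · exact congrFun (congrFun h c) i
    · exact absurd (if_neg h) hμ
  refine hno _ ⟨⟨Wn_mul_le N.toFam n k hG1, hG2⟩, hG1⟩ ⟨?_, ?_⟩
  · change cb _ x ≠ 0
    rw [hcb, if_pos hwb]
    exact hHx.1
  · intro y hy hyx
    change cb _ y ≠ 0 at hy
    rw [hcb] at hy
    refine hHx.2 y ?_ hyx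
    change cb H y ≠ 0
    intro h0
    rw [h0] at hy
    simp at hy

end Pool.Agent.Helper65.MT
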