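import Pool.Agent.Helper65.MT.Basic
import Pool.Agent.Helper77.DS.Defs

/-!
Project MT: more definitions.
-/

namespace Pool.Agent.Helper65.MT

open MvPolynomial

noncomputable section

open Classical in
/-- The restriction to the exponents that satisfy `P`, as a linear map. -/
def res {σ : Type} (P : (σ →₀ ℕ) → Prop) : MvPolynomial σ ℂ →ₗ[ℂ] MvPolynomial σ ℂ where
  toFun F := ∑ μ ∈ F.support, if P μ then monomial μ (coeff μ F) else 0
  map_add' F G := by
    have h : ∀ H : MvPolynomial σ ℂ, ∀ S : Finset (σ →₀ ℕ), H.support ⊆ S →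
        (∑ μ ∈ H.support, if P μ then monomial μ (coeff μ H) else 0) =
          ∑ μ ∈ S, if P μ then monomial μ (coeff μ H) else 0 := by
      intro H S hS
      refine Finset.sum_subset hS fun μ _ hμ => ?_
      rw [notMem_support_iff.mp hμ]
      simp
    rw [h F (F.support ∪ G.support) Finset.subset_union_left,
      h G (F.support ∪ G.support) Finset.subset_union_right,
      h (F + G) (F.support ∪ G.support) support_add, ← Finset.sum_add_distrib]
    refine Finset.sum_congr rfl fun μ _ => ?_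
    split_ifs
    · rw [coeff_add, map_add]
    · rw [add_zero]
  map_smul' a F := by
    have hS : (a • F).support ⊆ F.support := support_smul
    rw [Finset.sum_subset hS]
    · rw [RingHom.id_apply, Finset.smul_sum]
      refine Finset.sum_congr rfl fun μ _ => ?_
      split_ifs
      · rw [coeff_smul, smul_monomial]
      · rw [smul_zero]
    · intro μ _ hμ
      rw [notMem_support_iff.mp hμ]
      simp

open Classical in
theorem coeff_res {σ : Type} (P : (σ →₀ ℕ) → Prop) (F : MvPolynomial σ ℂ) (μ : σ →₀ ℕ) :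
    coeff μ (res P F) = if P μ then coeff μ F else 0 := by
  change coeff μ (∑ ν ∈ F.support, if P ν then monomial ν (coeff ν F) else 0) = _
  rw [coeff_sum, Finset.sum_eq_single μ]
  · split_ifs
    · rw [coeff_monomial, if_pos rfl]
    · rw [coeff_zero]
  · intro ν _ hν
    split_ifs
    · rw [coeff_monomial, if_neg hν]
    · rw [coeff_zero]
  · intro hμ
    rw [notMem_support_iff.mp hμ]
    simp

/-- Elementary matrices: in column `c` the letter `j` is replaced by `j + τ • i`. -/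
def tv {n m : ℕ} (c : Fin (n + 1)) (i j : Fin m) (τ : ℂ) : Fin (n + 1) → Fin m → Fin m → ℂ :=
  fun c' a b => (if a = b then 1 else 0) + if c' = c ∧ a = i ∧ b = j then τ else 0

/-- The minors `a_i b_j - a_j b_i` in column `c`. -/
def br {p n m : ℕ} (c : Fin (n + 1)) (i j : Fin m) : T p n m :=
  X (c, Sum.inr false, i) * X (c, Sum.inr true, j) - X (c, Sum.inr false, j) * X (c, Sum.inr true, i)

/-- The minors `a_0 b_(i+1) - a_(i+1) b_0` in column `c`. -/
def uu {p n e : ℕ} (c : Fin (n + 1)) (i : Fin e) : T p n (e + 1) := br c 0 i.succ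

/-- The elements of `S_{j1} ⊗ S_{j2}` invariant under the raising operators `i + 1 ↦ 0`. -/
def Gb {p n e : ℕ} (j1 j2 : ℕ) (β : Fin (n + 1) → Fin e → ℕ) : T p n (e + 1) :=
  ∏ c, (X (c, Sum.inr false, 0) ^ (j1 - ∑ i, β c i) * X (c, Sum.inr true, 0) ^ (j2 - ∑ i, β c i) *
    ∏ i, uu c i ^ β c i)

/-- `κ` is the only exponent of `g` of minimal degree in the variables `u`. -/
def Low {n e : ℕ} (g : MvPolynomial (YU n e) ℂ) (κ : YU n e →₀ ℕ) : Prop :=
  coeff κ g ≠ 0 ∧ ∀ ω, coeff ω g ≠ 0 → ω ≠ κ → udeg κ < udeg ω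

/-- The span of the monomials in the slots `inl r`. -/
def Vn (p n m : ℕ) : Submodule ℂ (T p n m) :=
  Submodule.span ℂ (Set.range fun δ : Fin (n + 1) → Fin p → Fin m =>
    ∏ c, ∏ r, X (c, Sum.inl r, δ c r))

/-- `W^{⊗ p} ⊗ R_k`, `R` the coordinate ring of the first secant variety. -/
def Rk (p n m k : ℕ) : Submodule ℂ (T p n m) := Vn p n m * Wn p n m ^ k

/-- Families of submodules of `W^{⊗ p} ⊗ R`, closed under multiplication, linear maps and copies of
columns. -/
structure ZFam (p : ℕ) where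
  /-- the submodules -/
  Z : ∀ n m k : ℕ, Submodule ℂ (T p n m)
  le : ∀ n m k : ℕ, Z n m k ≤ Rk p n m k
  mul : ∀ (n m k : ℕ) (α : Fin (n + 1) → Fin m), ∀ F ∈ Z n m k, xx α * F ∈ Z n m (k + 1)
  lin : ∀ (n m m' k : ℕ) (A : Fin (n + 1) → Fin m' → Fin m → ℂ), ∀ F ∈ Z n m k,
    lin A F ∈ Z n m' k
  col : ∀ (n n' m k : ℕ) (s : Fin (n' + 1) → Fin (n + 1)), Function.Surjective s →
    ∀ F ∈ Z n m k, col s F ∈ Z n' m k

/-- Families of submodules of `W^{⊗ p} ⊗ Sym(W)` that contain `W^{⊗ p} ⊗ I`, `I` the ideal of the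
first secant variety. -/
structure SMod (p : ℕ) where
  /-- the submodules -/
  S : ∀ n m : ℕ, Submodule ℂ ((Fin p → Fin (n + 1) → Fin m) →
    MvPolynomial (Fin (n + 1) → Fin m) ℂ)
  mul : ∀ (n m : ℕ) (c : (Fin p → Fin (n + 1) → Fin m) → MvPolynomial (Fin (n + 1) → Fin m) ℂ),
    c ∈ S n m → ∀ α, (fun s => X α * c s) ∈ S n m
  lin : ∀ (n m m' : ℕ) (A : Fin (n + 1) → Fin m' → Fin m → ℂ)
    (c : (Fin p → Fin (n + 1) → Fin m) → MvPolynomial (Fin (n + 1) → Fin m) ℂ),
    c ∈ S n m → Helper77.DS.pact A c ∈ S n m'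
  col : ∀ (n n' m : ℕ) (s : Fin (n' + 1) → Fin (n + 1)), Function.Surjective s →
    ∀ c : (Fin p → Fin (n + 1) → Fin m) → MvPolynomial (Fin (n + 1) → Fin m) ℂ,
    c ∈ S n m → Helper77.DS.pcol s c ∈ S n' m
  base : ∀ (n m : ℕ) (c : (Fin p → Fin (n + 1) → Fin m) →
    MvPolynomial (Fin (n + 1) → Fin m) ℂ),
    (∀ s, ∀ a b : Fin (n + 1) → Fin m → ℂ,
      eval (fun α => ∏ i, a i (α i) + ∏ i, b i (α i)) (c s) = 0) → c ∈ S n m

end

end Pool.Agent.Helper65.MT
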