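import Pool.Agent.Helper65.MT.W3
import Pool.Agent.Helper65.MT.Defs2

/-!
Project MT, piece A1b: comparison of leading monomials.
-/

namespace Pool.Agent.Helper65.MT

open MvPolynomial

variable {p e : ℕ}

/-- The map of the variables. -/
private theorem a1b_inj {n n' : ℕ} {π : Fin (n + 1) → Fin (n' + 1)} (hπ : Function.Injective π) :
    Function.Injective (fun y : Fin (n + 1) × Bool × Fin e => (π y.1, y.2)) := by
  rintro ⟨c, b⟩ ⟨c', b'⟩ h
  simp only [Prod.mk.injEq] at h
  rw [hπ h.1, h.2]

private theorem a1b_map {n n' : ℕ} {π : Fin (n + 1) → Fin (n' + 1)} (hπ : Function.Injective π)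
    (ω : YU n e →₀ ℕ) (c : Fin (n + 1)) (b : Bool) (i : Fin e) :
    Finsupp.mapDomain (fun y : YU n e => (π y.1, y.2)) ω (π c, b, i) = ω (c, b, i) :=
  Finsupp.mapDomain_apply (a1b_inj hπ) ω (c, b, i)

private theorem a1b_map0 {n n' : ℕ} {π : Fin (n + 1) → Fin (n' + 1)}
    (ω : YU n e →₀ ℕ) (q : Fin (n' + 1)) (hq : ∀ c, π c ≠ q) (b : Bool) (i : Fin e) :
    Finsupp.mapDomain (fun y : YU n e => (π y.1, y.2)) ω (q, b, i) = 0 := by
  refine Finsupp.mapDomain_of_notMem_range ω (q, b, i) ?_
  rintro ⟨⟨c, y⟩, hy⟩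
  simp only [Prod.mk.injEq] at hy
  exact hq c hy.1

private theorem a1b_udeg {n n' : ℕ} {π : Fin (n + 1) → Fin (n' + 1)} (hπ : Function.Injective π)
    (ω : YU n e →₀ ℕ) :
    udeg (Finsupp.mapDomain (fun y : YU n e => (π y.1, y.2)) ω) = udeg ω := by
  classical
  unfold udeg
  symm
  refine Finset.sum_of_injOn π hπ.injOn (fun _ _ => Finset.mem_univ _) ?_ ?_
  · intro q _ hq
    refine Finset.sum_eq_zero fun i _ => a1b_map0 ω q (fun c hc => hq ⟨c, by simp, hc⟩) true i
  · intro c _
    exact Finset.sum_congr rfl fun i _ => (a1b_map hπ ω c true i).symm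

/-- The sum of the weights of a column. -/
private theorem a1b_nu {n : ℕ} (x : Mon p n e) (c : Fin (n + 1)) :
    ∑ i, wb x c i = (∑ i : Fin e, (Finset.univ.filter fun r => x.1 c r = i.succ).card) +
      ∑ i, (x.2 (c, false, i) + x.2 (c, true, i)) := by
  rw [← Finset.sum_add_distrib]
  refine Finset.sum_congr rfl fun i _ => ?_
  unfold wb
  ring

/-- At most two columns are marked. -/
private theorem a1b_card {m k K : ℕ} (ν : Fin (m + 1) → ℕ) (h3 : ∑ c, (ν c - K) < k + 1) :
    (Finset.univ.filter fun c => k + 1 ≤ 3 * (ν c - K)).card ≤ 2 := by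
  by_contra hcon
  push Not at hcon
  have h1 : (Finset.univ.filter fun c => k + 1 ≤ 3 * (ν c - K)).card * (k + 1) ≤
      ∑ c ∈ Finset.univ.filter (fun c => k + 1 ≤ 3 * (ν c - K)), 3 * (ν c - K) := by
    rw [← smul_eq_mul]
    exact Finset.card_nsmul_le_sum _ _ _ fun c hc => (Finset.mem_filter.mp hc).2
  have h2 : ∑ c ∈ Finset.univ.filter (fun c => k + 1 ≤ 3 * (ν c - K)), 3 * (ν c - K) ≤
      ∑ c, 3 * (ν c - K) :=
    Finset.sum_le_sum_of_subset (Finset.subset_univ _)
  have h5 : ∑ c, 3 * (ν c - K) = 3 * ∑ c, (ν c - K) := by rw [Finset.mul_sum]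
  have h4 : 3 * (k + 1) ≤ (Finset.univ.filter fun c => k + 1 ≤ 3 * (ν c - K)).card * (k + 1) :=
    Nat.mul_le_mul_right _ hcon
  omega

/-- The combinatorial part of the proof of `sat_gen`: two monomials `x`, `x'` related by an insertion
of columns such that the quotient satisfies the conditions of `ring_low` for `h = (k' - k) / 2`. Here `k` and
`k'` are the degrees, `ν c = ∑ i, wb x c i`. Proof. Apply `comb3` to the words with the labels
`f j c = ((x j).1 c, decide (k j + 1 ≤ 3 * (ν j c - K)), k j % 2, udeg (x j).2 % 2, number of the marked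
columns)` (a column is marked if the second entry is true; the number of marked columns is at most `2` because
`∑ c, (ν j c - K) < k j + 1`; take it in `Fin 3`) and
`w j c = ((x j).2 (c, ·, ·), k j + 1 + 2 * K - 2 * ν j c, udeg (x j).2 - (k j + 1))`. Let `i < j`, `s`,
`π` be the result. The `κ` of the statement is `(x j).2 - mapDomain (x i).2` (the columns `π c` of `(x j).2` are at
least the columns `c` of `(x i).2`). Then `k i`, `k j` have the same parity, `k j - k i = 2 * h`, `h ≥ 1` by
`hk`. Column sums of `κ`: let `q = π c`. The tables agree, so the sum of column `q` of `κ` is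
`ν j q - ν i c ≤ h` by the third part of `w`. Let `q` be outside the range of `π`: as `π` preserves marks and the
numbers of marked columns agree, `q` is not marked, so `3 * (ν j q - K) < k j + 1`, and the sum of column `q`
of `κ` is at most `ν j q ≤ K + k j / 3 ≤ h` by `hk`. Moreover
`udeg κ = udeg (x j).2 - udeg (x i).2 ≥ k j - k i = 2 * h` by the last part of `w` and `hu`, and it is even. -/
theorem comb_lead (K : ℕ) (n k : ℕ → ℕ) (x : ∀ j, Mon p (n j) e)
    (hk : ∀ i j, i < j → 3 * k i + 6 * K + 6 ≤ k j)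
    (hu : ∀ j, k j + 1 ≤ udeg (x j).2)
    (h2 : ∀ j c, 2 * ∑ i, wb (x j) c i ≤ k j + 1 + 2 * K)
    (h3 : ∀ j, ∑ c, (∑ i, wb (x j) c i - K) < k j + 1) :
    ∃ i j, i < j ∧ ∃ (s : Fin (n j + 1) → Fin (n i + 1)) (π : Fin (n i + 1) → Fin (n j + 1)),
      IsIns s π ∧ (∀ q, (x i).1 (s q) = (x j).1 q) ∧ ∃ (h : ℕ) (κ : YU (n j) e →₀ ℕ),
        1 ≤ h ∧ k i + 2 * h = k j ∧
        κ + Finsupp.mapDomain (fun y => (π y.1, y.2)) (x i).2 = (x j).2 ∧
        (∀ c, ∑ i, (κ (c, false, i) + κ (c, true, i)) ≤ h) ∧ 2 * h ≤ udeg κ ∧ Even (udeg κ) := by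
  classical
  -- the sums of the columns and the marks
  set ν : ∀ j, Fin (n j + 1) → ℕ := fun j c => ∑ i, wb (x j) c i with hν
  let mk : ∀ j, Finset (Fin (n j + 1)) := fun j =>
    Finset.univ.filter fun c => k j + 1 ≤ 3 * (ν j c - K)
  have hmk : ∀ j, (mk j).card ≤ 2 := fun j => a1b_card (ν j) (h3 j)
  let f : ∀ j, Fin (n j + 1) → (Fin p → Fin (e + 1)) × Bool × Fin 2 × Fin 2 × Fin 3 := fun j c =>
    ((x j).1 c, decide (c ∈ mk j), ⟨k j % 2, Nat.mod_lt _ (by norm_num)⟩,
      ⟨udeg (x j).2 % 2, Nat.mod_lt _ (by norm_num)⟩, ⟨(mk j).card, Nat.lt_succ_of_le (hmk j)⟩)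
  let w : ∀ j, Fin (n j + 1) → (Bool × Fin e) ⊕ Bool → ℕ := fun j c =>
    Sum.elim (fun y => (x j).2 (c, y))
      (fun b => if b then k j + 1 + 2 * K - 2 * ν j c else udeg (x j).2 - (k j + 1))
  obtain ⟨i, j, hij, s, π, hins, hf, hw⟩ := comb3 n f w
  have hπ : Function.Injective π := hins.mono.injective
  have ht : ∀ q, (x i).1 (s q) = (x j).1 q := fun q => congrArg (fun z => z.1) (hf q)
  have hm : ∀ q, s q ∈ mk i ↔ q ∈ mk j := by
    intro q
    have h := congrArg (fun z => z.2.1) (hf q)
    exact decide_eq_decide.mp h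
  have hkp : k i % 2 = k j % 2 := by
    have h := congrArg (fun z => z.2.2.1) (hf 0)
    exact congrArg Fin.val h
  have hup : udeg (x i).2 % 2 = udeg (x j).2 % 2 := by
    have h := congrArg (fun z => z.2.2.2.1) (hf 0)
    exact congrArg Fin.val h
  have hcard : (mk i).card = (mk j).card := by
    have h := congrArg (fun z => z.2.2.2.2) (hf 0)
    exact congrArg Fin.val h
  have hw1 : ∀ c b l, (x i).2 (c, b, l) ≤ (x j).2 (π c, b, l) := fun c b l => hw c (Sum.inl (b, l))
  have hw2 : ∀ c, k i + 1 + 2 * K - 2 * ν i c ≤ k j + 1 + 2 * K - 2 * ν j (π c) := fun c => by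
    have h := hw c (Sum.inr true)
    simpa [w] using h
  have hw3 : udeg (x i).2 - (k i + 1) ≤ udeg (x j).2 - (k j + 1) := by
    have h := hw 0 (Sum.inr false)
    simpa [w] using h
  have hkij := hk i j hij
  -- the columns outside of the range are not marked
  have hout : ∀ q, (∀ c, π c ≠ q) → q ∉ mk j := by
    have h1 : (mk i).image π = mk j := by
      refine Finset.eq_of_subset_of_card_le ?_ ?_
      · intro q hq
        obtain ⟨c, hc, rfl⟩ := Finset.mem_image.mp hq
        rw [← hm, hins.inv]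
        exact hc
      · rw [Finset.card_image_of_injective _ hπ, hcard]
    intro q hq hqm
    rw [← h1] at hqm
    obtain ⟨c, -, hc⟩ := Finset.mem_image.mp hqm
    exact hq c hc
  -- the exponent
  have hle : Finsupp.mapDomain (fun y : YU (n i) e => (π y.1, y.2)) (x i).2 ≤ (x j).2 := by
    rintro ⟨q, b, l⟩
    by_cases hq : ∃ c, π c = q
    · obtain ⟨c, rfl⟩ := hq
      rw [a1b_map hπ]
      exact hw1 c b l
    · push Not at hq
      rw [a1b_map0 _ q hq]
      exact Nat.zero_le _
  have hsum := tsub_add_cancel_of_le hle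
  have hudeg : udeg ((x j).2 - Finsupp.mapDomain (fun y : YU (n i) e => (π y.1, y.2)) (x i).2) +
      udeg (x i).2 = udeg (x j).2 := by
    rw [← a1b_udeg (e := e) hπ (x i).2]
    conv_rhs => rw [← hsum]
    unfold udeg
    rw [← Finset.sum_add_distrib]
    refine Finset.sum_congr rfl fun c _ => ?_
    rw [← Finset.sum_add_distrib]
    rfl
  have hui := hu i
  have huj := hu j
  refine ⟨i, j, hij, s, π, hins, ht, (k j - k i) / 2, _, ?_, ?_, hsum, ?_, ?_, ?_⟩
  · omega
  · omega
  · intro q
    by_cases hq : ∃ c, π c = q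
    · obtain ⟨c, rfl⟩ := hq
      have e1 : ∑ l, (((x j).2 - Finsupp.mapDomain (fun y : YU (n i) e => (π y.1, y.2)) (x i).2)
            (π c, false, l) +
          ((x j).2 - Finsupp.mapDomain (fun y : YU (n i) e => (π y.1, y.2)) (x i).2)
            (π c, true, l)) + ∑ l, ((x i).2 (c, false, l) + (x i).2 (c, true, l)) =
          ∑ l, ((x j).2 (π c, false, l) + (x j).2 (π c, true, l)) := by
        rw [← Finset.sum_add_distrib]
        refine Finset.sum_congr rfl fun l _ => ?_
        rw [Finsupp.tsub_apply, Finsupp.tsub_apply, a1b_map hπ, a1b_map hπ]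
        have h4 := hw1 c false l
        have h5 := hw1 c true l
        omega
      have e2 := a1b_nu (x j) (π c)
      have e3 := a1b_nu (x i) c
      have e4 : (x i).1 c = (x j).1 (π c) := by
        have h := ht (π c)
        rwa [hins.inv] at h
      rw [e4] at e3
      have e5 := hw2 c
      have e6 := h2 j (π c)
      have e7 := h2 i c
      simp only [hν] at e5
      omega
    · push Not at hq
      have e1 : ∑ l, (((x j).2 - Finsupp.mapDomain (fun y : YU (n i) e => (π y.1, y.2)) (x i).2)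
            (q, false, l) +
          ((x j).2 - Finsupp.mapDomain (fun y : YU (n i) e => (π y.1, y.2)) (x i).2)
            (q, true, l)) = ∑ l, ((x j).2 (q, false, l) + (x j).2 (q, true, l)) := by
        refine Finset.sum_congr rfl fun l _ => ?_
        rw [Finsupp.tsub_apply, Finsupp.tsub_apply, a1b_map0 _ q hq, a1b_map0 _ q hq]
        rfl
      rw [e1]
      have e2 := a1b_nu (x j) q
      have e3 := hout q hq
      simp only [mk, Finset.mem_filter, Finset.mem_univ, true_and, hν] at e3
      omega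
  · omega
  · rw [Nat.even_iff]
    omega

end Pool.Agent.Helper65.MT
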