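import Pool.Agent.Helper65.MT.Defs2

/-!
Project MT, piece D2b: leading monomials of products.
-/

namespace Pool.Agent.Helper65.MT

open MvPolynomial

variable {p n e : ℕ}

theorem d2b_ky_add (a b : YU n e →₀ ℕ) : ky (a + b) = ky a + ky b := rfl

theorem d2b_ky_lt {a b : YU n e →₀ ℕ} (κ : YU n e →₀ ℕ) (h : ky a < ky b) :
    ky (κ + a) < ky (κ + b) := by
  rw [d2b_ky_add, d2b_ky_add]
  exact add_lt_add_right h _

theorem d2b_udeg_add (a b : YU n e →₀ ℕ) : udeg (a + b) = udeg a + udeg b := by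
  simp only [udeg, Finsupp.add_apply, Finset.sum_add_distrib]

theorem d2b_coeff_mul_ne {σ : Type} {g f : MvPolynomial σ ℂ} {ν : σ →₀ ℕ}
    (h : coeff ν (g * f) ≠ 0) :
    ∃ ω ω', ω + ω' = ν ∧ coeff ω g ≠ 0 ∧ coeff ω' f ≠ 0 := by
  classical
  obtain ⟨a, ha, b, hb, hab⟩ := Finset.mem_add.mp (support_mul g f (mem_support_iff.mpr h))
  exact ⟨a, b, hab, mem_support_iff.mp ha, mem_support_iff.mp hb⟩

theorem d2b_coeff_mul_eq {σ : Type} {g f : MvPolynomial σ ℂ} {a b : σ →₀ ℕ}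
    (h : ∀ ω ω', ω + ω' = a + b → coeff ω g ≠ 0 → coeff ω' f ≠ 0 → ω = a ∧ ω' = b) :
    coeff (a + b) (g * f) = coeff a g * coeff b f := by
  classical
  rw [coeff_mul]
  refine (Finset.sum_eq_single (a, b) ?_ ?_).trans rfl
  · rintro ⟨ω, ω'⟩ h1 h2
    have h3 : ω + ω' = a + b := Finset.HasAntidiagonal.mem_antidiagonal.mp h1
    by_contra h4
    obtain ⟨h5, h6⟩ := h ω ω' h3 (left_ne_zero_of_mul h4) (right_ne_zero_of_mul h4)
    exact h2 (by rw [h5, h6])
  · intro h1
    exact absurd (Finset.HasAntidiagonal.mem_antidiagonal.mpr (show (a, b).1 + (a, b).2 = a + b from rfl)) h1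

/-- Comparison of keys. -/
theorem d2b_key_lt_iff (x y : Mon p n e) : key y < key x ↔
    (toLex fun c => toLex (y.1 c) : Lex (Fin (n + 1) → Lex (Fin p → Fin (e + 1)))) <
      (toLex fun c => toLex (x.1 c)) ∨
    (y.1 = x.1 ∧ (udeg x.2 < udeg y.2 ∨ (udeg y.2 = udeg x.2 ∧ ky y.2 < ky x.2))) := by
  unfold key
  rw [Prod.Lex.toLex_lt_toLex, Prod.Lex.toLex_lt_toLex]
  constructor
  · rintro (h | ⟨h1, h2⟩)
    · exact Or.inl h
    · refine Or.inr ⟨?_, ?_⟩
      · funext c
        exact congrArg (fun q => ofLex ((ofLex q) c)) h1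
      · rcases h2 with h2 | ⟨h2, h3⟩
        · exact Or.inl (OrderDual.toDual_lt_toDual.mp h2)
        · exact Or.inr ⟨OrderDual.toDual_inj.mp h2, h3⟩
  · rintro (h | ⟨h1, h2⟩)
    · exact Or.inl h
    · refine Or.inr ⟨by rw [h1], ?_⟩
      rcases h2 with h2 | ⟨h2, h3⟩
      · exact Or.inl (OrderDual.toDual_lt_toDual.mpr h2)
      · exact Or.inr ⟨congrArg OrderDual.toDual h2, h3⟩

/-- The coefficients of a product. -/
theorem d2b_cb_mul {G F : T p n (e + 1)} {g : MvPolynomial (YU n e) ℂ} (hG : bar G = C g)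
    (y : Mon p n e) : cb (G * F) y = coeff y.2 (g * coeff (vexp y.1) (bar F)) := by
  change coeff y.2 (coeff (vexp y.1) (bar (G * F))) = _
  rw [map_mul, hG, coeff_C_mul]

/-- Proof. `bar (G * F) = C g * bar F`, so the coefficient of `bar (G * F)` at `vexp δ` is `g` times
that of `bar F`. Let `f` be the latter for the table `x.1`; `x.2` is an exponent of `f` of minimal degree
in `u` with maximal `ky` among those. In `coeff (κ + x.2) (g * f)` only the pair
`(κ, x.2)` contributes: if `(ω, ω')` is another pair with `ω + ω' = κ + x.2` and nonzero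
coefficients, then `udeg κ ≤ udeg ω`, `udeg x.2 ≤ udeg ω'` with equality, so `ω = κ`. If `ω + ω'` is another
exponent of `g * f`, then either `udeg (ω + ω') > udeg (κ + x.2)`, or `ω = κ`, `udeg ω' = udeg x.2` and
`ky ω' < ky x.2`, `ky (κ + ω') < ky (κ + x.2)`. For tables `δ ≠ x.1` with `coeff (vexp δ) (bar F) ≠ 0` the key
is smaller in the first component. -/
theorem mul_lead {G F : T p n (e + 1)} {g : MvPolynomial (YU n e) ℂ} (hG : bar G = C g)
    {κ : YU n e →₀ ℕ} (hg : Low g κ) {x : Mon p n e}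
    (hx : IsLead (fun F => cb F) key F x) :
    IsLead (fun F => cb F) key (G * F) (x.1, κ + x.2) := by
  classical
  obtain ⟨hx1, hx2⟩ := hx
  obtain ⟨hg1, hg2⟩ := hg
  -- the exponents of the factors
  have hle : ∀ (δ : Fin (n + 1) → Fin p → Fin (e + 1)) (ω' : YU n e →₀ ℕ),
      coeff ω' (coeff (vexp δ) (bar F)) ≠ 0 → (δ, ω') = x ∨ key (δ, ω') < key x := by
    intro δ ω' h
    by_cases h1 : (δ, ω') = x
    · exact Or.inl h1
    · exact Or.inr (hx2 (δ, ω') h h1)
  have hcmp : ∀ (δ : Fin (n + 1) → Fin p → Fin (e + 1)) (ω ω' : YU n e →₀ ℕ),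
      coeff ω g ≠ 0 → coeff ω' (coeff (vexp δ) (bar F)) ≠ 0 →
      (ω = κ ∧ (δ, ω') = x) ∨ key (δ, ω + ω') < key (x.1, κ + x.2) := by
    intro δ ω ω' h1 h2
    have hω : ω = κ ∨ udeg κ < udeg ω := by
      by_cases h3 : ω = κ
      · exact Or.inl h3
      · exact Or.inr (hg2 ω h1 h3)
    have hω' := hle δ ω' h2
    rw [d2b_key_lt_iff] at hω'
    rw [d2b_key_lt_iff]
    simp only [d2b_udeg_add] at hω' ⊢
    rcases hω' with h3 | h3 | ⟨h3, h4⟩
    · rcases hω with h5 | h5
      · exact Or.inl ⟨h5, h3⟩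
      · refine Or.inr (Or.inr ⟨?_, Or.inl ?_⟩)
        · exact congrArg Prod.fst h3
        · have h6 : ω' = x.2 := congrArg Prod.snd h3
          rw [h6]
          omega
    · exact Or.inr (Or.inl h3)
    · refine Or.inr (Or.inr ⟨h3, ?_⟩)
      rcases h4 with h4 | ⟨h4, h5⟩
      · left
        rcases hω with h6 | h6
        · rw [h6]
          change udeg x.2 < udeg ω' at h4
          omega
        · change udeg x.2 < udeg ω' at h4
          omega
      · change udeg ω' = udeg x.2 at h4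
        rcases hω with h6 | h6
        · right
          refine ⟨by rw [h6, h4], ?_⟩
          rw [h6]
          exact d2b_ky_lt κ h5
        · left
          omega
  refine ⟨?_, ?_⟩
  · change cb (G * F) (x.1, κ + x.2) ≠ 0
    rw [d2b_cb_mul hG]
    change coeff (κ + x.2) (g * coeff (vexp x.1) (bar F)) ≠ 0
    rw [d2b_coeff_mul_eq]
    · exact mul_ne_zero hg1 hx1
    · intro ω ω' h1 h4 h5
      rcases hcmp x.1 ω ω' h4 h5 with ⟨h6, h7⟩ | h6
      · exact ⟨h6, congrArg Prod.snd h7⟩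
      · rw [h1] at h6
        exact absurd h6 (lt_irrefl _)
  · intro y h1 h2
    change cb (G * F) y ≠ 0 at h1
    rw [d2b_cb_mul hG] at h1
    obtain ⟨ω, ω', h3, h5, h6⟩ := d2b_coeff_mul_ne h1
    have hy : y = (y.1, ω + ω') := Prod.ext rfl h3.symm
    rcases hcmp y.1 ω ω' h5 h6 with ⟨h7, h8⟩ | h7
    · exfalso
      apply h2
      rw [hy, h7, ← h8]
    · rw [hy]
      exact h7

end Pool.Agent.Helper65.MT
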