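import Pool.Agent.Helper65.MT.Defs2

/-!
Project MT, piece D3a: insertion of decorated zero columns, the coefficients.
-/

namespace Pool.Agent.Helper65.MT

open MvPolynomial

variable {p n n' e : ℕ}

/-- The matrices for the insertion: identity in the columns `π c`, and `0 ↦ 0`, `i ↦ i + 0` for
`i ≠ 0` in the other columns. -/
noncomputable def insA (s : Fin (n' + 1) → Fin (n + 1)) (π : Fin (n + 1) → Fin (n' + 1)) :
    Fin (n' + 1) → Fin (e + 1) → Fin (e + 1) → ℂ :=
  fun q a b => (if a = b then 1 else 0) + if π (s q) ≠ q ∧ a = 0 ∧ b ≠ 0 then 1 else 0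

/-- The substitution of the variables `y`, `u` for the insertion. -/
noncomputable def insY (s : Fin (n' + 1) → Fin (n + 1)) (π : Fin (n + 1) → Fin (n' + 1)) :
    MvPolynomial (YU n e) ℂ →ₐ[ℂ] MvPolynomial (YU n' e) ℂ :=
  aeval fun x =>
    let y := X (π x.1, false, x.2.2) *
      ∏ q ∈ Finset.univ.filter (fun q => s q = x.1 ∧ π x.1 ≠ q), (1 + X (q, false, x.2.2))
    let z := (X (π x.1, false, x.2.2) + X (π x.1, true, x.2.2)) *
      ∏ q ∈ Finset.univ.filter (fun q => s q = x.1 ∧ π x.1 ≠ q),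
        (1 + (X (q, false, x.2.2) + X (q, true, x.2.2)))
    if x.2.1 then z - y else y

/-- `δ'` is a table which can occur after insertion of columns into the table `δ`. -/
def Allow (s : Fin (n' + 1) → Fin (n + 1)) (π : Fin (n + 1) → Fin (n' + 1))
    (δ : Fin (n + 1) → Fin p → Fin (e + 1)) (δ' : Fin (n' + 1) → Fin p → Fin (e + 1)) : Prop :=
  ∀ q r, δ' q r = δ (s q) r ∨ (π (s q) ≠ q ∧ δ' q r = 0)

/-! ## Auxiliary results -/

theorem d3a_zero {s : Fin (n' + 1) → Fin (n + 1)} {π : Fin (n + 1) → Fin (n' + 1)}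
    (h : IsIns s π) : s 0 = 0 := by
  by_contra h0
  have h1 : (0 : Fin (n + 1)) < s 0 := Fin.pos_of_ne_zero h0
  have h2 := h.mono h1
  have h3 := h.left 0
  exact absurd (lt_of_lt_of_le h2 h3) (Fin.not_lt_zero _)

theorem d3a_sg {s : Fin (n' + 1) → Fin (n + 1)} {π : Fin (n + 1) → Fin (n' + 1)}
    (h : IsIns s π) (c : Fin (n + 1)) :
    ∏ q ∈ Finset.univ.filter (fun q => s q = c), sg q = sg c := by
  classical
  unfold sg
  rw [Finset.prod_ite_eq']
  simp only [Finset.mem_filter, Finset.mem_univ, true_and, d3a_zero h]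
  by_cases hc : c = 0
  · subst hc
    simp
  · rw [if_neg hc, if_neg (fun h2 => hc h2.symm)]

/-- The image of the variables. -/
noncomputable def d3aV (s : Fin (n' + 1) → Fin (n + 1)) (π : Fin (n + 1) → Fin (n' + 1))
    (v : VV p n e) : Tb p n' e :=
  ∏ q ∈ Finset.univ.filter (fun q => s q = v.1),
    ∑ j, C (C (insA s π q j v.2.2)) * X (q, v.2.1, j)

/-- The homomorphism. -/
noncomputable def d3aPsi (s : Fin (n' + 1) → Fin (n + 1)) (π : Fin (n + 1) → Fin (n' + 1)) :
    Tb p n e →+* Tb p n' e :=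
  eval₂Hom (C.comp (insY s π).toRingHom) (d3aV s π)

theorem d3a_barC (a : ℂ) : bar (p := p) (n := n) (e := e) (C a) = C (C a) := by
  rw [← algebraMap_eq, AlgHom.commutes]
  rfl

theorem d3a_sum (s : Fin (n' + 1) → Fin (n + 1)) (π : Fin (n + 1) → Fin (n' + 1))
    (q : Fin (n' + 1)) (i : Fin (e + 1)) {R : Type} [CommRing R] [Algebra ℂ R]
    (g : Fin (e + 1) → R) :
    ∑ j, algebraMap ℂ R (insA s π q j i) * g j =
      g i + if π (s q) ≠ q ∧ i ≠ 0 then g 0 else 0 := by
  unfold insA
  simp only [map_add, add_mul, Finset.sum_add_distrib]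
  congr 1
  · rw [Finset.sum_eq_single i]
    · simp
    · intro j _ hj
      simp [hj]
    · intro h
      exact absurd (Finset.mem_univ _) h
  · rw [Finset.sum_eq_single 0]
    · by_cases h : π (s q) ≠ q ∧ i ≠ 0
      · rw [if_pos h, if_pos ⟨h.1, rfl, h.2⟩, map_one, one_mul]
      · rw [if_neg h, if_neg (fun h2 => h ⟨h2.1, h2.2.2⟩), map_zero, zero_mul]
    · intro j _ hj
      rw [if_neg (fun h2 => hj h2.2.1), map_zero, zero_mul]
    · intro h
      exact absurd (Finset.mem_univ _) h

/-- The values of the slot `inr b`. -/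
noncomputable def d3aW (b : Bool) (q : Fin (n + 1)) (i : Fin (e + 1)) : MvPolynomial (YU n e) ℂ :=
  Fin.cases (motive := fun _ => MvPolynomial (YU n e) ℂ) 1
    (fun i => X (q, false, i) + if b then X (q, true, i) else 0) i

theorem d3a_bar_inr (b : Bool) (q : Fin (n + 1)) (i : Fin (e + 1)) :
    bar (p := p) (X (q, Sum.inr b, i)) = C (C (if b then sg q else 1) * d3aW b q i) := by
  rw [bar, aeval_X]
  cases b
  · change C (Fin.cases (motive := fun _ => MvPolynomial (YU n e) ℂ) 1
      (fun i => X (q, false, i)) i) = _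
    unfold d3aW
    simp
  · rfl

theorem d3a_split {s : Fin (n' + 1) → Fin (n + 1)} {π : Fin (n + 1) → Fin (n' + 1)}
    (h : IsIns s π) {R : Type} [CommRing R] (c : Fin (n + 1)) (g : Fin (n' + 1) → R) :
    ∏ q ∈ Finset.univ.filter (fun q => s q = c), g q =
      g (π c) * ∏ q ∈ Finset.univ.filter (fun q => s q = c ∧ π c ≠ q), g q := by
  classical
  have h1 : Finset.univ.filter (fun q => s q = c) =
      insert (π c) (Finset.univ.filter (fun q => s q = c ∧ π c ≠ q)) := by
    ext q
    simp only [Finset.mem_filter, Finset.mem_univ, true_and, Finset.mem_insert]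
    constructor
    · intro h2
      by_cases h3 : π c = q
      · exact Or.inl h3.symm
      · exact Or.inr ⟨h2, h3⟩
    · rintro (h2 | h2)
      · rw [h2, h.inv]
      · exact h2.1
  rw [h1, Finset.prod_insert]
  simp

theorem d3a_insY_W {s : Fin (n' + 1) → Fin (n + 1)} {π : Fin (n + 1) → Fin (n' + 1)}
    (h : IsIns s π) (b : Bool) (c : Fin (n + 1)) (i : Fin (e + 1)) :
    insY s π (d3aW b c i) = ∏ q ∈ Finset.univ.filter (fun q => s q = c),
      (d3aW b q i + if π (s q) ≠ q ∧ i ≠ 0 then d3aW b q 0 else 0) := by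
  classical
  refine Fin.cases ?_ (fun i => ?_) i
  · have h1 : ∀ q : Fin (n' + 1),
        (d3aW b q 0 + if π (s q) ≠ q ∧ (0 : Fin (e + 1)) ≠ 0 then d3aW b q 0 else 0 :
          MvPolynomial (YU n' e) ℂ) = 1 := by
      intro q
      rw [if_neg (fun h2 => h2.2 rfl), add_zero]
      rfl
    rw [Finset.prod_congr rfl fun q _ => h1 q, Finset.prod_const_one]
    change insY s π 1 = 1
    rw [map_one]
  · have h0 : (i.succ : Fin (e + 1)) ≠ 0 := Fin.succ_ne_zero i
    rw [d3a_split h]
    have h1 : (if π (s (π c)) ≠ π c ∧ i.succ ≠ 0 then d3aW b (π c) 0 else 0 :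
        MvPolynomial (YU n' e) ℂ) = 0 := by
      rw [if_neg]
      rintro ⟨h2, -⟩
      rw [h.inv] at h2
      exact h2 rfl
    rw [h1, add_zero]
    have h2 : ∏ q ∈ Finset.univ.filter (fun q => s q = c ∧ π c ≠ q),
        (d3aW b q i.succ + if π (s q) ≠ q ∧ i.succ ≠ 0 then d3aW b q 0 else 0) =
        ∏ q ∈ Finset.univ.filter (fun q => s q = c ∧ π c ≠ q),
          (1 + d3aW b q i.succ : MvPolynomial (YU n' e) ℂ) := by
      refine Finset.prod_congr rfl fun q hq => ?_
      obtain ⟨h3, h4⟩ := (Finset.mem_filter.mp hq).2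
      rw [if_pos ⟨by rw [h3]; exact h4, h0⟩, add_comm]
      rfl
    rw [h2]
    cases b
    · have h5 : ∀ q : Fin (n' + 1), d3aW false q i.succ = X (q, false, i) := by
        intro q
        simp [d3aW]
      have h6 : d3aW false c i.succ = X (c, false, i) := by
        simp [d3aW]
      simp only [h5, h6]
      rw [insY, aeval_X]
      simp
    · have h5 : ∀ q : Fin (n' + 1), d3aW true q i.succ = X (q, false, i) + X (q, true, i) := by
        intro q
        simp [d3aW]
      have h6 : d3aW true c i.succ = X (c, false, i) + X (c, true, i) := by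
        simp [d3aW]
      simp only [h5, h6]
      rw [insY, map_add, aeval_X, aeval_X]
      simp

theorem d3a_bar_inl (c : Fin (n + 1)) (r : Fin p) (i : Fin (e + 1)) :
    bar (X (c, Sum.inl r, i) : T p n (e + 1)) = X (c, r, i) := by
  rw [bar, aeval_X]
  rfl

theorem d3a_insYC (s : Fin (n' + 1) → Fin (n + 1)) (π : Fin (n + 1) → Fin (n' + 1)) (a : ℂ) :
    insY (e := e) s π (C a) = C a := by
  rw [← algebraMap_eq, AlgHom.commutes, algebraMap_eq]

theorem d3a_psiC (s : Fin (n' + 1) → Fin (n + 1)) (π : Fin (n + 1) → Fin (n' + 1))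
    (g : MvPolynomial (YU n e) ℂ) : d3aPsi (p := p) s π (C g) = C (insY s π g) := by
  rw [d3aPsi, eval₂Hom_C]
  rfl

theorem d3a_psiX (s : Fin (n' + 1) → Fin (n + 1)) (π : Fin (n + 1) → Fin (n' + 1))
    (v : VV p n e) : d3aPsi s π (X v) = d3aV s π v := by
  rw [d3aPsi, eval₂Hom_X']

theorem d3a_mainX {s : Fin (n' + 1) → Fin (n + 1)} {π : Fin (n + 1) → Fin (n' + 1)}
    (h : IsIns s π) (x : Var p n (e + 1)) :
    bar (lin (insA s π) (col s (X x))) = d3aPsi s π (bar (X x)) := by
  classical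
  obtain ⟨c, r | b, i⟩ := x
  · rw [col_X, map_prod, map_prod, d3a_bar_inl, d3a_psiX, d3aV]
    refine Finset.prod_congr rfl fun q _ => ?_
    rw [lin_X, map_sum]
    refine Finset.sum_congr rfl fun j _ => ?_
    rw [map_mul, d3a_barC, d3a_bar_inl]
  · rw [col_X, map_prod, map_prod, d3a_bar_inr, d3a_psiC, map_mul, d3a_insYC, d3a_insY_W h]
    have h1 : ∀ q : Fin (n' + 1), bar (p := p)
        (lin (insA s π) (X (q, Sum.inr b, i) : T p n' (e + 1))) =
        C (C (if b then sg q else 1) *
          (d3aW b q i + if π (s q) ≠ q ∧ i ≠ 0 then d3aW b q 0 else 0)) := by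
      intro q
      rw [lin_X, map_sum, ← d3a_sum s π q i (fun j => d3aW b q j), Finset.mul_sum, map_sum]
      refine Finset.sum_congr rfl fun j _ => ?_
      rw [map_mul, d3a_barC, d3a_bar_inr, algebraMap_eq, ← map_mul]
      refine congrArg _ ?_
      ring
    rw [Finset.prod_congr rfl fun q _ => h1 q, ← map_prod, Finset.prod_mul_distrib, ← map_prod]
    have h2 : ∏ q ∈ Finset.univ.filter (fun q => s q = c), (if b then sg q else 1) =
        if b then sg c else 1 := by
      cases b
      · simp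
      · simpa using d3a_sg h c
    rw [h2]

theorem d3a_main {s : Fin (n' + 1) → Fin (n + 1)} {π : Fin (n + 1) → Fin (n' + 1)}
    (h : IsIns s π) (F : T p n (e + 1)) :
    bar (lin (insA s π) (col s F)) = d3aPsi s π (bar F) := by
  classical
  induction F using MvPolynomial.induction_on with
  | C a =>
    have h1 : col (p := p) (m := e + 1) s (C a) = C a := by
      rw [← algebraMap_eq, AlgHom.commutes, algebraMap_eq]
    rw [h1, lin_C, d3a_barC, d3a_barC, d3a_psiC, d3a_insYC]
  | add F G hF hG => rw [map_add, map_add, map_add, map_add, map_add, hF, hG]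
  | mul_X F x hF => rw [map_mul, map_mul, map_mul, map_mul, map_mul, hF, d3a_mainX h]

/-- The part in the variables `VV` of an exponent. -/
noncomputable def d3aE (μ : Var p n (e + 1) →₀ ℕ) : VV p n e →₀ ℕ :=
  Finsupp.equivFunOnFinite.symm fun v => μ (v.1, Sum.inl v.2.1, v.2.2)

theorem d3aE_add (μ ν : Var p n (e + 1) →₀ ℕ) : d3aE (μ + ν) = d3aE μ + d3aE ν := by
  ext v
  rfl

theorem d3aE_nsmul (k : ℕ) (ν : Var p n (e + 1) →₀ ℕ) : d3aE (k • ν) = k • d3aE ν := by
  ext v
  rfl

theorem d3a_bar_X (x : Var p n (e + 1)) :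
    ∃ g, bar (X x) = monomial (d3aE (Finsupp.single x 1)) g := by
  classical
  obtain ⟨c, r | b, i⟩ := x
  · refine ⟨1, ?_⟩
    have h1 : d3aE (Finsupp.single (c, Sum.inl r, i) 1) =
        (Finsupp.single (c, r, i) 1 : VV p n e →₀ ℕ) := by
      refine Finsupp.ext fun x' => ?_
      obtain ⟨c', r', i'⟩ := x'
      change Finsupp.single (c, Sum.inl r, i) 1 (c', Sum.inl r', i') = _
      rw [Finsupp.single_apply, Finsupp.single_apply]
      simp
    rw [d3a_bar_inl, h1, X]
  · refine ⟨C (if b then sg c else 1) * d3aW b c i, ?_⟩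
    rw [d3a_bar_inr]
    have h1 : d3aE (Finsupp.single (c, Sum.inr b, i) 1) = (0 : VV p n e →₀ ℕ) := by
      refine Finsupp.ext fun x' => ?_
      obtain ⟨c', r', i'⟩ := x'
      change Finsupp.single (c, Sum.inr b, i) 1 (c', Sum.inl r', i') = 0
      rw [Finsupp.single_apply]
      simp
    rw [h1]
    rfl

theorem d3a_bar_monomial (μ : Var p n (e + 1) →₀ ℕ) (a : ℂ) :
    ∃ g, bar (monomial μ a) = monomial (d3aE μ) g := by
  classical
  induction μ using Finsupp.induction generalizing a with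
  | zero =>
    refine ⟨C a, ?_⟩
    have h2 : d3aE (0 : Var p n (e + 1) →₀ ℕ) = 0 := by
      ext x
      rfl
    rw [h2]
    change bar (C a) = C (C a)
    exact d3a_barC a
  | single_add x k μ hx hk ih =>
    have h3 : (monomial (Finsupp.single x k + μ) a : T p n (e + 1)) =
        X x ^ k * monomial μ a := by
      rw [X_pow_eq_monomial, monomial_mul, one_mul]
    obtain ⟨g, hg⟩ := ih a
    obtain ⟨g', hg'⟩ := d3a_bar_X (p := p) (n := n) (e := e) x
    refine ⟨g' ^ k * g, ?_⟩
    rw [h3, map_mul, map_pow, hg, hg', monomial_pow, monomial_mul, d3aE_add]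
    have h4 : k • d3aE (Finsupp.single x 1) = d3aE (Finsupp.single x k) := by
      rw [← d3aE_nsmul, Finsupp.smul_single, smul_eq_mul, mul_one]
    rw [h4]

theorem d3aE_vexp {μ : Var p n (e + 1) →₀ ℕ} {k1 k2 : ℕ} (h : md μ = ty k1 k2) :
    ∃ δ, d3aE μ = vexp δ := by
  classical
  have h1 : ∀ (c : Fin (n + 1)) (r : Fin p), ∃ i : Fin (e + 1),
      ∀ j, μ (c, Sum.inl r, j) = if i = j then 1 else 0 := by
    intro c r
    have h2 := congrFun h (c, Sum.inl r)
    change ∑ i, μ (c, Sum.inl r, i) = 1 at h2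
    have h3 : ∃ i, μ (c, Sum.inl r, i) ≠ 0 := by
      by_contra h4
      push Not at h4
      rw [Finset.sum_eq_zero fun i _ => h4 i] at h2
      exact absurd h2 (by norm_num)
    obtain ⟨i, hi⟩ := h3
    rw [← Finset.add_sum_erase _ _ (Finset.mem_univ i)] at h2
    have h5 : μ (c, Sum.inl r, i) = 1 := by omega
    have h6 : ∑ j ∈ Finset.univ.erase i, μ (c, Sum.inl r, j) = 0 := by omega
    refine ⟨i, fun j => ?_⟩
    by_cases h7 : i = j
    · rw [if_pos h7, ← h7, h5]
    · rw [if_neg h7]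
      exact Finset.sum_eq_zero_iff.mp h6 j
        (Finset.mem_erase.mpr ⟨fun h8 => h7 h8.symm, Finset.mem_univ j⟩)
  choose δ hδ using h1
  refine ⟨δ, ?_⟩
  refine Finsupp.ext fun x => ?_
  obtain ⟨c, r, j⟩ := x
  exact hδ c r j

theorem d3a_vexp_inj {δ δ' : Fin (n + 1) → Fin p → Fin (e + 1)} (h : vexp δ = vexp δ') : δ = δ' := by
  funext c r
  have h1 := DFunLike.congr_fun h (c, r, δ c r)
  change (if δ c r = δ c r then 1 else 0) = if δ' c r = δ c r then 1 else 0 at h1
  rw [if_pos rfl] at h1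
  by_contra h2
  rw [if_neg (fun h3 => h2 h3.symm)] at h1
  exact one_ne_zero h1

theorem d3a_prodX (δ : Fin (n + 1) → Fin p → Fin (e + 1)) :
    ∏ z : Fin (n + 1) × Fin p, (X (z.1, z.2, δ z.1 z.2) : Tb p n e) = monomial (vexp δ) 1 := by
  classical
  have h1 : ∏ z : Fin (n + 1) × Fin p, (X (z.1, z.2, δ z.1 z.2) : Tb p n e) =
      monomial (∑ z : Fin (n + 1) × Fin p, Finsupp.single (z.1, z.2, δ z.1 z.2) 1) 1 := by
    rw [monomial_sum_one]
    rfl
  have h0 : ∑ z : Fin (n + 1) × Fin p, Finsupp.single (z.1, z.2, δ z.1 z.2) 1 =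
      (vexp δ : VV p n e →₀ ℕ) := ?_
  · rw [h1, h0]
  refine Finsupp.ext fun x => ?_
  obtain ⟨c, r, j⟩ := x
  rw [Finsupp.finsetSum_apply, Finset.sum_eq_single (c, r)]
  · change Finsupp.single (c, r, δ c r) 1 (c, r, j) = if δ c r = j then 1 else 0
    rw [Finsupp.single_apply]
    simp
  · rintro ⟨c', r'⟩ _ h2
    rw [Finsupp.single_apply, if_neg]
    intro h3
    rw [Prod.mk.injEq, Prod.mk.injEq] at h3
    exact h2 (Prod.ext h3.1 h3.2.1)
  · intro h
    exact absurd (Finset.mem_univ _) h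

theorem d3a_psi_monomial (s : Fin (n' + 1) → Fin (n + 1)) (π : Fin (n + 1) → Fin (n' + 1))
    (δ : Fin (n + 1) → Fin p → Fin (e + 1)) (g : MvPolynomial (YU n e) ℂ)
    (δ' : Fin (n' + 1) → Fin p → Fin (e + 1)) :
    coeff (vexp δ') (d3aPsi s π (monomial (vexp δ) g)) =
      insY s π g * C (∏ z : Fin (n' + 1) × Fin p, insA s π z.1 (δ' z.1 z.2) (δ (s z.1) z.2)) := by
  classical
  have h1 : (monomial (vexp δ) g : Tb p n e) =
      C g * ∏ z : Fin (n + 1) × Fin p, X (z.1, z.2, δ z.1 z.2) := by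
    rw [d3a_prodX, C_mul_monomial, mul_one]
  have h2 : ∏ z : Fin (n + 1) × Fin p, d3aV s π (z.1, z.2, δ z.1 z.2) =
      ∏ z : Fin (n' + 1) × Fin p, ∑ j, (C (C (insA s π z.1 j (δ (s z.1) z.2))) *
        X (z.1, z.2, j) : Tb p n' e) := by
    rw [Fintype.prod_prod_type, Fintype.prod_prod_type]
    rw [← Finset.prod_fiberwise Finset.univ s]
    refine Finset.prod_congr rfl fun c _ => ?_
    unfold d3aV
    rw [Finset.prod_comm]
    refine Finset.prod_congr rfl fun r _ => Finset.prod_congr rfl fun q hq => ?_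
    rw [(Finset.mem_filter.mp hq).2]
  rw [h1, map_mul, map_prod]
  simp only [d3a_psiX, d3a_psiC]
  rw [h2, coeff_C_mul, Finset.prod_univ_sum, coeff_sum]
  congr 1
  rw [Finset.sum_eq_single (fun z => δ' z.1 z.2)]
  · rw [Finset.prod_mul_distrib, d3a_prodX, ← map_prod, coeff_C_mul, coeff_monomial, if_pos rfl,
      mul_one, ← map_prod]
  · intro f _ hf
    rw [Finset.prod_mul_distrib]
    have h5 := d3a_prodX (p := p) (n := n') (e := e) (fun q r => f (q, r))
    have h6 : ∏ z : Fin (n' + 1) × Fin p, (X (z.1, z.2, f z) : Tb p n' e) =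
        monomial (vexp fun q r => f (q, r)) 1 := h5
    rw [h6, ← map_prod, coeff_C_mul, coeff_monomial, if_neg, mul_zero]
    intro h7
    apply hf
    have h8 := d3a_vexp_inj h7
    funext ⟨q, r⟩
    exact congrFun (congrFun h8 q) r
  · intro h
    exact absurd (Fintype.mem_piFinset.mpr fun _ => Finset.mem_univ _) h

theorem d3a_A {s : Fin (n' + 1) → Fin (n + 1)} {π : Fin (n + 1) → Fin (n' + 1)}
    (h : IsIns s π) (δ : Fin (n + 1) → Fin p → Fin (e + 1))
    (δ' : Fin (n' + 1) → Fin p → Fin (e + 1)) :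
    (Allow s π (fun c => δ' (π c)) δ' →
      (∏ z : Fin (n' + 1) × Fin p, insA s π z.1 (δ' z.1 z.2) (δ (s z.1) z.2)) =
        if (fun c => δ' (π c)) = δ then 1 else 0) ∧
    (¬ Allow s π (fun c => δ' (π c)) δ' →
      (∏ z : Fin (n' + 1) × Fin p, insA s π z.1 (δ' z.1 z.2) (δ (s z.1) z.2)) = 0) := by
  classical
  have h1 : (fun c => δ' (π c)) ≠ δ →
      (∏ z : Fin (n' + 1) × Fin p, insA s π z.1 (δ' z.1 z.2) (δ (s z.1) z.2)) = 0 := by
    intro h2
    have h3 : ∃ c r, δ' (π c) r ≠ δ c r := by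
      by_contra h4
      push Not at h4
      exact h2 (funext fun c => funext fun r => h4 c r)
    obtain ⟨c, r, hcr⟩ := h3
    refine Finset.prod_eq_zero (Finset.mem_univ (π c, r)) ?_
    change insA s π (π c) (δ' (π c) r) (δ (s (π c)) r) = 0
    unfold insA
    rw [h.inv, if_neg hcr, if_neg (fun h5 => h5.1 rfl), add_zero]
  constructor
  · intro hA
    by_cases h2 : (fun c => δ' (π c)) = δ
    · rw [if_pos h2]
      refine Finset.prod_eq_one fun z _ => ?_
      obtain ⟨q, r⟩ := z
      change insA s π q (δ' q r) (δ (s q) r) = 1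
      rw [← h2]
      change insA s π q (δ' q r) (δ' (π (s q)) r) = 1
      unfold insA
      rcases hA q r with h3 | h3
      · rw [if_pos h3, if_neg, add_zero]
        rintro ⟨-, h4, h5⟩
        exact h5 (h3.symm.trans h4)
      · by_cases h4 : δ' q r = δ' (π (s q)) r
        · rw [if_pos h4, if_neg, add_zero]
          rintro ⟨-, h5, h6⟩
          exact h6 (h4.symm.trans h5)
        · rw [if_neg h4, if_pos, zero_add]
          exact ⟨h3.1, h3.2, fun h5 => h4 (h3.2.trans h5.symm)⟩
    · rw [if_neg h2]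
      exact h1 h2
  · intro hA
    by_cases h2 : (fun c => δ' (π c)) = δ
    · have h3 : ∃ q r, ¬ (δ' q r = δ' (π (s q)) r ∨ (π (s q) ≠ q ∧ δ' q r = 0)) := by
        by_contra h4
        exact hA fun q r => by_contra fun h5 => h4 ⟨q, r, h5⟩
      obtain ⟨q, r, hqr⟩ := h3
      refine Finset.prod_eq_zero (Finset.mem_univ (q, r)) ?_
      change insA s π q (δ' q r) (δ (s q) r) = 0
      rw [← h2]
      change insA s π q (δ' q r) (δ' (π (s q)) r) = 0
      unfold insA
      rw [if_neg (fun h5 => hqr (Or.inl h5)), if_neg (fun h5 => hqr (Or.inr ⟨h5.1, h5.2.1⟩)),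
        add_zero]
    · exact h1 h2

/-- Proof. Both sides are additive in `F`, and only the `δ` with `δ = δ' ∘ π` matters. One first
checks on variables that `bar (lin (insA s π) (col s F)) = Ψ (bar F)`, where `Ψ` is the ring
homomorphism with `C f ↦ C (insY s π f)` and
`X (c, r, i) ↦ X (π c, r, i) * ∏ q, s q = c, q ≠ π c, (X (q, r, 0) + if i = 0 then 0 else X (q, r, i))`
(the signs: `s 0 = 0`, so the product of the signs `sg q`, `s q = c`, is `sg c`). Then
`Ψ (monomial (vexp δ) f) = C (insY s π f) * ∑ δ', monomial (vexp δ') 1`, the sum over all `δ'` with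
`Allow s π δ δ'` (`Finset.prod_univ_sum`). For `F ∈ Mk` all exponents of `bar F` in the variables `VV` are of
the form `vexp δ`. -/
theorem coeff_ins {s : Fin (n' + 1) → Fin (n + 1)} {π : Fin (n + 1) → Fin (n' + 1)}
    (h : IsIns s π) {k : ℕ} {F : T p n (e + 1)} (hF : F ∈ Mk p n (e + 1) k)
    (δ' : Fin (n' + 1) → Fin p → Fin (e + 1)) :
    (Allow s π (fun c => δ' (π c)) δ' →
      coeff (vexp δ') (bar (lin (insA s π) (col s F))) =
        insY s π (coeff (vexp fun c => δ' (π c)) (bar F))) ∧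
    (¬ Allow s π (fun c => δ' (π c)) δ' →
      coeff (vexp δ') (bar (lin (insA s π) (col s F))) = 0) := by
  classical
  have h1 : ∀ μ ∈ F.support, (Allow s π (fun c => δ' (π c)) δ' →
      coeff (vexp δ') (d3aPsi s π (bar (monomial μ (coeff μ F)))) =
        insY s π (coeff (vexp fun c => δ' (π c)) (bar (monomial μ (coeff μ F))))) ∧
    (¬ Allow s π (fun c => δ' (π c)) δ' →
      coeff (vexp δ') (d3aPsi s π (bar (monomial μ (coeff μ F)))) = 0) := by
    intro μ hμ
    obtain ⟨k1, k2, -, h2⟩ := mem_Mk.mp hF μ (mem_support_iff.mp hμ)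
    obtain ⟨δ, hδ⟩ := d3aE_vexp h2
    obtain ⟨g, hg⟩ := d3a_bar_monomial μ (coeff μ F)
    obtain ⟨h3, h4⟩ := d3a_A h δ δ'
    rw [hg, hδ, d3a_psi_monomial, coeff_monomial]
    constructor
    · intro hA
      rw [h3 hA]
      by_cases h5 : (fun c => δ' (π c)) = δ
      · rw [if_pos h5, if_pos (by rw [h5]), map_one, mul_one]
      · rw [if_neg h5, if_neg (fun h6 => h5 (d3a_vexp_inj h6).symm), map_zero, map_zero, mul_zero]
    · intro hA
      rw [h4 hA, map_zero, mul_zero]
  have h2 : bar (lin (insA s π) (col s F)) =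
      ∑ μ ∈ F.support, d3aPsi s π (bar (monomial μ (coeff μ F))) := by
    rw [d3a_main h]
    conv_lhs => rw [as_sum F]
    rw [map_sum, map_sum]
  have h3 : bar F = ∑ μ ∈ F.support, bar (monomial μ (coeff μ F)) := by
    conv_lhs => rw [as_sum F]
    rw [map_sum]
  constructor
  · intro hA
    rw [h2, h3, coeff_sum, coeff_sum, map_sum]
    exact Finset.sum_congr rfl fun μ hμ => (h1 μ hμ).1 hA
  · intro hA
    rw [h2, coeff_sum]
    exact Finset.sum_eq_zero fun μ hμ => (h1 μ hμ).2 hA

/-- Proof. `insY s π` followed by the substitution of `0` for the variables of the columns outside the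
range of `π` is the renaming `(c, b, i) ↦ (π c, b, i)`, and this substitution does not change the coefficients of
the monomials without these variables. -/
theorem coeff_insY {s : Fin (n' + 1) → Fin (n + 1)} {π : Fin (n + 1) → Fin (n' + 1)}
    (h : IsIns s π) (f : MvPolynomial (YU n e) ℂ) (ω' : YU n' e →₀ ℕ)
    (hω : ∀ q b i, (∀ c, π c ≠ q) → ω' (q, b, i) = 0) :
    coeff ω' (insY s π f) = coeff (Finsupp.equivFunOnFinite.symm fun x => ω' (π x.1, x.2)) f := by
  classical
  have hι : Function.Injective (fun x : YU n e => ((π x.1, x.2) : YU n' e)) := by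
    rintro ⟨c, y⟩ ⟨c', y'⟩ h1
    rw [Prod.mk.injEq] at h1
    exact Prod.ext (h.mono.injective h1.1) h1.2
  have h1 : ω' = (Finsupp.equivFunOnFinite.symm fun x : YU n e => ω' (π x.1, x.2)).mapDomain
      (fun x : YU n e => ((π x.1, x.2) : YU n' e)) := by
    refine Finsupp.ext fun x => ?_
    obtain ⟨q, b, i⟩ := x
    by_cases h2 : ∃ c, π c = q
    · obtain ⟨c, rfl⟩ := h2
      exact (Finsupp.mapDomain_apply hι
        (Finsupp.equivFunOnFinite.symm fun x : YU n e => ω' (π x.1, x.2)) (c, b, i)).symm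
    · rw [Finsupp.mapDomain_of_notMem_range]
      · push Not at h2
        exact hω q b i h2
      · rintro ⟨⟨c, y⟩, h3⟩
        rw [Prod.mk.injEq] at h3
        exact h2 ⟨c, h3.1⟩
  have h2 : killCompl hι (insY s π f) = f := by
    have h3 : (killCompl hι).comp (insY s π) = AlgHom.id ℂ (MvPolynomial (YU n e) ℂ) := by
      refine MvPolynomial.algHom_ext fun x => ?_
      obtain ⟨c, b, i⟩ := x
      have h4 : ∀ (c : Fin (n + 1)) (b : Bool) (i : Fin e),
          killCompl hι (X (π c, b, i) : MvPolynomial (YU n' e) ℂ) = X (c, b, i) := by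
        intro c b i
        have h5 := killCompl_rename_app (R := ℂ) hι (X (c, b, i))
        rwa [rename_X] at h5
      have h5 : ∀ q, s q = c ∧ π c ≠ q → ∀ b i,
          killCompl hι (X (q, b, i) : MvPolynomial (YU n' e) ℂ) = 0 := by
        intro q hq b i
        rw [killCompl, aeval_X, dif_neg]
        rintro ⟨⟨c', y⟩, h6⟩
        rw [Prod.mk.injEq] at h6
        have h7 : c' = c := by
          rw [← hq.1, ← h6.1, h.inv]
        rw [h7] at h6
        exact hq.2 h6.1
      have h6 : ∏ q ∈ Finset.univ.filter (fun q => s q = c ∧ π c ≠ q),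
          killCompl hι (1 + X (q, false, i) : MvPolynomial (YU n' e) ℂ) = 1 := by
        refine Finset.prod_eq_one fun q hq => ?_
        rw [map_add, map_one, h5 q (Finset.mem_filter.mp hq).2, add_zero]
      have h7 : ∏ q ∈ Finset.univ.filter (fun q => s q = c ∧ π c ≠ q),
          killCompl hι (1 + (X (q, false, i) + X (q, true, i)) : MvPolynomial (YU n' e) ℂ) =
            1 := by
        refine Finset.prod_eq_one fun q hq => ?_
        rw [map_add, map_add, map_one, h5 q (Finset.mem_filter.mp hq).2,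
          h5 q (Finset.mem_filter.mp hq).2, add_zero, add_zero]
      rw [AlgHom.comp_apply, insY, aeval_X, AlgHom.id_apply]
      cases b
      · change killCompl hι (X (π c, false, i) *
          ∏ q ∈ Finset.univ.filter (fun q => s q = c ∧ π c ≠ q), (1 + X (q, false, i))) = _
        rw [map_mul, map_prod, h6, mul_one, h4]
      · change killCompl hι ((X (π c, false, i) + X (π c, true, i)) *
          ∏ q ∈ Finset.univ.filter (fun q => s q = c ∧ π c ≠ q),
            (1 + (X (q, false, i) + X (q, true, i))) - X (π c, false, i) *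
          ∏ q ∈ Finset.univ.filter (fun q => s q = c ∧ π c ≠ q), (1 + X (q, false, i))) = _
        rw [map_sub, map_mul, map_mul, map_prod, map_prod, h6, h7, mul_one, mul_one, map_add, h4,
          h4]
        ring
    exact congrArg (fun φ => φ f) h3
  conv_rhs => rw [← h2]
  rw [coeff_killCompl, ← h1]

end Pool.Agent.Helper65.MT
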