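import Pool.Agent.Helper65.MT.H1
import Pool.Agent.Helper65.MT.D2a
import Pool.Agent.Helper65.MT.D3a

/-!
Project MT, piece D3: insertion of decorated zero columns, the leading monomial.
-/

namespace Pool.Agent.Helper65.MT

open MvPolynomial

variable {p n n' e : ℕ}

/-! ## Auxiliary results -/

theorem d3_lex {α : Type} [LinearOrder α] {π : Fin (n + 1) → Fin (n' + 1)}
    {a b : Fin (n + 1) → α} {a' b' : Fin (n' + 1) → α}
    (h : (toLex a : Lex (Fin (n + 1) → α)) < toLex b)
    (ha : ∀ c, a' (π c) = a c) (hb : ∀ c, b' (π c) = b c)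
    (hq : ∀ c, (∀ c' < c, a c' = b c') → ∀ q < π c, a' q = b' q) :
    (toLex a' : Lex (Fin (n' + 1) → α)) < toLex b' := by
  obtain ⟨c, h1, h2⟩ := h
  refine ⟨π c, fun q hq' => hq c h1 q hq', ?_⟩
  change a' (π c) < b' (π c)
  rw [ha, hb]
  exact h2

/-- The columns outside the range of `π` contain no variables. -/
def d3Z (π : Fin (n + 1) → Fin (n' + 1)) (ω : YU n' e →₀ ℕ) : Prop :=
  ∀ q b i, (∀ c, π c ≠ q) → ω (q, b, i) = 0

/-- The restriction of an exponent to the range of `π`. -/
noncomputable def d3R (π : Fin (n + 1) → Fin (n' + 1)) (ω : YU n' e →₀ ℕ) : YU n e →₀ ℕ :=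
  Finsupp.equivFunOnFinite.symm fun x => ω (π x.1, x.2)

@[simp] theorem d3R_apply (π : Fin (n + 1) → Fin (n' + 1)) (ω : YU n' e →₀ ℕ) (x : YU n e) :
    d3R π ω x = ω (π x.1, x.2) := rfl

theorem d3_udeg {π : Fin (n + 1) → Fin (n' + 1)} (hπ : Function.Injective π) {ω : YU n' e →₀ ℕ}
    (h : d3Z π ω) : udeg ω = udeg (d3R π ω) := by
  unfold udeg
  refine (Fintype.sum_of_injective π hπ _ _ ?_ ?_).symm
  · intro q hq
    refine Finset.sum_eq_zero fun i _ => h q true i ?_
    intro c hc
    exact hq ⟨c, hc⟩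
  · intro c
    rfl

theorem d3_ky {π : Fin (n + 1) → Fin (n' + 1)} (hπ : StrictMono π) {ω ω' : YU n' e →₀ ℕ}
    (h : d3Z π ω) (h' : d3Z π ω') (hlt : ky (d3R π ω) < ky (d3R π ω')) : ky ω < ky ω' := by
  refine d3_lex (π := π) hlt (fun c => rfl) (fun c => rfl) ?_
  intro c hc q hq
  by_cases h1 : ∃ c', π c' = q
  · obtain ⟨c', rfl⟩ := h1
    exact hc c' (hπ.lt_iff_lt.mp hq)
  · push Not at h1
    change (toLex fun i => toLex (ω (q, false, i), ω (q, true, i))) =
      toLex fun i => toLex (ω' (q, false, i), ω' (q, true, i))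
    have h2 : ∀ b i, ω (q, b, i) = ω' (q, b, i) := fun b i => by rw [h q b i h1, h' q b i h1]
    simp only [h2]

theorem d3_ext {π : Fin (n + 1) → Fin (n' + 1)} {ω ω' : YU n' e →₀ ℕ}
    (h : d3Z π ω) (h' : d3Z π ω') (heq : d3R π ω = d3R π ω') : ω = ω' := by
  refine Finsupp.ext fun x => ?_
  obtain ⟨q, b, i⟩ := x
  by_cases h1 : ∃ c', π c' = q
  · obtain ⟨c', rfl⟩ := h1
    exact DFunLike.congr_fun heq (c', b, i)
  · push Not at h1
    rw [h q b i h1, h' q b i h1]

theorem d3_map {π : Fin (n + 1) → Fin (n' + 1)} (hπ : Function.Injective π) (ω : YU n e →₀ ℕ) :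
    d3R π (Finsupp.mapDomain (fun y : YU n e => ((π y.1, y.2) : YU n' e)) ω) = ω := by
  have hι : Function.Injective (fun x : YU n e => ((π x.1, x.2) : YU n' e)) := by
    rintro ⟨c, y⟩ ⟨c', y'⟩ h1
    rw [Prod.mk.injEq] at h1
    exact Prod.ext (hπ h1.1) h1.2
  refine Finsupp.ext fun x => ?_
  exact Finsupp.mapDomain_apply hι ω x

theorem d3_mapZ {π : Fin (n + 1) → Fin (n' + 1)} (ω : YU n e →₀ ℕ) :
    d3Z π (Finsupp.mapDomain (fun y : YU n e => ((π y.1, y.2) : YU n' e)) ω) := by
  intro q b i h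
  rw [Finsupp.mapDomain_of_notMem_range]
  rintro ⟨⟨c, y⟩, h3⟩
  rw [Prod.mk.injEq] at h3
  exact h c h3.1

theorem d3_lead_le {F : T p n (e + 1)} {x : Mon p n e} (hx : IsLead (fun F => cb F) key F x)
    {y : Mon p n e} (hy : cb F y ≠ 0) : key y ≤ key x := by
  by_cases h : y = x
  · rw [h]
  · exact (hx.2 y hy h).le

/-- comparison of the tables -/
theorem d3_table {s : Fin (n' + 1) → Fin (n + 1)} {π : Fin (n + 1) → Fin (n' + 1)}
    (h : IsIns s π) {δ : Fin (n + 1) → Fin p → Fin (e + 1)}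
    {δ' : Fin (n' + 1) → Fin p → Fin (e + 1)}
    (hA : Allow s π (fun c => δ' (π c)) δ')
    (hle : (toLex fun c => toLex (δ' (π c)) : Lex (Fin (n + 1) → Lex (Fin p → Fin (e + 1)))) ≤
      toLex fun c => toLex (δ c)) :
    (toLex fun q => toLex (δ' q) : Lex (Fin (n' + 1) → Lex (Fin p → Fin (e + 1)))) ≤
      toLex fun q => toLex (δ (s q)) := by
  have h1 : (toLex fun q => toLex (δ' q) : Lex (Fin (n' + 1) → Lex (Fin p → Fin (e + 1)))) ≤
      toLex fun q => toLex (δ' (π (s q))) := by
    refine Pi.toLex_monotone ?_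
    intro q
    refine Pi.toLex_monotone ?_
    intro r
    rcases hA q r with h2 | h2
    · exact h2.le
    · rw [h2.2]
      exact Fin.zero_le _
  refine h1.trans ?_
  rcases hle.lt_or_eq with h2 | h2
  · refine (d3_lex (π := π) h2 (fun c => ?_) (fun c => ?_) ?_).le
    · rw [h.inv]
    · rw [h.inv]
    · intro c hc q hq
      have h3 : s q < c := h.mono.lt_iff_lt.mp ((h.left q).trans_lt hq)
      exact hc (s q) h3
  · have h3 : ∀ c, toLex (δ' (π c)) = toLex (δ c) := fun c => congrFun (toLex.injective h2) c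
    have h4 : (fun q => toLex (δ' (π (s q)))) = fun q => toLex (δ (s q)) :=
      funext fun q => h3 (s q)
    rw [h4]

/-- Proof. Let `x = (δ, ω)`, `δ₁ q = δ (s q)`, and let `F'` be the restriction of
`lin (insA s π) (col s F) ∈ N.N n' k` to the exponents `μ` with
`wt μ q i.succ = card {r | δ₁ q r = i.succ}` for all `i` and all `q` outside the range of `π` (`res_mem`). By
`cb_res` the coefficient `cb F' (δ', ω')` is
`cb (lin (insA s π) (col s F)) (δ', ω')` if `wb (δ', ω') q i = card {r | δ₁ q r = i.succ}` for these `q, i`,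
and zero otherwise. Suppose that it is not zero. By `coeff_ins` `Allow s π (δ' ∘ π) δ'`, and the
coefficient of `bar F` at `vexp (δ' ∘ π)` is not zero, so `δ' ∘ π ≤ δ` in the lexicographic order
(first component of the key). As `Allow` holds, `δ' ≤ (δ' ∘ π) ∘ s` (each letter is the same or
replaced by `0`), and `(δ' ∘ π) ∘ s ≤ δ ∘ s = δ₁` (if `c` is the first column in which `δ' ∘ π` and `δ` differ,
then `π c` is the first column in which the others differ: `q < π c` implies `π (s q) ≤ q < π c`, `s q < c`).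
So `δ' ≤ δ₁`. If `δ' ≠ δ₁`, the key is smaller. If `δ' = δ₁`, then the columns `q` outside the range of `π` contain
no variables `y`, `u` (the weight is used up by the letters of `δ₁`), and by `coeff_insY`
`cb F' (δ₁, ω') = coeff (ω' ∘ π) (coeff (vexp δ) (bar F)) = cb F (δ, ω' ∘ π)`; so `ω' ∘ π = ω` or the key of
`(δ, ω' ∘ π)` is smaller than that of `(δ, ω)`, and the same holds for `(δ₁, ω')` and `(δ₁, ω₁)`,
`ω₁ = Finsupp.mapDomain (fun y => (π y.1, y.2)) ω` (the same `udeg`; `ky`: as above). -/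
theorem insert_lead (N : Fam p e) {s : Fin (n' + 1) → Fin (n + 1)}
    {π : Fin (n + 1) → Fin (n' + 1)} (h : IsIns s π) {k : ℕ} {F : T p n (e + 1)}
    (hF : F ∈ N.N n k) {x : Mon p n e} (hx : IsLead (fun F => cb F) key F x) :
    ∃ F' ∈ N.N n' k, IsLead (fun F => cb F) key F'
      (fun q => x.1 (s q), Finsupp.mapDomain (fun y => (π y.1, y.2)) x.2) := by
  classical
  obtain ⟨δ, ω⟩ := x
  have hsurj : Function.Surjective s := fun c => ⟨π c, h.inv c⟩
  have hMk : F ∈ Mk p n (e + 1) k := N.le n k hF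
  set G : T p n' (e + 1) := lin (insA s π) (col s F) with hG
  have hGN : G ∈ N.N n' k := N.lin n' k _ _ (N.col n n' k s hsurj F hF)
  set P : (Fin (n' + 1) → Fin e → ℕ) → Prop := fun w =>
    ∀ q, (∀ c, π c ≠ q) → ∀ i, w q i = (Finset.univ.filter fun r => δ (s q) r = i.succ).card with hP
  refine ⟨res (fun μ => P (fun c i => wt μ c i.succ)) G, ?_, ?_⟩
  · exact res_mem (N.N n' k) (fun A F hF => N.lin n' k A F hF)
      (fun w => P (fun c i => w c i.succ)) hGN
  set ω₁ : YU n' e →₀ ℕ := Finsupp.mapDomain (fun y : YU n e => ((π y.1, y.2) : YU n' e)) ω with hω₁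
  have hZ₁ : d3Z π ω₁ := d3_mapZ ω
  have hR₁ : d3R π ω₁ = ω := d3_map h.mono.injective ω
  change IsLead (fun F => cb F) key _ ((fun q => δ (s q), ω₁) : Mon p n' e)
  have hcbG : ∀ (δ' : Fin (n' + 1) → Fin p → Fin (e + 1)) (ω' : YU n' e →₀ ℕ),
      Allow s π (fun c => δ' (π c)) δ' → cb G (δ', ω') =
        coeff ω' (insY s π (coeff (vexp fun c => δ' (π c)) (bar F))) := by
    intro δ' ω' hA
    change coeff ω' (coeff (vexp δ') (bar G)) = _
    rw [hG, (coeff_ins h hMk δ').1 hA]
  constructor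
  · change cb _ _ ≠ 0
    rw [cb_res, if_pos]
    · rw [hcbG]
      · have h1 : (fun c => δ (s (π c))) = δ := funext fun c => by rw [h.inv]
        rw [h1, coeff_insY h _ _ hZ₁]
        change coeff (d3R π ω₁) _ ≠ 0
        rw [hR₁]
        exact hx.1
      · intro q r
        left
        change δ (s q) r = δ (s (π (s q))) r
        rw [h.inv]
    · intro q hq i
      change (Finset.univ.filter fun r => δ (s q) r = i.succ).card + ω₁ (q, false, i) +
        ω₁ (q, true, i) = _
      rw [hZ₁ q false i hq, hZ₁ q true i hq]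
      rfl
  · rintro ⟨δ', ω'⟩ hy hne
    change cb _ _ ≠ 0 at hy
    rw [cb_res] at hy
    by_cases hPy : P (wb (δ', ω'))
    swap
    · rw [if_neg hPy] at hy
      exact absurd rfl hy
    rw [if_pos hPy] at hy
    by_cases hA : Allow s π (fun c => δ' (π c)) δ'
    swap
    · exfalso
      apply hy
      change coeff ω' (coeff (vexp δ') (bar G)) = 0
      rw [hG, (coeff_ins h hMk δ').2 hA, coeff_zero]
    rw [hcbG δ' ω' hA] at hy
    -- the table
    have hne0 : coeff (vexp fun c => δ' (π c)) (bar F) ≠ 0 := by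
      intro h0
      rw [h0, map_zero, coeff_zero] at hy
      exact hy rfl
    obtain ⟨ω'', hω''⟩ := MvPolynomial.ne_zero_iff.mp hne0
    have hk := d3_lead_le hx (y := (fun c => δ' (π c), ω'')) hω''
    have hk1 : (toLex fun c => toLex (δ' (π c)) :
        Lex (Fin (n + 1) → Lex (Fin p → Fin (e + 1)))) ≤ toLex fun c => toLex (δ c) :=
      Prod.Lex.monotone_fst _ _ hk
    have hk2 := d3_table h hA hk1
    rcases hk2.lt_or_eq with hlt | heq
    · exact Prod.Lex.toLex_lt_toLex.mpr (Or.inl hlt)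
    · have hδ : δ' = fun q => δ (s q) := by
        funext q
        exact toLex.injective (congrFun (toLex.injective heq) q)
      subst hδ
      have hδπ : (fun c => δ (s (π c))) = δ := funext fun c => by rw [h.inv]
      have hZ' : d3Z π ω' := by
        intro q b i hq
        have h1 := hPy q hq i
        change (Finset.univ.filter fun r => δ (s q) r = i.succ).card + ω' (q, false, i) +
          ω' (q, true, i) = (Finset.univ.filter fun r => δ (s q) r = i.succ).card at h1
        cases b <;> omega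
      have hy2 : cb F (δ, d3R π ω') ≠ 0 := by
        change coeff (d3R π ω') (coeff (vexp δ) (bar F)) ≠ 0
        change coeff ω' (insY s π (coeff (vexp fun c => δ (s (π c))) (bar F))) ≠ 0 at hy
        rw [hδπ, coeff_insY h _ _ hZ'] at hy
        exact hy
      have hne2 : ((δ, d3R π ω') : Mon p n e) ≠ (δ, ω) := by
        intro h1
        have h2 : d3R π ω' = d3R π ω₁ := by
          rw [hR₁]
          exact (Prod.mk.inj h1).2
        exact hne (by rw [d3_ext hZ' hZ₁ h2])
      have hlt := hx.2 _ hy2 hne2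
      have hlt2 := Prod.Lex.toLex_lt_toLex.mp hlt
      refine Prod.Lex.toLex_lt_toLex.mpr (Or.inr ⟨rfl, ?_⟩)
      rcases hlt2 with h1 | ⟨-, h1⟩
      · exact absurd h1 (lt_irrefl _)
      · rcases Prod.Lex.toLex_lt_toLex.mp h1 with h2 | ⟨h2, h3⟩
        · refine Prod.Lex.toLex_lt_toLex.mpr (Or.inl ?_)
          change OrderDual.toDual (udeg ω') < OrderDual.toDual (udeg ω₁)
          rw [d3_udeg h.mono.injective hZ', d3_udeg h.mono.injective hZ₁, hR₁]
          exact h2
        · refine Prod.Lex.toLex_lt_toLex.mpr (Or.inr ⟨?_, ?_⟩)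
          · change OrderDual.toDual (udeg ω') = OrderDual.toDual (udeg ω₁)
            rw [d3_udeg h.mono.injective hZ', d3_udeg h.mono.injective hZ₁, hR₁]
            exact h2
          · refine d3_ky h.mono hZ' hZ₁ ?_
            rw [hR₁]
            exact h3

end Pool.Agent.Helper65.MT
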