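import Mathlib

/-!
Project MT, piece R2a: peeling off rows.
-/

namespace Pool.Agent.Helper65.MT

/-- Lower and upper bound of the sum by the numbers of full and of nonzero entries. -/
theorem r2a_bounds {ι : Type} [Fintype ι] [DecidableEq ι] (h : ℕ) (hh : 1 ≤ h) (b : ι → ℕ)
    (hb : ∀ c, b c ≤ h) :
    ∃ (T S R : Finset ι), T ⊆ S ∧ (∀ c, c ∈ T ↔ b c = h) ∧ (∀ c, c ∈ S ↔ b c ≠ 0) ∧
      S.card = T.card + R.card ∧
      h * T.card + R.card ≤ ∑ c, b c ∧ ∑ c, b c ≤ h * T.card + (h - 1) * R.card := by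
  classical
  let T : Finset ι := Finset.univ.filter (fun c => b c = h)
  let S : Finset ι := Finset.univ.filter (fun c => b c ≠ 0)
  have hT : ∀ c, c ∈ T ↔ b c = h := by intro c; simp [T]
  have hS : ∀ c, c ∈ S ↔ b c ≠ 0 := by intro c; simp [S]
  have hTS : T ⊆ S := by
    intro c hc
    rw [hS]
    rw [hT] at hc
    omega
  have hsum : ∑ c, b c = ∑ c ∈ S \ T, b c + ∑ c ∈ T, b c := by
    rw [Finset.sum_sdiff hTS]
    symm
    apply Finset.sum_subset (Finset.subset_univ _)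
    intro c _ hc
    rw [hS] at hc
    omega
  have hTsum : ∑ c ∈ T, b c = h * T.card := by
    rw [Finset.sum_congr rfl (fun c hc => (hT c).1 hc), Finset.sum_const, smul_eq_mul, mul_comm]
  refine ⟨T, S, S \ T, hTS, hT, hS, ?_, ?_, ?_⟩
  · have := Finset.card_sdiff_add_card_eq_card hTS
    omega
  · have h1 : (S \ T).card ≤ ∑ c ∈ S \ T, b c := by
      have := Finset.card_nsmul_le_sum (S \ T) b 1 (by
        intro c hc
        have := (hS c).1 (Finset.mem_sdiff.1 hc).1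
        omega)
      simpa using this
    omega
  · have h1 : ∑ c ∈ S \ T, b c ≤ (h - 1) * (S \ T).card := by
      have := Finset.sum_le_card_nsmul (S \ T) b (h - 1) (by
        intro c hc
        have h2 := (Finset.mem_sdiff.1 hc).2
        rw [hT] at h2
        have := hb c
        omega)
      rw [smul_eq_mul, mul_comm] at this
      exact this
    omega


/-- Peeling off one or two rows (even case). Proof. Let `S = {c | b c ≠ 0}` and
`Tt = {c | b c = h}` (then `a c = 0` there), `τ = |Tt|`, `σ = |S|`. We look for an even `J` with `Tt ⊆ J ⊆ S`,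
`2 ≤ |J|` and `|J| + 2 (h - 1) ≤ ∑ b`. Note `∑ b ≥ h τ + (σ - τ)` and `∑ b ≥ 2 h`.
`τ` even, `τ ≥ 2`: `J = Tt`, since `h τ - τ - 2 (h - 1) = (h - 1) (τ - 2) ≥ 0`.
`τ = 0`: `σ ≥ 2`, since `σ ≤ 1` would give `∑ b < 2 h`; `J` = two elements of `S`.
`τ = 1`: `σ ≥ 2` again; `J` = `Tt` and one more element of `S`.
`τ ≥ 3` odd and `σ > τ`: `J` = `Tt` and one more element of `S`; `∑ b ≥ h τ + 1` and
`h τ + 1 - (τ + 1) - 2 (h - 1) = (h - 1) (τ - 2) ≥ 0`.
`τ ≥ 3` odd and `σ = τ`: the second alternative with `J = Tt = S`; `∑ b = h τ` is even, so `h` is even,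
and `h ≥ 2`. -/
theorem peel {ι : Type} [Fintype ι] [DecidableEq ι] (h : ℕ) (hh : 1 ≤ h) (a b : ι → ℕ)
    (hab : ∀ c, a c + b c ≤ h) (h2 : 2 * h ≤ ∑ c, b c) (hev : Even (∑ c, b c)) :
    (∃ J : Finset ι, Even J.card ∧ 2 ≤ J.card ∧ (∀ c ∈ J, b c ≠ 0) ∧
      (∀ c ∉ J, a c = 0 → b c ≤ h - 1) ∧ J.card + 2 * (h - 1) ≤ ∑ c, b c) ∨
    ∃ J : Finset ι, Odd J.card ∧ 3 ≤ J.card ∧ 2 ≤ h ∧ (∀ c ∈ J, b c = h) ∧ ∀ c ∉ J, b c = 0 := by
  have hb : ∀ c, b c ≤ h := fun c => by have := hab c; omega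
  obtain ⟨T, S, R, hTS, hT, hS, hcard, hlow, hup⟩ := r2a_bounds h hh b hb
  obtain ⟨k, rfl⟩ : ∃ k, h = k + 1 := ⟨h - 1, by omega⟩
  simp only [Nat.add_sub_cancel] at hup ⊢
  set τ := T.card with hτ
  set ρ := R.card with hρ
  have key : ∀ n, τ ≤ n → n ≤ S.card → Even n → 2 ≤ n → n + 2 * k ≤ ∑ c, b c →
      ∃ J : Finset ι, Even J.card ∧ 2 ≤ J.card ∧ (∀ c ∈ J, b c ≠ 0) ∧
      (∀ c ∉ J, a c = 0 → b c ≤ k) ∧ J.card + 2 * k ≤ ∑ c, b c := by
    intro n h1 h3 h4 h5 h6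
    obtain ⟨J, hJ1, hJ2, hJ3⟩ := Finset.exists_subsuperset_card_eq hTS h1 h3
    refine ⟨J, by rw [hJ3]; exact h4, by omega, fun c hc => (hS c).1 (hJ2 hc), ?_, by omega⟩
    intro c hc _
    have h7 : c ∉ T := fun h8 => hc (hJ1 h8)
    rw [hT] at h7
    have := hb c
    omega
  rcases Nat.lt_or_ge τ 2 with ht | ht
  · left
    have hρ2 : 2 ≤ τ + ρ := by
      by_contra hcon
      have h3 : τ + ρ ≤ 1 := by omega
      have h4 : (k + 1) * τ + k * ρ ≤ (k + 1) * (τ + ρ) := by nlinarith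
      have h5 : (k + 1) * (τ + ρ) ≤ (k + 1) * 1 := Nat.mul_le_mul_left _ h3
      omega
    exact key 2 (by omega) (by omega) ⟨1, rfl⟩ le_rfl (by omega)
  · obtain ⟨u, hu⟩ : ∃ u, τ = u + 2 := ⟨τ - 2, by omega⟩
    have hku : τ + 2 * k ≤ (k + 1) * τ := by
      rw [hu]; nlinarith [Nat.zero_le (k * u)]
    rcases Nat.even_or_odd τ with hev' | hodd
    · left
      exact key τ le_rfl (by omega) hev' ht (by omega)
    · rcases Nat.eq_zero_or_pos ρ with hρ0 | hρ0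
      · right
        have hsum : ∑ c, b c = (k + 1) * τ := by
          rw [hρ0] at hlow hup
          omega
        rw [hsum] at hev
        have hk : Even (k + 1) := by
          rcases Nat.even_mul.1 hev with h3 | h3
          · exact h3
          · exact absurd h3 (Nat.not_even_iff_odd.2 hodd)
        have hST : S = T := by
          symm
          exact Finset.eq_of_subset_of_card_le hTS (by omega)
        refine ⟨T, hodd, ?_, ?_, fun c hc => (hT c).1 hc, ?_⟩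
        · rcases hodd with ⟨v, hv⟩
          omega
        · rcases hk with ⟨v, hv⟩
          omega
        · intro c hc
          rw [← hST, hS] at hc
          omega
      · left
        exact key (τ + 1) (by omega) (by omega) (by
          rcases hodd with ⟨v, hv⟩
          exact ⟨v + 1, by omega⟩) (by omega) (by omega)

/-- Peeling off one row (odd case). Proof. Let `S = {c | b c ≠ 0}`, `Tt = {c | b c = h}`, `τ = |Tt|`,
`σ = |S|`; `∑ b ≥ h τ + (σ - τ)` and `∑ b ≤ h τ + (h - 1) (σ - τ)`.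
`τ ≥ 3` odd: `J = Tt`. `τ = 1`: `σ ≥ 3`, since `σ ≤ 2` would give `∑ b ≤ h + (h - 1)`; `J` = `Tt` and two more
elements of `S`. `τ = 0`: `σ ≥ 3`; `J` = three elements of `S`. `τ ≥ 2` even: `σ > τ`, since otherwise
`∑ b = h τ` is even; `J` = `Tt` and one more element of `S`, and `∑ b ≥ h τ + 1`. -/
theorem peel_odd {ι : Type} [Fintype ι] [DecidableEq ι] (h : ℕ) (hh : 1 ≤ h) (b : ι → ℕ)
    (hb : ∀ c, b c ≤ h) (h2 : 2 * h + 1 ≤ ∑ c, b c) (hodd : Odd (∑ c, b c)) :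
    ∃ J : Finset ι, Odd J.card ∧ 3 ≤ J.card ∧ (∀ c ∈ J, b c ≠ 0) ∧
      (∀ c ∉ J, b c ≤ h - 1) ∧ J.card + 2 * (h - 1) ≤ ∑ c, b c := by
  obtain ⟨T, S, R, hTS, hT, hS, hcard, hlow, hup⟩ := r2a_bounds h hh b hb
  obtain ⟨k, rfl⟩ : ∃ k, h = k + 1 := ⟨h - 1, by omega⟩
  simp only [Nat.add_sub_cancel] at hup ⊢
  set τ := T.card with hτ
  set ρ := R.card with hρ
  have key : ∀ n, τ ≤ n → n ≤ S.card → Odd n → 3 ≤ n → n + 2 * k ≤ ∑ c, b c →
      ∃ J : Finset ι, Odd J.card ∧ 3 ≤ J.card ∧ (∀ c ∈ J, b c ≠ 0) ∧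
      (∀ c ∉ J, b c ≤ k) ∧ J.card + 2 * k ≤ ∑ c, b c := by
    intro n h1 h3 h4 h5 h6
    obtain ⟨J, hJ1, hJ2, hJ3⟩ := Finset.exists_subsuperset_card_eq hTS h1 h3
    refine ⟨J, by rw [hJ3]; exact h4, by omega, fun c hc => (hS c).1 (hJ2 hc), ?_, by omega⟩
    intro c hc
    have h7 : c ∉ T := fun h8 => hc (hJ1 h8)
    rw [hT] at h7
    have := hb c
    omega
  rcases Nat.lt_or_ge τ 2 with ht | ht
  · have hρ2 : 3 ≤ τ + ρ := by
      by_contra hcon
      have h3 : τ + ρ ≤ 2 := by omega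
      have h4 : (k + 1) * τ + k * ρ ≤ (k + 1) * (τ + ρ) := by nlinarith
      have h5 : (k + 1) * (τ + ρ) ≤ (k + 1) * 2 := Nat.mul_le_mul_left _ h3
      omega
    exact key 3 (by omega) (by omega) ⟨1, rfl⟩ le_rfl (by omega)
  · obtain ⟨u, hu⟩ : ∃ u, τ = u + 2 := ⟨τ - 2, by omega⟩
    have hku : τ + 2 * k ≤ (k + 1) * τ := by
      rw [hu]; nlinarith [Nat.zero_le (k * u)]
    rcases Nat.even_or_odd τ with hev' | hodd'
    · have hρ0 : 1 ≤ ρ := by
        by_contra hcon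
        have h3 : ρ = 0 := by omega
        rw [h3] at hlow hup
        have hsum : ∑ c, b c = (k + 1) * τ := by omega
        rw [hsum] at hodd
        exact (Nat.not_even_iff_odd.2 hodd) (Nat.even_mul.2 (Or.inr hev'))
      exact key (τ + 1) (by omega) (by omega) (by
          rcases hev' with ⟨v, hv⟩
          exact ⟨v, by omega⟩) (by omega) (by omega)
    · exact key τ le_rfl (by omega) hodd' (by rcases hodd' with ⟨v, hv⟩; omega) (by omega)

end Pool.Agent.Helper65.MT
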