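import Pool.Agent.Helper65.MT.R1
import Pool.Agent.Helper65.MT.R2a

/-!
Project MT, piece R2b: products of blocks, leading terms.
-/

namespace Pool.Agent.Helper65.MT

open MvPolynomial

variable {p n e : ℕ}

/-! ## The degree -/

theorem r2b_udeg_add (κ κ' : YU n e →₀ ℕ) : udeg (κ + κ') = udeg κ + udeg κ' := by
  simp only [udeg, Finsupp.add_apply, Finset.sum_add_distrib]

/-- `κ` is the only exponent of minimal degree, with coefficient `a`. -/
def r2b_L (g : MvPolynomial (YU n e) ℂ) (κ : YU n e →₀ ℕ) (a : ℂ) : Prop :=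
  coeff κ g = a ∧ ∀ ω, coeff ω g ≠ 0 → ω ≠ κ → udeg κ < udeg ω

theorem r2b_L_low {g : MvPolynomial (YU n e) ℂ} {κ : YU n e →₀ ℕ} {a : ℂ} (h : r2b_L g κ a)
    (ha : a ≠ 0) : Low g κ := ⟨by rw [h.1]; exact ha, h.2⟩

theorem r2b_low_L {g : MvPolynomial (YU n e) ℂ} {κ : YU n e →₀ ℕ} (h : Low g κ) :
    r2b_L g κ (coeff κ g) := ⟨rfl, h.2⟩

theorem r2b_L_mul {g g' : MvPolynomial (YU n e) ℂ} {κ κ' : YU n e →₀ ℕ} {a a' : ℂ}
    (h : r2b_L g κ a) (h' : r2b_L g' κ' a') : r2b_L (g * g') (κ + κ') (a * a') := by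
  classical
  have key : ∀ x y, coeff x g ≠ 0 → coeff y g' ≠ 0 → (x, y) ≠ (κ, κ') →
      udeg κ + udeg κ' < udeg x + udeg y := by
    intro x y hx hy hne
    by_cases h1 : x = κ
    · have h2 : y ≠ κ' := fun h2 => hne (by rw [h1, h2])
      have h3 := h'.2 y hy h2
      rw [h1]
      omega
    · have h2 := h.2 x hx h1
      by_cases h3 : y = κ'
      · rw [h3]
        omega
      · have h4 := h'.2 y hy h3
        omega
  constructor
  · rw [coeff_mul, Finset.sum_eq_single (κ, κ')]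
    · rw [h.1, h'.1]
    · rintro ⟨x, y⟩ hxy hne
      rw [Finset.HasAntidiagonal.mem_antidiagonal] at hxy
      by_contra hcon
      have h1 := key x y (fun h0 => hcon (by simp only [h0, zero_mul]))
        (fun h0 => hcon (by simp only [h0, mul_zero])) hne
      have h2 : udeg (x + y) = udeg (κ + κ') := congrArg udeg hxy
      rw [r2b_udeg_add, r2b_udeg_add] at h2
      omega
    · intro h1
      rw [Finset.HasAntidiagonal.mem_antidiagonal] at h1
      exact (h1 rfl).elim
  · intro ω hω hne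
    rw [coeff_mul] at hω
    obtain ⟨⟨x, y⟩, hxy, h1⟩ := Finset.exists_ne_zero_of_sum_ne_zero hω
    rw [Finset.HasAntidiagonal.mem_antidiagonal] at hxy
    have h2 := key x y (fun h0 => h1 (by simp only [h0, zero_mul]))
      (fun h0 => h1 (by simp only [h0, mul_zero])) (fun h3 => hne (by
        rw [← hxy]
        exact congrArg (fun z : (YU n e →₀ ℕ) × (YU n e →₀ ℕ) => z.1 + z.2) h3))
    have hxy' : x + y = ω := hxy
    rw [← hxy', r2b_udeg_add, r2b_udeg_add]
    exact h2

theorem r2b_L_add {g g' : MvPolynomial (YU n e) ℂ} {κ : YU n e →₀ ℕ} {a a' : ℂ}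
    (h : r2b_L g κ a) (h' : r2b_L g' κ a') : r2b_L (g + g') κ (a + a') := by
  refine ⟨by rw [coeff_add, h.1, h'.1], fun ω hω hne => ?_⟩
  by_cases h1 : coeff ω g = 0
  · refine h'.2 ω (fun h2 => hω ?_) hne
    rw [coeff_add, h1, h2, add_zero]
  · exact h.2 ω h1 hne

theorem r2b_L_C (a : ℂ) : r2b_L (C a : MvPolynomial (YU n e) ℂ) 0 a := by
  classical
  refine ⟨coeff_zero_C a, fun ω hω hne => ?_⟩
  exfalso
  rw [coeff_C, if_neg (fun h => hne h.symm)] at hω
  exact hω rfl

theorem r2b_L_one : r2b_L (1 : MvPolynomial (YU n e) ℂ) 0 1 := by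
  have h := r2b_L_C (n := n) (e := e) 1
  rwa [C_1] at h

theorem r2b_L_X (x : YU n e) :
    r2b_L (X x : MvPolynomial (YU n e) ℂ) (Finsupp.single x 1) 1 := by
  classical
  refine ⟨by rw [coeff_X, if_pos rfl], fun ω hω hne => ?_⟩
  exfalso
  rw [coeff_X, if_neg (fun h => hne h.symm)] at hω
  exact hω rfl

theorem r2b_udeg_single_true (c : Fin (n + 1)) (i : Fin e) :
    udeg (Finsupp.single ((c, true, i) : YU n e) 1) = 1 := by
  classical
  rw [udeg, Finset.sum_eq_single c, Finset.sum_eq_single i]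
  · simp
  · intro j _ hj
    rw [Finsupp.single_apply, if_neg]
    intro h
    exact hj (congrArg (fun z : YU n e => z.2.2) h).symm
  · intro h
    exact absurd (Finset.mem_univ _) h
  · intro c' _ hc'
    refine Finset.sum_eq_zero fun j _ => ?_
    rw [Finsupp.single_apply, if_neg]
    intro h
    exact hc' (congrArg (fun z : YU n e => z.1) h).symm
  · intro h
    exact absurd (Finset.mem_univ _) h

theorem r2b_udeg_single_false (c : Fin (n + 1)) (i : Fin e) :
    udeg (Finsupp.single ((c, false, i) : YU n e) 1) = 0 := by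
  classical
  rw [udeg]
  refine Finset.sum_eq_zero fun c' _ => Finset.sum_eq_zero fun j _ => ?_
  rw [Finsupp.single_apply, if_neg]
  intro h
  have := congrArg (fun z : YU n e => z.2.1) h
  simp at this

theorem r2b_L_z (c : Fin (n + 1)) (i : Fin e) :
    r2b_L (X (c, false, i) + X (c, true, i) : MvPolynomial (YU n e) ℂ)
      (Finsupp.single (c, false, i) 1) 1 := by
  classical
  constructor
  · rw [coeff_add, coeff_X, coeff_X, if_pos rfl, if_neg, add_zero]
    intro h
    have h1 := congrArg udeg h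
    rw [r2b_udeg_single_true, r2b_udeg_single_false] at h1
    exact one_ne_zero h1
  · intro ω hω hne
    rw [coeff_add, coeff_X, coeff_X, if_neg (fun h => hne h.symm), zero_add] at hω
    have h1 : Finsupp.single ((c, true, i) : YU n e) 1 = ω := by
      by_contra h2
      rw [if_neg h2] at hω
      exact hω rfl
    rw [← h1, r2b_udeg_single_true, r2b_udeg_single_false]
    exact zero_lt_one

theorem r2b_L_prod (Y : Fin (n + 1) → MvPolynomial (YU n e) ℂ)
    (k : Fin (n + 1) → (YU n e →₀ ℕ)) (h : ∀ c, r2b_L (Y c) (k c) 1) :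
    r2b_L (∏ c, Y c) (∑ c, k c) 1 := by
  classical
  have : ∀ s : Finset (Fin (n + 1)), r2b_L (∏ c ∈ s, Y c) (∑ c ∈ s, k c) 1 := by
    intro s
    induction s using Finset.induction_on with
    | empty =>
      rw [Finset.prod_empty, Finset.sum_empty]
      exact r2b_L_one
    | insert c s hc ih =>
      rw [Finset.prod_insert hc, Finset.sum_insert hc]
      have h1 := r2b_L_mul (h c) ih
      rwa [one_mul] at h1
  exact this _

/-! ## Letters -/

/-- The letters `y`. -/
noncomputable def r2b_y (c : Fin (n + 1)) (a : Fin (e + 1)) : MvPolynomial (YU n e) ℂ :=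
  Fin.cases (motive := fun _ => MvPolynomial (YU n e) ℂ) 1 (fun i => X (c, false, i)) a

/-- The letters `z`. -/
noncomputable def r2b_z (c : Fin (n + 1)) (a : Fin (e + 1)) : MvPolynomial (YU n e) ℂ :=
  Fin.cases (motive := fun _ => MvPolynomial (YU n e) ℂ) 1
    (fun i => X (c, false, i) + X (c, true, i)) a

@[simp] theorem r2b_y_zero (c : Fin (n + 1)) : (r2b_y c 0 : MvPolynomial (YU n e) ℂ) = 1 := rfl

@[simp] theorem r2b_z_zero (c : Fin (n + 1)) : (r2b_z c 0 : MvPolynomial (YU n e) ℂ) = 1 := rfl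

@[simp] theorem r2b_y_succ (c : Fin (n + 1)) (i : Fin e) :
    (r2b_y c i.succ : MvPolynomial (YU n e) ℂ) = X (c, false, i) := rfl

@[simp] theorem r2b_z_succ (c : Fin (n + 1)) (i : Fin e) :
    (r2b_z c i.succ : MvPolynomial (YU n e) ℂ) = X (c, false, i) + X (c, true, i) := rfl

theorem r2b_bar_false (c : Fin (n + 1)) (a : Fin (e + 1)) :
    bar (p := p) (X (c, Sum.inr false, a)) = C (r2b_y c a) := by
  rw [bar, aeval_X]
  rfl

theorem r2b_bar_true (c : Fin (n + 1)) (a : Fin (e + 1)) :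
    bar (p := p) (X (c, Sum.inr true, a)) = C (C (sg c) * r2b_z c a) := by
  rw [bar, aeval_X]
  rfl

theorem r2b_bar_br (c : Fin (n + 1)) (i : Fin e) :
    bar (br (p := p) c 0 i.succ) = C (C (sg c) * X (c, true, i)) := by
  rw [br, map_sub, map_mul, map_mul, r2b_bar_false, r2b_bar_false, r2b_bar_true, r2b_bar_true,
    ← C_mul, ← C_mul, ← C_sub]
  congr 1
  rw [r2b_y_zero, r2b_y_succ, r2b_z_zero, r2b_z_succ]
  ring

theorem r2b_sg_sq (c : Fin (n + 1)) : sg c * sg c = 1 := by
  rw [sg]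
  split_ifs <;> norm_num

theorem r2b_sg_ne (c : Fin (n + 1)) : sg c ≠ 0 := by
  rw [sg]
  split_ifs <;> norm_num

/-- A letter of a column. -/
theorem r2b_pick (κ : YU n e →₀ ℕ) (c : Fin (n + 1)) (b : Bool) (h : ∑ i, κ (c, b, i) ≠ 0) :
    ∃ (i : Fin e) (κ' : YU n e →₀ ℕ), κ = Finsupp.single (c, b, i) 1 + κ' := by
  classical
  obtain ⟨i, -, hi⟩ := Finset.exists_ne_zero_of_sum_ne_zero h
  refine ⟨i, κ - Finsupp.single (c, b, i) 1, ?_⟩
  rw [add_tsub_cancel_of_le]
  rw [Finsupp.single_le_iff]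
  omega

theorem r2b_sum_single (c c' : Fin (n + 1)) (b b' : Bool) (i : Fin e) :
    ∑ j, (Finsupp.single ((c, b, i) : YU n e) 1) (c', b', j) = if c = c' ∧ b = b' then 1 else 0 := by
  classical
  simp only [Finsupp.single_apply, Prod.mk.injEq]
  by_cases h : c = c' ∧ b = b'
  · rw [if_pos h, Finset.sum_eq_single i]
    · simp [h]
    · intro j _ hj
      rw [if_neg]
      rintro ⟨-, -, h3⟩
      exact hj h3.symm
    · intro h
      exact absurd (Finset.mem_univ _) h
  · rw [if_neg h]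
    refine Finset.sum_eq_zero fun j _ => if_neg ?_
    rintro ⟨h1, h2, -⟩
    exact h ⟨h1, h2⟩

theorem r2b_sum_apply (k : Fin (n + 1) → (YU n e →₀ ℕ)) (hk : ∀ c x, x.1 ≠ c → k c x = 0)
    (x : YU n e) : (∑ c, k c) x = k x.1 x := by
  classical
  rw [Finsupp.finsetSum_apply, Finset.sum_eq_single x.1]
  · intro c _ hc
    exact hk c x (fun h => hc h.symm)
  · intro h
    exact absurd (Finset.mem_univ _) h

/-- One column, first alternative. -/
theorem r2b_col1 (κ : YU n e →₀ ℕ) (J : Finset (Fin (n + 1))) (c : Fin (n + 1))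
    (hJ : c ∈ J → ∑ i, κ (c, true, i) ≠ 0) [Decidable (c ∈ J)] :
    ∃ (α β : Fin (e + 1)) (k : YU n e →₀ ℕ) (Y Z : MvPolynomial (YU n e) ℂ),
      (∀ x, x.1 ≠ c → k x = 0) ∧ (∀ x, k x ≤ κ x) ∧
      (∑ i, k (c, true, i) = if c ∈ J then 1 else 0) ∧
      (∑ i, k (c, false, i) = if c ∈ J then 0 else if ∑ i, κ (c, false, i) = 0 then 0 else 1) ∧
      (c ∈ J → bar (br (p := p) c α β) = C (C (sg c) * Y) ∧ Z = Y) ∧
      (c ∉ J → bar (X (c, Sum.inr false, α) * X (c, Sum.inr true, β) : T p n (e + 1)) =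
          C (C (sg c) * Y) ∧
        bar (X (c, Sum.inr false, β) * X (c, Sum.inr true, α) : T p n (e + 1)) =
          C (C (sg c) * Z)) ∧
      r2b_L Y k 1 ∧ r2b_L Z k 1 := by
  classical
  by_cases hc : c ∈ J
  · obtain ⟨i, κ', hκ⟩ := r2b_pick κ c true (hJ hc)
    refine ⟨0, i.succ, Finsupp.single (c, true, i) 1, X (c, true, i), X (c, true, i), ?_, ?_, ?_,
      ?_, ?_, ?_, r2b_L_X _, r2b_L_X _⟩
    · intro x hx
      rw [Finsupp.single_apply, if_neg]
      rintro rfl
      exact hx rfl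
    · intro x
      rw [hκ, Finsupp.add_apply]
      exact Nat.le_add_right _ _
    · rw [r2b_sum_single, if_pos ⟨rfl, rfl⟩, if_pos hc]
    · rw [r2b_sum_single, if_neg (by simp), if_pos hc]
    · intro _
      exact ⟨r2b_bar_br c i, rfl⟩
    · intro h
      exact absurd hc h
  · by_cases ha : ∑ i, κ (c, false, i) = 0
    · refine ⟨0, 0, 0, 1, 1, ?_, ?_, ?_, ?_, ?_, ?_, r2b_L_one, r2b_L_one⟩
      · intro x _
        rfl
      · intro x
        exact Nat.zero_le _
      · simp [hc]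
      · simp [hc, ha]
      · intro h
        exact absurd h hc
      · intro _
        have h1 : bar (X (c, Sum.inr false, 0) * X (c, Sum.inr true, 0) : T p n (e + 1)) =
            C (C (sg c) * 1) := by
          rw [map_mul, r2b_bar_false, r2b_bar_true, r2b_y_zero, r2b_z_zero, ← C_mul, one_mul]
        exact ⟨h1, h1⟩
    · obtain ⟨i, κ', hκ⟩ := r2b_pick κ c false ha
      refine ⟨i.succ, 0, Finsupp.single (c, false, i) 1, X (c, false, i),
        X (c, false, i) + X (c, true, i), ?_, ?_, ?_, ?_, ?_, ?_, r2b_L_X _, r2b_L_z c i⟩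
      · intro x hx
        rw [Finsupp.single_apply, if_neg]
        rintro rfl
        exact hx rfl
      · intro x
        rw [hκ, Finsupp.add_apply]
        exact Nat.le_add_right _ _
      · rw [r2b_sum_single, if_neg (by simp), if_neg hc]
      · rw [r2b_sum_single, if_pos ⟨rfl, rfl⟩, if_neg hc, if_neg ha]
      · intro h
        exact absurd h hc
      · intro _
        constructor
        · rw [map_mul, r2b_bar_false, r2b_bar_true, r2b_y_succ, r2b_z_zero, ← C_mul]
          congr 1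
          ring
        · rw [map_mul, r2b_bar_false, r2b_bar_true, r2b_y_zero, r2b_z_succ, ← C_mul]
          congr 1
          ring

/-- One letter or none, for the columns outside `J`. -/
theorem r2b_letter (κ : YU n e →₀ ℕ) (c : Fin (n + 1)) :
    ∃ (α : Fin (e + 1)) (k κ' : YU n e →₀ ℕ), κ = k + κ' ∧ (∀ x, x.1 ≠ c → k x = 0) ∧
      (∑ i, k (c, true, i) = 0) ∧
      (∑ i, k (c, false, i) = if ∑ i, κ (c, false, i) = 0 then 0 else 1) ∧
      r2b_L (r2b_y c α) k 1 ∧ r2b_L (r2b_z c α) k 1 := by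
  classical
  by_cases ha : ∑ i, κ (c, false, i) = 0
  · refine ⟨0, 0, κ, (zero_add κ).symm, fun x _ => rfl, by simp, by simp [ha], ?_, ?_⟩
    · rw [r2b_y_zero]
      exact r2b_L_one
    · rw [r2b_z_zero]
      exact r2b_L_one
  · obtain ⟨i, κ', hκ⟩ := r2b_pick κ c false ha
    refine ⟨i.succ, Finsupp.single (c, false, i) 1, κ', hκ, ?_, ?_, ?_, ?_, ?_⟩
    · intro x hx
      rw [Finsupp.single_apply, if_neg]
      rintro rfl
      exact hx rfl
    · rw [r2b_sum_single, if_neg (by simp)]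
    · rw [r2b_sum_single, if_pos ⟨rfl, rfl⟩, if_neg ha]
    · rw [r2b_y_succ]
      exact r2b_L_X _
    · rw [r2b_z_succ]
      exact r2b_L_z c i

/-- One column, second alternative. -/
theorem r2b_col2 (κ : YU n e →₀ ℕ) (J : Finset (Fin (n + 1))) (c : Fin (n + 1))
    (hJ : c ∈ J → 2 ≤ ∑ i, κ (c, true, i)) [Decidable (c ∈ J)] :
    ∃ (α₁ β₁ α₂ β₂ : Fin (e + 1)) (k : YU n e →₀ ℕ) (Y Z : MvPolynomial (YU n e) ℂ),
      (c ∈ J → α₁ = α₂) ∧
      (∀ x, x.1 ≠ c → k x = 0) ∧ (∀ x, k x ≤ κ x) ∧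
      (∑ i, k (c, true, i) = if c ∈ J then 2 else 0) ∧
      (∑ i, k (c, false, i) = if c ∈ J then 0 else min 2 (∑ i, κ (c, false, i))) ∧
      (c ∈ J → bar (br (p := p) c α₁ β₁ * br c α₂ β₂) = C Y ∧ Z = Y) ∧
      (c ∉ J → bar ((X (c, Sum.inr false, α₁) * X (c, Sum.inr true, β₁)) *
          (X (c, Sum.inr false, β₂) * X (c, Sum.inr true, α₂)) : T p n (e + 1)) = C Y ∧
        bar ((X (c, Sum.inr false, β₁) * X (c, Sum.inr true, α₁)) *
          (X (c, Sum.inr false, α₂) * X (c, Sum.inr true, β₂)) : T p n (e + 1)) = C Z) ∧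
      r2b_L Y k 1 ∧ r2b_L Z k 1 := by
  classical
  have hsg : (C (sg c) * C (sg c) : MvPolynomial (YU n e) ℂ) = 1 := by
    rw [← C_mul, r2b_sg_sq, C_1]
  by_cases hc : c ∈ J
  · obtain ⟨i, κ', hκ⟩ := r2b_pick κ c true (by have := hJ hc; omega)
    have h1 : ∑ i, κ (c, true, i) = 1 + ∑ i, κ' (c, true, i) := by
      rw [hκ]
      simp only [Finsupp.add_apply, Finset.sum_add_distrib]
      rw [r2b_sum_single, if_pos ⟨rfl, rfl⟩]
    obtain ⟨j, κ'', hκ'⟩ := r2b_pick κ' c true (by have := hJ hc; omega)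
    refine ⟨0, i.succ, 0, j.succ, Finsupp.single (c, true, i) 1 + Finsupp.single (c, true, j) 1,
      X (c, true, i) * X (c, true, j), X (c, true, i) * X (c, true, j), fun _ => rfl, ?_, ?_, ?_,
      ?_, ?_, ?_, ?_, ?_⟩
    · intro x hx
      rw [Finsupp.add_apply, Finsupp.single_apply, if_neg (by rintro rfl; exact hx rfl),
        Finsupp.single_apply, if_neg (by rintro rfl; exact hx rfl), add_zero]
    · intro x
      rw [hκ, hκ', ← add_assoc, Finsupp.add_apply _ κ'']
      exact Nat.le_add_right _ _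
    · simp only [Finsupp.add_apply, Finset.sum_add_distrib]
      rw [r2b_sum_single, r2b_sum_single, if_pos ⟨rfl, rfl⟩, if_pos hc]
    · simp only [Finsupp.add_apply, Finset.sum_add_distrib]
      rw [r2b_sum_single, r2b_sum_single, if_neg (by simp), if_pos hc]
    · intro _
      refine ⟨?_, rfl⟩
      rw [map_mul, r2b_bar_br, r2b_bar_br, ← C_mul]
      congr 1
      linear_combination (X (c, true, i) * X (c, true, j)) * hsg
    · intro h
      exact absurd hc h
    · have h2 := r2b_L_mul (r2b_L_X ((c, true, i) : YU n e)) (r2b_L_X ((c, true, j) : YU n e))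
      rwa [one_mul] at h2
    · have h2 := r2b_L_mul (r2b_L_X ((c, true, i) : YU n e)) (r2b_L_X ((c, true, j) : YU n e))
      rwa [one_mul] at h2
  · obtain ⟨α₁, k₁, κ', hκ, hs1, ht1, hf1, hy1, hz1⟩ := r2b_letter κ c
    obtain ⟨α₂, k₂, κ'', hκ', hs2, ht2, hf2, hy2, hz2⟩ := r2b_letter κ' c
    refine ⟨α₁, 0, α₂, 0, k₁ + k₂, r2b_y c α₁ * r2b_z c α₂, r2b_z c α₁ * r2b_y c α₂,
      fun h => absurd h hc, ?_, ?_, ?_, ?_, fun h => absurd h hc, ?_, ?_, ?_⟩
    · intro x hx
      rw [Finsupp.add_apply, hs1 x hx, hs2 x hx]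
    · intro x
      rw [hκ, hκ', ← add_assoc, Finsupp.add_apply _ κ'']
      exact Nat.le_add_right _ _
    · simp only [Finsupp.add_apply, Finset.sum_add_distrib]
      rw [ht1, ht2, if_neg hc]
    · have h3 : ∑ i, κ (c, false, i) = ∑ i, k₁ (c, false, i) + ∑ i, κ' (c, false, i) := by
        rw [hκ]
        simp only [Finsupp.add_apply, Finset.sum_add_distrib]
      simp only [Finsupp.add_apply, Finset.sum_add_distrib]
      rw [if_neg hc]
      rw [hf1] at h3 ⊢
      rw [hf2]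
      split_ifs at h3 ⊢ <;> omega
    · intro _
      constructor
      · rw [map_mul, map_mul, map_mul, r2b_bar_false, r2b_bar_true, r2b_bar_false, r2b_bar_true,
          r2b_y_zero, r2b_z_zero, ← C_mul, ← C_mul, ← C_mul]
        congr 1
        linear_combination (r2b_y c α₁ * r2b_z c α₂) * hsg
      · rw [map_mul, map_mul, map_mul, r2b_bar_false, r2b_bar_true, r2b_bar_false, r2b_bar_true,
          r2b_y_zero, r2b_z_zero, ← C_mul, ← C_mul, ← C_mul]
        congr 1
        linear_combination (r2b_z c α₁ * r2b_y c α₂) * hsg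
    · have h2 := r2b_L_mul hy1 hz2
      rwa [one_mul] at h2
    · have h2 := r2b_L_mul hz1 hy2
      rwa [one_mul] at h2

/-- The sum of the two products. -/
theorem r2b_two (k : Fin (n + 1) → (YU n e →₀ ℕ)) (Y Z : Fin (n + 1) → MvPolynomial (YU n e) ℂ)
    (hY : ∀ c, r2b_L (Y c) (k c) 1) (hZ : ∀ c, r2b_L (Z c) (k c) 1) :
    r2b_L (∏ c, Y c + ∏ c, Z c) (∑ c, k c) (1 + 1) :=
  r2b_L_add (r2b_L_prod Y k hY) (r2b_L_prod Z k hZ)

theorem r2b_udeg_eq (κ : YU n e →₀ ℕ) : udeg κ = ∑ c, ∑ i, κ (c, true, i) := rfl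

/-- The first alternative. -/
theorem r2b_alt1 (κ : YU n e →₀ ℕ) (J : Finset (Fin (n + 1))) (hev : Even J.card)
    (h2 : 2 ≤ J.card) (hJ : ∀ c ∈ J, ∑ i, κ (c, true, i) ≠ 0) :
    ∃ (k : Fin (n + 1) → (YU n e →₀ ℕ)), (∀ c x, x.1 ≠ c → k c x = 0) ∧ (∀ c x, k c x ≤ κ x) ∧
      (∀ c ∈ J, ∑ i, k c (c, true, i) = 1) ∧ (∀ c ∉ J, ∑ i, k c (c, true, i) = 0) ∧
      (∀ c ∈ J, ∑ i, k c (c, false, i) = 0) ∧
      (∀ c ∉ J, ∑ i, κ (c, false, i) ≠ 0 → ∑ i, k c (c, false, i) = 1) ∧
      (∀ c ∉ J, ∑ i, κ (c, false, i) = 0 → ∑ i, k c (c, false, i) = 0) ∧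
      ∃ G ∈ Wn p n (e + 1) ^ 2, ∃ g : MvPolynomial (YU n e) ℂ, bar G = C g ∧
        Low g (∑ c, k c) := by
  classical
  choose α β k Y Z hs hle ht hf hbJ hbN hY hZ using
    fun c => r2b_col1 (p := p) κ J c (hJ c)
  refine ⟨k, hs, hle, fun c hc => by rw [ht, if_pos hc], fun c hc => by rw [ht, if_neg hc],
    fun c hc => by rw [hf, if_pos hc], fun c hc h => by rw [hf, if_neg hc, if_neg h],
    fun c hc h => by rw [hf, if_neg hc, if_pos h], _,
    blk_mem J (Finset.card_pos.mp (by omega)) hev α β,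
    (∏ c : Fin (n + 1), C (sg c)) * (∏ c, Y c + ∏ c, Z c), ?_, ?_⟩
  · have h3 : bar (∏ c ∈ J, br (p := p) c (α c) (β c)) = C (∏ c ∈ J, (C (sg c) * Y c)) := by
      rw [map_prod, map_prod]
      exact Finset.prod_congr rfl fun c hc => (hbJ c hc).1
    have h3' : (∏ c ∈ J, (C (sg c) * Y c)) = ∏ c ∈ J, (C (sg c) * Z c) :=
      Finset.prod_congr rfl fun c hc => by rw [(hbJ c hc).2]
    have h4 : bar (ab (p := p) J α β) = C (∏ c ∈ Jᶜ, (C (sg c) * Y c)) := by
      rw [ab, map_prod, map_prod]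
      exact Finset.prod_congr rfl fun c hc => (hbN c (Finset.mem_compl.mp hc)).1
    have h5 : bar (ab (p := p) J β α) = C (∏ c ∈ Jᶜ, (C (sg c) * Z c)) := by
      rw [ab, map_prod, map_prod]
      exact Finset.prod_congr rfl fun c hc => (hbN c (Finset.mem_compl.mp hc)).2
    rw [map_mul, map_add, h3, h4, h5, ← C_add, ← C_mul]
    congr 1
    rw [mul_add, Finset.prod_mul_prod_compl, h3', Finset.prod_mul_prod_compl,
      Finset.prod_mul_distrib, Finset.prod_mul_distrib, mul_add]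
  · have h3 : (∏ c : Fin (n + 1), C (sg c) : MvPolynomial (YU n e) ℂ) =
        C (∏ c : Fin (n + 1), sg c) := (map_prod C _ _).symm
    rw [h3]
    have h4 := r2b_L_mul (r2b_L_C (n := n) (e := e) (∏ c : Fin (n + 1), sg c))
      (r2b_two k Y Z hY hZ)
    rw [zero_add] at h4
    refine r2b_L_low h4 (mul_ne_zero (Finset.prod_ne_zero_iff.mpr fun c _ => r2b_sg_ne c) ?_)
    norm_num

/-- The second alternative. -/
theorem r2b_alt2 (κ : YU n e →₀ ℕ) (J : Finset (Fin (n + 1))) (hodd : Odd J.card)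
    (h3 : 3 ≤ J.card) (hJ : ∀ c ∈ J, 2 ≤ ∑ i, κ (c, true, i)) :
    ∃ (k : Fin (n + 1) → (YU n e →₀ ℕ)), (∀ c x, x.1 ≠ c → k c x = 0) ∧ (∀ c x, k c x ≤ κ x) ∧
      (∀ c ∈ J, ∑ i, k c (c, true, i) = 2) ∧ (∀ c ∉ J, ∑ i, k c (c, true, i) = 0) ∧
      (∀ c ∈ J, ∑ i, k c (c, false, i) = 0) ∧
      (∀ c ∉ J, ∑ i, k c (c, false, i) = min 2 (∑ i, κ (c, false, i))) ∧
      ∃ G ∈ Wn p n (e + 1) ^ 4, ∃ g : MvPolynomial (YU n e) ℂ, bar G = C g ∧
        Low g (∑ c, k c) := by
  classical
  choose α₁ β₁ α₂ β₂ k Y Z hα hs hle ht hf hbJ hbN hY hZ using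
    fun c => r2b_col2 (p := p) κ J c (hJ c)
  refine ⟨k, hs, hle, fun c hc => by rw [ht, if_pos hc], fun c hc => by rw [ht, if_neg hc],
    fun c hc => by rw [hf, if_pos hc], fun c hc => by rw [hf, if_neg hc], _,
    hblk_mem J hodd h3 α₁ β₁ α₂ β₂ hα, ∏ c, Y c + ∏ c, Z c, ?_, ?_⟩
  · have h4 : bar ((∏ c ∈ J, br (p := p) c (α₁ c) (β₁ c)) * ∏ c ∈ J, br (p := p) c (α₂ c) (β₂ c)) =
        C (∏ c ∈ J, Y c) := by
      rw [← Finset.prod_mul_distrib, map_prod, map_prod]
      exact Finset.prod_congr rfl fun c hc => (hbJ c hc).1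
    have h4' : (∏ c ∈ J, Y c) = ∏ c ∈ J, Z c :=
      Finset.prod_congr rfl fun c hc => by rw [(hbJ c hc).2]
    have h5 : bar (ab (p := p) J α₁ β₁ * ab J β₂ α₂) = C (∏ c ∈ Jᶜ, Y c) := by
      rw [ab, ab, ← Finset.prod_mul_distrib, map_prod, map_prod]
      exact Finset.prod_congr rfl fun c hc => (hbN c (Finset.mem_compl.mp hc)).1
    have h6 : bar (ab (p := p) J β₁ α₁ * ab J α₂ β₂) = C (∏ c ∈ Jᶜ, Z c) := by
      rw [ab, ab, ← Finset.prod_mul_distrib, map_prod, map_prod]
      exact Finset.prod_congr rfl fun c hc => (hbN c (Finset.mem_compl.mp hc)).2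
    rw [map_mul, map_add, h4, h5, h6, ← C_add, ← C_mul]
    congr 1
    rw [mul_add, Finset.prod_mul_prod_compl, h4', Finset.prod_mul_prod_compl]
  · refine r2b_L_low (r2b_two k Y Z hY hZ) ?_
    norm_num

/-- The rest of the exponent. -/
theorem r2b_rest (κ : YU n e →₀ ℕ) (k : Fin (n + 1) → (YU n e →₀ ℕ))
    (hs : ∀ c x, x.1 ≠ c → k c x = 0) (hle : ∀ c x, k c x ≤ κ x) :
    ∃ κ' : YU n e →₀ ℕ, κ = ∑ c, k c + κ' ∧ ∀ c b,
      ∑ i, κ (c, b, i) = ∑ i, k c (c, b, i) + ∑ i, κ' (c, b, i) := by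
  have h1 : ∑ c, k c ≤ κ := by
    intro x
    rw [r2b_sum_apply k hs]
    exact hle _ _
  have h2 : κ = ∑ c, k c + (κ - ∑ c, k c) := (add_tsub_cancel_of_le h1).symm
  refine ⟨κ - ∑ c, k c, h2, fun c b => ?_⟩
  rw [← Finset.sum_add_distrib]
  refine Finset.sum_congr rfl fun i _ => ?_
  have h3 := DFunLike.congr_fun h2 (c, b, i)
  rw [Finsupp.add_apply, r2b_sum_apply k hs] at h3
  exact h3

theorem r2b_low_mul {g g' : MvPolynomial (YU n e) ℂ} {κ κ' : YU n e →₀ ℕ} (h : Low g κ)
    (h' : Low g' κ') : Low (g * g') (κ + κ') :=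
  r2b_L_low (r2b_L_mul (r2b_low_L h) (r2b_low_L h')) (mul_ne_zero h.1 h'.1)

/-- Proof. Induction on `h` (`h = 0`: `κ = 0`, `G = 1`). Let `b c = ∑ i, κ (c, true, i)`, `a c = ∑ i, κ (c, false, i)`, and apply `peel`.
First alternative: choose for `c ∈ J` a letter `β c = i + 1` with `κ (c, true, i) ≠ 0`, and `β c = 0` for
`c ∉ J`; choose for `c ∉ J` with `a c ≠ 0` a letter `α c = i + 1` with `κ (c, false, i) ≠ 0`, and
`α c = 0` otherwise. Let `G₁` be the element of `blk_mem` for `J, α, β` and `κ₁` the exponent with a `1` at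
`(c, true, i)`, `c ∈ J`, `β c = i + 1`, and at `(c, false, i)` if `α c = i + 1`. Then `bar G₁ = C g₁` with
`Low g₁ κ₁`: with `y_0 = z_0 = 1`, `z = y + u` one has `bar (br c 0 (i+1)) = sg c * u_i` and
`bar (ab J α β + ab J β α)` is up to sign the sum of `∏ y_(α c)` and `∏ z_(α c)` over `c ∉ J`, which is
`2 ∏ y_(α c)` plus terms of positive degree in `u`
(the signs `sg c` only contribute a global sign). The exponent `κ - κ₁` satisfies the hypotheses for
`h - 1`; multiply `G₁` by the element for `κ - κ₁` (`Low` is multiplicative: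
`Low g κ → Low g' κ' → Low (g * g') (κ + κ')`).
Second alternative: all `b c = h ≥ 2` for `c ∈ J` and `b c = 0` otherwise, so `a c = 0` for `c ∈ J`.
Choose for `c ∈ J` two letters `β₁ c`, `β₂ c` whose
sum is below `κ (c, true, ·)`; for `c ∉ J` with `a c ≥ 2` two letters `α₁ c, α₂ c` whose sum is below
`κ (c, false, ·)`, for `a c = 1` one letter `α₁ c` and `α₂ c = 0`; all the others are `0`. Use the element of `hblk_mem`
and the induction hypothesis for `h - 2`. -/
theorem ring_low (h : ℕ) (κ : YU n e →₀ ℕ)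
    (h1 : ∀ c, ∑ i, (κ (c, false, i) + κ (c, true, i)) ≤ h) (h2 : 2 * h ≤ udeg κ)
    (hev : Even (udeg κ)) :
    ∃ G ∈ Wn p n (e + 1) ^ (2 * h), ∃ g : MvPolynomial (YU n e) ℂ, bar G = C g ∧ Low g κ := by
  classical
  induction h using Nat.strong_induction_on generalizing κ with
  | _ h ih =>
  have hab : ∀ c, ∑ i, κ (c, false, i) + ∑ i, κ (c, true, i) ≤ h := by
    intro c
    rw [← Finset.sum_add_distrib]
    exact h1 c
  rcases Nat.eq_zero_or_pos h with h0 | hpos
  · subst h0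
    have hκ : κ = 0 := by
      ext ⟨c, b, i⟩
      have h3 := h1 c
      have h4 : κ (c, false, i) + κ (c, true, i) ≤
          ∑ i, (κ (c, false, i) + κ (c, true, i)) :=
        Finset.single_le_sum (f := fun i => κ (c, false, i) + κ (c, true, i))
          (fun _ _ => Nat.zero_le _) (Finset.mem_univ i)
      rw [Finsupp.zero_apply]
      cases b <;> omega
    refine ⟨1, ?_, 1, by rw [map_one, C_1], ?_⟩
    · rw [mul_zero, pow_zero]
      exact Submodule.one_le.mp le_rfl
    · rw [hκ]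
      exact r2b_L_low r2b_L_one one_ne_zero
  · rcases peel h hpos (fun c => ∑ i, κ (c, false, i)) (fun c => ∑ i, κ (c, true, i)) hab h2 hev with
      ⟨J, hJev, hJ2, hJb, hJa, hJs⟩ | ⟨J, hJodd, hJ3, hh2, hJb, hJn⟩
    · obtain ⟨k, hs, hle, htJ, htN, hfJ, hfN, hfN', G₁, hG₁, g₁, hg₁, hlow₁⟩ :=
        r2b_alt1 (p := p) κ J hJev hJ2 hJb
      obtain ⟨κ', hκ, hcol⟩ := r2b_rest κ k hs hle
      have hud : udeg κ = J.card + udeg κ' := by
        rw [r2b_udeg_eq, r2b_udeg_eq, Finset.sum_congr rfl (fun c _ => hcol c true),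
          Finset.sum_add_distrib]
        congr 1
        rw [← Finset.sum_subset (Finset.subset_univ J) (fun c _ hc => htN c hc),
          Finset.sum_congr rfl htJ, Finset.sum_const, smul_eq_mul, mul_one]
      have hJs' : J.card + 2 * (h - 1) ≤ udeg κ := hJs
      obtain ⟨G, hG, g, hg, hlow⟩ := ih (h - 1) (by omega) κ' (by
        intro c
        rw [Finset.sum_add_distrib]
        have h3 := hcol c true
        have h4 := hcol c false
        have h5 := hab c
        by_cases hc : c ∈ J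
        · rw [htJ c hc] at h3
          omega
        · by_cases ha : ∑ i, κ (c, false, i) = 0
          · have h6 : ∑ i, κ (c, true, i) ≤ h - 1 := hJa c hc ha
            omega
          · rw [hfN c hc ha] at h4
            omega) (by omega) (by
        rw [hud] at hev
        exact (Nat.even_add.mp hev).mp hJev)
      refine ⟨G₁ * G, ?_, g₁ * g, by rw [map_mul, hg₁, hg, C_mul], ?_⟩
      · have h3 : 2 * h = 2 + 2 * (h - 1) := by omega
        rw [h3, pow_add]
        exact Submodule.mul_mem_mul hG₁ hG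
      · rw [hκ]
        exact r2b_low_mul hlow₁ hlow
    · obtain ⟨k, hs, hle, htJ, htN, hfJ, hfN, G₁, hG₁, g₁, hg₁, hlow₁⟩ :=
        r2b_alt2 (p := p) κ J hJodd hJ3 (fun c hc => by
          have h3 : ∑ i, κ (c, true, i) = h := hJb c hc
          rw [h3]
          exact hh2)
      obtain ⟨κ', hκ, hcol⟩ := r2b_rest κ k hs hle
      have hud : udeg κ' = J.card * (h - 2) := by
        rw [r2b_udeg_eq]
        have h4 : ∀ c ∉ J, ∑ i, κ' (c, true, i) = 0 := by
          intro c hc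
          have h3 := hcol c true
          have h5 : ∑ i, κ (c, true, i) = 0 := hJn c hc
          omega
        have h6 : ∀ c ∈ J, ∑ i, κ' (c, true, i) = h - 2 := by
          intro c hc
          have h3 := hcol c true
          have h5 : ∑ i, κ (c, true, i) = h := hJb c hc
          rw [htJ c hc] at h3
          omega
        rw [← Finset.sum_subset (Finset.subset_univ J) (fun c _ hc => h4 c hc),
          Finset.sum_congr rfl h6, Finset.sum_const, smul_eq_mul]
      have hud' : udeg κ = J.card * 2 + udeg κ' := by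
        rw [r2b_udeg_eq, r2b_udeg_eq, Finset.sum_congr rfl (fun c _ => hcol c true),
          Finset.sum_add_distrib]
        congr 1
        rw [← Finset.sum_subset (Finset.subset_univ J) (fun c _ hc => htN c hc),
          Finset.sum_congr rfl htJ, Finset.sum_const, smul_eq_mul]
      obtain ⟨G, hG, g, hg, hlow⟩ := ih (h - 2) (by omega) κ' (by
        intro c
        rw [Finset.sum_add_distrib]
        have h3 := hcol c true
        have h4 := hcol c false
        have h5 := hab c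
        by_cases hc : c ∈ J
        · rw [htJ c hc] at h3
          omega
        · rw [hfN c hc] at h4
          have h6 : ∑ i, κ (c, true, i) = 0 := hJn c hc
          omega) (by
        rw [hud]
        exact Nat.mul_le_mul_right _ (by omega)) (by
        rw [hud'] at hev
        exact (Nat.even_add.mp hev).mp (even_two.mul_left _))
      refine ⟨G₁ * G, ?_, g₁ * g, by rw [map_mul, hg₁, hg, C_mul], ?_⟩
      · have h3 : 2 * h = 4 + 2 * (h - 2) := by omega
        rw [h3, pow_add]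
        exact Submodule.mul_mem_mul hG₁ hG
      · rw [hκ]
        exact r2b_low_mul hlow₁ hlow

end Pool.Agent.Helper65.MT
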