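import Pool.Agent.Helper65.MT.S2
import Pool.Agent.Helper65.MT.A1a
import Pool.Agent.Helper65.MT.A1b
import Pool.Agent.Helper65.MT.D2b
import Pool.Agent.Helper65.MT.D3
import Pool.Agent.Helper65.MT.R2b

/-!
Project MT, piece A1: saturated families are generated in bounded degree.
-/

namespace Pool.Agent.Helper65.MT

open MvPolynomial

variable {p e : ℕ}

/-- A sequence of bad degrees that grows fast. -/
theorem a1_seq (P : ℕ → ℕ → Prop) (K : ℕ) (h : ∀ k₂, ∃ n k, k₂ ≤ k ∧ P n k) :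
    ∃ n k : ℕ → ℕ, (∀ j, K ≤ k j) ∧ (∀ j, P (n j) (k j)) ∧
      ∀ i j, i < j → 3 * k i + 6 * K + 6 ≤ k j := by
  choose gn gk h1 h2 using h
  let a : ℕ → ℕ × ℕ := fun j => Nat.rec (gn K, gk K)
    (fun _ q => (gn (3 * q.2 + 6 * K + 6), gk (3 * q.2 + 6 * K + 6))) j
  have a0 : a 0 = (gn K, gk K) := rfl
  have as : ∀ j, a (j + 1) = (gn (3 * (a j).2 + 6 * K + 6), gk (3 * (a j).2 + 6 * K + 6)) :=
    fun _ => rfl
  have hstep : ∀ j, 3 * (a j).2 + 6 * K + 6 ≤ (a (j + 1)).2 := by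
    intro j
    rw [as]
    exact h1 _
  have hmono : ∀ i j, i < j → 3 * (a i).2 + 6 * K + 6 ≤ (a j).2 := by
    intro i j hij
    induction j with
    | zero => omega
    | succ j ih =>
      rcases Nat.lt_succ_iff_lt_or_eq.mp hij with h | h
      · have := ih h
        have := hstep j
        omega
      · subst h
        exact hstep i
  refine ⟨fun j => (a j).1, fun j => (a j).2, ?_, ?_, hmono⟩
  · intro j
    rcases Nat.eq_zero_or_pos j with h | h
    · subst h
      exact h1 K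
    · have := hmono 0 j h
      show K ≤ (a j).2
      omega
  · intro j
    cases j with
    | zero => exact h2 K
    | succ j => exact h2 _

/-- Proof. Suppose not. Let `K` be the number of `few_big`. Choose recursively `k_0 < k_1 < …` and `n_j` with
`¬ N.N n_j (k_j + 1) ≤ Wn * N.N n_j k_j`, `K ≤ k_0`, `3 * k_j + 6 * K + 6 ≤ k_(j+1)`. By `few_big` and `new_lead` there
are `f_j ∈ N.N n_j (k_j + 1)` with leading monomials `x_j` which are not leading monomials of elements of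
`Wn * N.N n_j k_j`, and `x_j` satisfies the hypotheses of `comb_lead` (`N.ord`). Take `i < j`, `s, π, h, κ`
from `comb_lead`, `F' ∈ N.N n_j (k_i + 1)` from `insert_lead` for `f_i`, and
`G ∈ Wn ^ (2 * h)` from `ring_low`. By `mul_lead` the leading monomial of `G * F'` is
`((x i).1 ∘ s, κ + mapDomain (x i).2) = x_j`, and `G * F' ∈ Wn ^ (2 * h) * N.N n_j (k_i + 1) ≤ Wn * N.N n_j k_j`
(`Wn_pow_succ_mul_le`, `k_i + 1 + (2 * h - 1) = k_j`), contradiction. -/
theorem sat_gen (N : SFam p e) : ∃ k₂, ∀ n k, k₂ ≤ k →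
    N.N n (k + 1) ≤ Wn p n (e + 1) * N.N n k := by
  obtain ⟨K, hK⟩ := few_big N
  by_contra hcon
  have hbad : ∀ k₂, ∃ n k, k₂ ≤ k ∧ ¬ (N.N n (k + 1) ≤ Wn p n (e + 1) * N.N n k) := by
    intro k₂
    by_contra h
    push Not at h
    exact hcon ⟨k₂, h⟩
  obtain ⟨n, k, hKk, hP, hk⟩ :=
    a1_seq (fun n k => ¬ (N.N n (k + 1) ≤ Wn p n (e + 1) * N.N n k)) K hbad
  have hex : ∀ j, ∃ x : Mon p (n j) e, ∃ f ∈ N.N (n j) (k j + 1),
      IsLead (fun F => cb F) key f x ∧
      (∀ c, 2 * ∑ i, wb x c i ≤ k j + 1 + 2 * K) ∧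
      (∑ c, (∑ i, wb x c i - K) < k j + 1) ∧
      ∀ H ∈ Wn p (n j) (e + 1) * N.N (n j) (k j), ¬ IsLead (fun F => cb F) key H x := by
    intro j
    obtain ⟨F, hF, hF', lam, hlam, h2, h3⟩ := hK (n j) (k j) (hKk j) (hP j)
    obtain ⟨f, hf, x, hx, hwb, hno⟩ := new_lead N hF hF' lam hlam
    refine ⟨x, f, hf, hx, ?_, ?_, hno⟩
    · rw [hwb]; exact h2
    · rw [hwb]; exact h3
  choose x f hf hx h2 h3 hno using hex
  have hu : ∀ j, k j + 1 ≤ udeg (x j).2 := fun j =>
    N.ord (n j) (k j + 1) (f j) (hf j) (x j) (hx j).1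
  obtain ⟨i, j, hij, s, π, hins, htab, h, κ, hh, hkk, hκ, hcs, hud, hev⟩ :=
    comb_lead K n k x hk hu h2 h3
  obtain ⟨F', hF', hlead⟩ := insert_lead N.toFam hins (hf i) (hx i)
  obtain ⟨G, hG, g, hbar, hlow⟩ := ring_low (p := p) h κ hcs hud hev
  have hml := mul_lead hbar hlow hlead
  have hxj : ((fun q => (x i).1 (s q)),
      κ + Finsupp.mapDomain (fun y : Fin (n i + 1) × Bool × Fin e => (π y.1, y.2)) (x i).2) =
      x j := by
    refine Prod.ext ?_ hκ
    funext q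
    exact htab q
  have hml' : IsLead (fun F => cb F) key (G * F') (x j) := by
    rw [← hxj]
    exact hml
  refine hno j (G * F') ?_ hml'
  have hmem : G * F' ∈ Wn p (n j) (e + 1) ^ (2 * h) * N.N (n j) (k i + 1) :=
    Submodule.mul_mem_mul hG hF'
  have hle := Wn_pow_succ_mul_le N.toFam (n j) (k i + 1) (2 * h - 1)
  have e1 : 2 * h - 1 + 1 = 2 * h := by omega
  have e2 : k i + 1 + (2 * h - 1) = k j := by omega
  rw [e1, e2] at hle
  exact hle hmem

end Pool.Agent.Helper65.MT
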