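import Pool.Agent.Helper65.MT.Defs2
import Pool.Agent.Helper77.DSR.Main

/-!
Project MT, piece B1: from `W^{⊗ p} ⊗ Sym(W)` to the model.
-/

namespace Pool.Agent.Helper65.MT

open MvPolynomial Helper77

noncomputable section

variable {p n n' m m' : ℕ}

/-- The map from `W^{⊗ p} ⊗ Sym(W)` to the model. -/
def phi : ((Fin p → Fin (n + 1) → Fin m) → MvPolynomial (Fin (n + 1) → Fin m) ℂ) →ₗ[ℂ] T p n m where
  toFun c := ∑ s : Fin p → Fin (n + 1) → Fin m,
    (∏ i, ∏ r, X (i, Sum.inl r, s r i)) * aeval xx (c s)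
  map_add' c c' := by
    rw [← Finset.sum_add_distrib]
    refine Finset.sum_congr rfl fun s _ => ?_
    rw [Pi.add_apply, map_add, mul_add]
  map_smul' a c := by
    rw [RingHom.id_apply, Finset.smul_sum]
    refine Finset.sum_congr rfl fun s _ => ?_
    rw [Pi.smul_apply, map_smul, mul_smul_comm]

theorem phi_apply (c : (Fin p → Fin (n + 1) → Fin m) → MvPolynomial (Fin (n + 1) → Fin m) ℂ) :
    phi c = ∑ s : Fin p → Fin (n + 1) → Fin m,
      (∏ i, ∏ r, X (i, Sum.inl r, s r i)) * aeval xx (c s) := rfl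

/-- The point at which `phi c` is evaluated to isolate `c s`. -/
private def pt (s : Fin p → Fin (n + 1) → Fin m) (a b : Fin (n + 1) → Fin m → ℂ)
    (x : Var p n m) : ℂ :=
  match x with
  | (i, Sum.inl r, j) => if s r i = j then 1 else 0
  | (i, Sum.inr false, j) => a i j
  | (i, Sum.inr true, j) => b i j

/-- Proof. The monomials `∏ i, ∏ r, X (i, inl r, s r i)` are different for different `s` and involve other
variables than `aeval xx (c s)`, so `phi c = 0` implies `aeval xx (c s) = 0` for all `s`; evaluate at the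
point `X (i, inr false, j) ↦ a i j`, `X (i, inr true, j) ↦ b i j`. -/
theorem phi_eq_zero {c : (Fin p → Fin (n + 1) → Fin m) → MvPolynomial (Fin (n + 1) → Fin m) ℂ}
    (h : phi c = 0) (s : Fin p → Fin (n + 1) → Fin m) (a b : Fin (n + 1) → Fin m → ℂ) :
    eval (fun α => ∏ i, a i (α i) + ∏ i, b i (α i)) (c s) = 0 := by
  classical
  have h1 : aeval (pt s a b) (phi c) = 0 := by rw [h, map_zero]
  rw [phi_apply, map_sum, Finset.sum_eq_single s] at h1
  · rw [map_mul, map_prod, Finset.prod_eq_one, one_mul, comp_aeval_apply] at h1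
    · have h2 : (fun α : Fin (n + 1) → Fin m => aeval (pt s a b) (xx α)) =
          fun α => ∏ i, a i (α i) + ∏ i, b i (α i) := by
        funext α
        rw [xx, map_add, map_prod, map_prod]
        simp only [aeval_X, pt]
      rw [h2] at h1
      rwa [← coe_aeval_eq_eval, RingHom.coe_coe]
    · intro i _
      rw [map_prod, Finset.prod_eq_one]
      intro r _
      rw [aeval_X]
      simp [pt]
  · intro t _ ht
    obtain ⟨r, hr⟩ := Function.ne_iff.mp ht
    obtain ⟨i, hi⟩ := Function.ne_iff.mp hr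
    rw [map_mul, map_prod, Finset.prod_eq_zero (Finset.mem_univ i), zero_mul]
    rw [map_prod, Finset.prod_eq_zero (Finset.mem_univ r)]
    rw [aeval_X]
    simp only [pt]
    rw [if_neg]
    exact fun h3 => hi h3.symm
  · intro h2
    exact absurd (Finset.mem_univ s) h2

theorem phi_mul (α : Fin (n + 1) → Fin m)
    (c : (Fin p → Fin (n + 1) → Fin m) → MvPolynomial (Fin (n + 1) → Fin m) ℂ) :
    phi (fun s => X α * c s) = xx α * phi c := by
  rw [phi_apply, phi_apply, Finset.mul_sum]
  refine Finset.sum_congr rfl fun s _ => ?_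
  rw [map_mul, aeval_X]
  ring

private theorem lmap_X' (A : Fin (n + 1) → Fin m' → Fin m → ℂ) (α : Fin (n + 1) → Fin m) :
    DI.lmap (V := fun _ => Fin m) (V' := fun _ => Fin m') A (X α) =
      ∑ β : Fin (n + 1) → Fin m', C (∏ i, A i (β i) (α i)) * X β := by
  classical
  rw [DI.lmap, aeval_X, finsum_eq_sum_of_fintype]
  refine Finset.sum_congr rfl fun β _ => ?_
  rw [finprod_eq_prod_of_fintype]

private theorem lin_aeval (A : Fin (n + 1) → Fin m' → Fin m → ℂ)
    (f : MvPolynomial (Fin (n + 1) → Fin m) ℂ) :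
    lin (p := p) A (aeval xx f) =
      aeval xx (DI.lmap (V := fun _ => Fin m) (V' := fun _ => Fin m') A f) := by
  have h : (lin (p := p) A).comp (aeval xx) =
      (aeval xx : MvPolynomial (Fin (n + 1) → Fin m') ℂ →ₐ[ℂ] T p n m').comp
        (DI.lmap (V := fun _ => Fin m) (V' := fun _ => Fin m') A) := by
    refine MvPolynomial.algHom_ext fun α => ?_
    rw [AlgHom.comp_apply, AlgHom.comp_apply, aeval_X, lin_xx, lmap_X', map_sum]
    refine Finset.sum_congr rfl fun β _ => ?_
    rw [map_mul, aeval_X, ← algebraMap_eq, ← algebraMap_eq, AlgHom.commutes]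
  exact congrArg (fun φ => φ f) h

private theorem prod_sum' {R : Type} [CommSemiring R]
    (g : Fin (n + 1) → Fin p → Fin m → R) :
    ∏ i, ∏ r, ∑ j, g i r j =
      ∑ s : Fin p → Fin (n + 1) → Fin m, ∏ i, ∏ r, g i r (s r i) := by
  classical
  rw [Finset.prod_comm]
  have h1 : ∀ r, ∏ i, ∑ j, g i r j = ∑ t : Fin (n + 1) → Fin m, ∏ i, g i r (t i) := by
    intro r
    rw [Finset.prod_univ_sum, Fintype.piFinset_univ]
  simp only [h1]
  rw [Finset.prod_univ_sum, Fintype.piFinset_univ]
  refine Finset.sum_congr rfl fun s _ => ?_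
  rw [Finset.prod_comm]

/-- Proof. `lin A` of a product of variables is the sum of the products with the matrix entries (as in
`lin_xx`), and `lin A (aeval xx f) = aeval xx (lmap A f)` by `lin_xx`. -/
theorem phi_pact (A : Fin (n + 1) → Fin m' → Fin m → ℂ)
    (c : (Fin p → Fin (n + 1) → Fin m) → MvPolynomial (Fin (n + 1) → Fin m) ℂ) :
    phi (DS.pact A c) = lin A (phi c) := by
  classical
  rw [phi_apply, phi_apply, map_sum]
  have h1 : ∀ s : Fin p → Fin (n + 1) → Fin m,
      lin (p := p) A (∏ i, ∏ r, X (i, Sum.inl r, s r i)) =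
        ∑ s' : Fin p → Fin (n + 1) → Fin m', C (∏ r, ∏ i, A i (s' r i) (s r i)) *
          ∏ i, ∏ r, X (i, Sum.inl r, s' r i) := by
    intro s
    have h2 : lin (p := p) A (∏ i, ∏ r, X (i, Sum.inl r, s r i)) =
        ∏ i, ∏ r, ∑ j, C (A i j (s r i)) * X (i, Sum.inl r, j) := by
      rw [map_prod]
      refine Finset.prod_congr rfl fun i _ => ?_
      rw [map_prod]
      refine Finset.prod_congr rfl fun r _ => ?_
      rw [lin_X]
    rw [h2, prod_sum']
    refine Finset.sum_congr rfl fun s' _ => ?_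
    simp only [Finset.prod_mul_distrib, map_prod]
    rw [Finset.prod_comm]
  simp only [map_mul, h1, lin_aeval, DS.pact, map_sum, Finset.sum_mul, Finset.mul_sum]
  rw [Finset.sum_comm]
  refine Finset.sum_congr rfl fun s _ => Finset.sum_congr rfl fun s' _ => ?_
  have h3 : aeval (xx : (Fin (n + 1) → Fin m') → T p n m')
      (C (∏ r, ∏ i, A i (s' r i) (s r i)) : MvPolynomial (Fin (n + 1) → Fin m') ℂ) =
      C (∏ r, ∏ i, A i (s' r i) (s r i)) := by
    rw [← algebraMap_eq, AlgHom.commutes, algebraMap_eq]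
  rw [h3]
  ring

/-- Proof. `col_xx`, and the analogue for the products of the variables `X (i, inl r, s r i)`. -/
theorem phi_pcol (s : Fin (n' + 1) → Fin (n + 1))
    (c : (Fin p → Fin (n + 1) → Fin m) → MvPolynomial (Fin (n + 1) → Fin m) ℂ) :
    phi (DS.pcol s c) = col s (phi c) := by
  classical
  rw [phi_apply, phi_apply, map_sum]
  have h1 : ∀ t : Fin p → Fin (n + 1) → Fin m,
      col (p := p) s (∏ i, ∏ r, X (i, Sum.inl r, t r i)) =
        ∏ q, ∏ r, X (q, Sum.inl r, t r (s q)) := by
    intro t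
    rw [← Finset.prod_fiberwise Finset.univ s, map_prod]
    refine Finset.prod_congr rfl fun i _ => ?_
    rw [map_prod, Finset.prod_comm]
    refine Finset.prod_congr rfl fun r _ => ?_
    rw [col_X]
    refine Finset.prod_congr rfl fun q hq => ?_
    rw [(Finset.mem_filter.mp hq).2]
  have h2 : ∀ f : MvPolynomial (Fin (n + 1) → Fin m) ℂ,
      col (p := p) s (aeval xx f) = aeval xx (rename (fun α j => α (s j)) f) := by
    intro f
    rw [comp_aeval_apply, aeval_rename]
    congr 2
    funext α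
    exact col_xx s α
  simp only [map_mul, h1, h2, DS.pcol, map_sum, Finset.mul_sum]
  refine Finset.sum_comm.trans (Finset.sum_congr (by ext t; simp) fun t _ => ?_)
  rw [Finset.sum_eq_single (fun r j => t r (s j))]
  · rw [if_pos rfl]
  · intro t' _ ht'
    rw [if_neg (fun h3 => ht' h3.symm), map_zero, mul_zero]
  · intro h3
    exact absurd (Finset.mem_univ _) h3

/-- Proof. `aeval xx` maps monomials of degree `k` to products of `k` elements `xx α`. -/
theorem phi_mem_Rk {k : ℕ}
    {c : (Fin p → Fin (n + 1) → Fin m) → MvPolynomial (Fin (n + 1) → Fin m) ℂ}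
    (hc : ∀ s, (c s).IsHomogeneous k) : phi c ∈ Rk p n m k := by
  classical
  rw [phi_apply]
  refine Submodule.sum_mem _ fun s _ => ?_
  refine Submodule.mul_mem_mul (Submodule.subset_span ⟨fun i r => s r i, rfl⟩) ?_
  rw [as_sum (c s), map_sum]
  refine Submodule.sum_mem _ fun μ hμ => ?_
  have h1 : μ.degree = k := by
    have h2 := hc s (mem_support_iff.mp hμ)
    rw [Finsupp.degree_eq_weight_one]
    exact h2
  rw [aeval_monomial, ← Algebra.smul_def]
  refine Submodule.smul_mem _ _ ?_
  rw [← h1]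
  clear h1 hμ
  induction μ using Finsupp.induction with
  | zero =>
    rw [Finsupp.prod_zero_index, map_zero, pow_zero]
    exact Submodule.one_le.mp le_rfl
  | single_add x k μ hx hk ih =>
    rw [Finsupp.prod_add_index' (h := fun i k => (xx i : T p n m) ^ k) (fun _ => pow_zero _)
      (fun _ _ _ => pow_add _ _ _),
      Finsupp.prod_single_index (h := fun i k => (xx i : T p n m) ^ k) (pow_zero _),
      map_add, pow_add]
    refine Submodule.mul_mem_mul ?_ ih
    rw [Finsupp.degree_single]
    exact Submodule.pow_mem_pow _ (xx_mem_Wn x) k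

/-- The family of submodules of the model of an `SMod`. -/
def SMod.toZ (M : SMod p) : ZFam p where
  Z n m k :=
    { carrier := {F | ∃ c ∈ M.S n m, (∀ s, (c s).IsHomogeneous k) ∧ phi c = F}
      zero_mem' := ⟨0, Submodule.zero_mem _, fun s => isHomogeneous_zero _ _ _, map_zero _⟩
      add_mem' := by
        rintro F G ⟨c, h1, h2, rfl⟩ ⟨c', h1', h2', rfl⟩
        exact ⟨c + c', Submodule.add_mem _ h1 h1', fun s => (h2 s).add (h2' s), map_add _ _ _⟩
      smul_mem' := by
        rintro a F ⟨c, h1, h2, rfl⟩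
        refine ⟨a • c, Submodule.smul_mem _ _ h1, fun s => ?_, map_smul _ _ _⟩
        rw [Pi.smul_apply, smul_eq_C_mul]
        exact (h2 s).C_mul a }
  le n m k := by
    rintro F ⟨c, -, h2, rfl⟩
    exact phi_mem_Rk h2
  mul n m k α F := by
    rintro ⟨c, h1, h2, rfl⟩
    refine ⟨fun s => X α * c s, M.mul n m c h1 α, fun s => ?_, phi_mul α c⟩
    have h3 := (isHomogeneous_X ℂ α).mul (h2 s)
    rwa [add_comm 1 k] at h3
  lin n m m' k A F := by
    rintro ⟨c, h1, h2, rfl⟩
    exact ⟨DS.pact A c, M.lin n m m' A c h1, fun s => DS.pact_homog A h2 s, phi_pact A c⟩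
  col n n' m k s hs F := by
    rintro ⟨c, h1, h2, rfl⟩
    exact ⟨DS.pcol s c, M.col n n' m s hs c h1, fun t => DS.pcol_homog s h2 t, phi_pcol s c⟩

end

end Pool.Agent.Helper65.MT
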