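import Pool.Agent.Helper65.MT.Defs

/-!
Project MT: basic lemmas.
-/

namespace Pool.Agent.Helper65.MT

open MvPolynomial

/-! ## Supports -/

section supp

variable {σ τ M : Type}

theorem mem_rs {S : Set (σ →₀ ℕ)} {F : MvPolynomial σ ℂ} :
    F ∈ restrictSupport ℂ S ↔ ∀ μ, coeff μ F ≠ 0 → μ ∈ S := by
  rw [mem_restrictSupport_iff]
  constructor
  · intro h μ hμ
    exact h (mem_support_iff.mpr hμ)
  · intro h μ hμ
    exact h μ (mem_support_iff.mp hμ)

theorem mul_mem_rs {A B S : Set (σ →₀ ℕ)} (h : ∀ a ∈ A, ∀ b ∈ B, a + b ∈ S)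
    {F G : MvPolynomial σ ℂ} (hF : F ∈ restrictSupport ℂ A) (hG : G ∈ restrictSupport ℂ B) :
    F * G ∈ restrictSupport ℂ S := by
  classical
  rw [mem_restrictSupport_iff] at hF hG ⊢
  intro μ hμ
  obtain ⟨a, ha, b, hb, rfl⟩ := Finset.mem_add.mp (support_mul F G hμ)
  exact h a (hF ha) b (hG hb)

theorem one_mem_rs {S : Set (σ →₀ ℕ)} (h : 0 ∈ S) : (1 : MvPolynomial σ ℂ) ∈ restrictSupport ℂ S := by
  have h1 : (1 : MvPolynomial σ ℂ) = monomial 0 1 := rfl
  rw [h1, monomial_mem_restrictSupport]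
  exact Or.inl h

theorem prod_mem_rs [AddCommMonoid M] (g : (σ →₀ ℕ) →+ M) {κ : Type} (s : Finset κ)
    (F : κ → MvPolynomial σ ℂ) (D : κ → M)
    (h : ∀ i ∈ s, F i ∈ restrictSupport ℂ {ν | g ν = D i}) :
    ∏ i ∈ s, F i ∈ restrictSupport ℂ {ν | g ν = ∑ i ∈ s, D i} := by
  classical
  induction s using Finset.induction_on with
  | empty =>
    rw [Finset.prod_empty]
    refine one_mem_rs ?_
    simp
  | insert a s ha ih =>
    rw [Finset.prod_insert ha, Finset.sum_insert ha]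
    refine mul_mem_rs ?_ (h a (Finset.mem_insert_self a s))
      (ih fun i hi => h i (Finset.mem_insert_of_mem hi))
    intro x hx y hy
    change g (x + y) = _
    rw [map_add, hx, hy]

theorem pow_mem_rs [AddCommMonoid M] (g : (σ →₀ ℕ) →+ M) (F : MvPolynomial σ ℂ) (D : M)
    (h : F ∈ restrictSupport ℂ {ν | g ν = D}) (k : ℕ) :
    F ^ k ∈ restrictSupport ℂ {ν | g ν = k • D} := by
  have h1 := prod_mem_rs g (Finset.range k) (fun _ => F) (fun _ => D) (fun _ _ => h)
  simpa using h1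

/-- The degrees of the images of monomials under a homomorphism. -/
theorem hom_mem_rs [AddCommMonoid M] (φ : MvPolynomial σ ℂ →ₐ[ℂ] MvPolynomial τ ℂ)
    (g : (τ →₀ ℕ) →+ M) (D : σ → M) (h : ∀ x, φ (X x) ∈ restrictSupport ℂ {ν | g ν = D x})
    (μ : σ →₀ ℕ) (a : ℂ) :
    φ (monomial μ a) ∈ restrictSupport ℂ {ν | g ν = μ.sum fun x k => k • D x} := by
  rw [monomial_eq, map_mul]
  have h1 : φ (C a) = a • 1 := by
    rw [← algebraMap_eq, AlgHom.commutes, Algebra.algebraMap_eq_smul_one]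
  rw [h1, smul_mul_assoc, one_mul]
  refine Submodule.smul_mem _ _ ?_
  rw [Finsupp.prod, map_prod]
  refine prod_mem_rs g _ _ _ fun x _ => ?_
  rw [map_pow]
  exact pow_mem_rs g _ _ (h x) _

theorem map_mem_rs {S : Set (σ →₀ ℕ)} {N : Submodule ℂ (MvPolynomial τ ℂ)}
    (φ : MvPolynomial σ ℂ →ₗ[ℂ] MvPolynomial τ ℂ) (h : ∀ μ ∈ S, ∀ a, φ (monomial μ a) ∈ N)
    {F : MvPolynomial σ ℂ} (hF : F ∈ restrictSupport ℂ S) : φ F ∈ N := by
  rw [as_sum F, map_sum]
  refine Submodule.sum_mem _ fun μ hμ => h μ ?_ _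
  exact mem_rs.mp hF μ (mem_support_iff.mp hμ)

end supp

variable {p n n' m m' m'' : ℕ}

/-! ## Degrees -/

/-- The multidegree as a homomorphism. -/
def mdH (p n m : ℕ) : (Var p n m →₀ ℕ) →+ (Fin (n + 1) × Slot p → ℕ) where
  toFun := md
  map_zero' := by
    funext x
    simp [md]
  map_add' μ ν := by
    funext x
    simp [md, Finset.sum_add_distrib]

@[simp] theorem mdH_apply (μ : Var p n m →₀ ℕ) : mdH p n m μ = md μ := rfl

theorem md_add (μ ν : Var p n m →₀ ℕ) : md (μ + ν) = md μ + md ν := (mdH p n m).map_add μ ν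

/-- The weight as a homomorphism. -/
def wtH (p n m : ℕ) : (Var p n m →₀ ℕ) →+ (Fin (n + 1) → Fin m → ℕ) where
  toFun := wt
  map_zero' := by
    funext c i
    simp [wt]
  map_add' μ ν := by
    funext c i
    simp [wt, Finset.sum_add_distrib]

@[simp] theorem wtH_apply (μ : Var p n m →₀ ℕ) : wtH p n m μ = wt μ := rfl

theorem wt_add (μ ν : Var p n m →₀ ℕ) : wt (μ + ν) = wt μ + wt ν := (wtH p n m).map_add μ ν

theorem md_single (x : Var p n m) (k : ℕ) (z : Fin (n + 1) × Slot p) :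
    md (Finsupp.single x k) z = if z = (x.1, x.2.1) then k else 0 := by
  classical
  obtain ⟨c, r, i⟩ := x
  obtain ⟨c', r'⟩ := z
  simp only [md, Finsupp.single_apply, Prod.mk.injEq]
  by_cases h : c' = c ∧ r' = r
  · obtain ⟨rfl, rfl⟩ := h
    simp
  · rw [if_neg h]
    refine Finset.sum_eq_zero fun j _ => if_neg ?_
    rintro ⟨h1, h2, -⟩
    exact h ⟨h1.symm, h2.symm⟩

theorem wt_single (x : Var p n m) (k : ℕ) (c : Fin (n + 1)) (i : Fin m) :
    wt (Finsupp.single x k) c i = if c = x.1 ∧ i = x.2.2 then k else 0 := by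
  classical
  obtain ⟨c', r, i'⟩ := x
  simp only [wt, Finsupp.single_apply, Prod.mk.injEq]
  by_cases h : c = c' ∧ i = i'
  · obtain ⟨rfl, rfl⟩ := h
    simp
  · rw [if_neg h]
    refine Finset.sum_eq_zero fun j _ => if_neg ?_
    rintro ⟨h1, -, h2⟩
    exact h ⟨h1.symm, h2.symm⟩

/-- The total number of letters in a column. -/
theorem sum_wt (μ : Var p n m →₀ ℕ) (c : Fin (n + 1)) : ∑ i, wt μ c i = ∑ r, md μ (c, r) := by
  simp only [wt, md]
  exact Finset.sum_comm

theorem mem_Mk {k : ℕ} {F : T p n m} :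
    F ∈ Mk p n m k ↔ ∀ μ, coeff μ F ≠ 0 → ∃ k1 k2, k1 + k2 = k ∧ md μ = ty k1 k2 := mem_rs

theorem mem_Sk {j1 j2 : ℕ} {F : T p n m} :
    F ∈ Sk p n m j1 j2 ↔ ∀ μ, coeff μ F ≠ 0 → md μ = ty0 j1 j2 := mem_rs

theorem ty_add_ty0 (k1 k2 j1 j2 : ℕ) :
    (ty (p := p) (n := n) k1 k2) + ty0 j1 j2 = ty (k1 + j1) (k2 + j2) := by
  funext x
  obtain ⟨c, r | b⟩ := x
  · simp [ty, ty0]
  · cases b <;> simp [ty, ty0]

theorem ty0_add_ty (k1 k2 j1 j2 : ℕ) :
    (ty0 (p := p) (n := n) j1 j2) + ty k1 k2 = ty (j1 + k1) (j2 + k2) := by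
  rw [add_comm (ty0 j1 j2) (ty k1 k2), ty_add_ty0, add_comm k1 j1, add_comm k2 j2]

theorem ty0_add_ty0 (k1 k2 j1 j2 : ℕ) :
    (ty0 (p := p) (n := n) k1 k2) + ty0 j1 j2 = ty0 (k1 + j1) (k2 + j2) := by
  funext x
  obtain ⟨c, r | b⟩ := x
  · simp [ty0]
  · cases b <;> simp [ty0]

theorem ty_inj {k1 k2 j1 j2 : ℕ} (h : ty (p := p) (n := n) k1 k2 = ty j1 j2) :
    k1 = j1 ∧ k2 = j2 := by
  have h1 := congrFun h (0, Sum.inr false)
  have h2 := congrFun h (0, Sum.inr true)
  simpa [ty] using And.intro h1 h2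

theorem ty0_inj {k1 k2 j1 j2 : ℕ} (h : ty0 (p := p) (n := n) k1 k2 = ty0 j1 j2) :
    k1 = j1 ∧ k2 = j2 := by
  have h1 := congrFun h (0, Sum.inr false)
  have h2 := congrFun h (0, Sum.inr true)
  simpa [ty0] using And.intro h1 h2

/-- The number of letters of a column of an element of `Mk`. -/
theorem sum_wt_of_ty {μ : Var p n m →₀ ℕ} {k1 k2 : ℕ} (h : md μ = ty k1 k2)
    (c : Fin (n + 1)) : ∑ i, wt μ c i = p + (k1 + k2) := by
  rw [sum_wt, h]
  simp [ty, Fintype.sum_sum_type, add_comm]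

theorem sum_wt_of_ty0 {μ : Var p n m →₀ ℕ} {k1 k2 : ℕ} (h : md μ = ty0 k1 k2)
    (c : Fin (n + 1)) : ∑ i, wt μ c i = k1 + k2 := by
  rw [sum_wt, h]
  simp [ty0, Fintype.sum_sum_type, add_comm]

theorem Sk_mul_Mk {j1 j2 k : ℕ} {G F : T p n m} (hG : G ∈ Sk p n m j1 j2) (hF : F ∈ Mk p n m k) :
    G * F ∈ Mk p n m (j1 + j2 + k) := by
  refine mul_mem_rs ?_ hG hF
  rintro a ha b ⟨k1, k2, h1, h2⟩
  refine ⟨j1 + k1, j2 + k2, by omega, ?_⟩
  rw [md_add, h2, show md a = ty0 j1 j2 from ha, ty0_add_ty]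

theorem Sk_mul_Sk {j1 j2 k1 k2 : ℕ} {G F : T p n m} (hG : G ∈ Sk p n m j1 j2)
    (hF : F ∈ Sk p n m k1 k2) : G * F ∈ Sk p n m (j1 + k1) (j2 + k2) := by
  refine mul_mem_rs ?_ hG hF
  intro a ha b hb
  change md (a + b) = _
  rw [md_add, show md a = ty0 j1 j2 from ha, show md b = ty0 k1 k2 from hb, ty0_add_ty0]

theorem one_mem_Sk : (1 : T p n m) ∈ Sk p n m 0 0 := by
  refine one_mem_rs ?_
  change md 0 = _
  funext x
  obtain ⟨c, r | b⟩ := x
  · simp [md, ty0]
  · cases b <;> simp [md, ty0]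

/-! ## The elements `xx` -/

theorem prodX_mem_Sk_false (α : Fin (n + 1) → Fin m) :
    (∏ c, X (c, Sum.inr false, α c) : T p n m) ∈ Sk p n m 1 0 := by
  have h := prod_mem_rs (mdH p n m) Finset.univ
    (fun c : Fin (n + 1) => (X (c, Sum.inr false, α c) : T p n m))
    (fun c => md (Finsupp.single (c, Sum.inr false, α c) 1)) (fun c _ => by
      rw [mem_rs]
      intro μ hμ
      rw [coeff_X'] at hμ
      have h1 : Finsupp.single (c, Sum.inr false, α c) 1 = μ := by
        by_contra h2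
        rw [if_neg h2] at hμ
        exact hμ rfl
      rw [← h1]
      rfl)
  refine restrictSupport_mono ℂ ?_ h
  intro ν hν
  change md ν = _
  rw [show md ν = _ from hν]
  funext x
  rw [Finset.sum_apply]
  obtain ⟨c, r | b⟩ := x
  · simp [md_single, ty0]
  · cases b <;> simp [md_single, ty0]

theorem prodX_mem_Sk_true (α : Fin (n + 1) → Fin m) :
    (∏ c, X (c, Sum.inr true, α c) : T p n m) ∈ Sk p n m 0 1 := by
  have h := prod_mem_rs (mdH p n m) Finset.univ
    (fun c : Fin (n + 1) => (X (c, Sum.inr true, α c) : T p n m))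
    (fun c => md (Finsupp.single (c, Sum.inr true, α c) 1)) (fun c _ => by
      rw [mem_rs]
      intro μ hμ
      rw [coeff_X'] at hμ
      have h1 : Finsupp.single (c, Sum.inr true, α c) 1 = μ := by
        by_contra h2
        rw [if_neg h2] at hμ
        exact hμ rfl
      rw [← h1]
      rfl)
  refine restrictSupport_mono ℂ ?_ h
  intro ν hν
  change md ν = _
  rw [show md ν = _ from hν]
  funext x
  rw [Finset.sum_apply]
  obtain ⟨c, r | b⟩ := x
  · simp [md_single, ty0]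
  · cases b <;> simp [md_single, ty0]

theorem xx_mul_mem_Mk (α : Fin (n + 1) → Fin m) {k : ℕ} {F : T p n m} (hF : F ∈ Mk p n m k) :
    xx α * F ∈ Mk p n m (k + 1) := by
  rw [xx, add_mul]
  refine Submodule.add_mem _ ?_ ?_
  · have h := Sk_mul_Mk (prodX_mem_Sk_false α) hF
    rwa [show 1 + 0 + k = k + 1 from by omega] at h
  · have h := Sk_mul_Mk (prodX_mem_Sk_true α) hF
    rwa [show 0 + 1 + k = k + 1 from by omega] at h

theorem xx_mem_Wn (α : Fin (n + 1) → Fin m) : (xx α : T p n m) ∈ Wn p n m :=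
  Submodule.subset_span ⟨α, rfl⟩

/-! ## Linear maps -/

@[simp] theorem lin_X (A : Fin (n + 1) → Fin m' → Fin m → ℂ) (x : Var p n m) :
    lin A (X x) = ∑ j, C (A x.1 j x.2.2) * X (x.1, x.2.1, j) := by
  simp [lin]

@[simp] theorem lin_C (A : Fin (n + 1) → Fin m' → Fin m → ℂ) (a : ℂ) :
    lin (p := p) A (C a) = C a := by
  rw [← algebraMap_eq, AlgHom.commutes, algebraMap_eq]

@[simp] theorem col_X (s : Fin (n' + 1) → Fin (n + 1)) (x : Var p n m) :
    col s (X x) = ∏ q ∈ Finset.univ.filter (fun q => s q = x.1), X (q, x.2.1, x.2.2) := by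
  simp [col]

@[simp] theorem swp_X (x : Var p n m) : swp (X x) = X (swv x) := by
  simp [swp]

theorem lin_lin (B : Fin (n + 1) → Fin m'' → Fin m' → ℂ) (A : Fin (n + 1) → Fin m' → Fin m → ℂ)
    (F : T p n m) : lin B (lin A F) = lin (fun c i k => ∑ j, B c i j * A c j k) F := by
  have h : (lin B : T p n m' →ₐ[ℂ] T p n m'').comp (lin A) =
      lin (fun c i k => ∑ j, B c i j * A c j k) := by
    refine MvPolynomial.algHom_ext fun x => ?_
    simp only [AlgHom.comp_apply, lin_X, map_sum, map_mul, lin_C, Finset.mul_sum]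
    rw [Finset.sum_comm]
    refine Finset.sum_congr rfl fun j _ => ?_
    rw [Finset.sum_mul]
    refine Finset.sum_congr rfl fun i _ => ?_
    ring
  exact congrArg (fun φ => φ F) h

theorem lin_one (F : T p n m) : lin (fun _ i j => if i = j then 1 else 0) F = F := by
  have h : lin (p := p) (n := n) (fun _ (i j : Fin m) => if i = j then (1 : ℂ) else 0) =
      AlgHom.id ℂ _ := by
    refine MvPolynomial.algHom_ext fun x => ?_
    simp only [lin_X, AlgHom.id_apply]
    rw [Finset.sum_eq_single x.2.2]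
    · simp
    · intro j _ hj
      simp [hj]
    · intro h
      exact absurd (Finset.mem_univ _) h
  rw [h, AlgHom.id_apply]

theorem lin_xx (A : Fin (n + 1) → Fin m' → Fin m → ℂ) (α : Fin (n + 1) → Fin m) :
    lin (p := p) A (xx α) = ∑ β : Fin (n + 1) → Fin m', C (∏ c, A c (β c) (α c)) * xx β := by
  classical
  have key : ∀ b : Bool, lin (p := p) A (∏ c, X (c, Sum.inr b, α c)) =
      ∑ β : Fin (n + 1) → Fin m', C (∏ c, A c (β c) (α c)) * ∏ c, X (c, Sum.inr b, β c) := by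
    intro b
    rw [map_prod]
    simp only [lin_X]
    rw [Finset.prod_univ_sum]
    simp only [Fintype.piFinset_univ, Finset.prod_mul_distrib, map_prod]
  rw [xx, map_add, key, key, ← Finset.sum_add_distrib]
  refine Finset.sum_congr rfl fun β _ => ?_
  rw [xx, mul_add]

theorem lin_xx_mem (A : Fin (n + 1) → Fin m' → Fin m → ℂ) (α : Fin (n + 1) → Fin m) :
    lin (p := p) A (xx α) ∈ Wn p n m' := by
  rw [lin_xx]
  refine Submodule.sum_mem _ fun β _ => ?_
  rw [← smul_eq_C_mul]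
  exact Submodule.smul_mem _ _ (xx_mem_Wn β)

theorem lin_mem_Wn (A : Fin (n + 1) → Fin m' → Fin m → ℂ) {F : T p n m} (hF : F ∈ Wn p n m) :
    lin A F ∈ Wn p n m' := by
  unfold Wn at hF
  induction hF using Submodule.span_induction with
  | mem x hx =>
    obtain ⟨α, rfl⟩ := hx
    exact lin_xx_mem A α
  | zero => rw [map_zero]; exact Submodule.zero_mem _
  | add x y _ _ hx hy => rw [map_add]; exact Submodule.add_mem _ hx hy
  | smul a x _ hx => rw [map_smul]; exact Submodule.smul_mem _ _ hx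

theorem col_xx (s : Fin (n' + 1) → Fin (n + 1)) (α : Fin (n + 1) → Fin m) :
    col (p := p) s (xx α) = xx (fun q => α (s q)) := by
  classical
  have key : ∀ b : Bool, col (p := p) s (∏ c, X (c, Sum.inr b, α c)) =
      ∏ q, X (q, Sum.inr b, α (s q)) := by
    intro b
    rw [map_prod]
    simp only [col_X]
    rw [← Finset.prod_fiberwise Finset.univ s]
    refine Finset.prod_congr rfl fun c _ => Finset.prod_congr rfl fun q hq => ?_
    rw [(Finset.mem_filter.mp hq).2]
  rw [xx, map_add, key, key, xx]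

theorem swv_swv (x : Var p n m) : swv (swv x) = x := by
  obtain ⟨c, r | b, i⟩ := x <;> simp [swv]

theorem swv_injective : Function.Injective (swv (p := p) (n := n) (m := m)) :=
  fun x y h => by rw [← swv_swv x, h, swv_swv]

theorem swp_swp (F : T p n m) : swp (swp F) = F := by
  rw [swp, rename_rename]
  have h : (swv ∘ swv : Var p n m → Var p n m) = id := funext swv_swv
  rw [h, rename_id, AlgHom.id_apply]

theorem swp_xx (α : Fin (n + 1) → Fin m) : swp (p := p) (xx α) = xx α := by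
  simp only [xx, map_add, map_prod, swp_X, swv, Sum.map_inr, Bool.not_false, Bool.not_true]
  rw [add_comm]

theorem swp_lin (A : Fin (n + 1) → Fin m' → Fin m → ℂ) (F : T p n m) :
    swp (lin A F) = lin A (swp F) := by
  have h : (swp : T p n m' →ₐ[ℂ] T p n m').comp (lin A) = (lin A).comp swp := by
    refine MvPolynomial.algHom_ext fun x => ?_
    simp only [AlgHom.comp_apply, lin_X, swp_X, map_sum, map_mul]
    refine Finset.sum_congr rfl fun j _ => ?_
    rw [← algebraMap_eq, AlgHom.commutes]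
    simp [swv]
  exact congrArg (fun φ => φ F) h

theorem swp_col (s : Fin (n' + 1) → Fin (n + 1)) (F : T p n m) :
    swp (col s F) = col s (swp F) := by
  have h : (swp : T p n' m →ₐ[ℂ] T p n' m).comp (col s) = (col s).comp swp := by
    refine MvPolynomial.algHom_ext fun x => ?_
    simp only [AlgHom.comp_apply, col_X, swp_X, map_prod, swv]
  exact congrArg (fun φ => φ F) h

/-! ## Degrees of images -/

theorem X_mem_rs {σ M : Type} [AddCommMonoid M] (g : (σ →₀ ℕ) →+ M) (x : σ) :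
    (X x : MvPolynomial σ ℂ) ∈ restrictSupport ℂ {ν | g ν = g (Finsupp.single x 1)} := by
  rw [X, monomial_mem_restrictSupport]
  exact Or.inl rfl

theorem sum_md (μ : Var p n m →₀ ℕ) :
    (μ.sum fun x k => k • md (Finsupp.single x 1)) = md μ := by
  have h := congrArg (mdH p n m) (Finsupp.sum_single μ)
  rw [map_finsuppSum] at h
  rw [← mdH_apply, ← h]
  refine Finsupp.sum_congr fun x _ => ?_
  rw [← mdH_apply, ← map_nsmul, Finsupp.smul_single, smul_eq_mul, mul_one]

theorem lin_monomial_mem (A : Fin (n + 1) → Fin m' → Fin m → ℂ) (μ : Var p n m →₀ ℕ) (a : ℂ) :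
    lin A (monomial μ a) ∈ restrictSupport ℂ {ν | md ν = md μ} := by
  have h := hom_mem_rs (lin A : T p n m →ₐ[ℂ] T p n m') (mdH p n m')
    (fun x => md (Finsupp.single x 1)) (fun x => by
      rw [lin_X]
      refine Submodule.sum_mem _ fun j _ => ?_
      rw [← smul_eq_C_mul]
      refine Submodule.smul_mem _ _ ?_
      refine restrictSupport_mono ℂ ?_ (X_mem_rs (mdH p n m') (x.1, x.2.1, j))
      intro ν hν
      change md ν = _
      rw [show md ν = _ from hν]
      funext z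
      rw [mdH_apply, md_single, md_single]) μ a
  refine restrictSupport_mono ℂ ?_ h
  intro ν hν
  change md ν = _
  rw [show md ν = _ from hν, sum_md]

theorem lin_mem_Mk (A : Fin (n + 1) → Fin m' → Fin m → ℂ) {k : ℕ} {F : T p n m}
    (hF : F ∈ Mk p n m k) : lin A F ∈ Mk p n m' k := by
  refine map_mem_rs (lin A).toLinearMap ?_ hF
  rintro μ ⟨k1, k2, h1, h2⟩ a
  refine restrictSupport_mono ℂ ?_ (lin_monomial_mem A μ a)
  intro ν hν
  exact ⟨k1, k2, h1, (show md ν = md μ from hν).trans h2⟩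

theorem lin_mem_Sk (A : Fin (n + 1) → Fin m' → Fin m → ℂ) {j1 j2 : ℕ} {F : T p n m}
    (hF : F ∈ Sk p n m j1 j2) : lin A F ∈ Sk p n m' j1 j2 := by
  refine map_mem_rs (lin A).toLinearMap ?_ hF
  intro μ hμ a
  refine restrictSupport_mono ℂ ?_ (lin_monomial_mem A μ a)
  intro ν hν
  exact (show md ν = md μ from hν).trans hμ

/-- The image of an exponent under copies of columns. -/
noncomputable def cexp (s : Fin (n' + 1) → Fin (n + 1)) (μ : Var p n m →₀ ℕ) : Var p n' m →₀ ℕ :=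
  Finsupp.equivFunOnFinite.symm fun x => μ (s x.1, x.2)

@[simp] theorem cexp_apply (s : Fin (n' + 1) → Fin (n + 1)) (μ : Var p n m →₀ ℕ)
    (x : Var p n' m) : cexp s μ x = μ (s x.1, x.2) := rfl

theorem cexp_add (s : Fin (n' + 1) → Fin (n + 1)) (μ ν : Var p n m →₀ ℕ) :
    cexp s (μ + ν) = cexp s μ + cexp s ν := by
  ext x
  simp

theorem md_cexp (s : Fin (n' + 1) → Fin (n + 1)) (μ : Var p n m →₀ ℕ)
    (x : Fin (n' + 1) × Slot p) : md (cexp s μ) x = md μ (s x.1, x.2) := rfl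

theorem wt_cexp (s : Fin (n' + 1) → Fin (n + 1)) (μ : Var p n m →₀ ℕ) (q : Fin (n' + 1))
    (i : Fin m) : wt (cexp s μ) q i = wt μ (s q) i := rfl

theorem md_cexp_ty {k1 k2 : ℕ} (s : Fin (n' + 1) → Fin (n + 1)) {μ : Var p n m →₀ ℕ}
    (h : md μ = ty k1 k2) : md (cexp s μ) = ty k1 k2 := by
  funext x
  rw [md_cexp, h]
  rfl

theorem md_cexp_ty0 {k1 k2 : ℕ} (s : Fin (n' + 1) → Fin (n + 1)) {μ : Var p n m →₀ ℕ}
    (h : md μ = ty0 k1 k2) : md (cexp s μ) = ty0 k1 k2 := by
  funext x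
  rw [md_cexp, h]
  rfl

theorem cexp_injective (s : Fin (n' + 1) → Fin (n + 1)) (hs : Function.Surjective s) :
    Function.Injective (cexp (p := p) (m := m) s) := by
  intro μ ν h
  ext ⟨c, y⟩
  obtain ⟨q, rfl⟩ := hs c
  exact DFunLike.congr_fun h (q, y)

theorem cexp_single (s : Fin (n' + 1) → Fin (n + 1)) (x : Var p n m) :
    cexp s (Finsupp.single x 1) =
      ∑ q ∈ Finset.univ.filter (fun q => s q = x.1), Finsupp.single (q, x.2.1, x.2.2) 1 := by
  classical
  obtain ⟨c, r, i⟩ := x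
  ext ⟨q, r', i'⟩
  rw [cexp_apply, Finsupp.finsetSum_apply]
  simp only [Finsupp.single_apply, Prod.mk.injEq]
  by_cases h : r = r' ∧ i = i'
  · obtain ⟨rfl, rfl⟩ := h
    simp only [and_true, Finset.sum_ite_eq', Finset.mem_filter, Finset.mem_univ, true_and]
    by_cases h2 : s q = c
    · simp [h2]
    · rw [if_neg (fun h3 => h2 h3.symm), if_neg h2]
  · rw [if_neg (fun h2 => h h2.2), Finset.sum_eq_zero]
    intro q' _
    exact if_neg (fun h2 => h h2.2)

theorem col_monomial (s : Fin (n' + 1) → Fin (n + 1)) (μ : Var p n m →₀ ℕ) (a : ℂ) :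
    col s (monomial μ a) = monomial (cexp s μ) a := by
  classical
  have h1 : ∀ x : Var p n m, col s (X x) = monomial (cexp s (Finsupp.single x 1)) 1 := by
    intro x
    rw [col_X, cexp_single]
    induction (Finset.univ.filter fun q => s q = x.1) using Finset.induction_on with
    | empty => simp
    | insert q t hq ih =>
      rw [Finset.prod_insert hq, Finset.sum_insert hq, ih, X, monomial_mul, one_mul]
  induction μ using Finsupp.induction generalizing a with
  | zero =>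
    have h2 : cexp (p := p) (m := m) s 0 = 0 := by
      ext x
      simp
    rw [h2]
    change col s (C a) = C a
    rw [← algebraMap_eq, AlgHom.commutes, algebraMap_eq]
  | single_add x k μ hx hk ih =>
    have h3 : (monomial (Finsupp.single x k + μ) a : T p n m) = X x ^ k * monomial μ a := by
      rw [X_pow_eq_monomial, monomial_mul, one_mul]
    rw [h3, map_mul, map_pow, ih, h1, monomial_pow, one_pow, monomial_mul, one_mul, cexp_add]
    have h4 : k • cexp s (Finsupp.single x 1) = cexp s (Finsupp.single x k) := by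
      ext y
      rw [Finsupp.smul_apply, cexp_apply, cexp_apply, ← Finsupp.smul_apply, Finsupp.smul_single,
        smul_eq_mul, mul_one]
    rw [h4]

theorem coeff_col (s : Fin (n' + 1) → Fin (n + 1)) (hs : Function.Surjective s)
    (μ : Var p n m →₀ ℕ) (F : T p n m) : coeff (cexp s μ) (col s F) = coeff μ F := by
  classical
  induction F using MvPolynomial.induction_on' with
  | monomial ν a =>
    rw [col_monomial, coeff_monomial, coeff_monomial]
    by_cases h : ν = μ
    · rw [h]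
      simp
    · rw [if_neg h, if_neg (fun h2 => h (cexp_injective s hs h2))]
  | add F G hF hG => rw [map_add, coeff_add, coeff_add, hF, hG]

theorem mem_support_col (s : Fin (n' + 1) → Fin (n + 1)) {F : T p n m} {ν : Var p n' m →₀ ℕ}
    (h : coeff ν (col s F) ≠ 0) : ∃ μ, coeff μ F ≠ 0 ∧ cexp s μ = ν := by
  classical
  by_contra hcon
  push Not at hcon
  apply h
  rw [as_sum F, map_sum, coeff_sum]
  refine Finset.sum_eq_zero fun μ hμ => ?_
  rw [col_monomial, coeff_monomial, if_neg]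
  exact hcon μ (mem_support_iff.mp hμ)

theorem col_mem_Mk (s : Fin (n' + 1) → Fin (n + 1)) {k : ℕ} {F : T p n m}
    (hF : F ∈ Mk p n m k) : col s F ∈ Mk p n' m k := by
  rw [mem_Mk] at hF ⊢
  intro ν hν
  obtain ⟨μ, h1, rfl⟩ := mem_support_col s hν
  obtain ⟨k1, k2, h2, h3⟩ := hF μ h1
  exact ⟨k1, k2, h2, md_cexp_ty s h3⟩

theorem col_mem_Sk (s : Fin (n' + 1) → Fin (n + 1)) {j1 j2 : ℕ} {F : T p n m}
    (hF : F ∈ Sk p n m j1 j2) : col s F ∈ Sk p n' m j1 j2 := by
  rw [mem_Sk] at hF ⊢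
  intro ν hν
  obtain ⟨μ, h1, rfl⟩ := mem_support_col s hν
  exact md_cexp_ty0 s (hF μ h1)

theorem swp_mem_Mk {k : ℕ} {F : T p n m} (hF : F ∈ Mk p n m k) : swp F ∈ Mk p n m k := by
  refine map_mem_rs swp.toLinearMap ?_ hF
  rintro μ ⟨k1, k2, h1, h2⟩ a
  change rename swv (monomial μ a) ∈ _
  rw [rename_monomial, Mk, monomial_mem_restrictSupport]
  refine Or.inl ⟨k2, k1, by omega, ?_⟩
  funext ⟨c, r⟩
  have h3 : ∀ i, (Finsupp.mapDomain swv μ) (c, r, i) = μ (swv (c, r, i)) := by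
    intro i
    have h4 := Finsupp.mapDomain_apply (swv_injective (p := p) (n := n) (m := m)) μ (swv (c, r, i))
    rwa [swv_swv] at h4
  simp only [md, h3]
  have h5 := congrFun h2 (c, Sum.map id not r)
  rcases r with r | b
  · exact h5
  · cases b
    · exact h5
    · exact h5

/-! ## Elements of `Mk` are homogeneous -/

theorem degree_eq_sum_md (μ : Var p n m →₀ ℕ) : μ.degree = ∑ x, md μ x := by
  rw [Finsupp.degree_eq_sum, Fintype.sum_prod_type, Fintype.sum_prod_type]
  refine Finset.sum_congr rfl fun c _ => ?_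
  rw [Fintype.sum_prod_type]
  rfl

theorem degree_of_ty {μ : Var p n m →₀ ℕ} {k1 k2 : ℕ} (h : md μ = ty k1 k2) :
    μ.degree = (n + 1) * (p + (k1 + k2)) := by
  rw [degree_eq_sum_md, h, Fintype.sum_prod_type]
  simp [ty, Fintype.sum_sum_type, add_comm]

theorem homog_of_mem_Mk {k : ℕ} {F : T p n m} (hF : F ∈ Mk p n m k) :
    F.IsHomogeneous ((n + 1) * (p + k)) := by
  intro μ hμ
  obtain ⟨k1, k2, h1, h2⟩ := mem_Mk.mp hF μ hμ
  rw [← h1, ← degree_of_ty h2, Finsupp.degree_eq_weight_one]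
  rfl

theorem finite_exp (p n m k : ℕ) :
    {μ : Var p n m →₀ ℕ | ∃ k1 k2, k1 + k2 = k ∧ md μ = ty k1 k2}.Finite := by
  classical
  refine Set.Finite.subset (Set.finite_Iic
    (Finsupp.equivFunOnFinite.symm (fun _ => 1 + k) : Var p n m →₀ ℕ)) ?_
  rintro μ ⟨k1, k2, h1, h2⟩
  rw [Set.mem_Iic]
  intro x
  have h3 : μ x ≤ md μ (x.1, x.2.1) :=
    Finset.single_le_sum (f := fun i => μ (x.1, x.2.1, i)) (fun _ _ => Nat.zero_le _)
      (Finset.mem_univ x.2.2)
  refine h3.trans ?_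
  rw [h2]
  change _ ≤ 1 + k
  obtain ⟨c, r | b, i⟩ := x
  · simp [ty]
  · cases b
    · simp only [ty, Sum.elim_inr]
      simp
      omega
    · simp only [ty, Sum.elim_inr]
      simp
      omega

/-! ## Families -/

theorem Wn_mul_le (N : Fam p m) (n k : ℕ) : Wn p n (m + 1) * N.N n k ≤ N.N n (k + 1) := by
  rw [Submodule.mul_le]
  intro w hw F hF
  unfold Wn at hw
  induction hw using Submodule.span_induction with
  | mem x hx =>
    obtain ⟨α, rfl⟩ := hx
    exact N.mul n k α F hF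
  | zero => rw [zero_mul]; exact Submodule.zero_mem _
  | add x y _ _ hx hy => rw [add_mul]; exact Submodule.add_mem _ hx hy
  | smul a x _ hx => rw [smul_mul_assoc]; exact Submodule.smul_mem _ _ hx

theorem Wn_pow_mul_le (N : Fam p m) (n k ρ : ℕ) :
    Wn p n (m + 1) ^ ρ * N.N n k ≤ N.N n (k + ρ) := by
  induction ρ with
  | zero => rw [pow_zero, one_mul, add_zero]
  | succ ρ ih =>
    rw [pow_succ', mul_assoc]
    exact (mul_le_mul' le_rfl ih).trans (Wn_mul_le N n (k + ρ))

theorem Wn_pow_succ_mul_le (N : Fam p m) (n k ρ : ℕ) :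
    Wn p n (m + 1) ^ (ρ + 1) * N.N n k ≤ Wn p n (m + 1) * N.N n (k + ρ) := by
  rw [pow_succ', mul_assoc]
  exact mul_le_mul' le_rfl (Wn_pow_mul_le N n k ρ)

theorem lin_mem_Wn_mul (N : Submodule ℂ (T p n m)) (N' : Submodule ℂ (T p n m'))
    (A : Fin (n + 1) → Fin m' → Fin m → ℂ) (h : ∀ F ∈ N, lin A F ∈ N') {F : T p n m}
    (hF : F ∈ Wn p n m * N) : lin A F ∈ Wn p n m' * N' := by
  induction hF using Submodule.mul_induction_on' with
  | mem_mul_mem w hw x hx =>
    rw [map_mul]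
    exact Submodule.mul_mem_mul (lin_mem_Wn A hw) (h x hx)
  | add x _ y _ hx hy => rw [map_add]; exact Submodule.add_mem _ hx hy

end Pool.Agent.Helper65.MT
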