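import Pool.Agent.Helper65.MT.Defs2

/-!
Project MT, piece D1: the kernel of the hyperplane section.
-/

namespace Pool.Agent.Helper65.MT

open MvPolynomial

variable {p n e : ℕ}

/-- The exponent of the variables `VV`. -/
private noncomputable def d1_vp (μ : Var p n (e + 1) →₀ ℕ) : VV p n e →₀ ℕ :=
  Finsupp.equivFunOnFinite.symm fun x => μ (x.1, Sum.inl x.2.1, x.2.2)

private theorem d1_vp_apply (μ : Var p n (e + 1) →₀ ℕ) (x : VV p n e) :
    d1_vp μ x = μ (x.1, Sum.inl x.2.1, x.2.2) := rfl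

private theorem d1_barv_pow (x : Var p n (e + 1)) (k : ℕ) :
    ∃ q, (barv x : Tb p n e) ^ k = monomial (d1_vp (Finsupp.single x k)) q := by
  classical
  obtain ⟨c, r | b, i⟩ := x
  · refine ⟨1, ?_⟩
    have h1 : d1_vp (Finsupp.single ((c, Sum.inl r, i) : Var p n (e + 1)) k) =
        Finsupp.single ((c, r, i) : VV p n e) k := by
      ext y
      rw [d1_vp_apply, Finsupp.single_apply, Finsupp.single_apply]
      obtain ⟨c', r', i'⟩ := y
      simp only [Prod.mk.injEq, Sum.inl.injEq]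
    rw [h1]
    change (X (c, r, i) : Tb p n e) ^ k = _
    rw [X_pow_eq_monomial]
  · have h1 : d1_vp (Finsupp.single ((c, Sum.inr b, i) : Var p n (e + 1)) k) = 0 := by
      ext y
      rw [d1_vp_apply, Finsupp.single_apply, if_neg]
      · rfl
      · intro h
        have := congrArg (fun z : Var p n (e + 1) => z.2.1) h
        simp at this
    rw [h1]
    cases b
    · exact ⟨_, by
        change (C _ : Tb p n e) ^ k = _
        rw [← C_pow]
        rfl⟩
    · exact ⟨_, by
        change (C _ : Tb p n e) ^ k = _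
        rw [← C_pow]
        rfl⟩

private theorem d1_vp_add (μ ν : Var p n (e + 1) →₀ ℕ) : d1_vp (μ + ν) = d1_vp μ + d1_vp ν := by
  ext y
  rfl

private theorem d1_bar_monomial (μ : Var p n (e + 1) →₀ ℕ) :
    ∀ a : ℂ, ∃ q, (bar (monomial μ a) : Tb p n e) = monomial (d1_vp μ) q := by
  induction μ using Finsupp.induction_linear with
  | zero =>
    intro a
    refine ⟨C a, ?_⟩
    have h1 : d1_vp (0 : Var p n (e + 1) →₀ ℕ) = 0 := by
      ext y
      rfl
    rw [h1]
    have h2 : (monomial (0 : Var p n (e + 1) →₀ ℕ) a : T p n (e + 1)) = algebraMap ℂ _ a := rfl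
    rw [h2, AlgHom.commutes]
    rfl
  | add μ ν hμ hν =>
    intro a
    obtain ⟨q, hq⟩ := hμ a
    obtain ⟨q', hq'⟩ := hν 1
    refine ⟨q * q', ?_⟩
    have h1 : (monomial (μ + ν) a : T p n (e + 1)) = monomial μ a * monomial ν 1 := by
      rw [monomial_mul, mul_one]
    rw [h1, map_mul, hq, hq', monomial_mul, d1_vp_add]
  | single x k =>
    intro a
    obtain ⟨q, hq⟩ := d1_barv_pow x k
    refine ⟨C a * q, ?_⟩
    have h1 : (monomial (Finsupp.single x k) a : T p n (e + 1)) = algebraMap ℂ _ a * X x ^ k := by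
      rw [algebraMap_eq, C_mul_X_pow_eq_monomial]
    rw [h1, map_mul, AlgHom.commutes, map_pow]
    have h2 : (bar (X x) : Tb p n e) = barv x := by
      unfold bar
      rw [aeval_X]
    rw [h2, hq]
    have h3 : (algebraMap ℂ (Tb p n e) a) = C (C a) := rfl
    rw [h3, C_mul_monomial]

private theorem d1_one {m : ℕ} (f : Fin m → ℕ) (h : ∑ i, f i = 1) :
    ∃ i, ∀ j, f j = if i = j then 1 else 0 := by
  classical
  obtain ⟨i, -, hi⟩ := Finset.exists_ne_zero_of_sum_ne_zero (s := Finset.univ) (f := f)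
    (by rw [h]; exact one_ne_zero)
  have h1 := Finset.add_sum_erase Finset.univ f (Finset.mem_univ i)
  refine ⟨i, fun j => ?_⟩
  split_ifs with hij
  · rw [← hij]
    omega
  · have h2 : f j ≤ ∑ x ∈ Finset.univ.erase i, f x :=
      Finset.single_le_sum (fun _ _ => Nat.zero_le _)
        (Finset.mem_erase.mpr ⟨fun h => hij h.symm, Finset.mem_univ j⟩)
    omega

/-- Proof. For `F ∈ Mk` all exponents of `bar F` in the variables `VV` are of the form `vexp δ`: the
degree in the variables `(c, r, ·)` is one for all `c, r` (`bar` maps `X (c, inl r, i)` to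
`X (c, r, i)` and the other variables to elements of degree zero). -/
theorem bar_eq_zero {k : ℕ} {F : T p n (e + 1)} (hF : F ∈ Mk p n (e + 1) k) (h : cb F = 0) :
    bar F = 0 := by
  classical
  choose q hq using fun μ : Var p n (e + 1) →₀ ℕ => d1_bar_monomial μ
  refine MvPolynomial.ext _ _ fun ξ => ?_
  rw [coeff_zero]
  by_cases hξ : ∃ δ, ξ = vexp δ
  · obtain ⟨δ, rfl⟩ := hξ
    refine MvPolynomial.ext _ _ fun ω => ?_
    have h1 := congrFun h (δ, ω)
    rw [coeff_zero]
    exact h1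
  · rw [as_sum F, map_sum, coeff_sum]
    refine Finset.sum_eq_zero fun μ hμ => ?_
    obtain ⟨k1, k2, -, hmd⟩ := mem_Mk.mp hF μ (mem_support_iff.mp hμ)
    rw [hq, coeff_monomial, if_neg]
    intro hμξ
    apply hξ
    have h1 : ∀ (c : Fin (n + 1)) (r : Fin p), ∃ i, ∀ j, μ (c, Sum.inl r, j) = if i = j then 1 else 0 := by
      intro c r
      apply d1_one
      have h2 := congrFun hmd (c, Sum.inl r)
      exact h2
    choose δ hδ using h1
    refine ⟨δ, ?_⟩
    rw [← hμξ]
    ext ⟨c, r, j⟩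
    rw [d1_vp_apply, hδ]
    rfl

/-! ### Scaling -/

section d1

variable (z : Var p n (e + 1) → ℂ)

/-- The scaled point. -/
private noncomputable def d1_z : Var p n (e + 1) → ℂ
  | (c, Sum.inl r, i) => z (c, Sum.inl r, i)
  | (c, Sum.inr false, i) => z (c, Sum.inr false, i) / z (c, Sum.inr false, 0)
  | (c, Sum.inr true, i) => sg c * (z (c, Sum.inr true, i) / z (c, Sum.inr true, 0))

/-- The scaling factors. -/
private noncomputable def d1_w (x : Fin (n + 1) × Slot p) : ℂ :=
  Sum.elim (fun _ => 1) (fun b => (if b then sg x.1 else 1) * z (x.1, Sum.inr b, 0)) x.2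

/-- The values of the variables `y` and `u`. -/
private noncomputable def d1_yu : YU n e → ℂ
  | (c, false, i) => z (c, Sum.inr false, i.succ) / z (c, Sum.inr false, 0)
  | (c, true, i) => z (c, Sum.inr true, i.succ) / z (c, Sum.inr true, 0) -
      z (c, Sum.inr false, i.succ) / z (c, Sum.inr false, 0)

private theorem d1_sg_sg (c : Fin (n + 1)) : sg c * sg c = 1 := by
  unfold sg
  split_ifs <;> norm_num

private theorem d1_prod_sg : ∏ c : Fin (n + 1), sg c = -1 := by
  rw [Fin.prod_univ_succ]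
  have h1 : ∀ c : Fin n, sg c.succ = 1 := fun c => if_neg (Fin.succ_ne_zero c)
  rw [Finset.prod_congr rfl fun c _ => h1 c, Finset.prod_const_one, mul_one]
  exact if_pos rfl

variable {z}

private theorem d1_factor (hz : ∀ c b, z (c, Sum.inr b, 0) ≠ 0) (x : Var p n (e + 1)) :
    z x = d1_w z (x.1, x.2.1) * d1_z z x := by
  obtain ⟨c, r | b, i⟩ := x
  · change _ = 1 * _
    rw [one_mul]
    rfl
  · cases b
    · change _ = (1 * z (c, Sum.inr false, 0)) * (z (c, Sum.inr false, i) / z (c, Sum.inr false, 0))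
      rw [one_mul, mul_div_cancel₀ _ (hz c false)]
    · change _ = (sg c * z (c, Sum.inr true, 0)) *
        (sg c * (z (c, Sum.inr true, i) / z (c, Sum.inr true, 0)))
      rw [mul_mul_mul_comm, d1_sg_sg, one_mul, mul_div_cancel₀ _ (hz c true)]

private theorem d1_prod_w (μ : Var p n (e + 1) →₀ ℕ) {k1 k2 : ℕ} (hμ : md μ = ty k1 k2) :
    (μ.prod fun x k => d1_w z (x.1, x.2.1) ^ k) =
      (∏ c, z (c, Sum.inr false, 0)) ^ k1 * ((-1) ^ k2 * (∏ c, z (c, Sum.inr true, 0)) ^ k2) := by
  classical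
  rw [Finsupp.prod_fintype _ _ (fun x => pow_zero _)]
  have h1 : ∏ x : Var p n (e + 1), d1_w z (x.1, x.2.1) ^ μ x =
      ∏ y : Fin (n + 1) × Slot p, d1_w z y ^ md μ y := by
    have h2 : ∏ x : Var p n (e + 1), d1_w z (x.1, x.2.1) ^ μ x =
        ∏ c : Fin (n + 1), ∏ r : Slot p, ∏ i : Fin (e + 1), d1_w z (c, r) ^ μ (c, r, i) := by
      rw [Fintype.prod_prod_type]
      refine Finset.prod_congr rfl fun c _ => ?_
      rw [Fintype.prod_prod_type]
    rw [h2, Fintype.prod_prod_type]
    refine Finset.prod_congr rfl fun c _ => Finset.prod_congr rfl fun r _ => ?_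
    rw [Finset.prod_pow_eq_pow_sum]
    rfl
  rw [h1, hμ, Fintype.prod_prod_type]
  have h3 : ∀ c : Fin (n + 1), ∏ r : Slot p, d1_w z (c, r) ^ (ty k1 k2 (c, r)) =
      z (c, Sum.inr false, 0) ^ k1 * (sg c ^ k2 * z (c, Sum.inr true, 0) ^ k2) := by
    intro c
    rw [Fintype.prod_sum_type]
    have h4 : ∀ r : Fin p, d1_w z (c, Sum.inl r) ^ (ty k1 k2 (c, Sum.inl r)) = 1 := by
      intro r
      change (1 : ℂ) ^ 1 = 1
      rw [one_pow]
    rw [Finset.prod_congr rfl fun r _ => h4 r, Finset.prod_const_one, one_mul, Fintype.prod_bool]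
    change ((sg c * z (c, Sum.inr true, 0)) ^ k2) * ((1 * z (c, Sum.inr false, 0)) ^ k1) = _
    rw [one_mul, mul_pow]
    ring
  rw [Finset.prod_congr rfl fun c _ => h3 c, Finset.prod_mul_distrib, Finset.prod_mul_distrib,
    Finset.prod_pow, Finset.prod_pow, Finset.prod_pow, d1_prod_sg]

private theorem d1_eval_bar (hz : ∀ c b, z (c, Sum.inr b, 0) ≠ 0) (F : T p n (e + 1)) :
    eval₂Hom (eval (d1_yu z)) (fun v : VV p n e => z (v.1, Sum.inl v.2.1, v.2.2)) (bar F) =
      eval (d1_z z) F := by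
  have h : (eval₂Hom (eval (d1_yu z)) (fun v : VV p n e => z (v.1, Sum.inl v.2.1, v.2.2))).comp
      (bar : T p n (e + 1) →ₐ[ℂ] Tb p n e).toRingHom = eval (d1_z z) := by
    refine MvPolynomial.ringHom_ext ?_ ?_
    · intro a
      rw [RingHom.comp_apply]
      have h1 : (bar : T p n (e + 1) →ₐ[ℂ] Tb p n e).toRingHom (C a) = C (C a) :=
        (bar : T p n (e + 1) →ₐ[ℂ] Tb p n e).commutes a
      rw [h1, coe_eval₂Hom, eval₂_C, eval_C, eval_C]
    · intro x
      rw [RingHom.comp_apply]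
      have h1 : (bar : T p n (e + 1) →ₐ[ℂ] Tb p n e).toRingHom (X x) = barv x := by
        change bar (X x) = _
        unfold bar
        rw [aeval_X]
      rw [h1, eval_X]
      obtain ⟨c, r | b, i⟩ := x
      · change eval₂Hom _ _ (X (c, r, i)) = _
        rw [coe_eval₂Hom, eval₂_X]
        rfl
      · cases b
        · change eval₂Hom _ _ (C (Fin.cases (motive := fun _ => MvPolynomial (YU n e) ℂ) 1
            (fun i => X (c, false, i)) i)) = _
          rw [coe_eval₂Hom, eval₂_C]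
          refine Fin.cases ?_ (fun i => ?_) i
          · change eval (d1_yu z) 1 = z (c, Sum.inr false, 0) / z (c, Sum.inr false, 0)
            rw [map_one, div_self (hz c false)]
          · change eval (d1_yu z) (X (c, false, i)) = _
            rw [eval_X]
            rfl
        · change eval₂Hom _ _ (C (C (sg c) * Fin.cases (motive := fun _ => MvPolynomial (YU n e) ℂ) 1
            (fun i => X (c, false, i) + X (c, true, i)) i)) = _
          rw [coe_eval₂Hom, eval₂_C, map_mul, eval_C]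
          refine Fin.cases ?_ (fun i => ?_) i
          · change sg c * eval (d1_yu z) 1 = sg c * (z (c, Sum.inr true, 0) / z (c, Sum.inr true, 0))
            rw [map_one, div_self (hz c true)]
          · change sg c * eval (d1_yu z) (X (c, false, i) + X (c, true, i)) = _
            rw [map_add, eval_X, eval_X]
            change sg c * (z (c, Sum.inr false, i.succ) / z (c, Sum.inr false, 0) +
              (z (c, Sum.inr true, i.succ) / z (c, Sum.inr true, 0) -
                z (c, Sum.inr false, i.succ) / z (c, Sum.inr false, 0))) =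
              sg c * (z (c, Sum.inr true, i.succ) / z (c, Sum.inr true, 0))
            ring
  exact congrArg (fun φ => φ F) h

/-- The homogenisation of `bar`. -/
private noncomputable def d1_Phi (F : T p n (e + 1)) : T p n (e + 1) :=
  ∑ μ ∈ F.support, monomial μ (coeff μ F) * (C ((-1) ^ md μ (0, Sum.inr true)) *
    (∏ c, X (c, Sum.inr false, 0)) ^ md μ (0, Sum.inr true) *
    (∏ c, X (c, Sum.inr true, 0)) ^ md μ (0, Sum.inr false))

private theorem d1_eval_Phi (hz : ∀ c b, z (c, Sum.inr b, 0) ≠ 0) {k : ℕ} {F : T p n (e + 1)}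
    (hF : F ∈ Mk p n (e + 1) (k + 1)) (h : bar F = 0) : eval z (d1_Phi F) = 0 := by
  have h0 := d1_eval_bar hz F
  rw [h, map_zero] at h0
  unfold d1_Phi
  set s : ℂ := ∏ c, z (c, Sum.inr false, 0) with hs
  set t : ℂ := ∏ c, z (c, Sum.inr true, 0) with ht
  have h1 : ∀ μ ∈ F.support, eval z (monomial μ (coeff μ F) * (C ((-1) ^ md μ (0, Sum.inr true)) *
      (∏ c, X (c, Sum.inr false, 0)) ^ md μ (0, Sum.inr true) *
      (∏ c, X (c, Sum.inr true, 0)) ^ md μ (0, Sum.inr false))) =
      (s * t) ^ (k + 1) * eval (d1_z z) (monomial μ (coeff μ F)) := by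
    intro μ hμ
    obtain ⟨k1, k2, hk, hmd⟩ := mem_Mk.mp hF μ (mem_support_iff.mp hμ)
    have h2 : md μ (0, Sum.inr true) = k2 := by rw [hmd]; rfl
    have h3 : md μ (0, Sum.inr false) = k1 := by rw [hmd]; rfl
    rw [h2, h3, map_mul, map_mul, map_mul, eval_C, map_pow, map_pow, map_prod, map_prod,
      eval_monomial, eval_monomial]
    simp only [eval_X]
    have h4 : (μ.prod fun x k => z x ^ k) =
        (μ.prod fun x k => d1_w z (x.1, x.2.1) ^ k) * μ.prod fun x k => d1_z z x ^ k := by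
      rw [← Finsupp.prod_mul]
      refine Finsupp.prod_congr fun x _ => ?_
      rw [← mul_pow, ← d1_factor hz]
    rw [h4, d1_prod_w μ hmd, ← hs, ← ht, ← hk]
    have h5 : ((-1 : ℂ) ^ k2) * (-1) ^ k2 = 1 := by
      rw [← mul_pow]
      norm_num
    calc coeff μ F * ((s ^ k1 * ((-1) ^ k2 * t ^ k2)) * μ.prod fun x k => d1_z z x ^ k) *
          ((-1) ^ k2 * s ^ k2 * t ^ k1)
        = ((-1 : ℂ) ^ k2 * (-1) ^ k2) * ((s ^ k1 * s ^ k2) * (t ^ k1 * t ^ k2)) *
          (coeff μ F * μ.prod fun x k => d1_z z x ^ k) := by ring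
      _ = (s * t) ^ (k1 + k2) * (coeff μ F * μ.prod fun x k => d1_z z x ^ k) := by
          rw [h5, one_mul, ← pow_add, ← pow_add, ← mul_pow]
  rw [map_sum, Finset.sum_congr rfl h1, ← Finset.mul_sum, ← map_sum, ← as_sum F, ← h0, mul_zero]

private theorem d1_Phi_zero {k : ℕ} {F : T p n (e + 1)}
    (hF : F ∈ Mk p n (e + 1) (k + 1)) (h : bar F = 0) : d1_Phi F = 0 := by
  have h1 : d1_Phi F * ((∏ c, X (c, Sum.inr false, 0)) * ∏ c, X (c, Sum.inr true, 0)) = 0 := by
    refine MvPolynomial.funext fun z => ?_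
    rw [map_mul, map_mul, map_prod, map_prod, map_zero]
    simp only [eval_X]
    by_cases hz : ∀ c b, z (c, Sum.inr b, 0) ≠ 0
    · rw [d1_eval_Phi hz hF h, zero_mul]
    · push Not at hz
      obtain ⟨c, b, hcb⟩ := hz
      cases b
      · rw [Finset.prod_eq_zero (Finset.mem_univ c) hcb, zero_mul, mul_zero]
      · rw [Finset.prod_eq_zero (i := c) (f := fun c => z (c, Sum.inr true, 0))
          (Finset.mem_univ c) hcb, mul_zero, mul_zero]
  refine (mul_eq_zero.mp h1).resolve_right ?_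
  refine mul_ne_zero ?_ ?_
  · exact Finset.prod_ne_zero_iff.mpr fun c _ => X_ne_zero _
  · exact Finset.prod_ne_zero_iff.mpr fun c _ => X_ne_zero _

private theorem d1_dvd {k : ℕ} {F : T p n (e + 1)}
    (hF : F ∈ Mk p n (e + 1) (k + 1)) (h : bar F = 0) :
    (xx (fun _ => 0) : T p n (e + 1)) ∣ (∏ c, X (c, Sum.inr false, 0)) ^ (k + 1) * F := by
  set s : T p n (e + 1) := ∏ c, X (c, Sum.inr false, 0) with hs
  set t : T p n (e + 1) := ∏ c, X (c, Sum.inr true, 0) with ht
  have hx : (xx (fun _ => 0) : T p n (e + 1)) = t - (-s) := by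
    rw [sub_neg_eq_add, hs, ht, xx]
    exact add_comm _ _
  have h0 := d1_Phi_zero hF h
  have h1 : (xx (fun _ => 0) : T p n (e + 1)) ∣ d1_Phi F - (-s) ^ (k + 1) * F := by
    have h2 : (-s) ^ (k + 1) * F = ∑ μ ∈ F.support, monomial μ (coeff μ F) * (-s) ^ (k + 1) := by
      rw [← Finset.sum_mul, ← as_sum F, mul_comm]
    unfold d1_Phi
    rw [h2, ← Finset.sum_sub_distrib]
    refine Finset.dvd_sum fun μ hμ => ?_
    obtain ⟨k1, k2, hk, hmd⟩ := mem_Mk.mp hF μ (mem_support_iff.mp hμ)
    have h2 : md μ (0, Sum.inr true) = k2 := by rw [hmd]; rfl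
    have h3 : md μ (0, Sum.inr false) = k1 := by rw [hmd]; rfl
    rw [h2, h3, ← hs, ← ht, ← mul_sub]
    refine Dvd.dvd.mul_left ?_ _
    have h4 : (C ((-1) ^ k2) : T p n (e + 1)) = (-1) ^ k2 := by
      rw [map_pow, map_neg, map_one]
    have h5 : C ((-1) ^ k2) * s ^ k2 * t ^ k1 - (-s) ^ (k + 1) =
        (-s) ^ k2 * (t ^ k1 - (-s) ^ k1) := by
      rw [h4, ← hk, ← mul_pow, neg_one_mul, mul_sub, ← pow_add, add_comm k2 k1]
    rw [h5, hx]
    exact Dvd.dvd.mul_left (sub_dvd_pow_sub_pow t (-s) k1) _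
  rw [h0, zero_sub, dvd_neg, neg_pow, mul_assoc] at h1
  exact ((isUnit_one.neg.pow (k + 1)).dvd_mul_left).mp h1

private theorem d1_prime_step {R : Type} [CommRing R] [IsDomain R] {π a G : R} (hπ : Prime π)
    (ha : ¬ π ∣ a) (h : a ∣ π * G) : a ∣ G := by
  obtain ⟨b, hb⟩ := h
  have h1 : π ∣ a * b := ⟨G, hb.symm⟩
  obtain ⟨b', rfl⟩ := (hπ.dvd_or_dvd h1).resolve_left ha
  refine ⟨b', ?_⟩
  have h2 : π * G = π * (a * b') := by rw [hb]; ring
  exact mul_left_cancel₀ hπ.ne_zero h2

private theorem d1_prime_prod {R : Type} [CommRing R] [IsDomain R] {ι : Type} (S : Finset ι)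
    (π : ι → R) {a G : R} (hπ : ∀ i ∈ S, Prime (π i)) (ha : ∀ i ∈ S, ¬ π i ∣ a)
    (h : a ∣ (∏ i ∈ S, π i) * G) : a ∣ G := by
  classical
  induction S using Finset.induction_on with
  | empty => simpa using h
  | insert i S hi ih =>
    rw [Finset.prod_insert hi, mul_assoc] at h
    exact ih (fun j hj => hπ j (Finset.mem_insert_of_mem hj))
      (fun j hj => ha j (Finset.mem_insert_of_mem hj))
      (d1_prime_step (hπ i (Finset.mem_insert_self i S)) (ha i (Finset.mem_insert_self i S)) h)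

private theorem d1_not_dvd (c : Fin (n + 1)) :
    ¬ (X (c, Sum.inr false, 0) : T p n (e + 1)) ∣ xx (fun _ => 0) := by
  intro h
  have h1 : (X (c, Sum.inr false, 0) : T p n (e + 1)) ∣ ∏ c, X (c, Sum.inr false, 0) :=
    Finset.dvd_prod_of_mem _ (Finset.mem_univ c)
  have h2 : (X (c, Sum.inr false, 0) : T p n (e + 1)) ∣ ∏ c, X (c, Sum.inr true, 0) :=
    (dvd_add_right h1).mp h
  obtain ⟨c', -, h3⟩ := (X_prime (R := ℂ) (i := ((c, Sum.inr false, 0) : Var p n (e + 1)))).dvd_finsetProd_iff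
    (fun c' : Fin (n + 1) => (X (c', Sum.inr true, 0) : T p n (e + 1))) |>.mp h2
  rw [X_dvd_X] at h3
  have := congrArg (fun z : Var p n (e + 1) => z.2.1) h3
  simp at this

private theorem d1_xx_ne : (xx (fun _ => 0) : T p n (e + 1)) ≠ 0 := by
  intro h
  apply d1_not_dvd (p := p) (n := n) (e := e) 0
  rw [h]
  exact dvd_zero _

end d1

/-- Proof. Write `F = ∑ j ≤ k + 1, F_j`, where `F_j` has multidegree `ty (k + 1 - j) j`
(`res`). Let `s = ∏ c, X (c, inr false, 0)`, `t = ∏ c, X (c, inr true, 0)`, `s + t = xx 0`. Step 1: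
`∑ j, (-1) ^ j * F_j * s ^ j * t ^ (k + 1 - j) = 0`. It is enough to check this at the points `z` with
`z (c, inr b, 0) ≠ 0` for all `c, b` (multiply by the product of these variables, `MvPolynomial.funext`). At such a
point, scale the variables of column `c` and slot `inr b` by `z (c, inr b, 0)⁻¹`: by multihomogeneity
`F_j (z) = s ^ (k + 1 - j) * t ^ j * F_j (z')`, `z' (c, inr b, 0) = 1`, so that the sum is
`s ^ (k + 1) * t ^ (k + 1) * ∑ j, (-1) ^ j * F_j (z')`, and `∑ j, (-1) ^ j * F_j (z')` is the value of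
`bar F = 0` (evaluate the coefficients and variables at `y_i = z' (c, inr false, i.succ)`,
`u_i = z' (c, inr true, i.succ) - z' (c, inr false, i.succ)`; the sign of the column `0` gives `(-1) ^ j`). Step 2:
modulo `xx 0` we have `t = - s`, so `0 = ∑ j, (-1) ^ j * F_j * s ^ j * (-s) ^ (k + 1 - j)
= (-1) ^ (k + 1) * s ^ (k + 1) * F` modulo `xx 0`, that is `xx 0 ∣ s ^ (k + 1) * F`. Step 3: `xx 0 = s + t` and
`s` are relatively prime (a common divisor divides `s` and `t`, which are products of different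
prime variables; `T p n (e + 1)` is a unique factorisation domain), so `xx 0 ∣ F`, `F = xx 0 * F'`.
Step 4: `F' ∈ Mk p n (e + 1) k`: let `F''` be the restriction of `F'` to the exponents `μ` which are not
of the form `md μ = ty k1 k2`, `k1 + k2 = k`. Multiplication by `s` or `t` maps these exponents to exponents
which do not occur in `Mk p n (e + 1) (k + 1)`: if `md (μ + ν) = ty k1 k2`, `k1 + k2 = k + 1`, `md ν = ty0 1 0`, then
`md μ = ty (k1 - 1) k2`. So the restriction of `F = xx 0 * F'`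
to the exponents not in `Mk p n (e + 1) (k + 1)` is `xx 0 * F''`; it is zero, so `F'' = 0`. -/
theorem dvd_of_bar {k : ℕ} {F : T p n (e + 1)} (hF : F ∈ Mk p n (e + 1) (k + 1))
    (h : bar F = 0) : ∃ F' ∈ Mk p n (e + 1) k, F = xx (fun _ => 0) * F' := by
  classical
  have h1 := d1_dvd hF h
  have h2 : (xx (fun _ => 0) : T p n (e + 1)) ∣ F := by
    have h3 : ∀ j : ℕ, (xx (fun _ => 0) : T p n (e + 1)) ∣
        (∏ c : Fin (n + 1), (X (c, Sum.inr false, 0) : T p n (e + 1))) ^ j * F →
        (xx (fun _ => 0) : T p n (e + 1)) ∣ F := by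
      intro j
      induction j with
      | zero =>
        intro hj
        rwa [pow_zero, one_mul] at hj
      | succ j ih =>
        intro hj
        rw [pow_succ', mul_assoc] at hj
        exact ih (d1_prime_prod Finset.univ _ (fun c _ => X_prime) (fun c _ => d1_not_dvd c) hj)
    exact h3 _ h1
  obtain ⟨F', hF'⟩ := h2
  refine ⟨F', ?_, hF'⟩
  set P : (Var p n (e + 1) →₀ ℕ) → Prop := fun μ => ¬ ∃ k1 k2, k1 + k2 = k ∧ md μ = ty k1 k2 with hP
  set F2 := res P F' with hF2
  have hG : F' - F2 ∈ Mk p n (e + 1) k := by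
    rw [mem_Mk]
    intro μ hμ
    by_contra hcon
    apply hμ
    rw [coeff_sub, hF2, coeff_res, if_pos hcon, sub_self]
  have hx2 : xx (fun _ => 0) * F2 ∈ Mk p n (e + 1) (k + 1) := by
    have h3 : xx (fun _ => 0) * F2 = F - xx (fun _ => 0) * (F' - F2) := by
      rw [hF']
      ring
    rw [h3]
    exact Submodule.sub_mem _ hF (xx_mul_mem_Mk _ hG)
  have hx3 : (xx (fun _ => 0) * F2 : T p n (e + 1)) ∈ restrictSupport ℂ
      {μ : Var p n (e + 1) →₀ ℕ | ¬ ∃ k1 k2, k1 + k2 = k + 1 ∧ md μ = ty k1 k2} := by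
    refine mul_mem_rs (A := {ν | md ν = ty0 1 0 ∨ md ν = ty0 0 1}) (B := {μ | P μ}) ?_ ?_ ?_
    · rintro ν hν μ hμ ⟨k1, k2, hk, hmd⟩
      apply hμ
      rw [md_add] at hmd
      rcases hν with hν | hν
      · rw [hν] at hmd
        have h4 := congrFun hmd (0, Sum.inr false)
        have h5 : 1 + md μ (0, Sum.inr false) = k1 := h4
        refine ⟨k1 - 1, k2, by omega, ?_⟩
        have h6 : ty0 (p := p) (n := n) 1 0 + ty (k1 - 1) k2 = ty k1 k2 := by
          rw [ty0_add_ty, show 1 + (k1 - 1) = k1 by omega, zero_add]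
        rw [← h6] at hmd
        exact add_left_cancel hmd
      · rw [hν] at hmd
        have h4 := congrFun hmd (0, Sum.inr true)
        have h5 : 1 + md μ (0, Sum.inr true) = k2 := h4
        refine ⟨k1, k2 - 1, by omega, ?_⟩
        have h6 : ty0 (p := p) (n := n) 0 1 + ty k1 (k2 - 1) = ty k1 k2 := by
          rw [ty0_add_ty, show 1 + (k2 - 1) = k2 by omega, zero_add]
        rw [← h6] at hmd
        exact add_left_cancel hmd
    · unfold xx
      refine Submodule.add_mem _ ?_ ?_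
      · exact restrictSupport_mono ℂ (fun μ hμ => Or.inl hμ) (prodX_mem_Sk_false fun _ => 0)
      · exact restrictSupport_mono ℂ (fun μ hμ => Or.inr hμ) (prodX_mem_Sk_true fun _ => 0)
    · rw [mem_rs]
      intro μ hμ
      by_contra hcon
      apply hμ
      rw [hF2, coeff_res]
      exact if_neg hcon
  have h4 : xx (fun _ => 0) * F2 = 0 := by
    refine MvPolynomial.ext _ _ fun μ => ?_
    rw [coeff_zero]
    by_contra hcon
    exact mem_rs.mp hx3 μ hcon (mem_Mk.mp hx2 μ hcon)
  have h5 : F2 = 0 := (mul_eq_zero.mp h4).resolve_left d1_xx_ne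
  rw [h5, sub_zero] at hG
  exact hG

end Pool.Agent.Helper65.MT
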