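import Pool.Agent.Helper65.MT.Defs2

/-!
Project MT, piece D2c: the order condition.
-/

namespace Pool.Agent.Helper65.MT

open MvPolynomial

variable {p n e : ℕ}

noncomputable section

/-- The polynomials in one more variable `d` over the ring of the hyperplane section. -/
abbrev d2c_R (p n e : ℕ) := Polynomial (Tb p n e)

theorem d2c_udeg_add (ω ω' : YU n e →₀ ℕ) : udeg (ω + ω') = udeg ω + udeg ω' := by
  simp [udeg, Finset.sum_add_distrib]

/-- Order at least `k` in the variables `u` and `d`. -/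
def d2c_P (k : ℕ) (P : d2c_R p n e) : Prop :=
  ∀ s ν ω, coeff ω (coeff ν (P.coeff s)) ≠ 0 → k ≤ s + udeg ω

theorem d2c_P_mul {k l : ℕ} {P Q : d2c_R p n e} (hP : d2c_P k P) (hQ : d2c_P l Q) :
    d2c_P (k + l) (P * Q) := by
  classical
  intro s ν ω h
  rw [Polynomial.coeff_mul, coeff_sum, coeff_sum] at h
  obtain ⟨⟨i, j⟩, hij, h⟩ := Finset.exists_ne_zero_of_sum_ne_zero h
  rw [coeff_mul, coeff_sum] at h
  obtain ⟨⟨ν₁, ν₂⟩, hν, h⟩ := Finset.exists_ne_zero_of_sum_ne_zero h
  rw [coeff_mul] at h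
  obtain ⟨⟨ω₁, ω₂⟩, hω, h⟩ := Finset.exists_ne_zero_of_sum_ne_zero h
  rw [Finset.HasAntidiagonal.mem_antidiagonal] at hij hω
  simp only at hij hω h
  have h1 := hP i ν₁ ω₁ (left_ne_zero_of_mul h)
  have h2 := hQ j ν₂ ω₂ (right_ne_zero_of_mul h)
  rw [← hij, ← hω, d2c_udeg_add]
  omega

/-- The ideal of the elements of order at least `k`. -/
def d2c_I (k : ℕ) : Ideal (d2c_R p n e) where
  carrier := {P | d2c_P k P}
  zero_mem' := by
    intro s ν ω h
    simp at h
  add_mem' := by
    intro P Q hP hQ s ν ω h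
    rw [Polynomial.coeff_add, coeff_add, coeff_add] at h
    by_cases h1 : coeff ω (coeff ν (P.coeff s)) = 0
    · rw [h1, zero_add] at h
      exact hQ s ν ω h
    · exact hP s ν ω h1
  smul_mem' := by
    intro r P hP
    have h : d2c_P (0 + k) (r * P) := d2c_P_mul (fun _ _ _ _ => Nat.zero_le _) hP
    rw [zero_add] at h
    exact h

theorem d2c_mem {k : ℕ} {P : d2c_R p n e} : P ∈ d2c_I k ↔ d2c_P k P := Iff.rfl

/-- The image of `b_0` in column `c`. -/
def d2c_b (c : Fin (n + 1)) : d2c_R p n e := if c = 0 then -1 + Polynomial.X else 1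

/-- The images of the variables. -/
def d2c_v (x : Var p n (e + 1)) : d2c_R p n e :=
  match x with
  | (c, Sum.inl r, i) => Polynomial.C (X (c, r, i))
  | (c, Sum.inr false, i) =>
      Polynomial.C (C (Fin.cases (motive := fun _ => MvPolynomial (YU n e) ℂ) 1
        (fun i => X (c, false, i)) i))
  | (c, Sum.inr true, i) =>
      d2c_b c * Polynomial.C (C (Fin.cases (motive := fun _ => MvPolynomial (YU n e) ℂ) 1
        (fun i => X (c, false, i) + X (c, true, i)) i))

/-- The perturbed substitution. -/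
def d2c_f : T p n (e + 1) →ₐ[ℂ] d2c_R p n e := aeval d2c_v

theorem d2c_b_sub (c : Fin (n + 1)) :
    ∃ u ∈ d2c_I (p := p) (n := n) (e := e) 1, d2c_b c = Polynomial.C (C (C (sg c))) + u := by
  by_cases hc : c = 0
  · refine ⟨Polynomial.X, ?_, ?_⟩
    · intro s ν ω h0
      rw [Polynomial.coeff_X] at h0
      split_ifs at h0 with hs
      · omega
      · simp at h0
    · simp [d2c_b, sg, hc]
  · refine ⟨0, Ideal.zero_mem _, ?_⟩
    simp [d2c_b, sg, hc]

theorem d2c_u (c : Fin (n + 1)) (i : Fin e) :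
    (Polynomial.C (C (X (c, true, i))) : d2c_R p n e) ∈ d2c_I 1 := by
  classical
  intro s ν ω h
  rw [Polynomial.coeff_C] at h
  split_ifs at h with hs
  · rw [coeff_C] at h
    split_ifs at h with hν
    · rw [coeff_X] at h
      split_ifs at h with hω
      · rw [← hω]
        have h1 : 1 ≤ udeg (Finsupp.single ((c, true, i) : YU n e) 1) := by
          unfold udeg
          have h2 : (1 : ℕ) = (Finsupp.single ((c, true, i) : YU n e) 1) (c, true, i) := by simp
          calc 1 = (Finsupp.single ((c, true, i) : YU n e) 1) (c, true, i) := h2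
            _ ≤ ∑ i', (Finsupp.single ((c, true, i) : YU n e) 1) (c, true, i') :=
              Finset.single_le_sum
                (f := fun i' => (Finsupp.single ((c, true, i) : YU n e) 1) (c, true, i'))
                (fun _ _ => Nat.zero_le _) (Finset.mem_univ i)
            _ ≤ _ := Finset.single_le_sum
                (f := fun c' => ∑ i', (Finsupp.single ((c, true, i) : YU n e) 1) (c', true, i'))
                (fun _ _ => Nat.zero_le _) (Finset.mem_univ c)
        omega
      · simp at h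
    · simp at h
  · simp at h

theorem d2c_ab (c : Fin (n + 1)) (i : Fin (e + 1)) :
    ∃ u ∈ d2c_I (p := p) (n := n) (e := e) 1, d2c_v (c, Sum.inr true, i) =
      Polynomial.C (C (C (sg c))) * d2c_v (c, Sum.inr false, i) + u := by
  obtain ⟨u, hu, hb⟩ := d2c_b_sub (p := p) (e := e) c
  refine Fin.cases ?_ (fun i => ?_) i
  · refine ⟨u, hu, ?_⟩
    simp only [d2c_v, Fin.cases_zero, hb, map_one]
    ring
  · refine ⟨u * Polynomial.C (C (X (c, false, i) + X (c, true, i))) +
      Polynomial.C (C (C (sg c))) * Polynomial.C (C (X (c, true, i))),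
      Ideal.add_mem _ (Ideal.mul_mem_right _ _ hu) (Ideal.mul_mem_left _ _ (d2c_u c i)), ?_⟩
    simp only [d2c_v, Fin.cases_succ, map_add, hb]
    ring

theorem d2c_prod_sub {ι : Type} (s : Finset ι) (I : Ideal (d2c_R p n e))
    (a b : ι → d2c_R p n e) (h : ∀ c ∈ s, ∃ u ∈ I, a c = b c + u) :
    ∃ u ∈ I, ∏ c ∈ s, a c = ∏ c ∈ s, b c + u := by
  classical
  induction s using Finset.induction_on with
  | empty => exact ⟨0, I.zero_mem, by simp⟩
  | insert x s hx ih =>
    obtain ⟨u, hu, h1⟩ := ih fun c hc => h c (Finset.mem_insert_of_mem hc)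
    obtain ⟨v, hv, h2⟩ := h x (Finset.mem_insert_self x s)
    refine ⟨b x * u + v * (∏ c ∈ s, b c + u), I.add_mem (Ideal.mul_mem_left _ _ hu)
      (Ideal.mul_mem_right _ _ hv), ?_⟩
    rw [Finset.prod_insert hx, Finset.prod_insert hx, h1, h2]
    ring

theorem d2c_sg : ∏ c : Fin (n + 1), sg c = -1 := by
  rw [Fin.prod_univ_succ]
  simp [sg, Fin.succ_ne_zero]

theorem d2c_xx (α : Fin (n + 1) → Fin (e + 1)) : d2c_f (xx (p := p) α) ∈ d2c_I 1 := by
  have h1 : d2c_f (xx (p := p) α) = ∏ c, (d2c_v (c, Sum.inr false, α c) : d2c_R p n e) +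
      ∏ c, (d2c_v (c, Sum.inr true, α c) : d2c_R p n e) := by
    simp only [xx, d2c_f, map_add, map_prod, aeval_X]
  obtain ⟨u, hu, h2⟩ := d2c_prod_sub Finset.univ (d2c_I (p := p) (n := n) (e := e) 1)
    (fun c => d2c_v (c, Sum.inr true, α c))
    (fun c => Polynomial.C (C (C (sg c))) * d2c_v (c, Sum.inr false, α c))
    (fun c _ => d2c_ab c (α c))
  have h3 : ∏ c, (Polynomial.C (C (C (sg c))) * d2c_v (c, Sum.inr false, α c) : d2c_R p n e) =
      -1 * ∏ c, (d2c_v (c, Sum.inr false, α c) : d2c_R p n e) := by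
    rw [Finset.prod_mul_distrib, ← map_prod, ← map_prod, ← map_prod, d2c_sg]
    simp only [map_neg, map_one]
  rw [h3] at h2
  rw [h1, h2]
  convert hu using 1
  ring

theorem d2c_smul {k : ℕ} (a : ℂ) {P : d2c_R p n e} (h : P ∈ d2c_I k) : a • P ∈ d2c_I k := by
  rw [Algebra.smul_def]
  exact Ideal.mul_mem_left _ _ h

theorem d2c_Wn {F : T p n (e + 1)} (h : F ∈ Wn p n (e + 1)) : d2c_f F ∈ d2c_I 1 := by
  induction h using Submodule.span_induction with
  | mem x hx =>
    obtain ⟨α, rfl⟩ := hx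
    exact d2c_xx α
  | zero =>
    rw [map_zero]
    exact Ideal.zero_mem _
  | add x y _ _ hx hy =>
    rw [map_add]
    exact Ideal.add_mem _ hx hy
  | smul a x _ hx =>
    rw [map_smul]
    exact d2c_smul a hx

theorem d2c_Wnk (k : ℕ) {F : T p n (e + 1)} (h : F ∈ Wn p n (e + 1) ^ k) :
    d2c_f F ∈ d2c_I k := by
  induction k generalizing F with
  | zero => exact fun _ _ _ _ => Nat.zero_le _
  | succ k ih =>
    rw [pow_succ] at h
    refine Submodule.mul_induction_on h ?_ ?_
    · intro a ha b hb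
      rw [map_mul]
      exact d2c_P_mul (ih ha) (d2c_Wn hb)
    · intro a b ha hb
      rw [map_add]
      exact Ideal.add_mem _ ha hb

theorem d2c_Rk (k : ℕ) {F : T p n (e + 1)} (h : F ∈ Rk p n (e + 1) k) :
    d2c_f F ∈ d2c_I k := by
  refine Submodule.mul_induction_on h ?_ ?_
  · intro a _ b hb
    rw [map_mul]
    exact Ideal.mul_mem_left _ _ (d2c_Wnk k hb)
  · intro a b ha hb
    rw [map_add]
    exact Ideal.add_mem _ ha hb

theorem d2c_xx0 : d2c_f (xx (p := p) (n := n) fun _ => (0 : Fin (e + 1))) = Polynomial.X := by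
  have h1 : d2c_f (xx (p := p) (n := n) fun _ => (0 : Fin (e + 1))) =
      ∏ c : Fin (n + 1), (d2c_v (c, Sum.inr false, 0) : d2c_R p n e) +
      ∏ c : Fin (n + 1), (d2c_v (c, Sum.inr true, 0) : d2c_R p n e) := by
    simp only [xx, d2c_f, map_add, map_prod, aeval_X]
  have h2 : ∀ c : Fin (n + 1), (d2c_v (c, Sum.inr false, 0) : d2c_R p n e) = 1 := by
    intro c
    simp [d2c_v]
  have h3 : ∀ c : Fin (n + 1), (d2c_v (c, Sum.inr true, 0) : d2c_R p n e) = d2c_b c := by
    intro c
    simp [d2c_v]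
  rw [h1, Finset.prod_congr rfl fun c _ => h2 c, Finset.prod_congr rfl fun c _ => h3 c,
    Fin.prod_univ_succ (f := fun c => (d2c_b c : d2c_R p n e))]
  simp only [d2c_b, Fin.succ_ne_zero, if_true, if_false, Finset.prod_const_one]
  ring

theorem d2c_bar (F : T p n (e + 1)) : (d2c_f F).coeff 0 = bar F := by
  have h : ((Polynomial.evalRingHom (0 : Tb p n e)).comp (d2c_f (p := p) (n := n) (e := e) :
      T p n (e + 1) →+* d2c_R p n e)) = (bar : T p n (e + 1) →ₐ[ℂ] Tb p n e).toRingHom := by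
    apply MvPolynomial.ringHom_ext
    · intro a
      simp [d2c_f, bar, MvPolynomial.algebraMap_eq]
    · intro x
      obtain ⟨c, r | b, i⟩ := x
      · simp [d2c_f, bar, d2c_v, barv]
      · cases b
        · simp [d2c_f, bar, d2c_v, barv]
        · by_cases hc : c = 0
          · simp [d2c_f, bar, d2c_v, barv, d2c_b, sg, hc]
            ring
          · simp [d2c_f, bar, d2c_v, barv, d2c_b, sg, hc]
  have h2 := congrArg (fun g : T p n (e + 1) →+* Tb p n e => g F) h
  simp only [RingHom.comp_apply, Polynomial.coe_evalRingHom] at h2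
  rw [← Polynomial.coeff_zero_eq_eval_zero] at h2
  exact h2

end

/-- The order condition for `W^{⊗ p} ⊗ R_k`, and for quotients by powers of `xx 0`. Proof. Consider
the homomorphism `φ` from `T p n (e + 1)` to the polynomials in `ε` over the domain
`D = MvPolynomial (VV p n e) (MvPolynomial (Option (YU n e)) ℂ)` (let `d` be the
variable `none`) with `X (c, inl r, i) ↦ X (c, r, i)`,
`X (c, inr false, 0) ↦ 1`, `X (c, inr false, i.succ) ↦ y`, `X (c, inr true, 0) ↦ 1` for `c ≠ 0` and
`↦ - 1 + ε d` for `c = 0`, `X (c, inr true, i.succ) ↦ (image of X (c, inr true, 0)) * (y + ε u)`. For `ε = 0` we have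
`b = - a` as tensors, so `φ (xx α)` is divisible by `ε`, and `φ (xx 0) = 1 + (- 1 + ε d) = ε d`. So
`ε ^ (k + t)` divides `φ (xx 0 ^ t * F) = (ε d) ^ t * φ F`, and `ε ^ k` divides `φ F` (`d ≠ 0`, `D` is a domain).
For `d = 0` the element `φ F` is `bar F` with `u` replaced by `ε u`: the
coefficient of a monomial with `udeg ω = j` becomes the coefficient of `ε ^ j`. So it vanishes for
`j < k`. (The proof here is the same with `ε = 1` and the degree in `d` and `u`.) -/
theorem ord_of_Rk {k t : ℕ} {F : T p n (e + 1)}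
    (h : xx (fun _ => 0) ^ t * F ∈ Rk p n (e + 1) (k + t)) (x : Mon p n e) (hx : cb F x ≠ 0) :
    k ≤ udeg x.2 := by
  have h1 := d2c_Rk (k + t) h
  rw [map_mul, map_pow, d2c_xx0] at h1
  have h2 : (Polynomial.X ^ t * d2c_f F).coeff t = bar F := by
    have h3 := Polynomial.coeff_X_pow_mul (d2c_f F) t 0
    rw [zero_add] at h3
    rw [h3, d2c_bar]
  have h4 : coeff x.2 (coeff (vexp x.1) ((Polynomial.X ^ t * d2c_f F).coeff t)) ≠ 0 := by
    rw [h2]
    exact hx
  have h5 := h1 t _ _ h4
  omega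

end Pool.Agent.Helper65.MT
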