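import Pool.Agent.Helper91.DI.Fis

/-!
Modules over the coordinate rings of the first secant varieties of the Segre varieties
(MP_b07a0a, project MT): definitions.

Model. There are `n + 1` columns, `m` letters, and in each column the slots `inl r`, `r < p`, for
the factors of `W^{⊗ p}`, and the slots `inr false`, `inr true` for the two factors of `S ⊗ S`,
`S` the coordinate ring of the Segre variety. An element of `W^{⊗ p} ⊗ (S ⊗ S)_k` is a polynomial
in the variables `X (c, r, i)` (column, slot, letter), whose monomials have degree one in the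
variables of each column and each slot `inl r`, degree `k1` in the variables of each column and slot
`inr false` and degree `k2` in the variables of each column and slot `inr true`, `k1 + k2 = k`.
-/

namespace Pool.Agent.Helper65.MT

open MvPolynomial

noncomputable section

/-- The slots of a column. -/
abbrev Slot (p : ℕ) := Fin p ⊕ Bool

/-- The variables: column, slot, letter. -/
abbrev Var (p n m : ℕ) := Fin (n + 1) × Slot p × Fin m

/-- The polynomial ring of the model. -/
abbrev T (p n m : ℕ) := MvPolynomial (Var p n m) ℂ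

/-- Linear substitutions in the columns: the letter `i` of column `c` is replaced by
`∑ j, A c j i • j`. -/
def lin {p n m m' : ℕ} (A : Fin (n + 1) → Fin m' → Fin m → ℂ) : T p n m →ₐ[ℂ] T p n m' :=
  aeval fun x => ∑ j, C (A x.1 j x.2.2) * X (x.1, x.2.1, j)

/-- Copies of columns: column `q` of the new table is a copy of column `s q`. -/
def col {p n n' m : ℕ} (s : Fin (n' + 1) → Fin (n + 1)) : T p n m →ₐ[ℂ] T p n' m :=
  aeval fun x => ∏ q ∈ Finset.univ.filter (fun q => s q = x.1), X (q, x.2.1, x.2.2)

/-- The coordinate functions of `a + b`, `a` and `b` pure tensors. -/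
def xx {p n m : ℕ} (α : Fin (n + 1) → Fin m) : T p n m :=
  ∏ c, X (c, Sum.inr false, α c) + ∏ c, X (c, Sum.inr true, α c)

/-- The span of the `xx α`. -/
def Wn (p n m : ℕ) : Submodule ℂ (T p n m) := Submodule.span ℂ (Set.range xx)

/-- Exchange of the slots `inr false` and `inr true`. -/
def swv {p n m : ℕ} (x : Var p n m) : Var p n m :=
  (x.1, Sum.map id not x.2.1, x.2.2)

/-- Exchange of the two factors of `S ⊗ S`. -/
def swp {p n m : ℕ} : T p n m →ₐ[ℂ] T p n m := rename swv

/-- The multidegree of an exponent. -/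
def md {p n m : ℕ} (μ : Var p n m →₀ ℕ) (x : Fin (n + 1) × Slot p) : ℕ :=
  ∑ i, μ (x.1, x.2, i)

/-- The multidegree of the elements of `W^{⊗ p} ⊗ S_{k1} ⊗ S_{k2}`. -/
def ty {p n : ℕ} (k1 k2 : ℕ) (x : Fin (n + 1) × Slot p) : ℕ :=
  Sum.elim (fun _ => 1) (fun b => if b then k2 else k1) x.2

/-- The multidegree of the elements of `S_{k1} ⊗ S_{k2}`. -/
def ty0 {p n : ℕ} (k1 k2 : ℕ) (x : Fin (n + 1) × Slot p) : ℕ :=
  Sum.elim (fun _ => 0) (fun b => if b then k2 else k1) x.2

/-- `W^{⊗ p} ⊗ (S ⊗ S)_k`. -/
def Mk (p n m k : ℕ) : Submodule ℂ (T p n m) :=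
  restrictSupport ℂ {μ | ∃ k1 k2, k1 + k2 = k ∧ md μ = ty k1 k2}

/-- `S_{j1} ⊗ S_{j2}`. -/
def Sk (p n m j1 j2 : ℕ) : Submodule ℂ (T p n m) := restrictSupport ℂ {μ | md μ = ty0 j1 j2}

/-- The number of letters `i` in column `c`. -/
def wt {p n m : ℕ} (μ : Var p n m →₀ ℕ) (c : Fin (n + 1)) (i : Fin m) : ℕ := ∑ r, μ (c, r, i)

/-- `s` and `π` describe the insertion of columns into a table: column `c` of the old table becomes
column `π c` of the new one, column `q` of the new table comes from column `s q` of the old one,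
which is at the left of `q` (or is `q`). -/
structure IsIns {n n' : ℕ} (s : Fin (n' + 1) → Fin (n + 1)) (π : Fin (n + 1) → Fin (n' + 1)) :
    Prop where
  mono : StrictMono π
  inv : ∀ c, s (π c) = c
  left : ∀ q, π (s q) ≤ q

/-- Families of submodules of `W^{⊗ p} ⊗ (S ⊗ S)_k` for the letters `0, …, e`, closed under
multiplication by the `xx α`, linear maps and copies of columns. -/
structure Fam (p e : ℕ) where
  /-- the submodules -/
  N : ∀ n k : ℕ, Submodule ℂ (T p n (e + 1))
  le : ∀ n k : ℕ, N n k ≤ Mk p n (e + 1) k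
  mul : ∀ (n k : ℕ) (α : Fin (n + 1) → Fin (e + 1)), ∀ F ∈ N n k, xx α * F ∈ N n (k + 1)
  lin : ∀ (n k : ℕ) (A : Fin (n + 1) → Fin (e + 1) → Fin (e + 1) → ℂ), ∀ F ∈ N n k,
    lin A F ∈ N n k
  col : ∀ (n n' k : ℕ) (s : Fin (n' + 1) → Fin (n + 1)), Function.Surjective s → ∀ F ∈ N n k,
    col s F ∈ N n' k

/-! ## The hyperplane section -/

/-- The variables of the slots `inl r`. -/
abbrev VV (p n e : ℕ) := Fin (n + 1) × Fin p × Fin (e + 1)

/-- The variables `y = (c, false, i)` and `u = (c, true, i)`. -/
abbrev YU (n e : ℕ) := Fin (n + 1) × Bool × Fin e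

/-- The polynomial ring of the hyperplane section. -/
abbrev Tb (p n e : ℕ) := MvPolynomial (VV p n e) (MvPolynomial (YU n e) ℂ)

/-- The sign of column `c`. -/
def sg {n : ℕ} (c : Fin (n + 1)) : ℂ := if c = 0 then -1 else 1

/-- The images of the variables under the substitution `a = (1, y)`, `b = (1, y + u)`, with the
opposite sign of `b` in column `0`. -/
def barv {p n e : ℕ} (x : Var p n (e + 1)) : Tb p n e :=
  match x with
  | (c, Sum.inl r, i) => X (c, r, i)
  | (c, Sum.inr false, i) =>
      C (Fin.cases (motive := fun _ => MvPolynomial (YU n e) ℂ) 1 (fun i => X (c, false, i)) i)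
  | (c, Sum.inr true, i) =>
      C (C (sg c) * Fin.cases (motive := fun _ => MvPolynomial (YU n e) ℂ) 1
        (fun i => X (c, false, i) + X (c, true, i)) i)

/-- The substitution `a = (1, y)`, `b = (1, y + u)`, with the opposite sign of `b` in column `0`. -/
def bar {p n e : ℕ} : T p n (e + 1) →ₐ[ℂ] Tb p n e := aeval barv

/-- The exponent of the monomial in the variables `VV` given by a table `δ`. -/
def vexp {p n e : ℕ} (δ : Fin (n + 1) → Fin p → Fin (e + 1)) : VV p n e →₀ ℕ :=
  Finsupp.equivFunOnFinite.symm fun x => if δ x.1 x.2.1 = x.2.2 then 1 else 0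

/-- The monomials of the hyperplane section. -/
abbrev Mon (p n e : ℕ) := (Fin (n + 1) → Fin p → Fin (e + 1)) × (YU n e →₀ ℕ)

/-- The coefficients of the hyperplane section. -/
def cb {p n e : ℕ} : T p n (e + 1) →ₗ[ℂ] Mon p n e → ℂ where
  toFun F x := coeff x.2 (coeff (vexp x.1) (bar F))
  map_add' F G := by
    funext x
    simp
  map_smul' a F := by
    funext x
    rw [map_smul]
    simp

/-- The degree in the variables `u`. -/
def udeg {n e : ℕ} (ω : YU n e →₀ ℕ) : ℕ := ∑ c, ∑ i, ω (c, true, i)

/-- The key of a monomial in the variables `y` and `u`. -/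
def ky {n e : ℕ} (ω : YU n e →₀ ℕ) : Lex (Fin (n + 1) → Lex (Fin e → ℕ ×ₗ ℕ)) :=
  toLex fun c => toLex fun i => toLex (ω (c, false, i), ω (c, true, i))

/-- The type of the keys. -/
abbrev Key (p n e : ℕ) := Lex (Fin (n + 1) → Lex (Fin p → Fin (e + 1))) ×ₗ
  (ℕᵒᵈ ×ₗ Lex (Fin (n + 1) → Lex (Fin e → ℕ ×ₗ ℕ)))

/-- The key of a monomial of the hyperplane section: first the table of the letters, in
lexicographic order, then the degree in the variables `u` (small degrees are large), then the
exponent of the variables `y` and `u`, in lexicographic order. -/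
def key {p n e : ℕ} (x : Mon p n e) : Key p n e :=
  toLex (toLex fun c => toLex (x.1 c), toLex (OrderDual.toDual (udeg x.2), ky x.2))

/-- `x` is the leading monomial of `F` for the coefficients `c` and the keys `K`. -/
def IsLead {E Ξ Γ : Type} [LinearOrder Γ] (c : E → Ξ → ℂ) (K : Ξ → Γ) (F : E) (x : Ξ) : Prop :=
  c F x ≠ 0 ∧ ∀ y, c F y ≠ 0 → y ≠ x → K y < K x

/-- The number of the letters `i + 1` in column `c` of a monomial of the hyperplane section. -/
def wb {p n e : ℕ} (x : Mon p n e) (c : Fin (n + 1)) (i : Fin e) : ℕ :=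
  (Finset.univ.filter fun r => x.1 c r = i.succ).card + x.2 (c, false, i) + x.2 (c, true, i)

/-- Families of submodules as in `Fam`, symmetric, with the order condition on the hyperplane
section, and saturated with respect to `xx 0`. -/
structure SFam (p e : ℕ) extends Fam p e where
  sym : ∀ n k : ℕ, ∀ F ∈ N n k, swp F = F
  ord : ∀ n k : ℕ, ∀ F ∈ N n k, ∀ x, cb F x ≠ 0 → k ≤ udeg x.2
  sat : ∀ n k : ℕ, ∀ F ∈ Mk p n (e + 1) k, xx (fun _ => 0) * F ∈ N n (k + 1) → F ∈ N n k

end

end Pool.Agent.Helper65.MT
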