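import Pool.Agent.Helper65.MT.Defs2

/-!
Project MT, piece F1: the Fischer form on the model.
-/

namespace Pool.Agent.Helper65.MT

open MvPolynomial Helper77.DI

variable {p n m m' : ℕ}

/-- The matrix of `lin A`. -/
theorem f1_lin_eq (A : Fin (n + 1) → Fin m' → Fin m → ℂ) :
    (lin A : T p n m →ₐ[ℂ] T p n m') = LB (fun (y : Var p n m') (x : Var p n m) =>
      if y.1 = x.1 ∧ y.2.1 = x.2.1 then A x.1 y.2.2 x.2.2 else 0) := by
  refine MvPolynomial.algHom_ext fun x => ?_
  rw [lin_X, LB_X, Fintype.sum_prod_type, Finset.sum_eq_single x.1]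
  · rw [Fintype.sum_prod_type, Finset.sum_eq_single x.2.1]
    · refine Finset.sum_congr rfl fun j _ => ?_
      simp
    · intro r _ hr
      refine Finset.sum_eq_zero fun j _ => ?_
      simp [hr]
    · intro h
      exact absurd (Finset.mem_univ _) h
  · intro c _ hc
    refine Finset.sum_eq_zero fun y _ => ?_
    simp [hc]
  · intro h
    exact absurd (Finset.mem_univ _) h

/-- The matrix of `swp`. -/
theorem f1_swp_eq : (swp : T p n m →ₐ[ℂ] T p n m) = LB (fun (y : Var p n m) (x : Var p n m) =>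
      if y = swv x then 1 else 0) := by
  refine MvPolynomial.algHom_ext fun x => ?_
  rw [swp_X, LB_X, Finset.sum_eq_single (swv x)]
  · simp
  · intro y _ hy
    simp [hy]
  · intro h
    exact absurd (Finset.mem_univ _) h

/-- Proof. `lin A` is `LB` of the matrix
`(y, x) ↦ if y.1 = x.1 ∧ y.2.1 = x.2.1 then A x.1 y.2.2 x.2.2 else 0`; use `fis_LB`. -/
theorem fis_lin (A : Fin (n + 1) → Fin m' → Fin m → ℂ) (F : T p n m) (G : T p n m') :
    fis (lin A F) G = fis F (lin (fun c i j => (starRingEnd ℂ) (A c j i)) G) := by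
  rw [f1_lin_eq, fis_LB, f1_lin_eq]
  congr 3
  funext x y
  by_cases h : y.1 = x.1 ∧ y.2.1 = x.2.1
  · obtain ⟨h1, h2⟩ := h
    rw [if_pos ⟨h1, h2⟩, if_pos ⟨h1.symm, h2.symm⟩, h1]
  · rw [if_neg h, if_neg fun h3 => h ⟨h3.1.symm, h3.2.symm⟩, map_zero]

/-- Proof. `swp` is `LB` of a permutation matrix which is an involution; use `fis_LB`. -/
theorem fis_swp (F G : T p n m) : fis (swp F) G = fis F (swp G) := by
  rw [f1_swp_eq, fis_LB]
  congr 3
  funext x y
  by_cases h : y = swv x
  · have h1 : x = swv y := by rw [h, swv_swv]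
    rw [if_pos h, if_pos h1, map_one]
  · have h1 : ¬ x = swv y := fun h2 => h (by rw [h2, swv_swv])
    rw [if_neg h, if_neg h1, map_zero]

/-- Proof. `fis_lin` and the entries of `tv`. -/
theorem fis_tv (c : Fin (n + 1)) (i j : Fin m) (τ : ℂ) (F G : T p n m) :
    fis (lin (tv c i j τ) F) G = fis F (lin (tv c j i ((starRingEnd ℂ) τ)) G) := by
  rw [fis_lin]
  congr 3
  funext c' a b
  unfold tv
  rw [map_add]
  congr 1
  · by_cases h : a = b
    · rw [if_pos h, if_pos h.symm, map_one]
    · rw [if_neg h, if_neg fun h1 => h h1.symm, map_zero]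
  · by_cases h : c' = c ∧ b = i ∧ a = j
    · rw [if_pos h, if_pos ⟨h.1, h.2.2, h.2.1⟩]
    · rw [if_neg h, if_neg fun h1 => h ⟨h1.1, h1.2.2, h1.2.1⟩, map_zero]

/-- Proof. `lin_lin` and `lin_one`. -/
theorem lin_tv_neg (c : Fin (n + 1)) {i j : Fin m} (hij : i ≠ j) (τ : ℂ) (F : T p n m) :
    lin (tv c i j τ) (lin (tv c i j (-τ)) F) = F := by
  rw [lin_lin]
  conv_rhs => rw [← lin_one F]
  congr 2
  funext c' a b
  have h1 : ∀ l, tv c i j τ c' a l * tv c i j (-τ) c' l b =
      (if a = l then tv c i j (-τ) c' l b else 0) +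
        (if l = j then (if c' = c ∧ a = i then τ else 0) * tv c i j (-τ) c' l b else 0) := by
    intro l
    conv_lhs => rw [tv]
    rw [add_mul]
    congr 1
    · split_ifs
      · rw [one_mul]
      · rw [zero_mul]
    · by_cases h2 : l = j
      · subst h2
        simp
      · rw [if_neg fun h3 => h2 h3.2.2, if_neg h2, zero_mul]
  rw [Finset.sum_congr rfl fun l _ => h1 l, Finset.sum_add_distrib, Finset.sum_ite_eq,
    Finset.sum_ite_eq', if_pos (Finset.mem_univ _), if_pos (Finset.mem_univ _)]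
  unfold tv
  by_cases h2 : c' = c ∧ a = i
  · obtain ⟨h3, h4⟩ := h2
    subst h3 h4
    by_cases h5 : j = b
    · subst h5
      simp [hij.symm]
    · have h6 : ¬ b = j := fun h7 => h5 h7.symm
      simp [h5, h6]
  · have h7 : ¬ (c' = c ∧ a = i ∧ b = j) := fun h3 => h2 ⟨h3.1, h3.2.1⟩
    rw [if_neg h2, zero_mul, add_zero, if_neg h7, add_zero]

/-- `fis f g` only depends on the coefficients of `g` at the exponents of `f`. Proof. Definition. -/
theorem fis_eq_zero_of_disjoint {σ : Type} (f g : MvPolynomial σ ℂ)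
    (h : ∀ μ, coeff μ f ≠ 0 → coeff μ g = 0) : fis f g = 0 := by
  unfold fis
  refine Finset.sum_eq_zero fun μ hμ => ?_
  rw [h μ (mem_support_iff.mp hμ), map_zero, mul_zero, zero_mul]

/-- The form is positive definite. Proof. `fis_self`. -/
theorem fis_self_ne {σ : Type} {f : MvPolynomial σ ℂ} (h : f ≠ 0) : fis f f ≠ 0 :=
  fun h1 => h (fis_self f h1)

/-- Orthogonal complements. If `V` is a proper submodule of `V'`, homogeneous polynomials of degree `D`, there is a
nonzero element of `V'` orthogonal to `V`. Proof. `exists_perp` (`V` is closed under taking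
homogeneous components, which are `0` or the element itself). -/
theorem exists_orth {σ : Type} [Finite σ] (V V' : Submodule ℂ (MvPolynomial σ ℂ)) (hV : V ≤ V')
    (D : ℕ) (hD : ∀ f ∈ V', f.IsHomogeneous D) (hne : ¬ V' ≤ V) :
    ∃ g ∈ V', g ≠ 0 ∧ ∀ h ∈ V, fis g h = 0 := by
  obtain ⟨f, hf, hfV⟩ := Set.not_subset.mp hne
  obtain ⟨g, hg, -, hg0, hgV⟩ := exists_perp V V' hV (fun f' hf' k => by
    rw [homogeneousComponent_of_mem ((mem_homogeneousSubmodule D f').mpr (hD f' (hV hf')))]
    split_ifs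
    · exact hf'
    · exact Submodule.zero_mem _) D f hf (hD f hf) hfV
  exact ⟨g, hg, hg0, hgV⟩

end Pool.Agent.Helper65.MT
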