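import Pool.Agent.Helper65.MT.Q1b
import Pool.Agent.Helper65.MT.D2c

/-!
Project MT, piece Q1: the saturation.
-/

namespace Pool.Agent.Helper65.MT

open MvPolynomial

variable {p e : ℕ}

theorem q1_mono (Z : ZFam p) {n m k t t' : ℕ} (h : t ≤ t') {w F : T p n m} (hw : w ∈ Wn p n m)
    (hF : w ^ t * F ∈ Z.Z n m (k + t)) : w ^ t' * F ∈ Z.Z n m (k + t') := by
  obtain ⟨d, rfl⟩ := Nat.exists_eq_add_of_le h
  have h1 := zpow_mul_le Z n m (k + t) d
    (Submodule.mul_mem_mul (Submodule.pow_mem_pow _ hw d) hF)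
  rw [pow_add, mul_comm (w ^ t), mul_assoc, ← add_assoc]
  exact h1

/-- A uniform exponent for `xx 0`. -/
theorem q1_unif0 (Z : ZFam p) (n k : ℕ) : ∃ t, ∀ F ∈ satS Z e n k,
    xx (fun _ => 0) ^ t * F ∈ Z.Z n (e + 1) (k + t) := by
  classical
  have hfin : Module.Finite ℂ (Mk p n (e + 1) k) := by
    have h1 := finite_exp p n (e + 1) k
    unfold Mk
    rw [restrictSupport_eq_span]
    exact Module.Finite.span_of_finite ℂ (h1.image _)
  have hfg : (satS Z e n k).FG := by
    have h2 : satS Z e n k ≤ Mk p n (e + 1) k := fun F hF => (mem_satS.mp hF).1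
    have h3 : ((satS Z e n k).comap (Mk p n (e + 1) k).subtype).FG := IsNoetherian.noetherian _
    have h4 := h3.map (Mk p n (e + 1) k).subtype
    rwa [Submodule.map_comap_subtype, inf_eq_right.mpr h2] at h4
  obtain ⟨S, hS⟩ := hfg
  have hex : ∀ F : T p n (e + 1), ∃ t, F ∈ S → xx (fun _ => 0) ^ t * F ∈ Z.Z n (e + 1) (k + t) := by
    intro F
    by_cases hF : F ∈ S
    · have h5 : F ∈ satS Z e n k := by
        rw [← hS]
        exact Submodule.subset_span hF
      obtain ⟨t, ht⟩ := (mem_satS.mp h5).2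
      exact ⟨t, fun _ => ht⟩
    · exact ⟨0, fun h => absurd h hF⟩
  choose f hf using hex
  refine ⟨S.sup f, fun F hF => ?_⟩
  rw [← hS] at hF
  induction hF using Submodule.span_induction with
  | mem x hx => exact q1_mono Z (Finset.le_sup hx) (xx_mem_Wn _) (hf x hx)
  | zero => rw [mul_zero]; exact Submodule.zero_mem _
  | add x y _ _ hx hy => rw [mul_add]; exact Submodule.add_mem _ hx hy
  | smul a x _ hx => rw [mul_smul_comm]; exact Submodule.smul_mem _ _ hx

/-- The permutation matrices that exchange `0` and `α c` in column `c`. -/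
def q1A {n : ℕ} (α : Fin (n + 1) → Fin (e + 1)) : Fin (n + 1) → Fin (e + 1) → Fin (e + 1) → ℂ :=
  fun c i j => if i = Equiv.swap 0 (α c) j then 1 else 0

theorem q1A_sq {n : ℕ} (α : Fin (n + 1) → Fin (e + 1)) (F : T p n (e + 1)) :
    lin (q1A α) (lin (q1A α) F) = F := by
  rw [lin_lin]
  have h : (fun c i k => ∑ j, q1A α c i j * q1A α c j k) =
      fun (_ : Fin (n + 1)) (i j : Fin (e + 1)) => if i = j then (1 : ℂ) else 0 := by
    funext c i k
    rw [Finset.sum_eq_single (Equiv.swap 0 (α c) k)]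
    · simp [q1A]
    · intro j _ hj
      simp [q1A, hj]
    · intro hh
      exact absurd (Finset.mem_univ _) hh
  rw [h, lin_one]

theorem q1A_xx {n : ℕ} (α : Fin (n + 1) → Fin (e + 1)) :
    lin (p := p) (q1A α) (xx fun _ => 0) = xx α := by
  classical
  rw [lin_xx, Finset.sum_eq_single α]
  · simp [q1A]
  · intro β _ hβ
    have h1 : ∃ c, β c ≠ α c := by
      by_contra hcon
      push Not at hcon
      exact hβ (funext hcon)
    obtain ⟨c, hc⟩ := h1
    have h2 : ∏ c, q1A α c (β c) 0 = 0 := by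
      refine Finset.prod_eq_zero (Finset.mem_univ c) ?_
      simp [q1A, hc]
    rw [h2]
    simp
  · intro hh
    exact absurd (Finset.mem_univ _) hh

theorem q1_word (Z : ZFam p) (n k t : ℕ) (h : ∀ F ∈ satS Z e n k,
    xx (fun _ => 0) ^ t * F ∈ Z.Z n (e + 1) (k + t)) (α : Fin (n + 1) → Fin (e + 1)) :
    ∀ F ∈ satS Z e n k, xx α ^ t * F ∈ Z.Z n (e + 1) (k + t) := by
  intro F hF
  have h1 := h _ (satS_lin Z (q1A α) hF)
  have h2 := Z.lin n (e + 1) (e + 1) (k + t) (q1A α) _ h1
  rw [map_mul, map_pow, q1A_xx, q1A_sq] at h2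
  exact h2

theorem q1_prod_mem {n m : ℕ} {ι : Type} (s : Finset ι) (f : ι → T p n m)
    (h : ∀ i ∈ s, f i ∈ Wn p n m) : ∏ i ∈ s, f i ∈ Wn p n m ^ s.card := by
  classical
  induction s using Finset.induction_on with
  | empty =>
    rw [Finset.prod_empty, Finset.card_empty, pow_zero]
    exact Submodule.one_le.mp le_rfl
  | insert a s ha ih =>
    rw [Finset.prod_insert ha, Finset.card_insert_of_notMem ha, pow_succ']
    exact Submodule.mul_mem_mul (h a (Finset.mem_insert_self a s))
      (ih fun i hi => h i (Finset.mem_insert_of_mem hi))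

/-- Proof. `satS Z e n k ≤ Mk p n (e + 1) k` is finite dimensional (`finite_exp`), so there is one `t` with
`w ^ t * F ∈ Z.Z n (e + 1) (k + t)` for all `F ∈ satS Z e n k`, `w = xx 0` (finitely many generators,
`zpow_mul_le`). For a word `α` let `A` be the permutation matrices which
exchange `0` and `α c` in column `c`: `xx α ^ t * F = lin A (w ^ t * lin A F) ∈ Z.Z` (`satS_lin`). A product of
`T = (number of words α) * t + 1` elements `xx α` contains `t` equal factors, so its product with `F` is in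
`Z.Z` (`zpow_mul_le`), and `Wn ^ T` is spanned by such products. -/
theorem satS_unif (Z : ZFam p) (n k : ℕ) : ∃ t, ∀ F ∈ satS Z e n k, ∀ G ∈ Wn p n (e + 1) ^ t,
    G * F ∈ Z.Z n (e + 1) (k + t) := by
  classical
  obtain ⟨t, ht⟩ := q1_unif0 Z (e := e) n k
  have hw := fun α => q1_word Z n k t ht α
  set c : ℕ := Fintype.card (Fin (n + 1) → Fin (e + 1)) with hc
  refine ⟨c * t + 1, fun F hF G hG => ?_⟩
  unfold Wn at hG
  rw [Submodule.span_pow] at hG
  induction hG using Submodule.span_induction with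
  | mem x hx =>
    obtain ⟨g, hg⟩ := Set.mem_pow.mp hx
    choose a ha using fun i => (g i).2
    have hx1 : x = ∏ i : Fin (c * t + 1), xx (a i) := by
      rw [← hg, List.prod_ofFn]
      exact Finset.prod_congr rfl fun i _ => (ha i).symm
    obtain ⟨α, -, hα⟩ := Finset.exists_lt_card_fiber_of_mul_lt_card_of_maps_to
      (s := (Finset.univ : Finset (Fin (c * t + 1)))) (t := Finset.univ) (f := a) (n := t)
      (fun i _ => Finset.mem_univ _) (by
        rw [Finset.card_univ, Finset.card_univ, Fintype.card_fin, ← hc]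
        omega)
    set U := Finset.univ.filter (fun i => a i = α) with hU
    have h1 : ∏ i : Fin (c * t + 1), xx (p := p) (a i) =
        (∏ i ∈ U, xx (a i)) * ∏ i ∈ Finset.univ.filter (fun i => ¬ a i = α), xx (a i) :=
      (Finset.prod_filter_mul_prod_filter_not _ _ _).symm
    have h2 : ∏ i ∈ U, xx (p := p) (a i) = xx α ^ U.card := by
      rw [← Finset.prod_const]
      exact Finset.prod_congr rfl fun i hi => by rw [(Finset.mem_filter.mp hi).2]
    have h3 : U.card + (Finset.univ.filter (fun i => ¬ a i = α)).card = c * t + 1 := by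
      have := Finset.card_filter_add_card_filter_not (s := (Finset.univ : Finset (Fin (c * t + 1))))
        (fun i => a i = α)
      rw [Finset.card_univ, Fintype.card_fin] at this
      exact this
    set V := Finset.univ.filter (fun i => ¬ a i = α) with hV
    have h4 : (∏ i ∈ V, xx (p := p) (a i)) ∈ Wn p n (e + 1) ^ V.card :=
      q1_prod_mem V _ fun i _ => xx_mem_Wn _
    have h5 : (xx α : T p n (e + 1)) ^ (U.card - t) ∈ Wn p n (e + 1) ^ (U.card - t) :=
      Submodule.pow_mem_pow _ (xx_mem_Wn α) _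
    have h6 := Submodule.mul_mem_mul (Submodule.mul_mem_mul h5 h4) (hw α F hF)
    rw [← pow_add] at h6
    have h7 := zpow_mul_le Z n (e + 1) (k + t) (U.card - t + V.card) h6
    have h8 : k + t + (U.card - t + V.card) = k + (c * t + 1) := by omega
    rw [h8] at h7
    have h9 : x * F = xx α ^ (U.card - t) * (∏ i ∈ V, xx (a i)) * (xx α ^ t * F) := by
      rw [hx1, h1, h2]
      have h10 : (xx α : T p n (e + 1)) ^ U.card = xx α ^ (U.card - t) * xx α ^ t := by
        rw [← pow_add]
        congr 1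
        omega
      rw [h10]
      ring
    rw [h9]
    exact h7
  | zero => rw [zero_mul]; exact Submodule.zero_mem _
  | add x y _ _ hx hy => rw [add_mul]; exact Submodule.add_mem _ hx hy
  | smul a x _ hx => rw [smul_mul_assoc]; exact Submodule.smul_mem _ _ hx

theorem q1_xx_ne {n m : ℕ} (α : Fin (n + 1) → Fin m) : (xx α : T p n m) ≠ 0 := by
  intro h
  have h1 := congrArg (eval fun _ => (1 : ℂ)) h
  simp only [xx, map_add, map_prod, eval_X, Finset.prod_const_one, map_zero] at h1
  norm_num at h1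

/-- Proof. `N n k = satS Z e n k`. `le`: clear. `mul`, `col` (`col_xx`: `col s w = w`, `w = xx 0`),
`sat` are clear; `sym`: `w ^ t * F` is symmetric (`swp_of_Rk`, `Z.le`), `w ≠ 0`, `swp w = w`, so
`w ^ t * (swp F - F) = 0`; `ord`: `ord_of_Rk`; `lin`: `satS_lin`; the last claim: `satS_unif`. -/
theorem exists_sat (Z : ZFam p) (e : ℕ) : ∃ N : SFam p e,
    (∀ n k, Z.Z n (e + 1) k ≤ N.N n k) ∧
    ∀ n k, ∃ t, ∀ F ∈ N.N n k, ∀ G ∈ Wn p n (e + 1) ^ t, G * F ∈ Z.Z n (e + 1) (k + t) := by
  refine ⟨{ N := fun n k => satS Z e n k, le := ?_, mul := ?_, lin := ?_, col := ?_, sym := ?_,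
            ord := ?_, sat := ?_ }, ?_, fun n k => satS_unif Z n k⟩
  · intro n k F hF
    exact (mem_satS.mp hF).1
  · intro n k α F hF
    obtain ⟨h1, t, h2⟩ := mem_satS.mp hF
    refine mem_satS.mpr ⟨xx_mul_mem_Mk α h1, t, ?_⟩
    have h3 := Z.mul n (e + 1) (k + t) α _ h2
    rw [mul_left_comm, show k + 1 + t = k + t + 1 from by omega]
    exact h3
  · intro n k A F hF
    exact satS_lin Z A hF
  · intro n n' k s hs F hF
    obtain ⟨h1, t, h2⟩ := mem_satS.mp hF
    refine mem_satS.mpr ⟨col_mem_Mk s h1, t, ?_⟩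
    have h3 := Z.col n n' (e + 1) (k + t) s hs _ h2
    rw [map_mul, map_pow, col_xx] at h3
    exact h3
  · intro n k F hF
    obtain ⟨h1, t, h2⟩ := mem_satS.mp hF
    have h3 := swp_of_Rk (Z.le _ _ _ h2)
    rw [map_mul, map_pow, swp_xx] at h3
    exact mul_left_cancel₀ (pow_ne_zero t (q1_xx_ne _)) h3
  · intro n k F hF x hx
    obtain ⟨h1, t, h2⟩ := mem_satS.mp hF
    exact ord_of_Rk (Z.le _ _ _ h2) x hx
  · intro n k F h1 hF
    obtain ⟨h3, t, h2⟩ := mem_satS.mp hF
    refine mem_satS.mpr ⟨h1, t + 1, ?_⟩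
    rw [pow_succ, mul_assoc, show k + (t + 1) = k + 1 + t from by omega]
    exact h2
  · intro n k F hF
    refine mem_satS.mpr ⟨Rk_le _ _ _ _ (Z.le _ _ _ hF), 0, ?_⟩
    rw [pow_zero, one_mul, add_zero]
    exact hF

end Pool.Agent.Helper65.MT
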