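import Pool.Agent.Helper65.MT.Defs2

/-!
Project MT, piece Q1a: the saturation, definitions.
-/

namespace Pool.Agent.Helper65.MT

open MvPolynomial

noncomputable section

variable {p n m e k : ℕ}

theorem q1a_Vn_le (p n m : ℕ) : Vn p n m ≤ Mk p n m 0 := by
  classical
  refine Submodule.span_le.mpr ?_
  rintro _ ⟨δ, rfl⟩
  have h0 : ∀ (c : Fin (n + 1)) (r : Fin p),
      (X (c, Sum.inl r, δ c r) : T p n m) ∈ restrictSupport ℂ
        {ν | mdH p n m ν = md (Finsupp.single (c, Sum.inl r, δ c r) 1)} := by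
    intro c r
    rw [mem_rs]
    intro μ hμ
    rw [coeff_X'] at hμ
    have h1 : Finsupp.single (c, Sum.inl r, δ c r) 1 = μ := by
      by_contra h
      exact hμ (if_neg h)
    rw [← h1]
    rfl
  have h1 : ∀ c : Fin (n + 1), (∏ r, X (c, Sum.inl r, δ c r) : T p n m) ∈ restrictSupport ℂ
      {ν | mdH p n m ν = ∑ r, md (Finsupp.single (c, Sum.inl r, δ c r) 1)} := fun c =>
    prod_mem_rs (mdH p n m) Finset.univ _ _ fun r _ => h0 c r
  have h2 := prod_mem_rs (mdH p n m) Finset.univ
    (fun c : Fin (n + 1) => (∏ r, X (c, Sum.inl r, δ c r) : T p n m)) _ fun c _ => h1 c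
  change _ ∈ Mk p n m 0
  unfold Mk
  rw [mem_rs] at h2 ⊢
  intro μ hμ
  refine ⟨0, 0, rfl, ?_⟩
  have h3 : md μ = _ := h2 μ hμ
  rw [h3]
  funext z
  obtain ⟨c', r' | b⟩ := z
  · simp only [Finset.sum_apply, md_single, ty, Sum.elim_inl, Prod.mk.injEq]
    rw [Finset.sum_eq_single c', Finset.sum_eq_single r']
    · simp
    · intro r _ hr
      simp [hr.symm]
    · simp
    · intro c _ hc
      simp [hc.symm]
    · simp
  · simp only [Finset.sum_apply, md_single, ty, Sum.elim_inr, Prod.mk.injEq]
    cases b <;> simp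

/-- Proof. Generators: a product of a monomial in the slots `inl r` (one variable for each column and slot) and
of `k` elements `xx α` lies in `Mk` (`xx_mul_mem_Mk`). -/
theorem Rk_le (p n m k : ℕ) : Rk p n m k ≤ Mk p n m k := by
  unfold Rk
  induction k with
  | zero =>
    rw [pow_zero, mul_one]
    exact q1a_Vn_le p n m
  | succ k ih =>
    rw [pow_succ, ← mul_assoc]
    refine (mul_le_mul' ih le_rfl).trans ?_
    rw [Submodule.mul_le]
    intro F hF w hw
    unfold Wn at hw
    induction hw using Submodule.span_induction with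
    | mem x hx =>
      obtain ⟨α, rfl⟩ := hx
      rw [mul_comm]
      exact xx_mul_mem_Mk α hF
    | zero => rw [mul_zero]; exact Submodule.zero_mem _
    | add x y _ _ hx hy => rw [mul_add]; exact Submodule.add_mem _ hx hy
    | smul a x _ hx => rw [mul_smul_comm]; exact Submodule.smul_mem _ _ hx

/-- Proof. Generators, `swp_xx`. -/
theorem swp_of_Rk {F : T p n m} (hF : F ∈ Rk p n m k) : swp F = F := by
  have hV : ∀ G ∈ Vn p n m, swp G = G := by
    intro G hG
    unfold Vn at hG
    induction hG using Submodule.span_induction with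
    | mem x hx =>
      obtain ⟨δ, rfl⟩ := hx
      simp only [map_prod, swp_X, swv, Sum.map_inl, id_eq]
    | zero => rw [map_zero]
    | add x y _ _ hx hy => rw [map_add, hx, hy]
    | smul a x _ hx => rw [map_smul, hx]
  have hW : ∀ G ∈ Wn p n m, swp G = G := by
    intro G hG
    unfold Wn at hG
    induction hG using Submodule.span_induction with
    | mem x hx =>
      obtain ⟨α, rfl⟩ := hx
      exact swp_xx α
    | zero => rw [map_zero]
    | add x y _ _ hx hy => rw [map_add, hx, hy]
    | smul a x _ hx => rw [map_smul, hx]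
  have hWk : ∀ (k : ℕ), ∀ G ∈ Wn p n m ^ k, swp G = G := by
    intro k
    induction k with
    | zero =>
      intro G hG
      rw [pow_zero, Submodule.mem_one] at hG
      obtain ⟨a, rfl⟩ := hG
      exact AlgHom.commutes _ _
    | succ k ih =>
      intro G hG
      rw [pow_succ] at hG
      induction hG using Submodule.mul_induction_on' with
      | mem_mul_mem x hx y hy => rw [map_mul, ih x hx, hW y hy]
      | add x _ y _ hx hy => rw [map_add, hx, hy]
  unfold Rk at hF
  induction hF using Submodule.mul_induction_on' with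
  | mem_mul_mem x hx y hy => rw [map_mul, hV x hx, hWk k y hy]
  | add x _ y _ hx hy => rw [map_add, hx, hy]

theorem zmul (Z : ZFam p) {w : T p n m} (hw : w ∈ Wn p n m) {F : T p n m} (hF : F ∈ Z.Z n m k) :
    w * F ∈ Z.Z n m (k + 1) := by
  unfold Wn at hw
  induction hw using Submodule.span_induction with
  | mem x hx =>
    obtain ⟨α, rfl⟩ := hx
    exact Z.mul n m k α F hF
  | zero => rw [zero_mul]; exact Submodule.zero_mem _
  | add x y _ _ hx hy => rw [add_mul]; exact Submodule.add_mem _ hx hy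
  | smul a x _ hx => rw [smul_mul_assoc]; exact Submodule.smul_mem _ _ hx

theorem zpow_mul_le (Z : ZFam p) (n m k ρ : ℕ) :
    Wn p n m ^ ρ * Z.Z n m k ≤ Z.Z n m (k + ρ) := by
  induction ρ with
  | zero => rw [pow_zero, one_mul, add_zero]
  | succ ρ ih =>
    rw [pow_succ', mul_assoc]
    refine (mul_le_mul' le_rfl ih).trans ?_
    rw [Submodule.mul_le]
    exact fun w hw F hF => zmul Z hw hF

/-- The saturation of `Z` in degree `k`. -/
def satS (Z : ZFam p) (e n k : ℕ) : Submodule ℂ (T p n (e + 1)) where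
  carrier := {F | F ∈ Mk p n (e + 1) k ∧ ∃ t, xx (fun _ => 0) ^ t * F ∈ Z.Z n (e + 1) (k + t)}
  zero_mem' := ⟨Submodule.zero_mem _, 0, by rw [mul_zero]; exact Submodule.zero_mem _⟩
  add_mem' := by
    rintro F G ⟨hF, t, ht⟩ ⟨hG, t', ht'⟩
    refine ⟨Submodule.add_mem _ hF hG, t' + t, ?_⟩
    have h1 := zpow_mul_le Z n (e + 1) (k + t) t'
      (Submodule.mul_mem_mul (Submodule.pow_mem_pow _ (xx_mem_Wn fun _ => 0) t') ht)
    have h2 := zpow_mul_le Z n (e + 1) (k + t') t
      (Submodule.mul_mem_mul (Submodule.pow_mem_pow _ (xx_mem_Wn fun _ => 0) t) ht')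
    rw [mul_add]
    refine Submodule.add_mem _ ?_ ?_
    · rw [pow_add, mul_assoc, ← add_assoc, add_right_comm]
      exact h1
    · rw [pow_add, mul_comm (xx (fun _ => 0) ^ t'), mul_assoc, ← add_assoc]
      exact h2
  smul_mem' := by
    rintro a F ⟨hF, t, ht⟩
    refine ⟨Submodule.smul_mem _ _ hF, t, ?_⟩
    rw [mul_smul_comm]
    exact Submodule.smul_mem _ _ ht

theorem mem_satS {Z : ZFam p} {F : T p n (e + 1)} : F ∈ satS Z e n k ↔
    F ∈ Mk p n (e + 1) k ∧ ∃ t, xx (fun _ => 0) ^ t * F ∈ Z.Z n (e + 1) (k + t) := Iff.rfl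

end

end Pool.Agent.Helper65.MT
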