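import Pool.Agent.Helper65.MT.H3
import Pool.Agent.Helper65.MT.Q1a

/-!
Project MT, piece Q2b: merging columns.
-/

namespace Pool.Agent.Helper65.MT

open MvPolynomial

variable {p : ℕ}

theorem q2b_Wn_mul_Mk {n m k : ℕ} : Wn p n m * Mk p n m k ≤ Mk p n m (k + 1) := by
  rw [Submodule.mul_le]
  intro w hw F hF
  unfold Wn at hw
  induction hw using Submodule.span_induction with
  | mem x hx =>
    obtain ⟨α, rfl⟩ := hx
    exact xx_mul_mem_Mk α hF
  | zero => rw [zero_mul]; exact Submodule.zero_mem _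
  | add x y _ _ hx hy => rw [add_mul]; exact Submodule.add_mem _ hx hy
  | smul a x _ hx => rw [smul_mul_assoc]; exact Submodule.smul_mem _ _ hx

theorem q2b_Wn_pow_mul_Mk {n m k : ℕ} (ρ : ℕ) :
    Wn p n m ^ ρ * Mk p n m k ≤ Mk p n m (k + ρ) := by
  induction ρ with
  | zero => rw [pow_zero, one_mul, add_zero]
  | succ ρ ih =>
    rw [pow_succ', mul_assoc]
    exact (mul_le_mul' le_rfl ih).trans q2b_Wn_mul_Mk

/-- The letters `w : Fin (n + 1) → Fin m`. -/
noncomputable def q2b_code (n m : ℕ) :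
    (Fin (n + 1) → Fin m) ≃ Fin (Fintype.card (Fin (n + 1) → Fin m)) :=
  Fintype.equivFin _

/-- The letter `i` is replaced by the constant word `i`. -/
noncomputable def q2b_J (n n' m : ℕ) :
    Fin (n' + 1) → Fin (Fintype.card (Fin (n + 1) → Fin m)) → Fin m → ℂ :=
  fun _ a i => if a = q2b_code n m (fun _ => i) then 1 else 0

/-- In column `q` the word `w` is replaced by the letter `w q`. -/
noncomputable def q2b_B (n m : ℕ) :
    Fin (n + 1) → Fin m → Fin (Fintype.card (Fin (n + 1) → Fin m)) → ℂ :=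
  fun q i a => if i = (q2b_code n m).symm a q then 1 else 0

theorem q2b_lin_J {n n' m : ℕ} (x : Var p n' m) :
    lin (q2b_J n n' m) (X x) = (X (x.1, x.2.1, q2b_code n m (fun _ => x.2.2)) : T p n' _) := by
  rw [lin_X, Finset.sum_eq_single (q2b_code n m (fun _ => x.2.2))]
  · simp [q2b_J]
  · intro j _ hj
    simp [q2b_J, hj]
  · intro h
    exact absurd (Finset.mem_univ _) h

theorem q2b_lin_B {n m : ℕ} (x : Var p n (Fintype.card (Fin (n + 1) → Fin m))) :
    lin (q2b_B n m) (X x) = (X (x.1, x.2.1, (q2b_code n m).symm x.2.2 x.1) : T p n m) := by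
  rw [lin_X, Finset.sum_eq_single ((q2b_code n m).symm x.2.2 x.1)]
  · simp [q2b_B]
  · intro j _ hj
    simp [q2b_B, hj]
  · intro h
    exact absurd (Finset.mem_univ _) h

theorem q2b_σJ {n n' m : ℕ} (s : Fin (n + 1) → Fin (n' + 1)) (H : T p n' m) :
    lin (q2b_B n m) (col s (lin (q2b_J n n' m) H)) = col s H := by
  have h : ((lin (q2b_B n m)).comp (col s)).comp (lin (q2b_J n n' m)) =
      (col s : T p n' m →ₐ[ℂ] T p n m) := by
    refine MvPolynomial.algHom_ext fun x => ?_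
    rw [AlgHom.comp_apply, AlgHom.comp_apply, q2b_lin_J, col_X, map_prod, col_X]
    refine Finset.prod_congr rfl fun q _ => ?_
    rw [q2b_lin_B]
    simp
  exact DFunLike.congr_fun h H

theorem q2b_σxx {n n' m : ℕ} (s : Fin (n + 1) → Fin (n' + 1)) (α : Fin (n + 1) → Fin m) :
    lin (q2b_B n m) (col s (xx (fun _ => q2b_code n m α))) = (xx α : T p n m) := by
  rw [col_xx]
  simp only [xx, map_add, map_prod, q2b_lin_B, Equiv.symm_apply_apply]

/-- Merging columns. Proof. Let `m' = card (Fin (n + 1) → Fin m)` and let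
`code : (Fin (n + 1) → Fin m) ≃ Fin m'`. Let `J : Fin (n' + 1) → Fin m' → Fin m → ℂ` map the
letter `i` to `code (fun _ => i)`, `B : Fin (n + 1) → Fin m → Fin m' → ℂ` map in column `q` the letter `code w` to `w q`, and let
`σ F = lin B (col s F)`. For a word `α` let `α̂ c = code α` for all `c`. Then `σ (xx α̂) = xx α` (`col_xx`, `lin_xx`: the matrix
`B` has exactly one nonzero entry in each line `code w`), and `σ (lin J H) = col s H`
(check on the variables: `col s (lin J (X (c, r, i))) = ∏ q, s q = c, X (q, r, code (fun _ => i))`). Hence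
`(∏ t, xx (α t)) * col s H = σ ((∏ t, xx (α̂ t)) * lin J H)`, and it is enough to show
`f := (∏ t, xx (α̂ t)) * lin J H ∈ Z.Z n' m' (k + T)`; apply `level` to `Z.Z n' · (k + T)`
(`f` is in `Mk`, so homogeneous): for
every `A : Fin (n' + 1) → Fin (p + 2) → Fin m' → ℂ` we have
`lin A f = (∏ t, lin A (xx (α̂ t))) * lin (A J) H`, a product of an element of `Wn ^ T` (`lin_mem_Wn`) and an element of
`N'`, by the hypothesis `hH` in `Z.Z`. -/
theorem merge_mem (Z : ZFam p) {n n' k T : ℕ} {s : Fin (n + 1) → Fin (n' + 1)}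
    (hs : Function.Surjective s) {H : MT.T p n' (p + 2)} (hHk : H ∈ Mk p n' (p + 2) k)
    (hH : ∀ A : Fin (n' + 1) → Fin (p + 2) → Fin (p + 2) → ℂ, ∀ G ∈ Wn p n' (p + 2) ^ T,
      G * lin A H ∈ Z.Z n' (p + 2) (k + T)) :
    ∀ G ∈ Wn p n (p + 2) ^ T, G * col s H ∈ Z.Z n (p + 2) (k + T) := by
  intro G hG
  let σ : MT.T p n' (Fintype.card (Fin (n + 1) → Fin (p + 2))) →ₐ[ℂ] MT.T p n (p + 2) :=
    (lin (q2b_B n (p + 2))).comp (col s)
  have hσ : ∀ F, σ F = lin (q2b_B n (p + 2)) (col s F) := fun _ => rfl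
  have h1 : Wn p n (p + 2) ≤ (Wn p n' (Fintype.card (Fin (n + 1) → Fin (p + 2)))).map
      σ.toLinearMap := by
    unfold Wn
    rw [Submodule.span_le]
    rintro _ ⟨α, rfl⟩
    refine ⟨xx (fun _ => q2b_code n (p + 2) α), Submodule.subset_span ⟨_, rfl⟩, ?_⟩
    exact q2b_σxx s α
  have h2 : Wn p n (p + 2) ^ T ≤ (Wn p n' (Fintype.card (Fin (n + 1) → Fin (p + 2))) ^ T).map
      σ.toLinearMap := by
    rw [Submodule.map_pow]
    exact pow_le_pow_left' h1 T
  obtain ⟨G', hG', rfl⟩ := h2 hG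
  have h3 : σ.toLinearMap G' * col s H = σ (G' * lin (q2b_J n n' (p + 2)) H) := by
    rw [map_mul, hσ (lin _ H), q2b_σJ]
    rfl
  rw [h3]
  have h4 : G' * lin (q2b_J n n' (p + 2)) H ∈ Z.Z n' _ (k + T) := by
    refine level ((n' + 1) * (p + (k + T))) (fun m => Z.Z n' m (k + T))
      (fun m m' A F hF => Z.lin n' m m' (k + T) A F hF) _ ?_ ?_
    · exact homog_of_mem_Mk (q2b_Wn_pow_mul_Mk T (Submodule.mul_mem_mul hG' (lin_mem_Mk _ hHk)))
    · intro A
      rw [map_mul, lin_lin]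
      refine hH _ _ ?_
      have h5 : Wn p n' (Fintype.card (Fin (n + 1) → Fin (p + 2))) ≤
          (Wn p n' (p + 2)).comap (lin A).toLinearMap := fun F hF => lin_mem_Wn A hF
      have h6 : (Wn p n' (Fintype.card (Fin (n + 1) → Fin (p + 2))) ^ T).map
          (lin A).toLinearMap ≤ Wn p n' (p + 2) ^ T := by
        rw [Submodule.map_pow]
        exact pow_le_pow_left' (Submodule.map_le_iff_le_comap.mpr h5) T
      exact h6 ⟨G', hG', rfl⟩
  exact Z.lin n _ _ _ _ _ (Z.col n' n _ _ s hs _ h4)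

end Pool.Agent.Helper65.MT
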