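import Pool.Agent.Helper65.MT.Q2a
import Pool.Agent.Helper65.MT.Q2b

/-!
Project MT, piece Q2: uniform exponents.
-/

namespace Pool.Agent.Helper65.MT

open MvPolynomial

variable {p : ℕ}

theorem q2_up (Z : ZFam p) (N : Fam p (p + 1)) {n k t t' : ℕ} (h : t ≤ t')
    (ht : ∀ F ∈ N.N n k, ∀ G ∈ Wn p n (p + 2) ^ t, G * F ∈ Z.Z n (p + 2) (k + t)) :
    ∀ F ∈ N.N n k, ∀ G ∈ Wn p n (p + 2) ^ t', G * F ∈ Z.Z n (p + 2) (k + t') := by
  intro F hF G hG
  obtain ⟨a, rfl⟩ := Nat.exists_eq_add_of_le h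
  rw [add_comm t a, pow_add] at hG
  refine Submodule.mul_induction_on hG ?_ ?_
  · intro x hx y hy
    rw [mul_assoc, ← add_assoc]
    exact zpow_mul_le Z n (p + 2) (k + t) a (Submodule.mul_mem_mul hx (ht F hF y hy))
  · intro x y hx hy
    rw [add_mul]
    exact Submodule.add_mem _ hx hy

/-- Proof. Let `J` be the number of `col_gen`. For `n' ≤ J` let `t_(n')` be the exponent of the hypothesis `hN`,
and let `T` be their maximum (larger exponents also work: `Wn ^ (t + a) = Wn ^ a * Wn ^ t` and `Z.mul`). By `merge_mem` (with `Z` and the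
closure of `N` under `lin`) `G * col s H ∈ Z.Z` for `G ∈ Wn ^ T`, `H ∈ N.N n' k`, `n' ≤ J`, and by `col_gen` for all
elements of `N.N n k`. -/
theorem unif (Z : ZFam p) (N : Fam p (p + 1)) (k : ℕ)
    (hN : ∀ n, ∃ t, ∀ F ∈ N.N n k, ∀ G ∈ Wn p n (p + 2) ^ t, G * F ∈ Z.Z n (p + 2) (k + t)) :
    ∃ t, ∀ n, ∀ F ∈ N.N n k, ∀ G ∈ Wn p n (p + 2) ^ t, G * F ∈ Z.Z n (p + 2) (k + t) := by
  obtain ⟨J, hJ⟩ := col_gen N k
  choose t ht using hN
  refine ⟨(Finset.range (J + 1)).sup t, ?_⟩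
  set T := (Finset.range (J + 1)).sup t with hT
  intro n F hF G hG
  have hF' := hJ n hF
  clear hF
  induction hF' using Submodule.span_induction with
  | mem x hx =>
    obtain ⟨n', hn', s, hs, H, hH, rfl⟩ := hx
    have hle : t n' ≤ T := Finset.le_sup (f := t) (Finset.mem_range.mpr (by omega))
    exact merge_mem Z hs (N.le n' k hH)
      (fun A G' hG' => q2_up Z N hle (ht n') _ (N.lin n' k A H hH) G' hG') G hG
  | zero => rw [mul_zero]; exact Submodule.zero_mem _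
  | add x y _ _ hx hy => rw [mul_add]; exact Submodule.add_mem _ (hx) (hy)
  | smul a x _ hx => rw [mul_smul_comm]; exact Submodule.smul_mem _ _ (hx)

end Pool.Agent.Helper65.MT
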