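import Pool.Agent.Helper65.MT.A1
import Pool.Agent.Helper65.MT.Q1
import Pool.Agent.Helper65.MT.Q2

/-!
Project MT, piece Q3: the ascending chain condition.
-/

namespace Pool.Agent.Helper65.MT

open MvPolynomial

variable {p : ℕ}

/-- Proof. `N` from `exists_sat`, `k₂` from `sat_gen`, `t` from `unif` for `k = k₂`; `k₃ = k₂ + t`. For
`k ≥ k₃` we have `Z.Z n (p + 2) k ≤ N.N n k ≤ Wn ^ (k - k₂) * N.N n k₂ = Wn ^ (k - k₃) * (Wn ^ t * N.N n k₂)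
≤ Wn ^ (k - k₃) * Z.Z n (p + 2) k₃`. -/
theorem zgen (Z : ZFam p) : ∃ k₃, ∀ n k, k₃ ≤ k →
    Z.Z n (p + 2) k ≤ Wn p n (p + 2) ^ (k - k₃) * Z.Z n (p + 2) k₃ := by
  obtain ⟨N, h1, h2⟩ := exists_sat Z (p + 1)
  obtain ⟨k₂, hk₂⟩ := sat_gen N
  obtain ⟨t, ht⟩ := unif Z N.toFam k₂ (fun n => h2 n k₂)
  refine ⟨k₂ + t, fun n k hk => ?_⟩
  have h3 : ∀ ρ, N.N n (k₂ + ρ) ≤ Wn p n (p + 2) ^ ρ * N.N n k₂ := by
    intro ρ
    induction ρ with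
    | zero => rw [pow_zero, one_mul, add_zero]
    | succ ρ ih =>
      refine (hk₂ n (k₂ + ρ) (Nat.le_add_right _ _)).trans ?_
      rw [pow_succ', mul_assoc]
      exact mul_le_mul' le_rfl ih
  have h4 : Wn p n (p + 2) ^ t * N.N n k₂ ≤ Z.Z n (p + 2) (k₂ + t) := by
    rw [Submodule.mul_le]
    exact fun G hG F hF => ht n F hF G hG
  obtain ⟨ρ, rfl⟩ := Nat.exists_eq_add_of_le hk
  have h5 : k₂ + t + ρ = k₂ + (ρ + t) := by omega
  rw [Nat.add_sub_cancel_left]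
  calc Z.Z n (p + 2) (k₂ + t + ρ) ≤ N.N n (k₂ + t + ρ) := h1 n _
    _ = N.N n (k₂ + (ρ + t)) := by rw [h5]
    _ ≤ Wn p n (p + 2) ^ (ρ + t) * N.N n k₂ := h3 _
    _ = Wn p n (p + 2) ^ ρ * (Wn p n (p + 2) ^ t * N.N n k₂) := by rw [pow_add, mul_assoc]
    _ ≤ _ := mul_le_mul' le_rfl h4

theorem q3_mono (Z : ℕ → ZFam p) (hm : ∀ j n m k, (Z j).Z n m k ≤ (Z (j + 1)).Z n m k)
    (n m k : ℕ) : Monotone fun j => (Z j).Z n m k :=
  monotone_nat_of_le_succ fun j => hm j n m k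

theorem q3_mem (Z : ℕ → ZFam p) (hm : ∀ j n m k, (Z j).Z n m k ≤ (Z (j + 1)).Z n m k)
    (n m k : ℕ) (F : MT.T p n m) :
    (F ∈ ⨆ j, (Z j).Z n m k) ↔ ∃ j, F ∈ (Z j).Z n m k :=
  Submodule.mem_iSup_of_chain ⟨fun j => (Z j).Z n m k, q3_mono Z hm n m k⟩ F

/-- The union of a chain. -/
noncomputable def q3_union (Z : ℕ → ZFam p)
    (hm : ∀ j n m k, (Z j).Z n m k ≤ (Z (j + 1)).Z n m k) : ZFam p where
  Z n m k := ⨆ j, (Z j).Z n m k
  le n m k := iSup_le fun j => (Z j).le n m k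
  mul := by
    intro n m k α F hF
    rw [q3_mem Z hm] at hF ⊢
    obtain ⟨j, hj⟩ := hF
    exact ⟨j, (Z j).mul n m k α F hj⟩
  lin := by
    intro n m m' k A F hF
    rw [q3_mem Z hm] at hF ⊢
    obtain ⟨j, hj⟩ := hF
    exact ⟨j, (Z j).lin n m m' k A F hj⟩
  col := by
    intro n n' m k s hs F hF
    rw [q3_mem Z hm] at hF ⊢
    obtain ⟨j, hj⟩ := hF
    exact ⟨j, (Z j).col n n' m k s hs F hj⟩

/-- Proof. Let `Z'` be the union of the chain (`⨆ j, (Z j).Z n m k`, directed; a `ZFam`), `k₃` from `zgen` for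
`Z'`. By `fix0` for each `k ≤ k₃` the chain `j ↦ (Z j).Z n (p + 2) k` becomes stationary, uniformly in `n`, so
there is `J` with `(Z J).Z n (p + 2) k = Z'.Z n (p + 2) k` for all `n` and all `k ≤ k₃`. For
`k > k₃`: `Z'.Z n (p + 2) k ≤ Wn ^ (k - k₃) * Z'.Z n (p + 2) k₃ = Wn ^ (k - k₃) * (Z J).Z n (p + 2) k₃
≤ (Z J).Z n (p + 2) k`. So `(Z J).Z n (p + 2) k = Z'.Z n (p + 2) k` for all `n, k`, and by `level`
`Z'.Z n m k ≤ (Z J).Z n m k` for all `m` (elements of `Z'.Z n m k` lie in `Mk`, so they are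
homogeneous of degree `(n + 1) * (p + k)`). -/
theorem zacc (Z : ℕ → ZFam p) (hm : ∀ j n m k, (Z j).Z n m k ≤ (Z (j + 1)).Z n m k) :
    ∃ J, ∀ j ≥ J, ∀ n m k, (Z j).Z n m k ≤ (Z J).Z n m k := by
  obtain ⟨k₃, hk₃⟩ := zgen (q3_union Z hm)
  have h1 : ∀ k, ∃ J, ∀ j ≥ J, ∀ n, (Z j).Z n (p + 2) k = (Z J).Z n (p + 2) k := by
    intro k
    exact fix0 k (fun j n => (Z j).Z n (p + 2) k)
      (fun j n => ((Z j).le n (p + 2) k).trans (Rk_le p n (p + 2) k))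
      (fun j n => hm j n (p + 2) k)
      (fun j n n' s π hs F hF => (Z j).col n n' (p + 2) k s (fun c => ⟨π c, hs.inv c⟩) F hF)
  choose J hJ using h1
  obtain ⟨J₀, hJ₀⟩ : ∃ J₀, ∀ k ≤ k₃, J k ≤ J₀ :=
    ⟨(Finset.range (k₃ + 1)).sup J, fun k hk =>
      Finset.le_sup (f := J) (Finset.mem_range.2 (Nat.lt_succ_of_le hk))⟩
  have h2 : ∀ n k, k ≤ k₃ → ∀ j, (Z j).Z n (p + 2) k ≤ (Z J₀).Z n (p + 2) k := by
    intro n k hk j
    rcases le_total j J₀ with hj | hj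
    · exact q3_mono Z hm n (p + 2) k hj
    · rw [hJ k j ((hJ₀ k hk).trans hj) n]
      exact q3_mono Z hm n (p + 2) k (hJ₀ k hk)
  have h3 : ∀ n k, (q3_union Z hm).Z n (p + 2) k ≤ (Z J₀).Z n (p + 2) k := by
    intro n k
    rcases le_total k k₃ with hk | hk
    · exact iSup_le fun j => h2 n k hk j
    · refine (hk₃ n k hk).trans ?_
      have h4 : (q3_union Z hm).Z n (p + 2) k₃ ≤ (Z J₀).Z n (p + 2) k₃ :=
        iSup_le fun j => h2 n k₃ le_rfl j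
      refine (mul_le_mul' le_rfl h4).trans ?_
      have h5 := zpow_mul_le (Z J₀) n (p + 2) k₃ (k - k₃)
      rwa [Nat.add_sub_cancel' hk] at h5
  refine ⟨J₀, fun j _ n m k F hF => ?_⟩
  refine level ((n + 1) * (p + k)) (fun m => (Z J₀).Z n m k)
    (fun m m' A G hG => (Z J₀).lin n m m' k A G hG) F
    (homog_of_mem_Mk (Rk_le p n m k ((Z j).le n m k hF))) fun A => ?_
  refine h3 n k ?_
  exact (q3_mem Z hm n (p + 2) k _).2 ⟨j, (Z j).lin n m (p + 2) k A F hF⟩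

end Pool.Agent.Helper65.MT
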