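import Pool.Agent.Helper65.MT.B1
import Pool.Agent.Helper65.MT.Q3
import Pool.Agent.Helper77.DSR.Main

/-!
Project MT: the main theorem.
-/

namespace Pool.Agent.Helper65.MT

open MvPolynomial Helper77 Helper77.DS

noncomputable section

/-- The ascending chain condition for homogeneous elements. -/
theorem SMod.acc {p : ℕ} (M : ℕ → SMod p) (hm : ∀ j n m, (M j).S n m ≤ (M (j + 1)).S n m) :
    ∃ J, ∀ j ≥ J, ∀ (n m q : ℕ)
      (c : (Fin p → Fin (n + 1) → Fin m) → MvPolynomial (Fin (n + 1) → Fin m) ℂ),
      c ∈ (M j).S n m → (∀ s, (c s).IsHomogeneous q) → c ∈ (M J).S n m := by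
  obtain ⟨J, hJ⟩ := zacc (fun j => (M j).toZ) (by
    rintro j n m k F ⟨c, h1, h2, h3⟩
    exact ⟨c, hm j n m h1, h2, h3⟩)
  refine ⟨J, fun j hj n m q c hc hq => ?_⟩
  have h1 : phi c ∈ ((M j).toZ).Z n m q := ⟨c, hc, hq, rfl⟩
  obtain ⟨c', h2, -, h3⟩ := hJ j hj n m q h1
  have h4 : phi (c - c') = 0 := by rw [map_sub, h3, sub_self]
  have h5 : c - c' ∈ (M J).S n m := (M J).base n m _ fun s a b => phi_eq_zero h4 s a b
  have h6 := Submodule.add_mem _ h5 h2
  rwa [sub_add_cancel] at h6

/-- The families of submodules generated by cycles of degree at most `k`. -/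
def cmod2 (I : DI.DeltaIdeal) (p k : ℕ) (hI : I.ContainsSecant) : SMod (p + 1) where
  S n m := csub I p k n m
  mul := by
    intro n m c hc α
    have : csub I p k n m ≤ (csub I p k n m).comap (mulL (X α)) := by
      refine sup_le (Submodule.span_le.2 ?_) ?_
      · rintro x ⟨i, j, f, c, hc, hf, hj, hjk, rfl⟩
        refine Submodule.mem_sup_left (Submodule.subset_span ?_)
        refine ⟨1 + i, j, X α * f, c, hc, (isHomogeneous_X _ _).mul hf, hj, hjk, ?_⟩
        funext s
        simp only [mulL, LinearMap.coe_mk, AddHom.coe_mk]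
        ring
      · intro x hx
        exact Submodule.mem_sup_right fun s => Ideal.mul_mem_left _ _ (hx s)
    exact this hc
  lin := by
    intro n m m' A c hc
    have : csub I p k n m ≤ (csub I p k n m').comap (pactL A) := by
      refine sup_le (Submodule.span_le.2 ?_) ?_
      · rintro x ⟨i, j, f, c, hc, hf, hj, hjk, rfl⟩
        refine Submodule.mem_sup_left (Submodule.subset_span ?_)
        refine ⟨i, j, DI.lmap (V := fun _ => Fin m) (V' := fun _ => Fin m') A f, pact A c,
          cyc_lin I p n m m' A c hc, lmap_homog A hf, pact_homog A hj, hjk, ?_⟩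
        exact pact_mul A f c
      · intro x hx
        exact Submodule.mem_sup_right (pact_vals I (p + 1) n m m' A x hx)
    exact this hc
  col := by
    intro n n' m s hs c hc
    have : csub I p k n m ≤ (csub I p k n' m).comap (pcolL s) := by
      refine sup_le (Submodule.span_le.2 ?_) ?_
      · rintro x ⟨i, j, f, c, hc, hf, hj, hjk, rfl⟩
        refine Submodule.mem_sup_left (Submodule.subset_span ?_)
        refine ⟨i, j, rename (fun α j => α (s j)) f, pcol s c,
          cyc_col I p n n' m s hs c hc, hf.rename_isHomogeneous, pcol_homog s hj, hjk, ?_⟩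
        exact pcol_mul s f c
      · intro x hx
        exact Submodule.mem_sup_right (pcol_vals I (p + 1) n n' m s hs x hx)
    exact this hc
  base := fun n m c hc => Submodule.mem_sup_right fun s => by
    refine hI (Fin (n + 1)) (fun _ => Fin m) (c s) fun a b => ?_
    have := hc s a b
    simpa only [finprod_eq_prod_of_fintype] using this

/-- The syzygies of Delta-schemes contained in the first secant varieties are concentrated in
finitely many degrees. -/
theorem main (I : DI.DeltaIdeal) (hI : I.ContainsSecant) (p : ℕ) : ∃ D : ℕ,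
    ∀ (ι : Type) [Finite ι] [Nonempty ι] (V : ι → Type) [∀ i, Finite (V i)] (q : ℕ),
      D < q → KosExact (I.ideal ι V) p q := by
  obtain ⟨N, hN⟩ := SMod.acc (fun k => cmod2 I p k hI) (by
    intro k n m
    refine sup_le_sup_right (Submodule.span_mono ?_) _
    rintro x ⟨i, j, f, c, hc, hf, hj, hjk, rfl⟩
    exact ⟨i, j, f, c, hc, hf, hj, le_trans hjk (Nat.le_succ k), rfl⟩)
  refine ⟨N, fun ι _ _ V _ q hq => ?_⟩
  obtain ⟨n, m, ε, hε, hI'⟩ := transport ι V
  refine kos_transport ε hε _ _ (hI' I).1 (hI' I).2 p q ?_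
  apply kos_exact_of_cyc
  intro c hc hcq
  have h1 : c ∈ csub I p q n m := by
    refine Submodule.mem_sup_left (Submodule.subset_span ?_)
    refine ⟨0, q, 1, c, hc, isHomogeneous_one _ _, hcq, le_rfl, ?_⟩
    funext s
    rw [one_mul]
  have h2 : c ∈ csub I p N n m := hN q hq.le n m q c h1 hcq
  obtain ⟨z, hz, hzc⟩ := csub_comp I p N n m q hq h2
  refine ⟨z, hz, fun s => ?_⟩
  have h3 : (compL q c) s = c s := by
    change homogeneousComponent q (c s) = c s
    exact homogeneousComponent_eq_self (hcq s)
  have h4 := hzc s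
  rw [h3] at h4
  rw [finsum_eq_sum_of_fintype]
  exact h4

end

end Pool.Agent.Helper65.MT
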