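import Pool.Agent.Helper65.MT.Defs2

/-!
Project MT, piece H1b: the expansion of elementary unipotent substitutions.
-/

namespace Pool.Agent.Helper65.MT

open MvPolynomial

variable {p n m : ℕ}

/-- the relation between an exponent and the exponents of its expansion -/
def h1b_R (c : Fin (n + 1)) (i j : Fin m) (μ : Var p n m →₀ ℕ) (t : ℕ) (ν : Var p n m →₀ ℕ) :
    Prop :=
  md ν = md μ ∧ wt ν c j + t = wt μ c j ∧ wt ν c i = wt μ c i + t ∧
    ∀ c' i', (c', i') ≠ (c, i) → (c', i') ≠ (c, j) → wt ν c' i' = wt μ c' i'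

theorem h1b_R_zero (c : Fin (n + 1)) (i j : Fin m) (μ : Var p n m →₀ ℕ) : h1b_R c i j μ 0 μ :=
  ⟨rfl, rfl, rfl, fun _ _ _ _ => rfl⟩

theorem h1b_R_add {c : Fin (n + 1)} {i j : Fin m} {μ μ' ν ν' : Var p n m →₀ ℕ} {t t' : ℕ}
    (h : h1b_R c i j μ t ν) (h' : h1b_R c i j μ' t' ν') :
    h1b_R c i j (μ + μ') (t + t') (ν + ν') := by
  obtain ⟨h1, h2, h3, h4⟩ := h
  obtain ⟨h1', h2', h3', h4'⟩ := h'
  refine ⟨by rw [md_add, md_add, h1, h1'], ?_, ?_, ?_⟩
  · rw [wt_add, wt_add]
    simp only [Pi.add_apply]
    omega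
  · rw [wt_add, wt_add]
    simp only [Pi.add_apply]
    omega
  · intro c' i' h5 h6
    rw [wt_add, wt_add]
    simp only [Pi.add_apply]
    rw [h4 c' i' h5 h6, h4' c' i' h5 h6]

noncomputable section

open Classical in
/-- the generic substitution -/
def h1b_v (c : Fin (n + 1)) (i j : Fin m) (x : Var p n m) : Polynomial (T p n m) :=
  Polynomial.C (X x) + if x.1 = c ∧ x.2.2 = j then Polynomial.X * Polynomial.C (X (c, x.2.1, i))
    else 0

/-- the generic substitution as a homomorphism -/
def h1b_F (c : Fin (n + 1)) (i j : Fin m) : T p n m →ₐ[ℂ] Polynomial (T p n m) :=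
  aeval (h1b_v c i j)

theorem h1b_F_X (c : Fin (n + 1)) (i j : Fin m) (x : Var p n m) :
    h1b_F c i j (X x) = h1b_v c i j x := by
  rw [h1b_F, aeval_X]

theorem h1b_F_C (c : Fin (n + 1)) (i j : Fin m) (a : ℂ) :
    h1b_F c i j (C a : T p n m) = Polynomial.C (C a) := by
  rw [h1b_F, algHom_C]
  rfl

theorem h1b_lin_X (c : Fin (n + 1)) (i j : Fin m) (τ : ℂ) (x : Var p n m) :
    (lin (tv c i j τ) (X x) : T p n m) = X x + if x.1 = c ∧ x.2.2 = j then
      C τ * X (c, x.2.1, i) else 0 := by
  classical
  rw [lin_X]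
  unfold tv
  simp only [map_add, add_mul, Finset.sum_add_distrib]
  congr 1
  · rw [Finset.sum_eq_single x.2.2]
    · simp
    · intro b _ hb
      rw [if_neg hb, map_zero, zero_mul]
    · intro h; exact absurd (Finset.mem_univ _) h
  · split_ifs with h
    · rw [Finset.sum_eq_single i]
      · rw [if_pos ⟨h.1, rfl, h.2⟩, h.1]
      · intro b _ hb
        rw [if_neg (fun h' => hb h'.2.1), map_zero, zero_mul]
      · intro h; exact absurd (Finset.mem_univ _) h
    · refine Finset.sum_eq_zero (fun b _ => ?_)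
      rw [if_neg (fun h' => h ⟨h'.1, h'.2.2⟩), map_zero, zero_mul]

theorem h1b_eval (c : Fin (n + 1)) (i j : Fin m) (τ : ℂ) (F : T p n m) :
    Polynomial.eval (C τ) (h1b_F c i j F) = lin (tv c i j τ) F := by
  classical
  induction F using MvPolynomial.induction_on with
  | C a => rw [h1b_F_C, Polynomial.eval_C, lin_C]
  | add F G hF hG => rw [map_add, Polynomial.eval_add, hF, hG, map_add]
  | mul_X F x hF =>
    rw [map_mul, Polynomial.eval_mul, hF, map_mul, h1b_F_X, h1b_lin_X]
    congr 1
    unfold h1b_v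
    rw [Polynomial.eval_add, Polynomial.eval_C]
    split_ifs
    · rw [Polynomial.eval_mul, Polynomial.eval_X, Polynomial.eval_C]
    · rw [Polynomial.eval_zero]

theorem h1b_coeff0 (c : Fin (n + 1)) (i j : Fin m) (F : T p n m) :
    (h1b_F c i j F).coeff 0 = F := by
  classical
  induction F using MvPolynomial.induction_on with
  | C a => rw [h1b_F_C, Polynomial.coeff_C_zero]
  | add F G hF hG => rw [map_add, Polynomial.coeff_add, hF, hG]
  | mul_X F x hF =>
    rw [map_mul, Polynomial.mul_coeff_zero, hF, h1b_F_X]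
    congr 1
    unfold h1b_v
    rw [Polynomial.coeff_add, Polynomial.coeff_C_zero]
    split_ifs
    · rw [Polynomial.mul_coeff_zero, Polynomial.coeff_X_zero, zero_mul, add_zero]
    · rw [Polynomial.coeff_zero, add_zero]

/-- the support of the expansion of a variable -/
theorem h1b_supp_X (c : Fin (n + 1)) {i j : Fin m} (hij : i ≠ j) (x : Var p n m) (t : ℕ)
    (ν : Var p n m →₀ ℕ) (h : coeff ν ((h1b_v c i j x).coeff t) ≠ 0) :
    h1b_R c i j (Finsupp.single x 1) t ν := by
  classical
  unfold h1b_v at h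
  rw [Polynomial.coeff_add, coeff_add, Polynomial.coeff_C] at h
  by_cases h1 : t = 0 ∧ ν = Finsupp.single x 1
  · rw [h1.1, h1.2]; exact h1b_R_zero _ _ _ _
  · have h2 : coeff ν (if t = 0 then (X x : T p n m) else 0) = 0 := by
      split_ifs with h3
      · rw [coeff_X', if_neg (fun h4 => h1 ⟨h3, h4.symm⟩)]
      · rw [coeff_zero]
    rw [h2, zero_add] at h
    split_ifs at h with h3
    · rw [Polynomial.coeff_mul_C, Polynomial.coeff_X] at h
      split_ifs at h with h4
      · rw [one_mul, coeff_X'] at h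
        split_ifs at h with h5
        · subst h4
          subst h5
          obtain ⟨x1, x2, x3⟩ := x
          simp only at h3
          obtain ⟨rfl, rfl⟩ := h3
          refine ⟨?_, ?_, ?_, ?_⟩
          · funext z
            rw [md_single, md_single]
          · rw [wt_single, wt_single]
            simp [hij.symm]
          · rw [wt_single, wt_single]
            simp [hij]
          · intro c' i' h6 h7
            rw [wt_single, wt_single]
            have e1 : ¬ (c' = x1 ∧ i' = i) := fun h8 => h6 (by rw [h8.1, h8.2])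
            have e2 : ¬ (c' = x1 ∧ i' = x3) := fun h8 => h7 (by rw [h8.1, h8.2])
            rw [if_neg e1, if_neg e2]
        · exact absurd rfl h
      · rw [zero_mul, coeff_zero] at h
        exact absurd rfl h
    · rw [Polynomial.coeff_zero, coeff_zero] at h
      exact absurd rfl h

/-- the support of the expansion of a monomial -/
theorem h1b_supp_mon (c : Fin (n + 1)) {i j : Fin m} (hij : i ≠ j) (μ : Var p n m →₀ ℕ) :
    ∀ (a : ℂ) (t : ℕ) (ν : Var p n m →₀ ℕ), coeff ν ((h1b_F c i j (monomial μ a)).coeff t) ≠ 0 →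
      h1b_R c i j μ t ν := by
  classical
  induction μ using Finsupp.induction_linear with
  | zero =>
    intro a t ν h
    rw [monomial_zero', h1b_F_C, Polynomial.coeff_C] at h
    split_ifs at h with h1
    · rw [coeff_C] at h
      split_ifs at h with h2
      · rw [h1, ← h2]; exact h1b_R_zero _ _ _ _
      · exact absurd rfl h
    · rw [coeff_zero] at h; exact absurd rfl h
  | add f g hf hg =>
    intro a t ν h
    have e : monomial (f + g) a = (monomial f a : T p n m) * monomial g 1 := by
      rw [monomial_mul, mul_one]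
    rw [e, map_mul, Polynomial.coeff_mul, coeff_sum] at h
    obtain ⟨q, hq, h1⟩ := Finset.exists_ne_zero_of_sum_ne_zero h
    rw [coeff_mul] at h1
    obtain ⟨r, hr, h2⟩ := Finset.exists_ne_zero_of_sum_ne_zero h1
    rw [Finset.HasAntidiagonal.mem_antidiagonal] at hq hr
    rw [← hq, ← hr]
    exact h1b_R_add (hf a _ _ (left_ne_zero_of_mul h2)) (hg 1 _ _ (right_ne_zero_of_mul h2))
  | single x k =>
    induction k with
    | zero =>
      intro a t ν h
      rw [Finsupp.single_zero, monomial_zero', h1b_F_C, Polynomial.coeff_C] at h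
      rw [Finsupp.single_zero]
      split_ifs at h with h1
      · rw [coeff_C] at h
        split_ifs at h with h2
        · rw [h1, ← h2]; exact h1b_R_zero _ _ _ _
        · exact absurd rfl h
      · rw [coeff_zero] at h; exact absurd rfl h
    | succ k ih =>
      intro a t ν h
      have e : monomial (Finsupp.single x (k + 1)) a =
          (monomial (Finsupp.single x k) a : T p n m) * X x := by
        rw [X, monomial_mul, mul_one, ← Finsupp.single_add]
      rw [e, map_mul, h1b_F_X, Polynomial.coeff_mul, coeff_sum] at h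
      obtain ⟨q, hq, h1⟩ := Finset.exists_ne_zero_of_sum_ne_zero h
      rw [coeff_mul] at h1
      obtain ⟨r, hr, h2⟩ := Finset.exists_ne_zero_of_sum_ne_zero h1
      rw [Finset.HasAntidiagonal.mem_antidiagonal] at hq hr
      rw [← hq, ← hr, Finsupp.single_add]
      exact h1b_R_add (ih a _ _ (left_ne_zero_of_mul h2))
        (h1b_supp_X c hij x _ _ (right_ne_zero_of_mul h2))

/-- The expansion of an elementary unipotent substitution. Proof. It is enough to treat monomials
`F = monomial μ a` (linearity): `lin (tv c i j τ)` replaces `X (c, r, j)` by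
`X (c, r, j) + C τ * X (c, r, i)` and fixes the other variables, so `lin (tv c i j τ) (monomial μ a)`
is the product of a monomial and of the
`(X (c, r, j) + C τ * X (c, r, i)) ^ (μ (c, r, j))`; expand by the binomial theorem and collect the
powers of `τ`. (Alternatively, use a homomorphism `T p n m → Polynomial (T p n m)` with
`X (c, r, j) ↦ C (X (c, r, j)) + Polynomial.X * C (X (c, r, i))` and let `G t` be the coefficient of
degree `t`; the support condition is multiplicative.) -/
theorem tv_expand (c : Fin (n + 1)) {i j : Fin m} (hij : i ≠ j) (F : T p n m) :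
    ∃ (D : ℕ) (G : ℕ → T p n m), G 0 = F ∧
      (∀ τ : ℂ, lin (tv c i j τ) F = ∑ t ∈ Finset.range (D + 1), τ ^ t • G t) ∧
      ∀ t ν, coeff ν (G t) ≠ 0 → ∃ μ, coeff μ F ≠ 0 ∧ md ν = md μ ∧ wt ν c j + t = wt μ c j ∧
        wt ν c i = wt μ c i + t ∧
        ∀ c' i', (c', i') ≠ (c, i) → (c', i') ≠ (c, j) → wt ν c' i' = wt μ c' i' := by
  classical
  refine ⟨(h1b_F c i j F).natDegree, fun t => (h1b_F c i j F).coeff t, h1b_coeff0 c i j F, ?_, ?_⟩
  · intro τ
    rw [← h1b_eval, Polynomial.eval_eq_sum_range]
    refine Finset.sum_congr rfl (fun t _ => ?_)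
    rw [MvPolynomial.smul_eq_C_mul, ← map_pow, mul_comm]
  · intro t ν h
    have h0 : h1b_F c i j F = ∑ μ ∈ F.support, h1b_F c i j (monomial μ (coeff μ F)) := by
      conv_lhs => rw [F.as_sum]
      rw [map_sum]
    simp only [] at h
    rw [h0, Polynomial.finsetSum_coeff, coeff_sum] at h
    obtain ⟨μ, hμ, h1⟩ := Finset.exists_ne_zero_of_sum_ne_zero h
    exact ⟨μ, mem_support_iff.mp hμ, h1b_supp_mon c hij μ _ t ν h1⟩

end

end Pool.Agent.Helper65.MT
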