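import Pool.Agent.Helper65.MT.H1
import Pool.Agent.Helper65.MT.H1b

/-!
Project MT, piece H2: highest weight vectors.
-/

namespace Pool.Agent.Helper65.MT

open MvPolynomial

variable {p n m : ℕ}

/-- The letter sum of a weight. -/
def h2_ls (a : Fin (n + 1) → Fin m → ℕ) : ℕ := ∑ c, ∑ i : Fin m, (i : ℕ) * a c i

theorem h2_ls_add (c : Fin (n + 1)) (j : Fin m) (t : ℕ) (a : Fin (n + 1) → Fin m → ℕ) :
    h2_ls (fun c' i' => a c' i' + if (c', i') = (c, j) then t else 0) = h2_ls a + (j : ℕ) * t := by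
  classical
  unfold h2_ls
  simp only [mul_add, Finset.sum_add_distrib]
  congr 1
  rw [Finset.sum_eq_single c]
  · rw [Finset.sum_eq_single j]
    · simp
    · intro i _ hi
      rw [if_neg (by
        intro h
        exact hi (Prod.ext_iff.mp h).2), mul_zero]
    · intro h
      exact absurd (Finset.mem_univ _) h
  · intro c' _ hc
    refine Finset.sum_eq_zero fun i _ => ?_
    rw [if_neg (by
      intro h
      exact hc (Prod.ext_iff.mp h).1), mul_zero]
  · intro h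
    exact absurd (Finset.mem_univ _) h

theorem h2_ls_lt {c : Fin (n + 1)} {i j : Fin m} (hij : i < j) {t : ℕ} (ht : 1 ≤ t)
    {a b : Fin (n + 1) → Fin m → ℕ} (h1 : a c j + t = b c j) (h2 : a c i = b c i + t)
    (h3 : ∀ c' i', (c', i') ≠ (c, i) → (c', i') ≠ (c, j) → a c' i' = b c' i') :
    h2_ls a < h2_ls b := by
  classical
  have hne : (c, i) ≠ (c, j) := by
    intro h
    exact hij.ne (Prod.ext_iff.mp h).2
  have h4 : (fun c' i' => a c' i' + if (c', i') = (c, j) then t else 0) =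
      fun c' i' => b c' i' + if (c', i') = (c, i) then t else 0 := by
    funext c' i'
    by_cases hj : (c', i') = (c, j)
    · obtain ⟨rfl, rfl⟩ := Prod.mk.inj hj
      rw [if_pos rfl, if_neg (fun h => hne h.symm), add_zero]
      exact h1
    · by_cases hi : (c', i') = (c, i)
      · obtain ⟨rfl, rfl⟩ := Prod.mk.inj hi
        rw [if_neg hj, if_pos rfl, add_zero]
        exact h2
      · rw [if_neg hj, if_neg hi, h3 c' i' hi hj]
  have h5 := h2_ls_add c j t a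
  rw [h4, h2_ls_add] at h5
  have h6 : (i : ℕ) * t < (j : ℕ) * t := Nat.mul_lt_mul_of_pos_right hij ht
  omega

/-- The conclusion from the vanishing of the higher terms. -/
theorem h2_fix {E : Type} [AddCommGroup E] [Module ℂ E] (D : ℕ) (G : ℕ → E)
    (h : ∀ t, 1 ≤ t → t ≤ D → G t = 0) (τ : ℂ) :
    ∑ t ∈ Finset.range (D + 1), τ ^ t • G t = G 0 := by
  rw [Finset.sum_range_succ', pow_zero, one_smul, Finset.sum_eq_zero, zero_add]
  intro t ht
  rw [h (t + 1) (by omega) (by have := Finset.mem_range.mp ht; omega), smul_zero]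

/-- Proof. For `F ≠ 0` let `l F` be the maximum of the letter sums `∑ c, ∑ i, i * wt μ c i` of the
exponents `μ` of `F`. Choose a nonzero `F ∈ Q` with minimal `l F`. If `P c i j`, write
`lin (tv c i j τ) F = ∑ t, τ ^ t • G t` (`tv_expand`, `i < j`). By `coeff_mem` (applied to `Q`) all `G t`, `t ≤ D`, lie in
`Q`. For `1 ≤ t` the exponents of `G t` have a letter sum less by `t * (j - i)` than an exponent of `F`, so
`G t ≠ 0` would give `l (G t) < l F`, contradiction. So `G t = 0` for `1 ≤ t ≤ D`, and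
`lin (tv c i j τ) F = G 0 = F`. -/
theorem unip_fixed (P : Fin (n + 1) → Fin m → Fin m → Prop) (hP : ∀ c i j, P c i j → i < j)
    (Q : Submodule ℂ (T p n m)) (hQ : ∀ c i j, P c i j → ∀ τ : ℂ, ∀ F ∈ Q, lin (tv c i j τ) F ∈ Q)
    (h0 : Q ≠ ⊥) :
    ∃ F ∈ Q, F ≠ 0 ∧ ∀ c i j, P c i j → ∀ τ : ℂ, lin (tv c i j τ) F = F := by
  classical
  have hex : ∃ k : ℕ, ∃ F ∈ Q, F ≠ 0 ∧ F.support.sup (fun μ => h2_ls (wt μ)) = k := by
    obtain ⟨F, hF, hF0⟩ := Submodule.exists_mem_ne_zero_of_ne_bot h0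
    exact ⟨_, F, hF, hF0, rfl⟩
  obtain ⟨F, hF, hF0, hFk⟩ := Nat.find_spec hex
  refine ⟨F, hF, hF0, ?_⟩
  intro c i j hPc τ
  have hij := hP c i j hPc
  obtain ⟨D, G, hG0, hG1, hG2⟩ := tv_expand c hij.ne F
  have hGQ : ∀ t ≤ D, G t ∈ Q := by
    refine coeff_mem Q D G ?_
    intro σ
    rw [← hG1]
    exact hQ c i j hPc σ F hF
  have hGz : ∀ t, 1 ≤ t → t ≤ D → G t = 0 := by
    intro t ht htD
    by_contra hne
    refine Nat.find_min hex (m := (G t).support.sup (fun μ => h2_ls (wt μ))) ?_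
      ⟨G t, hGQ t htD, hne, rfl⟩
    rw [← hFk]
    have key : ∀ ν ∈ (G t).support, h2_ls (wt ν) < F.support.sup (fun μ => h2_ls (wt μ)) := by
      intro ν hν
      obtain ⟨μ, hμ, -, e1, e2, e3⟩ := hG2 t ν (mem_support_iff.mp hν)
      exact (h2_ls_lt hij ht e1 e2 e3).trans_le
        (Finset.le_sup (f := fun μ => h2_ls (wt μ)) (mem_support_iff.mpr hμ))
    obtain ⟨ν, hν⟩ := support_nonempty.mpr hne
    exact (Finset.sup_lt_iff ((Nat.zero_le _).trans_lt (key ν hν))).mpr key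
  rw [hG1, h2_fix D G hGz τ, hG0]

/-- Proof. By `res_mem` the weight components of elements of `Q` lie in `Q`, so `Q` contains nonzero
weight vectors. Choose one with minimal letter sum `∑ c, ∑ i, i * lam c i` of its weight. In
`lin (tv c i j τ) F = ∑ t, τ ^ t • G t`, `i < j`, the `G t ∈ Q`, `1 ≤ t ≤ D`, are weight vectors with smaller
letter sum (or zero), so they vanish, as in `unip_fixed`. -/
theorem exists_hw (Q : Submodule ℂ (T p n m))
    (hQ : ∀ A : Fin (n + 1) → Fin m → Fin m → ℂ, ∀ F ∈ Q, lin A F ∈ Q) (h0 : Q ≠ ⊥) :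
    ∃ F ∈ Q, F ≠ 0 ∧ (∃ lam : Fin (n + 1) → Fin m → ℕ, ∀ μ, coeff μ F ≠ 0 → wt μ = lam) ∧
      ∀ (c : Fin (n + 1)) (i j : Fin m), i < j → ∀ τ : ℂ, lin (tv c i j τ) F = F := by
  classical
  have hex : ∃ k : ℕ, ∃ F ∈ Q, F ≠ 0 ∧ ∃ lam : Fin (n + 1) → Fin m → ℕ,
      (∀ μ, coeff μ F ≠ 0 → wt μ = lam) ∧ h2_ls lam = k := by
    obtain ⟨F, hF, hF0⟩ := Submodule.exists_mem_ne_zero_of_ne_bot h0
    obtain ⟨μ₀, hμ₀⟩ := support_nonempty.mpr hF0
    have h1 := res_mem Q hQ (fun w => w = wt μ₀) hF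
    refine ⟨h2_ls (wt μ₀), _, h1, ?_, wt μ₀, ?_, rfl⟩
    · intro h2
      have h3 := congrArg (coeff μ₀) h2
      rw [coeff_res, if_pos rfl, coeff_zero] at h3
      exact mem_support_iff.mp hμ₀ h3
    · intro μ hμ
      rw [coeff_res] at hμ
      by_contra h3
      rw [if_neg h3] at hμ
      exact hμ rfl
  obtain ⟨F, hF, hF0, lam, hlam, hFk⟩ := Nat.find_spec hex
  refine ⟨F, hF, hF0, ⟨lam, hlam⟩, ?_⟩
  intro c i j hij τ
  obtain ⟨D, G, hG0, hG1, hG2⟩ := tv_expand c hij.ne F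
  have hGQ : ∀ t ≤ D, G t ∈ Q := by
    refine coeff_mem Q D G ?_
    intro σ
    rw [← hG1]
    exact hQ _ F hF
  have hGz : ∀ t, 1 ≤ t → t ≤ D → G t = 0 := by
    intro t ht htD
    by_contra hne
    obtain ⟨ν₀, hν₀⟩ := support_nonempty.mpr hne
    obtain ⟨μ₀, hμ₀, -, e1, e2, e3⟩ := hG2 t ν₀ (mem_support_iff.mp hν₀)
    rw [hlam μ₀ hμ₀] at e1 e2 e3
    refine Nat.find_min hex (m := h2_ls (wt ν₀)) ?_
      ⟨G t, hGQ t htD, hne, wt ν₀, ?_, rfl⟩
    · rw [← hFk]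
      exact h2_ls_lt hij ht e1 e2 e3
    · intro ν hν
      obtain ⟨μ, hμ, -, f1, f2, f3⟩ := hG2 t ν hν
      rw [hlam μ hμ] at f1 f2 f3
      funext c' i'
      by_cases hj : (c', i') = (c, j)
      · obtain ⟨rfl, rfl⟩ := Prod.mk.inj hj
        omega
      · by_cases hi : (c', i') = (c, i)
        · obtain ⟨rfl, rfl⟩ := Prod.mk.inj hi
          omega
        · rw [e3 c' i' hi hj, f3 c' i' hi hj]
  rw [hG1, h2_fix D G hGz τ, hG0]

end Pool.Agent.Helper65.MT
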