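import Pool.Agent.Helper65.MT.Defs2

/-!
Project MT, piece H3a: invariants do not depend on the letters `≥ p + 2`.
-/

namespace Pool.Agent.Helper65.MT

open MvPolynomial

variable {p n m : ℕ}

theorem h3a_eval (A : Fin (n + 1) → Fin m → Fin m → ℂ) (z : Var p n m → ℂ) (F : T p n m) :
    eval z (lin A F) = eval (fun x => ∑ j, A x.1 j x.2.2 * z (x.1, x.2.1, j)) F := by
  have h : (eval z).comp (lin A : T p n m →ₐ[ℂ] T p n m).toRingHom =
      eval (fun x => ∑ j, A x.1 j x.2.2 * z (x.1, x.2.1, j)) := by
    refine ringHom_ext ?_ ?_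
    · intro a
      simp [lin]
    · intro x
      simp [lin]
  exact congrArg (fun f => f F) h

/-- The vector of the letter `l` in column `c` is changed by `v`. -/
noncomputable def h3a_up (z : Var p n m → ℂ) (c : Fin (n + 1)) (l : Fin m) (v : Slot p → ℂ) :
    Var p n m → ℂ :=
  fun x => if x.1 = c ∧ x.2.2 = l then z x + v x.2.1 else z x

theorem h3a_step (F : T p n m) (c : Fin (n + 1)) (l i : Fin m) (τ : ℂ)
    (hF : lin (tv c i l τ) F = F) (z : Var p n m → ℂ) :
    eval (h3a_up z c l fun r => τ * z (c, r, i)) F = eval z F := by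
  conv_rhs => rw [← hF]
  rw [h3a_eval]
  congr 2
  funext x
  obtain ⟨c', r, b⟩ := x
  simp only [h3a_up, tv, add_mul, Finset.sum_add_distrib]
  have h1 : ∑ j, (if j = b then (1 : ℂ) else 0) * z (c', r, j) = z (c', r, b) := by
    rw [Finset.sum_eq_single b]
    · simp
    · intro j _ hj
      rw [if_neg hj, zero_mul]
    · intro h
      exact absurd (Finset.mem_univ b) h
  rw [h1]
  by_cases h : c' = c ∧ b = l
  · obtain ⟨rfl, rfl⟩ := h
    rw [if_pos ⟨rfl, rfl⟩, Finset.sum_eq_single i]
    · simp
    · intro j _ hj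
      rw [if_neg (fun h => hj h.2.1), zero_mul]
    · intro h
      exact absurd (Finset.mem_univ i) h
  · rw [if_neg h, Finset.sum_eq_zero, add_zero]
    intro j _
    rw [if_neg (fun h' => h ⟨h'.1, h'.2.2⟩), zero_mul]

theorem h3a_comb {κ : Type} (F : T p n m) (c : Fin (n + 1)) (l : Fin m) (e : κ → Fin m)
    (he : ∀ i, e i < l) (hF : ∀ i : Fin m, i < l → ∀ τ : ℂ, lin (tv c i l τ) F = F)
    (z : Var p n m → ℂ) (τ : κ → ℂ) (s : Finset κ) :
    eval (h3a_up z c l fun r => ∑ i ∈ s, τ i * z (c, r, e i)) F = eval z F := by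
  classical
  induction s using Finset.induction_on with
  | empty =>
    congr 2
    funext x
    simp [h3a_up]
  | insert a s ha ih =>
    rw [← ih, ← h3a_step F c l (e a) (τ a) (hF _ (he a) _)
      (h3a_up z c l fun r => ∑ i ∈ s, τ i * z (c, r, e i))]
    congr 2
    funext x
    have h1 : ¬ (e a = l) := ne_of_lt (he a)
    simp only [h3a_up, Finset.sum_insert ha, h1, and_false, if_false]
    by_cases h : x.1 = c ∧ x.2.2 = l
    · rw [if_pos h, if_pos h, if_pos h]
      ring
    · rw [if_neg h, if_neg h, if_neg h]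

theorem h3a_point (F : T p n m) (c : Fin (n + 1)) (l : Fin m) (q : Fin (p + 2) ≃ Slot p)
    (e : Fin (p + 2) → Fin m) (he : ∀ i, e i < l)
    (hF : ∀ i : Fin m, i < l → ∀ τ : ℂ, lin (tv c i l τ) F = F) (z : Var p n m → ℂ)
    (hz : (Matrix.of fun r i => z (c, q r, e i)).det ≠ 0) :
    eval z (lin (fun c' a b => if a = b ∧ ¬ (c' = c ∧ b = l) then 1 else 0) F) = eval z F := by
  set M : Matrix (Fin (p + 2)) (Fin (p + 2)) ℂ := Matrix.of fun r i => z (c, q r, e i) with hM
  have hu : IsUnit M.det := isUnit_iff_ne_zero.mpr hz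
  have h2 : M.mulVec (M⁻¹.mulVec fun r => - z (c, q r, l)) = fun r => - z (c, q r, l) := by
    rw [Matrix.mulVec_mulVec, Matrix.mul_nonsing_inv M hu, Matrix.one_mulVec]
  rw [← h3a_comb F c l e he hF z (M⁻¹.mulVec fun r => - z (c, q r, l)) Finset.univ, h3a_eval]
  congr 2
  funext x
  obtain ⟨c', r, b⟩ := x
  simp only [h3a_up]
  by_cases h : c' = c ∧ b = l
  · obtain ⟨rfl, rfl⟩ := h
    rw [if_pos ⟨rfl, rfl⟩, Finset.sum_eq_zero]
    · have h3 := congrFun h2 (q.symm r)
      simp only [Matrix.mulVec, dotProduct, hM, Matrix.of_apply, Equiv.apply_symm_apply] at h3 ⊢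
      have h4 : ∀ w : Fin (p + 2) → ℂ, ∑ i, w i * z (c', r, e i) =
          ∑ i, z (c', r, e i) * w i := fun w => Finset.sum_congr rfl fun i _ => mul_comm _ _
      rw [h4, h3]
      ring
    · intro j _
      rw [if_neg (fun h => h.2 ⟨rfl, rfl⟩), zero_mul]
  · rw [if_neg h, Finset.sum_eq_single b]
    · rw [if_pos ⟨rfl, h⟩, one_mul]
    · intro j _ hj
      rw [if_neg (fun h' => hj h'.1), zero_mul]
    · intro h
      exact absurd (Finset.mem_univ b) h

/-- A polynomial in the vectors `x^(i) = (X (c, r, i))_r ∈ ℂ^(p + 2)`, `i < m`, invariant under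
`x^(l) ↦ x^(l) + τ x^(i)` for `i < l`, does not depend on `x^(l)` for `l ≥ p + 2`.
Proof. Evaluate at points. Let `z : Var p n m → ℂ` be a point such that the vectors
`z (c, ·, i) ∈ ℂ^(Slot p)`, `i < p + 2`, are linearly independent; they span `ℂ^(Slot p)`
(`card (Slot p) = p + 2`). By invariance (evaluate `lin (tv c i l τ) F = F`) the value of `F` at `z` does not change if a linear combination of
these vectors is added to the vector `z (c, ·, l)`; so it does not change if the vector `z (c, ·, l)` is
replaced by `0`. This is the identity `eval z (F - F') = 0`, where `F' = lin A F` and `A` kills the letter `l` in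
column `c`, for all `z` with `det ≠ 0`, where `det` is the determinant of the first `p + 2` vectors. So
`det * (F - F') = 0` as polynomials (`MvPolynomial.funext`), and `det ≠ 0`, so `F = F'`. -/
theorem indep_letter (F : T p n m) (c : Fin (n + 1)) (l : Fin m) (hl : p + 2 ≤ (l : ℕ))
    (hF : ∀ i : Fin m, i < l → ∀ τ : ℂ, lin (tv c i l τ) F = F) :
    lin (fun c' a b => if a = b ∧ ¬ (c' = c ∧ b = l) then 1 else 0) F = F := by
  have hc : Fintype.card (Slot p) = p + 2 := by simp
  let q : Fin (p + 2) ≃ Slot p := (Fintype.equivFinOfCardEq hc).symm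
  let e : Fin (p + 2) → Fin m := fun i => ⟨i, by have := i.2; have := l.2; omega⟩
  have he : ∀ i, e i < l := fun i => by
    have := i.2
    change (i : ℕ) < (l : ℕ)
    omega
  let D : T p n m := (Matrix.of fun r i => (X (c, q r, e i) : T p n m)).det
  have hD : ∀ z : Var p n m → ℂ, eval z D = (Matrix.of fun r i => z (c, q r, e i)).det := by
    intro z
    change eval z (Matrix.det _) = _
    rw [RingHom.map_det]
    congr 1
    ext r i
    simp
  have hD0 : D ≠ 0 := by
    intro h0
    have h1 := hD fun x => if (q.symm x.2.1 : Fin (p + 2)) = (x.2.2 : ℕ) then 1 else 0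
    rw [h0, map_zero] at h1
    have h2 : (Matrix.of fun r i : Fin (p + 2) =>
        if ((q.symm (q r) : Fin (p + 2)) : ℕ) = ((e i : Fin m) : ℕ) then (1 : ℂ) else 0) = 1 := by
      ext r i
      rw [Matrix.of_apply, Equiv.symm_apply_apply, Matrix.one_apply]
      by_cases h : r = i
      · rw [if_pos h, if_pos (by rw [h])]
      · rw [if_neg h, if_neg]
        intro h'
        exact h (Fin.ext h')
    have h3 := h1.trans (congrArg Matrix.det h2)
    rw [Matrix.det_one] at h3
    exact zero_ne_one h3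
  have h0 : D * (lin (fun c' a b => if a = b ∧ ¬ (c' = c ∧ b = l) then 1 else 0) F - F) = 0 := by
    refine MvPolynomial.funext fun z => ?_
    rw [map_mul, map_zero, map_sub]
    by_cases hz : eval z D = 0
    · rw [hz, zero_mul]
    · rw [h3a_point F c l q e he hF z (by rwa [← hD]), sub_self, mul_zero]
  exact sub_eq_zero.mp ((mul_eq_zero.mp h0).resolve_left hD0)

end Pool.Agent.Helper65.MT
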