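import Pool.Agent.Helper65.MT.H2
import Pool.Agent.Helper65.MT.F1
import Pool.Agent.Helper65.MT.H3a

/-!
Project MT, piece H3: level `p + 2`.
-/

namespace Pool.Agent.Helper65.MT

open MvPolynomial

variable {p n m : ℕ}

/-- Linear substitutions preserve homogeneous polynomials. -/
theorem h3_homog {m' : ℕ} (A : Fin (n + 1) → Fin m' → Fin m → ℂ) {D : ℕ} {F : T p n m}
    (hF : F.IsHomogeneous D) : (lin A F).IsHomogeneous D := by
  have h1 : F ∈ restrictSupport ℂ {μ : Var p n m →₀ ℕ | μ.degree = D} := by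
    rw [mem_rs]
    intro μ hμ
    have h2 := hF hμ
    change μ.degree = D
    rw [Finsupp.degree_eq_weight_one]
    exact h2
  have h2 : lin A F ∈ restrictSupport ℂ {μ : Var p n m' →₀ ℕ | μ.degree = D} := by
    refine map_mem_rs (lin A : T p n m →ₐ[ℂ] T p n m').toLinearMap ?_ h1
    intro μ hμ a
    rw [mem_rs]
    intro ν hν
    have h3 := mem_rs.mp (lin_monomial_mem A μ a) ν hν
    have h4 : md ν = md μ := h3
    change ν.degree = D
    rw [degree_eq_sum_md, h4, ← degree_eq_sum_md]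
    exact hμ
  intro μ hμ
  have h3 := mem_rs.mp h2 μ hμ
  have h4 : μ.degree = D := h3
  rw [Finsupp.degree_eq_weight_one] at h4
  exact h4

/-- The projection that kills the letters of a set of pairs (column, letter). -/
theorem h3_kill (F : T p n m)
    (hF : ∀ (c : Fin (n + 1)) (l : Fin m), p + 2 ≤ (l : ℕ) →
      lin (fun c' a b => if a = b ∧ ¬ (c' = c ∧ b = l) then 1 else 0) F = F)
    (S : Finset (Fin (n + 1) × Fin m)) (hS : ∀ x ∈ S, p + 2 ≤ (x.2 : ℕ)) :
    lin (fun c a b => if a = b ∧ (c, b) ∉ S then 1 else 0) F = F := by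
  classical
  induction S using Finset.induction_on with
  | empty =>
    simp only [Finset.notMem_empty, not_false_eq_true, and_true]
    exact lin_one F
  | insert x S hx ih =>
    have ih' := ih fun y hy => hS y (Finset.mem_insert_of_mem hy)
    have h1 := hF x.1 x.2 (hS x (Finset.mem_insert_self x S))
    have h2 : lin (fun c' a b => if a = b ∧ ¬ (c' = x.1 ∧ b = x.2) then 1 else 0)
        (lin (fun c a b => if a = b ∧ (c, b) ∉ S then 1 else 0) F) = F := by
      rw [ih', h1]
    rw [lin_lin] at h2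
    refine Eq.trans ?_ h2
    congr 2
    funext c a b
    rw [Finset.sum_eq_single b]
    · by_cases hab : a = b
      · subst hab
        by_cases h3 : c = x.1 ∧ a = x.2
        · obtain ⟨h4, h5⟩ := h3
          rw [if_neg, if_neg, zero_mul]
          · rintro ⟨-, h6⟩
            exact h6 ⟨h4, h5⟩
          · rintro ⟨-, h6⟩
            refine h6 (Finset.mem_insert.mpr (Or.inl ?_))
            exact Prod.ext h4 h5
        · rw [if_pos (show a = a ∧ ¬ (c = x.1 ∧ a = x.2) from ⟨rfl, h3⟩), one_mul]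
          by_cases h4 : (c, a) ∈ S
          · rw [if_neg, if_neg]
            · rintro ⟨-, h6⟩
              exact h6 h4
            · rintro ⟨-, h6⟩
              exact h6 (Finset.mem_insert_of_mem h4)
          · rw [if_pos, if_pos]
            · exact ⟨rfl, h4⟩
            · refine ⟨rfl, fun h5 => ?_⟩
              rcases Finset.mem_insert.mp h5 with h6 | h6
              · exact h3 ⟨congrArg Prod.fst h6, congrArg Prod.snd h6⟩
              · exact h4 h6
      · rw [if_neg (fun h => hab h.1), if_neg (fun h => hab h.1), zero_mul]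
    · intro j _ hj
      rw [if_neg (fun h : j = b ∧ _ => hj h.1), mul_zero]
    · intro h
      exact absurd (Finset.mem_univ b) h

/-- The inclusion or projection of letters. -/
def h3_inc (n m m' : ℕ) : Fin (n + 1) → Fin m' → Fin m → ℂ :=
  fun _ i j => if (i : ℕ) = (j : ℕ) then 1 else 0

theorem h3_inc_comp (q : ℕ) (c : Fin (n + 1)) (i k : Fin m) :
    ∑ j : Fin q, h3_inc n q m c i j * h3_inc n m q c j k =
      if i = k ∧ (k : ℕ) < q then 1 else 0 := by
  by_cases hk : (k : ℕ) < q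
  · rw [Finset.sum_eq_single (⟨k, hk⟩ : Fin q)]
    · by_cases h : i = k
      · subst h
        simp [h3_inc, hk]
      · rw [if_neg (fun h' => h h'.1)]
        have h1 : (i : ℕ) ≠ (k : ℕ) := fun h' => h (Fin.ext h')
        simp [h3_inc, h1]
    · intro j _ hj
      have h1 : (j : ℕ) ≠ (k : ℕ) := fun h' => hj (Fin.ext h')
      simp [h3_inc, h1]
    · intro h
      exact absurd (Finset.mem_univ _) h
  · rw [if_neg (fun h => hk h.2)]
    refine Finset.sum_eq_zero fun j _ => ?_
    have h1 : (j : ℕ) ≠ (k : ℕ) := fun h' => hk (h' ▸ j.2)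
    simp [h3_inc, h1]

/-- Proof. If `m ≤ p + 2`: the inclusion `J` of the letters followed by the projection `A` is the
identity, so `f = lin A (lin J f)` (`lin_lin`, `lin_one`) with `lin J f ∈ Z (p + 2)`. Let `m > p + 2`, and let `Z'` be the submodule of all
`g : T p n m`, homogeneous of degree `D`, with `lin A g ∈ Z (p + 2)` for all `A`; it contains the homogeneous elements of
`Z m` of degree `D`, `Z0 = Z m ⊓ homogeneousSubmodule D`. If `f ∉ Z m` then by `exists_orth` the submodule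
`Q` of the elements of `Z'` orthogonal to `Z0` is nonzero. It is closed under `lin A` for square matrices `A`: `Z'` and `Z0` are
(`lin_lin`; `lin A` preserves homogeneous polynomials), and `fis (lin A g) h = fis g (lin A' h)`
(`fis_lin`). By `exists_hw` it contains a nonzero `g` fixed by all `lin (tv c i j τ)`, `i < j`. By `indep_letter` (for
all columns and all letters `l ≥ p + 2`) `g = lin E g`, where `E` is the projection to the first `p + 2`
letters, and `E = B A` with `A : ℂ^m → ℂ^(p+2)`, `B : ℂ^(p+2) → ℂ^m`. Since `lin A g ∈ Z (p + 2)` we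
get `g ∈ Z m`, so `g ∈ Z0` is orthogonal to itself, contradiction. -/
theorem level (D : ℕ) (Z : ∀ m : ℕ, Submodule ℂ (T p n m))
    (hZ : ∀ (m m' : ℕ) (A : Fin (n + 1) → Fin m' → Fin m → ℂ), ∀ F ∈ Z m, lin A F ∈ Z m')
    {m : ℕ} (f : T p n m) (hf : f.IsHomogeneous D)
    (h : ∀ A : Fin (n + 1) → Fin (p + 2) → Fin m → ℂ, lin A f ∈ Z (p + 2)) : f ∈ Z m := by
  classical
  by_contra hfm
  -- the submodules
  let Z0 : Submodule ℂ (T p n m) := Z m ⊓ homogeneousSubmodule (Var p n m) ℂ D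
  let Z' : Submodule ℂ (T p n m) := homogeneousSubmodule (Var p n m) ℂ D ⊓
    ⨅ A : Fin (n + 1) → Fin (p + 2) → Fin m → ℂ,
      (Z (p + 2)).comap (lin A : T p n m →ₐ[ℂ] T p n (p + 2)).toLinearMap
  have hZ' : ∀ g, g ∈ Z' ↔ g.IsHomogeneous D ∧
      ∀ A : Fin (n + 1) → Fin (p + 2) → Fin m → ℂ, lin A g ∈ Z (p + 2) := by
    intro g
    simp only [Z', Submodule.mem_inf, Submodule.mem_iInf, Submodule.mem_comap,
      mem_homogeneousSubmodule, AlgHom.toLinearMap_apply]
  have hZ0 : ∀ g, g ∈ Z0 ↔ g ∈ Z m ∧ g.IsHomogeneous D := by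
    intro g
    simp only [Z0, Submodule.mem_inf, mem_homogeneousSubmodule]
  have hle : Z0 ≤ Z' := by
    intro g hg
    rw [hZ0] at hg
    rw [hZ']
    exact ⟨hg.2, fun A => hZ _ _ A g hg.1⟩
  have hne : ¬ Z' ≤ Z0 := by
    intro h1
    have h2 := h1 ((hZ' f).mpr ⟨hf, h⟩)
    exact hfm ((hZ0 f).mp h2).1
  obtain ⟨g, hg, hg0, hgo⟩ := exists_orth Z0 Z' hle D (fun g hg => ((hZ' g).mp hg).1) hne
  let Q : Submodule ℂ (T p n m) :=
    { carrier := {x | x ∈ Z' ∧ ∀ y ∈ Z0, Helper77.DI.fis x y = 0}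
      add_mem' := by
        rintro a b ⟨ha, ha'⟩ ⟨hb, hb'⟩
        refine ⟨Z'.add_mem ha hb, fun y hy => ?_⟩
        rw [Helper77.DI.fis_add_left, ha' y hy, hb' y hy, add_zero]
      zero_mem' := ⟨Z'.zero_mem, fun y _ => Helper77.DI.fis_zero_left y⟩
      smul_mem' := by
        rintro c a ⟨ha, ha'⟩
        refine ⟨Z'.smul_mem c ha, fun y hy => ?_⟩
        rw [Helper77.DI.fis_smul_left, ha' y hy, mul_zero] }
  have hQm : ∀ x, x ∈ Q ↔ x ∈ Z' ∧ ∀ y ∈ Z0, Helper77.DI.fis x y = 0 := fun _ => Iff.rfl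
  have hQ : ∀ A : Fin (n + 1) → Fin m → Fin m → ℂ, ∀ F ∈ Q, lin A F ∈ Q := by
    intro A F hF
    rw [hQm, hZ'] at hF
    rw [hQm, hZ']
    refine ⟨⟨h3_homog A hF.1.1, ?_⟩, ?_⟩
    · intro B
      rw [lin_lin]
      exact hF.1.2 _
    · intro y hy
      rw [fis_lin]
      apply hF.2
      rw [hZ0] at hy ⊢
      exact ⟨hZ _ _ _ y hy.1, h3_homog _ hy.2⟩
  have hQ0 : Q ≠ ⊥ := by
    intro h1
    have h2 : g ∈ Q := (hQm g).mpr ⟨hg, hgo⟩
    rw [h1, Submodule.mem_bot] at h2
    exact hg0 h2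
  obtain ⟨F, hFQ, hF0, -, hFu⟩ := exists_hw Q hQ hQ0
  have hFQ' := (hQm F).mp hFQ
  have hFZ' := (hZ' F).mp hFQ'.1
  have hkill : ∀ (c : Fin (n + 1)) (l : Fin m), p + 2 ≤ (l : ℕ) →
      lin (fun c' a b => if a = b ∧ ¬ (c' = c ∧ b = l) then 1 else 0) F = F :=
    fun c l hl => indep_letter F c l hl fun i hi τ => hFu c i l hi τ
  have h1 := h3_kill F hkill (Finset.univ.filter fun x => p + 2 ≤ (x.2 : ℕ)) (by
    intro x hx
    exact (Finset.mem_filter.mp hx).2)
  have h2 : lin (h3_inc n (p + 2) m) (lin (h3_inc n m (p + 2)) F) = F := by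
    rw [lin_lin]
    refine Eq.trans ?_ h1
    congr 2
    funext c i k
    rw [h3_inc_comp]
    congr 1
    simp only [Finset.mem_filter, Finset.mem_univ, true_and, not_le]
  have h3 : F ∈ Z m := by
    rw [← h2]
    exact hZ _ _ _ _ (hFZ'.2 _)
  exact fis_self_ne hF0 (hFQ'.2 F ((hZ0 F).mpr ⟨h3, hFZ'.1⟩))

end Pool.Agent.Helper65.MT
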