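import Pool.Agent.Helper65.MT.W3
import Pool.Agent.Helper65.MT.L0

/-!
Project MT, piece L1: the ascending chain condition for modules over `S ⊗ S`.
-/

namespace Pool.Agent.Helper65.MT

open MvPolynomial

/-- The slots and letters of a column, enumerated. -/
noncomputable def l1_e (p m : ℕ) (i : Fin (Fintype.card (Slot p × Fin m))) : Slot p × Fin m :=
  (Fintype.equivFin (Slot p × Fin m)).symm i

/-- Columns of an exponent as elements of a linear order. -/
noncomputable def l1_W {p n m : ℕ} (μ : Var p n m →₀ ℕ) (c : Fin (n + 1)) :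
    Lex (Fin (Fintype.card (Slot p × Fin m)) → ℕ) :=
  toLex fun i => μ (c, l1_e p m i)

/-- The key of an exponent. -/
noncomputable def l1_key {p n m : ℕ} (μ : Var p n m →₀ ℕ) :
    Lex (Fin (n + 1) → Lex (Fin (Fintype.card (Slot p × Fin m)) → ℕ)) :=
  toLex fun c => l1_W μ c

theorem l1_W_lt {p n n' m : ℕ} {μ : Var p n m →₀ ℕ} {ν : Var p n' m →₀ ℕ} {c : Fin (n + 1)}
    {c' : Fin (n' + 1)} :
    l1_W μ c < l1_W ν c' ↔ ∃ i, (∀ j < i, μ (c, l1_e p m j) = ν (c', l1_e p m j)) ∧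
      μ (c, l1_e p m i) < ν (c', l1_e p m i) := Iff.rfl

theorem l1_W_eq {p n n' m : ℕ} {μ : Var p n m →₀ ℕ} {ν : Var p n' m →₀ ℕ} {c : Fin (n + 1)}
    {c' : Fin (n' + 1)} : l1_W μ c = l1_W ν c' ↔ ∀ y, μ (c, y) = ν (c', y) := by
  constructor
  · intro h y
    have h1 : l1_e p m (Fintype.equivFin (Slot p × Fin m) y) = y := by
      simp [l1_e]
    have h2 := congrFun (congrArg ofLex h) (Fintype.equivFin (Slot p × Fin m) y)
    change μ (c, l1_e p m _) = ν (c', l1_e p m _) at h2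
    rwa [h1] at h2
  · intro h
    refine congrArg toLex ?_
    funext i
    exact h _

theorem l1_key_lt {p n m : ℕ} {μ ν : Var p n m →₀ ℕ} :
    l1_key μ < l1_key ν ↔ ∃ c, (∀ c' < c, l1_W μ c' = l1_W ν c') ∧ l1_W μ c < l1_W ν c := Iff.rfl

theorem l1_key_inj {p n m : ℕ} {μ ν : Var p n m →₀ ℕ} (h : l1_key μ = l1_key ν) : μ = ν := by
  ext ⟨c, y⟩
  have h1 : l1_W μ c = l1_W ν c := congrFun (congrArg ofLex h) c
  exact l1_W_eq.mp h1 y

theorem l1_key_add {p n m : ℕ} {μ ν : Var p n m →₀ ℕ} (κ : Var p n m →₀ ℕ)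
    (h : l1_key μ < l1_key ν) : l1_key (κ + μ) < l1_key (κ + ν) := by
  obtain ⟨c, h1, h2⟩ := l1_key_lt.mp h
  obtain ⟨i, h3, h4⟩ := l1_W_lt.mp h2
  refine l1_key_lt.mpr ⟨c, fun c' hc' => ?_, l1_W_lt.mpr ⟨i, fun j hj => ?_, ?_⟩⟩
  · rw [l1_W_eq]
    intro y
    have h5 := l1_W_eq.mp (h1 c' hc') y
    simp only [Finsupp.coe_add, Pi.add_apply]
    rw [h5]
  · simp only [Finsupp.coe_add, Pi.add_apply]
    rw [h3 j hj]
  · simp only [Finsupp.coe_add, Pi.add_apply]
    exact Nat.add_lt_add_left h4 _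

theorem l1_key_cexp {p n n' m : ℕ} {s : Fin (n' + 1) → Fin (n + 1)}
    {π : Fin (n + 1) → Fin (n' + 1)} (hs : IsIns s π) {μ ν : Var p n m →₀ ℕ}
    (h : l1_key μ < l1_key ν) : l1_key (cexp s μ) < l1_key (cexp s ν) := by
  obtain ⟨c, h1, h2⟩ := l1_key_lt.mp h
  have h0 : ∀ (ω : Var p n m →₀ ℕ) (q : Fin (n' + 1)), l1_W (cexp s ω) q = l1_W ω (s q) := by
    intro ω q
    rw [l1_W_eq]
    intro y
    rw [cexp_apply]
  refine l1_key_lt.mpr ⟨π c, fun q hq => ?_, ?_⟩
  · rw [h0, h0]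
    refine h1 _ ?_
    exact hs.mono.lt_iff_lt.mp (lt_of_le_of_lt (hs.left q) hq)
  · rw [h0, h0, hs.inv]
    exact h2

/-- The coefficients as a linear map. -/
noncomputable def l1_c (p n m : ℕ) : T p n m →ₗ[ℂ] (Var p n m →₀ ℕ) → ℂ where
  toFun F μ := coeff μ F
  map_add' F G := by
    funext μ
    exact coeff_add μ F G
  map_smul' a F := by
    funext μ
    exact coeff_smul μ a F

theorem l1_lead_col {p n n' m : ℕ} {s : Fin (n' + 1) → Fin (n + 1)}
    {π : Fin (n + 1) → Fin (n' + 1)} (hs : IsIns s π) {F : T p n m} {μ : Var p n m →₀ ℕ}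
    (h : IsLead (fun F => l1_c p n m F) l1_key F μ) :
    IsLead (fun F => l1_c p n' m F) l1_key (col s F) (cexp s μ) := by
  have hsur : Function.Surjective s := fun c => ⟨π c, hs.inv c⟩
  refine ⟨?_, fun ν hν hne => ?_⟩
  · change coeff (cexp s μ) (col s F) ≠ 0
    rw [coeff_col s hsur]
    exact h.1
  · obtain ⟨ω, hω, rfl⟩ := mem_support_col s (F := F) (ν := ν) hν
    refine l1_key_cexp hs (h.2 ω hω ?_)
    rintro rfl
    exact hne rfl

theorem l1_lead_mul {p n m : ℕ} (κ : Var p n m →₀ ℕ) {F : T p n m} {μ : Var p n m →₀ ℕ}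
    (h : IsLead (fun F => l1_c p n m F) l1_key F μ) :
    IsLead (fun F => l1_c p n m F) l1_key (monomial κ 1 * F) (κ + μ) := by
  classical
  refine ⟨?_, fun ν hν hne => ?_⟩
  · change coeff (κ + μ) (monomial κ 1 * F) ≠ 0
    rw [coeff_monomial_mul, one_mul]
    exact h.1
  · change coeff ν (monomial κ 1 * F) ≠ 0 at hν
    rw [coeff_monomial_mul'] at hν
    split_ifs at hν with hle
    · rw [one_mul] at hν
      have h1 : ν = κ + (ν - κ) := (add_tsub_cancel_of_le hle).symm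
      rw [h1]
      refine l1_key_add κ (h.2 _ hν ?_)
      intro h2
      apply hne
      rw [h1, h2]
    · exact absurd rfl hν

theorem l1_le {p n n' m : ℕ} {s : Fin (n' + 1) → Fin (n + 1)} {μ : Var p n m →₀ ℕ}
    {ν : Var p n' m →₀ ℕ} {k1 k2 k1' k2' : ℕ} (hle : cexp s μ ≤ ν)
    (h1 : md μ = ty k1 k2) (h2 : md ν = ty k1' k2') :
    k1 ≤ k1' ∧ k2 ≤ k2' ∧ md (ν - cexp s μ) = ty0 (k1' - k1) (k2' - k2) := by
  have h3 : md (cexp s μ) = ty k1 k2 := md_cexp_ty s h1
  have h4 : md (ν - cexp s μ) + md (cexp s μ) = md ν := by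
    rw [← md_add, tsub_add_cancel_of_le hle]
  have h5 : ∀ x, md (ν - cexp s μ) x + md (cexp s μ) x = md ν x := fun x => congrFun h4 x
  rw [h3, h2] at h5
  have e1 : k1 ≤ k1' := by
    have := h5 (0, Sum.inr false)
    simp only [ty, Sum.elim_inr] at this
    simp at this
    omega
  have e2 : k2 ≤ k2' := by
    have := h5 (0, Sum.inr true)
    simp only [ty, Sum.elim_inr] at this
    simp at this
    omega
  refine ⟨e1, e2, ?_⟩
  funext ⟨c, r⟩
  have h6 := h5 (c, r)
  rcases r with r | b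
  · simp only [ty, ty0, Sum.elim_inl] at h6 ⊢
    omega
  · cases b
    · simp only [ty, ty0, Sum.elim_inr] at h6 ⊢
      simp at h6 ⊢
      omega
    · simp only [ty, ty0, Sum.elim_inr] at h6 ⊢
      simp at h6 ⊢
      omega

/-- Proof. Order the exponents `μ : Var p n m →₀ ℕ` lexicographically by columns: compare the
functions `c ↦ (μ (c, ·) : Slot p × Fin m → ℕ)` lexicographically from left to right, where the
columns are compared by some fixed linear order on `Slot p × Fin m → ℕ` which is compatible with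
addition (for example
`toLex (toLex fun r => toLex fun i => μ (c, inl r, i), toLex fun i => toLex (μ (c, inr false, i), μ (c, inr true, i)))`);
let `key0 μ` be this element of a linear order. Then `key0` is injective, `key0 μ < key0 ν` implies
`key0 (κ + μ) < key0 (κ + ν)`, and for `IsIns s π` it implies `key0 (cexp s μ) < key0 (cexp s ν)`: let `c`
be the first column in which `μ` and `ν` differ; the first column in which `cexp s μ` and
`cexp s ν` differ is `π c` (if `q < π c` then `s q < c` because `π (s q) ≤ q < π c`).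
So if `μ` is the leading exponent of `F` (`IsLead (fun F μ => coeff μ F) key0 F μ`), then `cexp s μ` is that of
`col s F` (`coeff_col`, `mem_support_col`), and `κ + μ` is that of `monomial κ 1 * F`.
Suppose that the chain does not become stationary. Then there are `j_0 < j_1 < …` and `n_t, k_t` with
`L (j_t) n_t k_t ≠ L (j_(t+1)) n_t k_t`, and by `lead_eq` (`c = coeff`, the finite set `finite_exp`) an exponent
`μ_t` which is the leading exponent of an element of `L (j_(t+1)) n_t k_t`, but not of an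
element of `L (j_t) n_t k_t`. It has multidegree `ty (a_t) (b_t)`, `a_t + b_t = k_t`. By `comb0` for the words
`c ↦ (μ_t (c, ·) : Slot p × Fin m → ℕ)` there are `t < t'` and `s, π` with `IsIns s π` and
`cexp s μ_t ≤ μ_t'`, say `μ_t' = κ + cexp s μ_t`. The multidegree of `κ` is
`ty0 (a_t' - a_t) (b_t' - b_t)` (and `a_t ≤ a_t'`, `b_t ≤ b_t'`), so `monomial κ 1 ∈ Sk`, and
`monomial κ 1 * col s F` with `F ∈ L (j_(t+1)) n_t k_t`
with leading exponent `μ_t` is an element of `L (j_t') n_t' k_t'` with leading exponent `μ_t'`,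
contradiction. -/
theorem acc0 {p m : ℕ} (L : ℕ → ∀ n k : ℕ, Submodule ℂ (T p n m))
    (hL : ∀ j n k, L j n k ≤ Mk p n m k) (hm : ∀ j n k, L j n k ≤ L (j + 1) n k)
    (hc : ∀ (j n n' k : ℕ) (s : Fin (n' + 1) → Fin (n + 1)) (π : Fin (n + 1) → Fin (n' + 1)),
      IsIns s π → ∀ F ∈ L j n k, col s F ∈ L j n' k)
    (hS : ∀ j n k j1 j2 : ℕ, ∀ F ∈ L j n k, ∀ G ∈ Sk p n m j1 j2,
      G * F ∈ L j n (j1 + j2 + k)) :
    ∃ J, ∀ j ≥ J, ∀ n k, L j n k = L J n k := by
  by_contra hcon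
  push Not at hcon
  have hmono : ∀ n k, Monotone fun j => L j n k := fun n k =>
    monotone_nat_of_le_succ fun j => hm j n k
  -- one step
  have step : ∀ J : ℕ, ∃ J' > J, ∃ n k : ℕ, ∃ F ∈ L J' n k, ∃ μ,
      IsLead (fun F => l1_c p n m F) l1_key F μ ∧
        ∀ G ∈ L J n k, ¬ IsLead (fun F => l1_c p n m F) l1_key G μ := by
    intro J
    obtain ⟨j, hj, n, k, hne⟩ := hcon J
    refine ⟨j, lt_of_le_of_ne hj ?_, n, k, ?_⟩
    · rintro rfl
      exact hne rfl
    by_contra hno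
    push Not at hno
    apply hne
    refine le_antisymm (fun f hf => ?_) (hmono n k hj)
    obtain ⟨g, hg, hfg⟩ := lead_eq (l1_c p n m) l1_key
      {μ | ∃ k1 k2, k1 + k2 = k ∧ md μ = ty k1 k2} (finite_exp p n m k)
      (fun μ _ ν _ h => l1_key_inj h) (L J n k) (L j n k) (hmono n k hj)
      (fun f hf μ hμ => mem_Mk.mp (hL j n k hf) μ hμ)
      (fun f hf μ hμ => by
        obtain ⟨g, hg, h⟩ := hno f hf μ hμ
        exact ⟨g, hg, h⟩) f hf
    have : f = g := by
      ext μ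
      exact congrFun hfg μ
    rw [this]
    exact hg
  choose nx hnx nn kk FF hFF mu hlead hnot using step
  -- the sequence
  let Js : ℕ → ℕ := fun t => nx^[t] 0
  have hJs : ∀ t, Js (t + 1) = nx (Js t) := fun t => Function.iterate_succ_apply' nx t 0
  have hJm : StrictMono Js := strictMono_nat_of_lt_succ fun t => by
    rw [hJs]
    exact hnx _
  obtain ⟨i, j, hij, s, π, hins, hle⟩ := comb0 (ι := Slot p × Fin m) (fun t => nn (Js t))
    (fun t c y => mu (Js t) (c, y))
  have hle' : cexp s (mu (Js i)) ≤ mu (Js j) := by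
    rintro ⟨q, y⟩
    rw [cexp_apply]
    exact hle q y
  obtain ⟨k1, k2, hk, hty⟩ := mem_Mk.mp (hL _ _ _ (hFF (Js i))) _ (hlead (Js i)).1
  obtain ⟨k1', k2', hk', hty'⟩ := mem_Mk.mp (hL _ _ _ (hFF (Js j))) _ (hlead (Js j)).1
  obtain ⟨e1, e2, e3⟩ := l1_le hle' hty hty'
  have hκ : monomial (mu (Js j) - cexp s (mu (Js i))) (1 : ℂ) ∈
      Sk p (nn (Js j)) m (k1' - k1) (k2' - k2) := by
    rw [mem_Sk]
    intro ν hν
    rw [coeff_monomial] at hν
    split_ifs at hν with h
    · rw [← h]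
      exact e3
    · exact absurd rfl hν
  have h1 := hc (nx (Js i)) (nn (Js i)) (nn (Js j)) (kk (Js i)) s π hins _ (hFF (Js i))
  have h2 := hS _ _ _ _ _ _ h1 _ hκ
  have hkk : k1' - k1 + (k2' - k2) + kk (Js i) = kk (Js j) := by omega
  rw [hkk] at h2
  have h3 : nx (Js i) ≤ Js j := by
    rw [← hJs]
    exact hJm.monotone hij
  have h4 := hmono _ _ h3 h2
  refine hnot (Js j) _ h4 ?_
  have h5 := l1_lead_mul (mu (Js j) - cexp s (mu (Js i))) (l1_lead_col hins (hlead (Js i)))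
  rwa [tsub_add_cancel_of_le hle'] at h5

end Pool.Agent.Helper65.MT
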