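import Pool.Agent.Helper65.MT.L1

/-!
Project MT, piece L2: consequences of the ascending chain condition over `S ⊗ S`.
-/

namespace Pool.Agent.Helper65.MT

open MvPolynomial

/-- The `S ⊗ S`-submodules generated by the pieces of degree at most `κ`. -/
noncomputable def sgen {p m : ℕ} (N : ∀ n k : ℕ, Submodule ℂ (T p n m)) (κ n k : ℕ) : Submodule ℂ (T p n m) :=
  Submodule.span ℂ {F | ∃ k' ≤ κ, ∃ j1 j2, j1 + j2 + k' = k ∧ ∃ G ∈ Sk p n m j1 j2,
    ∃ H ∈ N n k', F = G * H}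

/-- The `S ⊗ S`-submodules generated by the pieces of the degrees that satisfy `P`. -/
noncomputable def l2_sp {p m : ℕ} (P : ℕ → Prop) (N : ∀ n k : ℕ, Submodule ℂ (T p n m)) (n k : ℕ) :
    Submodule ℂ (T p n m) :=
  Submodule.span ℂ {F | ∃ k', P k' ∧ ∃ j1 j2, j1 + j2 + k' = k ∧ ∃ G ∈ Sk p n m j1 j2,
    ∃ H ∈ N n k', F = G * H}

theorem l2_le {p m : ℕ} (P : ℕ → Prop) (N : ∀ n k : ℕ, Submodule ℂ (T p n m))
    (hN : ∀ n k, P k → N n k ≤ Mk p n m k) (n k : ℕ) : l2_sp P N n k ≤ Mk p n m k := by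
  refine Submodule.span_le.mpr ?_
  rintro F ⟨k', hk', j1, j2, hj, G, hG, H, hH, rfl⟩
  rw [← hj]
  exact Sk_mul_Mk hG (hN n k' hk' hH)

theorem l2_mono {p m : ℕ} (P P' : ℕ → Prop) (hP : ∀ k, P k → P' k)
    (N N' : ∀ n k : ℕ, Submodule ℂ (T p n m)) (hN : ∀ n k, P k → N n k ≤ N' n k) (n k : ℕ) :
    l2_sp P N n k ≤ l2_sp P' N' n k := by
  refine Submodule.span_mono ?_
  rintro F ⟨k', hk', j1, j2, hj, G, hG, H, hH, rfl⟩
  exact ⟨k', hP k' hk', j1, j2, hj, G, hG, H, hN n k' hk' hH, rfl⟩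

theorem l2_col {p m : ℕ} (P : ℕ → Prop) (N : ∀ n k : ℕ, Submodule ℂ (T p n m))
    {n n' : ℕ} (s : Fin (n' + 1) → Fin (n + 1))
    (hc : ∀ k, P k → ∀ F ∈ N n k, col s F ∈ N n' k) (k : ℕ) :
    ∀ F ∈ l2_sp P N n k, col s F ∈ l2_sp P N n' k := by
  intro F hF
  unfold l2_sp at hF
  induction hF using Submodule.span_induction with
  | mem x hx =>
    obtain ⟨k', hk', j1, j2, hj, G, hG, H, hH, rfl⟩ := hx
    rw [map_mul]
    exact Submodule.subset_span
      ⟨k', hk', j1, j2, hj, _, col_mem_Sk s hG, _, hc k' hk' H hH, rfl⟩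
  | zero => rw [map_zero]; exact Submodule.zero_mem _
  | add x y _ _ hx hy => rw [map_add]; exact Submodule.add_mem _ hx hy
  | smul a x _ hx => rw [map_smul]; exact Submodule.smul_mem _ _ hx

theorem l2_mul {p m : ℕ} (P : ℕ → Prop) (N : ∀ n k : ℕ, Submodule ℂ (T p n m))
    (n k j1 j2 : ℕ) :
    ∀ F ∈ l2_sp P N n k, ∀ G ∈ Sk p n m j1 j2, G * F ∈ l2_sp P N n (j1 + j2 + k) := by
  intro F hF G hG
  unfold l2_sp at hF
  induction hF using Submodule.span_induction with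
  | mem x hx =>
    obtain ⟨k', hk', i1, i2, hj, G', hG', H, hH, rfl⟩ := hx
    rw [← mul_assoc]
    exact Submodule.subset_span
      ⟨k', hk', j1 + i1, j2 + i2, by omega, _, Sk_mul_Sk hG hG', _, hH, rfl⟩
  | zero => rw [mul_zero]; exact Submodule.zero_mem _
  | add x y _ _ hx hy => rw [mul_add]; exact Submodule.add_mem _ hx hy
  | smul a x _ hx => rw [mul_smul_comm]; exact Submodule.smul_mem _ _ hx

theorem l2_sub {p m : ℕ} (P : ℕ → Prop) (N : ∀ n k : ℕ, Submodule ℂ (T p n m)) (n k : ℕ)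
    (hk : P k) : N n k ≤ l2_sp P N n k := by
  intro F hF
  exact Submodule.subset_span ⟨k, hk, 0, 0, by omega, 1, one_mem_Sk, F, hF, (one_mul F).symm⟩

/-- The elements of `Sk p n m 0 0` are constants. -/
theorem l2_const {p n m : ℕ} {G : T p n m} (hG : G ∈ Sk p n m 0 0) : G = C (coeff 0 G) := by
  classical
  ext μ
  rw [coeff_C]
  split_ifs with h
  · rw [← h]
  · by_contra hne
    apply h
    have h1 := mem_Sk.mp hG μ hne
    ext ⟨c, r, i⟩
    have h2 := congrFun h1 (c, r)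
    have h3 : (ty0 0 0 : Fin (n + 1) × Slot p → ℕ) (c, r) = 0 := by
      rcases r with r | b
      · simp [ty0]
      · cases b <;> simp [ty0]
    rw [h3] at h2
    have h4 := Finset.sum_eq_zero_iff.mp (show ∑ i, μ (c, r, i) = 0 from h2) i (Finset.mem_univ i)
    rw [h4]
    rfl

/-- Proof. Apply `acc0` to `L κ n k = sgen N κ n k`: closed under `col s` since `col s` is
multiplicative and preserves `Sk` (`col_mem_Sk`) and `N`; closed under multiplication by `Sk`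
(`Sk_mul_Sk`; `Sk_mul_Mk` for the degrees). Moreover `N n k ≤ sgen N k n k` (`G = 1`), so
`N n k ≤ sgen N (max k J) n k = sgen N J n k`. -/
theorem gen0 {p m : ℕ} (N : ∀ n k : ℕ, Submodule ℂ (T p n m)) (hN : ∀ n k, N n k ≤ Mk p n m k)
    (hc : ∀ (n n' k : ℕ) (s : Fin (n' + 1) → Fin (n + 1)) (π : Fin (n + 1) → Fin (n' + 1)),
      IsIns s π → ∀ F ∈ N n k, col s F ∈ N n' k) :
    ∃ κ, ∀ n k, N n k ≤ sgen N κ n k := by
  have hm : ∀ κ κ', κ ≤ κ' → ∀ n k, l2_sp (fun i => i ≤ κ) N n k ≤ l2_sp (fun i => i ≤ κ') N n k :=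
    fun κ κ' h n k => l2_mono _ _ (fun i hi => hi.trans h) N N (fun _ _ _ => le_rfl) n k
  obtain ⟨J, hJ⟩ := acc0 (fun κ n k => l2_sp (fun i => i ≤ κ) N n k)
    (fun κ n k => l2_le _ N (fun n k _ => hN n k) n k)
    (fun κ n k => hm κ (κ + 1) (Nat.le_succ κ) n k)
    (fun κ n n' k s π hs => l2_col _ N s (fun k' _ => hc n n' k' s π hs) k)
    (fun κ n k j1 j2 => l2_mul _ N n k j1 j2)
  refine ⟨J, fun n k => ?_⟩
  have h1 : N n k ≤ l2_sp (fun i => i ≤ max k J) N n k :=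
    l2_sub _ N n k (le_max_left k J)
  have h2 : l2_sp (fun i => i ≤ max k J) N n k = l2_sp (fun i => i ≤ J) N n k :=
    hJ (max k J) (le_max_right k J) n k
  rw [h2] at h1
  exact h1

/-- Proof. Apply `acc0` to `L' j n k' = span {G * H | G ∈ Sk j1 j2, H ∈ L j n, j1 + j2 + k = k'}`. For
`k' = k` only `j1 = j2 = 0` occurs, the elements of `Sk p n m 0 0` are constants (the exponent has
multidegree zero, so it is zero), and `L' j n k = L j n`. -/
theorem fix0 {p m : ℕ} (k : ℕ) (L : ℕ → ∀ n : ℕ, Submodule ℂ (T p n m))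
    (hL : ∀ j n, L j n ≤ Mk p n m k) (hm : ∀ j n, L j n ≤ L (j + 1) n)
    (hc : ∀ (j n n' : ℕ) (s : Fin (n' + 1) → Fin (n + 1)) (π : Fin (n + 1) → Fin (n' + 1)),
      IsIns s π → ∀ F ∈ L j n, col s F ∈ L j n') :
    ∃ J, ∀ j ≥ J, ∀ n, L j n = L J n := by
  have hN : ∀ j n i, i = k → L j n ≤ Mk p n m i := by
    rintro j n i rfl
    exact hL j n
  obtain ⟨J, hJ⟩ := acc0 (fun j n k' => l2_sp (fun i => i = k) (fun n _ => L j n) n k')
    (fun j n k' => l2_le _ _ (fun n i hi => hN j n i hi) n k')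
    (fun j n k' => l2_mono _ _ (fun i hi => hi) _ _ (fun n i _ => hm j n) n k')
    (fun j n n' k' s π hs => l2_col _ _ s (fun i _ => hc j n n' s π hs) k')
    (fun j n k' j1 j2 => l2_mul _ _ n k' j1 j2)
  have key : ∀ j n, l2_sp (fun i => i = k) (fun n _ => L j n) n k = L j n := by
    intro j n
    refine le_antisymm ?_ (l2_sub (fun i => i = k) (fun n _ => L j n) n k rfl)
    refine Submodule.span_le.mpr ?_
    rintro F ⟨k', hk', j1, j2, hj, G, hG, H, hH, rfl⟩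
    have e1 : j1 = 0 := by omega
    have e2 : j2 = 0 := by omega
    subst e1 e2
    rw [l2_const hG, ← smul_eq_C_mul]
    exact Submodule.smul_mem _ _ hH
  refine ⟨J, fun j hj n => ?_⟩
  rw [← key j n, ← key J n]
  exact hJ j hj n k

end Pool.Agent.Helper65.MT
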