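import Pool.Agent.Helper65.MT.Q1a
import Pool.Agent.Helper65.MT.H1
import Pool.Agent.Helper65.MT.H1b

/-!
Project MT, piece Q1b: the saturation is closed under linear maps.
-/

namespace Pool.Agent.Helper65.MT

open MvPolynomial

variable {p n e k : ℕ}

theorem q1b_pow_mul (Z : ZFam p) {n m k : ℕ} (r : ℕ) {u F : T p n m} (hu : u ∈ Wn p n m ^ r)
    (hF : F ∈ Z.Z n m k) : u * F ∈ Z.Z n m (k + r) :=
  zpow_mul_le Z n m k r (Submodule.mul_mem_mul hu hF)

theorem q1b_coeff_zero {R : Type} [CommRing R] (w w' : R) (t : ℕ) :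
    ((Polynomial.C w + Polynomial.C w' * Polynomial.X) ^ t).coeff 0 = w ^ t := by
  rw [Polynomial.coeff_zero_eq_eval_zero]
  simp

theorem q1b_coeff_mem {p n m : ℕ} {w w' : T p n m} (hw : w ∈ Wn p n m) (hw' : w' ∈ Wn p n m)
    (t a : ℕ) :
    ((Polynomial.C w + Polynomial.C w' * Polynomial.X) ^ t).coeff a ∈ Wn p n m ^ t := by
  induction t generalizing a with
  | zero =>
    rw [pow_zero, pow_zero, Polynomial.coeff_one]
    split_ifs
    · exact Submodule.one_le.mp le_rfl
    · exact Submodule.zero_mem _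
  | succ t ih =>
    rw [pow_succ, pow_succ, mul_add, ← mul_assoc, Polynomial.coeff_add, Polynomial.coeff_mul_C]
    refine Submodule.add_mem _ (Submodule.mul_mem_mul (ih a) hw) ?_
    cases a with
    | zero =>
      rw [Polynomial.mul_coeff_zero, Polynomial.coeff_X_zero, mul_zero]
      exact Submodule.zero_mem _
    | succ a =>
      rw [Polynomial.coeff_mul_X, Polynomial.coeff_mul_C]
      exact Submodule.mul_mem_mul (ih a) hw'

theorem q1b_induct (Z : ZFam p) {m : ℕ} {w w' : T p n m} (hw : w ∈ Wn p n m)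
    (hw' : w' ∈ Wn p n m) (t : ℕ) (R : Polynomial (T p n m))
    (h : ∀ l, (((Polynomial.C w + Polynomial.C w' * Polynomial.X) ^ t) * R).coeff l ∈
      Z.Z n m (k + t)) (l : ℕ) :
    w ^ (t * (l + 1)) * R.coeff l ∈ Z.Z n m (k + t * (l + 1)) := by
  induction l using Nat.strong_induction_on with
  | _ l ih =>
    have h1 := h l
    rw [Polynomial.coeff_mul] at h1
    have hmem : (0, l) ∈ Finset.HasAntidiagonal.antidiagonal l := by simp
    rw [← Finset.add_sum_erase _ _ hmem, q1b_coeff_zero] at h1
    have h2 := q1b_pow_mul Z (t * l) (Submodule.pow_mem_pow _ hw (t * l)) h1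
    rw [mul_add] at h2
    have h3 : w ^ (t * l) * ∑ x ∈ (Finset.HasAntidiagonal.antidiagonal l).erase (0, l),
        ((Polynomial.C w + Polynomial.C w' * Polynomial.X) ^ t).coeff x.1 * R.coeff x.2 ∈
        Z.Z n m (k + t + t * l) := by
      rw [Finset.mul_sum]
      refine Submodule.sum_mem _ fun x hx => ?_
      obtain ⟨hx1, hx2⟩ := Finset.mem_erase.mp hx
      have hx3 := Finset.HasAntidiagonal.mem_antidiagonal.mp hx2
      have hx4 : x.2 < l := by
        rcases Nat.eq_zero_or_pos x.1 with h0 | h0
        · exfalso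
          apply hx1
          have h5 : x.2 = l := by omega
          exact Prod.ext h0 h5
        · omega
      have h4 := ih x.2 hx4
      have h5 : t * l = t * (l - x.2 - 1) + t * (x.2 + 1) := by
        rw [← Nat.mul_add]
        congr 1
        omega
      have h6 := q1b_pow_mul Z (t * (l - x.2 - 1))
        (Submodule.pow_mem_pow _ hw (t * (l - x.2 - 1))) h4
      have h7 := q1b_pow_mul Z t (q1b_coeff_mem hw hw' t x.1) h6
      have h8 : w ^ (t * l) * (((Polynomial.C w + Polynomial.C w' * Polynomial.X) ^ t).coeff x.1 *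
          R.coeff x.2) = ((Polynomial.C w + Polynomial.C w' * Polynomial.X) ^ t).coeff x.1 *
          (w ^ (t * (l - x.2 - 1)) * (w ^ (t * (x.2 + 1)) * R.coeff x.2)) := by
        rw [h5, pow_add]
        ring
      rw [h8]
      have h9 : k + t + t * l = k + t * (x.2 + 1) + t * (l - x.2 - 1) + t := by
        rw [h5]
        ring
      rw [h9]
      exact h7
    have h10 := Submodule.sub_mem _ h2 h3
    rw [add_sub_cancel_right] at h10
    have h11 : w ^ (t * (l + 1)) * R.coeff l = w ^ (t * l) * (w ^ t * R.coeff l) := by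
      rw [← mul_assoc, ← pow_add]
      rfl
    rw [h11]
    have h12 : k + t * (l + 1) = k + t + t * l := by ring
    rw [h12]
    exact h10

theorem q1b_lin_X_ne {m : ℕ} (c : Fin (n + 1)) {i j : Fin m} (τ : ℂ) (x : Var p n m)
    (hx : x.2.2 ≠ j) : lin (tv c i j τ) (X x) = X x := by
  rw [lin_X, Finset.sum_eq_single x.2.2]
  · simp [tv, hx]
  · intro b _ hb
    simp [tv, hb, hx]
  · intro h
    exact absurd (Finset.mem_univ _) h

theorem q1b_lin_X_eq {m : ℕ} (c : Fin (n + 1)) {i j : Fin m} (τ : ℂ)
    (r : Slot p) (c' : Fin (n + 1)) : lin (tv c i j τ) (X (c', r, j)) =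
      X (c', r, j) + if c' = c then C τ * X (c', r, i) else 0 := by
  have h1 : ∀ b, tv c i j τ c' b j = (if b = j then 1 else 0) + if b = i then
      (if c' = c then τ else 0) else 0 := by
    intro b
    unfold tv
    congr 1
    by_cases h1 : c' = c <;> by_cases h2 : b = i <;> simp [h1, h2]
  rw [lin_X]
  simp only [h1, map_add, add_mul, Finset.sum_add_distrib]
  congr 1
  · rw [Finset.sum_eq_single j]
    · simp
    · intro b _ hb
      simp [hb]
    · intro h
      exact absurd (Finset.mem_univ _) h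
  · rw [Finset.sum_eq_single i]
    · by_cases h2 : c' = c <;> simp [h2]
    · intro b _ hb
      simp [hb]
    · intro h
      exact absurd (Finset.mem_univ _) h

theorem q1b_lin_prod (c : Fin (n + 1)) {i : Fin (e + 1)} (hi : i ≠ 0) (τ : ℂ) (r : Slot p) :
    lin (tv c i 0 τ) (∏ c', X (c', r, (0 : Fin (e + 1)))) =
      ∏ c', X (c', r, (0 : Fin (e + 1))) +
        C τ * ∏ c', X (c', r, (Function.update (fun _ => 0) c i : Fin (n + 1) → Fin (e + 1)) c') := by
  classical
  rw [map_prod]
  simp only [q1b_lin_X_eq c τ r]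
  rw [← Finset.mul_prod_erase Finset.univ _ (Finset.mem_univ c),
    ← Finset.mul_prod_erase Finset.univ (fun c' => (X (c', r, (0 : Fin (e + 1))) : T p n (e + 1)))
      (Finset.mem_univ c),
    ← Finset.mul_prod_erase Finset.univ (fun c' => (X (c', r,
      (Function.update (fun _ => 0) c i : Fin (n + 1) → Fin (e + 1)) c') : T p n (e + 1)))
      (Finset.mem_univ c)]
  have h1 : ∏ c' ∈ Finset.univ.erase c, ((X (c', r, (0 : Fin (e + 1))) : T p n (e + 1)) +
      if c' = c then C τ * X (c', r, i) else 0) =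
      ∏ c' ∈ Finset.univ.erase c, (X (c', r, (0 : Fin (e + 1))) : T p n (e + 1)) := by
    refine Finset.prod_congr rfl fun c' hc' => ?_
    rw [if_neg (Finset.ne_of_mem_erase hc'), add_zero]
  have h2 : ∏ c' ∈ Finset.univ.erase c, (X (c', r,
      (Function.update (fun _ => 0) c i : Fin (n + 1) → Fin (e + 1)) c') : T p n (e + 1)) =
      ∏ c' ∈ Finset.univ.erase c, (X (c', r, (0 : Fin (e + 1))) : T p n (e + 1)) := by
    refine Finset.prod_congr rfl fun c' hc' => ?_
    rw [Function.update_of_ne (Finset.ne_of_mem_erase hc')]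
  rw [h1, h2, if_pos rfl, Function.update_self]
  ring

theorem q1b_lin_w (c : Fin (n + 1)) {i : Fin (e + 1)} (hi : i ≠ 0) (τ : ℂ) :
    lin (p := p) (tv c i 0 τ) (xx (fun _ => 0)) =
      xx (fun _ => 0) + C τ * xx (Function.update (fun _ => 0) c i) := by
  rw [xx, map_add, q1b_lin_prod c hi, q1b_lin_prod c hi, xx]
  ring

theorem q1b_lin_w_ne (c : Fin (n + 1)) {i j : Fin (e + 1)} (hj : j ≠ 0) (τ : ℂ) :
    lin (p := p) (tv c i j τ) (xx (fun _ => 0)) = xx (fun _ => 0) := by
  have h : ∀ r : Slot p, lin (tv c i j τ) (∏ c', X (c', r, (0 : Fin (e + 1)))) =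
      ∏ c', X (c', r, (0 : Fin (e + 1))) := by
    intro r
    rw [map_prod]
    exact Finset.prod_congr rfl fun c' _ => q1b_lin_X_ne c τ (c', r, 0) (Ne.symm hj)
  rw [xx, map_add, h, h]

/-- Proof. Let `w = xx 0`. Transvections with `j ≠ 0` fix `w` (`lin_xx` or `lin` on the factors), so
`w ^ t * lin A F = lin A (w ^ t * F)` for `A = tv c i j τ`. Let `j = 0`: write
`lin (tv c i 0 τ) F = ∑ l ≤ D, τ ^ l • G l` (`tv_expand`, `G 0 = F`) and
`lin (tv c i 0 τ) w = w + τ • w'`, `w' = xx (Function.update 0 c i)`. Since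
`(w + τ • w') ^ t * ∑ l, τ ^ l • G l = lin (tv c i 0 τ) (w ^ t * F)` lies in
`Z.Z` for all `τ`, so do its coefficients (`coeff_mem`):
`∑ a ≤ min l t, (t.choose a) • (w ^ (t - a) * w' ^ a * G (l - a)) ∈ Z.Z n (e + 1) (k + t)`. By strong induction
on `l` there is `t_l` with `w ^ (t_l) * G l ∈ Z.Z` (multiply by `w ^ (max of the t_(l-a))`; all terms with
`a ≥ 1` lie in `Z.Z`, so does the term `a = 0`). Note also `G l ∈ Mk p n (e + 1) k` for `l ≤ D` (multidegrees). So
`lin (tv c i 0 τ) F` is a sum of elements of the saturation. -/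
theorem satS_tv (Z : ZFam p) (c : Fin (n + 1)) {i j : Fin (e + 1)} (hij : i ≠ j) (τ : ℂ)
    {F : T p n (e + 1)} (hF : F ∈ satS Z e n k) : lin (tv c i j τ) F ∈ satS Z e n k := by
  obtain ⟨hF1, t, ht⟩ := hF
  by_cases hj : j = 0
  · subst hj
    obtain ⟨D, G, hG0, hG, hGs⟩ := tv_expand c hij F
    rw [hG τ]
    refine Submodule.sum_mem _ fun l hl => Submodule.smul_mem _ _ ?_
    refine ⟨?_, t * (l + 1), ?_⟩
    · rw [mem_Mk] at hF1 ⊢
      intro ν hν
      obtain ⟨μ, h1, h2, -⟩ := hGs l ν hν
      obtain ⟨k1, k2, h3, h4⟩ := hF1 μ h1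
      exact ⟨k1, k2, h3, h2.trans h4⟩
    · set w : T p n (e + 1) := xx (fun _ => 0) with hw
      set w' : T p n (e + 1) := xx (Function.update (fun _ => 0) c i) with hw'
      set R : Polynomial (T p n (e + 1)) := ∑ l ∈ Finset.range (D + 1),
        Polynomial.C (G l) * Polynomial.X ^ l with hR
      have hRl : R.coeff l = G l := by
        rw [hR, Polynomial.finsetSum_coeff, Finset.sum_eq_single l]
        · simp
        · intro b _ hb
          rw [Polynomial.coeff_C_mul, Polynomial.coeff_X_pow, if_neg (Ne.symm hb), mul_zero]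
        · intro h
          exact absurd hl h
      set P : Polynomial (T p n (e + 1)) :=
        ((Polynomial.C w + Polynomial.C w' * Polynomial.X) ^ t) * R with hP
      have h1 : ∀ σ : ℂ, ∑ s ∈ Finset.range (P.natDegree + 1), σ ^ s • P.coeff s ∈
          Z.Z n (e + 1) (k + t) := by
        intro σ
        have h2 : ∑ s ∈ Finset.range (P.natDegree + 1), σ ^ s • P.coeff s = P.eval (C σ) := by
          rw [Polynomial.eval_eq_sum_range]
          refine Finset.sum_congr rfl fun s _ => ?_
          rw [smul_eq_C_mul, map_pow, mul_comm]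
        have h3 : P.eval (C σ) = lin (tv c i 0 σ) (w ^ t * F) := by
          rw [hP, Polynomial.eval_mul, Polynomial.eval_pow, map_mul, map_pow, hw,
            q1b_lin_w c hij, hG σ, hR, Polynomial.eval_finsetSum]
          congr 1
          · rw [Polynomial.eval_add, Polynomial.eval_C, Polynomial.eval_mul, Polynomial.eval_C,
              Polynomial.eval_X, mul_comm (C σ)]
          · refine Finset.sum_congr rfl fun s _ => ?_
            rw [Polynomial.eval_mul, Polynomial.eval_C, Polynomial.eval_pow, Polynomial.eval_X,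
              smul_eq_C_mul, map_pow, mul_comm]
        rw [h2, h3]
        exact Z.lin n (e + 1) (e + 1) (k + t) _ _ ht
      have h4 : ∀ s, P.coeff s ∈ Z.Z n (e + 1) (k + t) := by
        intro s
        by_cases hs : s ≤ P.natDegree
        · exact coeff_mem _ P.natDegree P.coeff h1 s hs
        · rw [Polynomial.coeff_eq_zero_of_natDegree_lt (not_le.mp hs)]
          exact Submodule.zero_mem _
      have h5 := q1b_induct Z (xx_mem_Wn _) (xx_mem_Wn _) t R h4 l
      rwa [hRl] at h5
  · refine ⟨lin_mem_Mk _ hF1, t, ?_⟩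
    have h1 := Z.lin n (e + 1) (e + 1) (k + t) (tv c i j τ) _ ht
    rwa [map_mul, map_pow, q1b_lin_w_ne c hj] at h1

/-- The diagonal matrices in column `c`. -/
def q1b_dg {n m : ℕ} (c : Fin (n + 1)) (d : Fin m → ℂ) : Fin (n + 1) → Fin m → Fin m → ℂ :=
  fun c' a b => if a = b then (if c' = c then d b else 1) else 0

theorem q1b_lin_dg_X {m : ℕ} (c : Fin (n + 1)) (d : Fin m → ℂ) (x : Var p n m) :
    lin (q1b_dg c d) (X x) = C (if x.1 = c then d x.2.2 else 1) * X x := by
  rw [lin_X, Finset.sum_eq_single x.2.2]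
  · simp [q1b_dg]
  · intro b _ hb
    simp [q1b_dg, hb]
  · intro h
    exact absurd (Finset.mem_univ _) h

theorem q1b_lin_dg_monomial {m : ℕ} (c : Fin (n + 1)) (d : Fin m → ℂ) (μ : Var p n m →₀ ℕ)
    (a : ℂ) : lin (q1b_dg c d) (monomial μ a) = C (∏ i, d i ^ wt μ c i) * monomial μ a := by
  classical
  induction μ using Finsupp.induction generalizing a with
  | zero =>
    have h1 : wt (0 : Var p n m →₀ ℕ) = 0 := (wtH p n m).map_zero
    have h2 : (monomial (0 : Var p n m →₀ ℕ) a : T p n m) = C a := rfl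
    rw [h2, lin_C, h1]
    simp
  | single_add x r μ hx hk ih =>
    have h3 : (monomial (Finsupp.single x r + μ) a : T p n m) = X x ^ r * monomial μ a := by
      rw [X_pow_eq_monomial, monomial_mul, one_mul]
    have h4 : ∏ i, d i ^ wt (Finsupp.single x r + μ) c i =
        (if x.1 = c then d x.2.2 else 1) ^ r * ∏ i, d i ^ wt μ c i := by
      have h5 : ∀ i, d i ^ wt (Finsupp.single x r + μ) c i =
          (if i = x.2.2 then (if x.1 = c then d x.2.2 else 1) ^ r else 1) * d i ^ wt μ c i := by
        intro i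
        rw [wt_add, Pi.add_apply, Pi.add_apply, wt_single, pow_add]
        congr 1
        by_cases h6 : i = x.2.2
        · by_cases h7 : x.1 = c
          · simp [h6, h7]
          · have h8 : ¬ (c = x.1 ∧ i = x.2.2) := fun h => h7 h.1.symm
            simp [h6, h7, Ne.symm h7]
        · simp [h6]
      simp only [h5, Finset.prod_mul_distrib]
      congr 1
      rw [Finset.prod_ite_eq' Finset.univ x.2.2]
      simp
    rw [h3, map_mul, map_pow, ih, q1b_lin_dg_X, h4, mul_pow, C_mul, C_pow]
    ring

theorem q1b_coeff_lin_dg {m : ℕ} (c : Fin (n + 1)) (d : Fin m → ℂ) (F : T p n m)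
    (μ : Var p n m →₀ ℕ) : coeff μ (lin (q1b_dg c d) F) = (∏ i, d i ^ wt μ c i) * coeff μ F := by
  classical
  induction F using MvPolynomial.induction_on' with
  | monomial ν a =>
    rw [q1b_lin_dg_monomial, coeff_C_mul, coeff_monomial]
    by_cases h : ν = μ
    · rw [h]
    · rw [if_neg h, mul_zero, mul_zero]
  | add F G hF hG => rw [map_add, coeff_add, coeff_add, hF, hG, mul_add]

/-- The exponents of `xx 0 ^ t` have `t` letters `0` in each column. -/
theorem q1b_wt_w (c : Fin (n + 1)) (t : ℕ) :
    (xx (fun _ => 0) ^ t : T p n (e + 1)) ∈ restrictSupport ℂ {ν | wt ν c 0 = t} := by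
  set g : (Var p n (e + 1) →₀ ℕ) →+ ℕ :=
    ((Pi.evalAddMonoidHom (fun _ : Fin (e + 1) => ℕ) 0).comp
      (Pi.evalAddMonoidHom (fun _ : Fin (n + 1) => Fin (e + 1) → ℕ) c)).comp (wtH p n (e + 1))
    with hg
  have hgw : ∀ ν, g ν = wt ν c 0 := fun ν => rfl
  have h1 : ∀ b : Bool, (∏ c', X (c', Sum.inr b, 0) : T p n (e + 1)) ∈
      restrictSupport ℂ {ν | g ν = 1} := by
    intro b
    have h2 := prod_mem_rs g Finset.univ
      (fun c' : Fin (n + 1) => (X (c', Sum.inr b, 0) : T p n (e + 1)))
      (fun c' => g (Finsupp.single (c', Sum.inr b, 0) 1)) (fun c' _ => X_mem_rs g _)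
    have h3 : ∑ c' : Fin (n + 1), g (Finsupp.single ((c', Sum.inr b, 0) : Var p n (e + 1)) 1) = 1 := by
      simp only [hgw, wt_single, and_true]
      simp
    rwa [h3] at h2
  have h4 : (xx (fun _ => 0) : T p n (e + 1)) ∈ restrictSupport ℂ {ν | g ν = 1} :=
    Submodule.add_mem _ (h1 false) (h1 true)
  have h5 := pow_mem_rs g _ _ h4 t
  refine restrictSupport_mono ℂ ?_ h5
  intro ν hν
  change wt ν c 0 = t
  have h6 : g ν = t • 1 := hν
  rw [hgw] at h6
  simpa using h6

theorem q1b_res_mul (c : Fin (n + 1)) (t : ℕ) (F : T p n (e + 1)) :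
    xx (fun _ => 0) ^ t * res (fun μ => wt μ c 0 = 0) F =
      res (fun μ => wt μ c 0 = t) (xx (fun _ => 0) ^ t * F) := by
  classical
  ext μ
  rw [coeff_res, coeff_mul, coeff_mul]
  have h1 : ∀ x ∈ Finset.HasAntidiagonal.antidiagonal μ,
      coeff x.1 (xx (fun _ => 0) ^ t : T p n (e + 1)) * coeff x.2 (res (fun μ => wt μ c 0 = 0) F) =
      if wt μ c 0 = t then coeff x.1 (xx (fun _ => 0) ^ t : T p n (e + 1)) * coeff x.2 F else 0 := by
    intro x hx
    have hx1 := Finset.HasAntidiagonal.mem_antidiagonal.mp hx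
    by_cases h2 : coeff x.1 (xx (fun _ => 0) ^ t : T p n (e + 1)) = 0
    · rw [h2, zero_mul, zero_mul]
      simp
    · have h3 : wt x.1 c 0 = t := mem_rs.mp (q1b_wt_w (p := p) c t) x.1 h2
      have h4 : wt μ c 0 = t + wt x.2 c 0 := by
        rw [← hx1, wt_add, Pi.add_apply, Pi.add_apply, h3]
      rw [coeff_res]
      by_cases h5 : wt x.2 c 0 = 0
      · rw [if_pos h5, if_pos (by rw [h4, h5, add_zero])]
      · rw [if_neg h5, if_neg (by omega), mul_zero]
  rw [Finset.sum_congr rfl h1]
  by_cases h6 : wt μ c 0 = t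
  · simp [h6]
  · simp [h6]

theorem q1b_lin_w_dg (c : Fin (n + 1)) (d : Fin (e + 1) → ℂ) :
    lin (p := p) (q1b_dg c d) (xx (fun _ => 0)) = C (d 0) * xx (fun _ => 0) := by
  classical
  have h : ∀ r : Slot p, lin (q1b_dg c d) (∏ c', X (c', r, (0 : Fin (e + 1)))) =
      C (d 0) * ∏ c', X (c', r, (0 : Fin (e + 1))) := by
    intro r
    rw [map_prod]
    simp only [q1b_lin_dg_X]
    rw [Finset.prod_mul_distrib]
    congr 1
    rw [Finset.prod_eq_single c]
    · simp
    · intro b _ hb
      simp [hb]
    · intro h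
      exact absurd (Finset.mem_univ _) h
  rw [xx, map_add, h, h, mul_add]

theorem q1b_satS_dg (Z : ZFam p) (c : Fin (n + 1)) (d : Fin (e + 1) → ℂ) (hd : d 0 ≠ 0)
    {F : T p n (e + 1)} (hF : F ∈ satS Z e n k) : lin (q1b_dg c d) F ∈ satS Z e n k := by
  obtain ⟨hF1, t, ht⟩ := hF
  refine ⟨lin_mem_Mk _ hF1, t, ?_⟩
  have h1 := Z.lin n (e + 1) (e + 1) (k + t) (q1b_dg c d) _ ht
  rw [map_mul, map_pow, q1b_lin_w_dg] at h1
  have h2 : xx (fun _ => 0) ^ t * lin (q1b_dg c d) F =
      ((d 0) ^ t)⁻¹ • ((C (d 0) * xx (fun _ => 0)) ^ t * lin (q1b_dg c d) F) := by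
    rw [mul_pow, ← C_pow, mul_assoc, ← smul_eq_C_mul, smul_smul,
      inv_mul_cancel₀ (pow_ne_zero t hd), one_smul]
  rw [h2]
  exact Submodule.smul_mem _ _ h1

/-- Proof. Here `A` is the diagonal matrix with entries `d i` in the column `c` and the identity in the others. Let
`w = xx 0`. If `d 0 ≠ 0` then `lin A w = d 0 • w`, and
`w ^ t * lin A F = (d 0)⁻¹ ^ t • lin A (w ^ t * F)`. If `d 0 = 0`: `lin A F = lin A' F₀`, where `A'` has `d 0`
replaced by `1` and `F₀` is the restriction of `F` to the exponents with `wt μ c 0 = 0`; `F₀` is in the saturation,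
since `w ^ t * F₀` is the restriction of `w ^ t * F` to the exponents with `wt μ c 0 = t` (all exponents of
`w ^ t` have exactly `t` letters `0` in column `c`), which is in `Z.Z` by `res_mem`. -/
theorem satS_diag (Z : ZFam p) (c : Fin (n + 1)) (d : Fin (e + 1) → ℂ)
    {F : T p n (e + 1)} (hF : F ∈ satS Z e n k) :
    lin (fun c' a b => if a = b then (if c' = c then d b else 1) else 0) F ∈ satS Z e n k := by
  classical
  change lin (q1b_dg c d) F ∈ satS Z e n k
  by_cases hd : d 0 = 0
  · have h1 : lin (q1b_dg c d) F =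
        lin (q1b_dg c (Function.update d 0 1)) (res (fun μ => wt μ c 0 = 0) F) := by
      ext μ
      rw [q1b_coeff_lin_dg, q1b_coeff_lin_dg, coeff_res]
      by_cases h2 : wt μ c 0 = 0
      · rw [if_pos h2]
        congr 1
        refine Finset.prod_congr rfl fun i _ => ?_
        by_cases h3 : i = 0
        · rw [h3, h2, pow_zero, pow_zero]
        · rw [Function.update_of_ne h3]
      · rw [if_neg h2, mul_zero, Finset.prod_eq_zero (Finset.mem_univ 0), zero_mul]
        rw [hd, zero_pow h2]
    rw [h1]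
    refine q1b_satS_dg Z c _ (by rw [Function.update_self]; exact one_ne_zero) ?_
    obtain ⟨hF1, t, ht⟩ := hF
    refine ⟨?_, t, ?_⟩
    · rw [mem_Mk] at hF1 ⊢
      intro μ hμ
      rw [coeff_res] at hμ
      refine hF1 μ fun h0 => hμ ?_
      rw [h0]
      simp
    · rw [q1b_res_mul]
      exact res_mem (Z.Z n (e + 1) (k + t)) (fun A G hG => Z.lin n (e + 1) (e + 1) (k + t) A G hG)
        (fun u => u c 0 = t) ht
  · exact q1b_satS_dg Z c d hd hF

/-- The substitutions which are the identity outside the column `c`. -/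
def q1b_ob {n m : ℕ} (c : Fin (n + 1)) (M : Fin m → Fin m → ℂ) :
    Fin (n + 1) → Fin m → Fin m → ℂ :=
  fun c' a b => if c' = c then M a b else if a = b then 1 else 0

theorem q1b_one_mul {m : ℕ} (B : Fin m → Fin m → ℂ) (i k : Fin m) :
    ∑ j, (if i = j then (1 : ℂ) else 0) * B j k = B i k := by
  rw [Finset.sum_eq_single i]
  · simp
  · intro b _ hb
    simp [Ne.symm hb]
  · intro h
    exact absurd (Finset.mem_univ _) h

theorem q1b_satS_column (Z : ZFam p) (c : Fin (n + 1))
    (M : Fin (e + 1) → Fin (e + 1) → ℂ) {F : T p n (e + 1)} (hF : F ∈ satS Z e n k) :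
    lin (q1b_ob c M) F ∈ satS Z e n k := by
  classical
  have key : ∀ M : Matrix (Fin (e + 1)) (Fin (e + 1)) ℂ, ∀ F : T p n (e + 1), F ∈ satS Z e n k →
      lin (q1b_ob c fun a b => M a b) F ∈ satS Z e n k := by
    intro M
    refine Matrix.diagonal_transvection_induction
      (fun M : Matrix (Fin (e + 1)) (Fin (e + 1)) ℂ =>
      ∀ F : T p n (e + 1), F ∈ satS Z e n k →
      lin (q1b_ob c fun a b => M a b) F ∈ satS Z e n k) M ?_ ?_ ?_
    · intro D _ F hF
      have h1 := satS_diag Z c D hF
      have h2 : (q1b_ob c fun a b => Matrix.diagonal D a b) =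
          fun c' a b => if a = b then (if c' = c then D b else 1) else 0 := by
        funext c' a b
        unfold q1b_ob
        by_cases h3 : c' = c
        · by_cases h4 : a = b
          · simp [h3, h4]
          · simp [h3, h4, Matrix.diagonal_apply_ne]
        · by_cases h4 : a = b
          · simp [h3, h4]
          · simp [h3, h4]
      rw [h2]
      exact h1
    · intro t F hF
      have h1 := satS_tv Z c t.hij t.c hF
      have h2 : (q1b_ob c fun a b => t.toMatrix a b) = tv c t.i t.j t.c := by
        funext c' a b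
        unfold q1b_ob tv
        by_cases h3 : c' = c
        · rw [if_pos h3]
          simp only [Matrix.TransvectionStruct.toMatrix, Matrix.transvection, Matrix.add_apply,
            Matrix.one_apply, Matrix.single_apply, h3, true_and]
          congr 1
          by_cases h5 : t.i = a
          · by_cases h6 : t.j = b
            · simp [h5, h6]
            · simp [h5, h6, Ne.symm h6]
          · simp [h5, Ne.symm h5]
        · simp [h3]
      rw [h2]
      exact h1
    · intro A B hA hB F hF
      have h1 := hA _ (hB _ hF)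
      rw [lin_lin] at h1
      have h2 : (q1b_ob c fun a b => (A * B) a b) = fun c' i k => ∑ j,
          (q1b_ob c fun a b => A a b) c' i j * (q1b_ob c fun a b => B a b) c' j k := by
        funext c' i k
        unfold q1b_ob
        by_cases h3 : c' = c
        · simp only [if_pos h3]
          exact Matrix.mul_apply
        · simp only [if_neg h3]
          exact (q1b_one_mul (fun a b => if a = b then (1 : ℂ) else 0) i k).symm
      rw [h2]
      exact h1
  exact key (Matrix.of M) F hF

/-- Proof. `A` is the product (over the columns `c`) of matrices which are the identity outside the column `c`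
(`lin_lin`), and for these use `Matrix.diagonal_transvection_induction`, `satS_tv`, `satS_diag`. -/
theorem satS_lin (Z : ZFam p) (A : Fin (n + 1) → Fin (e + 1) → Fin (e + 1) → ℂ)
    {F : T p n (e + 1)} (hF : F ∈ satS Z e n k) : lin A F ∈ satS Z e n k := by
  classical
  have key : ∀ s : Finset (Fin (n + 1)), lin (fun c a b => if c ∈ s then A c a b else
      if a = b then 1 else 0) F ∈ satS Z e n k := by
    intro s
    induction s using Finset.induction_on with
    | empty =>
      have h1 : (fun (c : Fin (n + 1)) (a b : Fin (e + 1)) =>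
          if c ∈ (∅ : Finset (Fin (n + 1))) then A c a b else
          if a = b then (1 : ℂ) else 0) = fun _ i j => if i = j then 1 else 0 := by
        funext c i j
        simp
      rw [h1, lin_one]
      exact hF
    | insert c s hc ih =>
      have h1 := q1b_satS_column Z c (A c) ih
      rw [lin_lin] at h1
      have h2 : (fun (c' : Fin (n + 1)) (a b : Fin (e + 1)) => if c' ∈ insert c s then A c' a b else
          if a = b then (1 : ℂ) else 0) = fun c' i k => ∑ j, q1b_ob c (A c) c' i j *
          (if c' ∈ s then A c' j k else if j = k then (1 : ℂ) else 0) := by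
        funext c' i k
        unfold q1b_ob
        by_cases h3 : c' = c
        · subst h3
          simp only [if_pos (Finset.mem_insert_self _ _), if_neg hc]
          rw [Finset.sum_eq_single k]
          · simp
          · intro b _ hb
            simp [hb]
          · intro h
            exact absurd (Finset.mem_univ _) h
        · simp only [if_neg h3]
          rw [q1b_one_mul (fun j k => if c' ∈ s then A c' j k else if j = k then (1 : ℂ) else 0)]
          by_cases h4 : c' ∈ s
          · rw [if_pos h4, if_pos (Finset.mem_insert_of_mem h4)]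
          · rw [if_neg h4, if_neg (fun h => h4 ((Finset.mem_insert.mp h).resolve_left h3))]
      rw [h2]
      exact h1
  have h1 := key Finset.univ
  have h2 : (fun (c : Fin (n + 1)) (a b : Fin (e + 1)) =>
      if c ∈ (Finset.univ : Finset (Fin (n + 1))) then A c a b else
      if a = b then (1 : ℂ) else 0) = A := by
    funext c a b
    rw [if_pos (Finset.mem_univ c)]
  rwa [h2] at h1

end Pool.Agent.Helper65.MT
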