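import Pool.Agent.Helper65.MT.L2

/-!
Project MT, piece Q2a: generation by few columns in fixed degree.
-/

namespace Pool.Agent.Helper65.MT

open MvPolynomial

variable {p : ℕ}

theorem q2a_col_col {n n' n'' m : ℕ} (s : Fin (n'' + 1) → Fin (n' + 1))
    (s' : Fin (n' + 1) → Fin (n + 1)) (F : T p n m) : col s (col s' F) = col (s' ∘ s) F := by
  have h : (col (p := p) (m := m) s).comp (col s') = col (s' ∘ s) := by
    refine MvPolynomial.algHom_ext fun x => ?_
    rw [AlgHom.comp_apply, col_X, col_X, map_prod]
    simp only [col_X]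
    rw [← Finset.prod_fiberwise_of_maps_to (s := Finset.univ.filter fun q => (s' ∘ s) q = x.1)
      (t := Finset.univ.filter fun q => s' q = x.1) (g := s)]
    · refine Finset.prod_congr rfl fun q hq => Finset.prod_congr ?_ fun _ _ => rfl
      ext q'
      simp only [Finset.mem_filter, Finset.mem_univ, true_and, Function.comp_apply] at hq ⊢
      constructor
      · intro h
        exact ⟨by rw [h]; exact hq, h⟩
      · exact fun h => h.2
    · intro q hq
      simpa using hq
  exact DFunLike.congr_fun h F

theorem q2a_col_id {n m : ℕ} (F : T p n m) : col (n := n) id F = F := by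
  have h : (col (p := p) (m := m) (n := n) id) = AlgHom.id ℂ _ := by
    refine MvPolynomial.algHom_ext fun x => ?_
    rw [col_X, AlgHom.id_apply, Finset.prod_eq_single x.1]
    · intro q hq hne
      simp only [Finset.mem_filter, id] at hq
      exact absurd hq.2 hne
    · intro h
      simp at h
  exact DFunLike.congr_fun h F

/-- For fixed `k` the `N n k` are generated by finitely many of them. Proof. `fix0` for
`L j n = span {col s H | n' ≤ j, s : Fin (n + 1) → Fin (n' + 1) surjective, H ∈ N.N n' k}`: then
`N.N n k = L n n` (`s = id`), so `N.N n k ≤ L (max n J) n = L J n`. -/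
theorem col_gen {e : ℕ} (N : Fam p e) (k : ℕ) : ∃ J, ∀ n, N.N n k ≤
    Submodule.span ℂ {F | ∃ n' ≤ J, ∃ s : Fin (n + 1) → Fin (n' + 1), Function.Surjective s ∧
      ∃ H ∈ N.N n' k, F = col s H} := by
  let L : ℕ → ∀ n : ℕ, Submodule ℂ (T p n (e + 1)) := fun j n =>
    Submodule.span ℂ {F | ∃ n' ≤ j, ∃ s : Fin (n + 1) → Fin (n' + 1), Function.Surjective s ∧
      ∃ H ∈ N.N n' k, F = col s H}
  have hmono : ∀ n : ℕ, ∀ i j : ℕ, i ≤ j → L i n ≤ L j n := by
    intro n i j hij
    refine Submodule.span_mono ?_
    rintro F ⟨n', hn', s, hs, H, hH, rfl⟩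
    exact ⟨n', hn'.trans hij, s, hs, H, hH, rfl⟩
  obtain ⟨J, hJ⟩ := fix0 (p := p) (m := e + 1) k L
    (by
      intro j n
      refine Submodule.span_le.mpr ?_
      rintro F ⟨n', -, s, hs, H, hH, rfl⟩
      exact N.le n k (N.col n' n k s hs H hH))
    (fun j n => hmono n j (j + 1) (Nat.le_succ j))
    (by
      intro j n n' s π hsπ F hF
      have hs : Function.Surjective s := fun c => ⟨π c, hsπ.inv c⟩
      refine Submodule.span_induction (p := fun F _ => col s F ∈ L j n') ?_ ?_ ?_ ?_ hF
      · rintro F ⟨n'', hn'', s', hs', H, hH, rfl⟩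
        refine Submodule.subset_span ⟨n'', hn'', s' ∘ s, hs'.comp hs, H, hH, ?_⟩
        rw [q2a_col_col]
      · rw [map_zero]
        exact zero_mem _
      · intro F G _ _ hF hG
        rw [map_add]
        exact add_mem hF hG
      · intro a F _ hF
        rw [map_smul]
        exact Submodule.smul_mem _ _ hF)
  refine ⟨J, fun n => ?_⟩
  have h1 : N.N n k ≤ L n n := fun H hH =>
    Submodule.subset_span ⟨n, le_rfl, id, Function.surjective_id, H, hH, (q2a_col_id H).symm⟩
  have h2 : L n n ≤ L (max n J) n := hmono n n _ (le_max_left n J)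
  have h3 : L (max n J) n = L J n := hJ _ (le_max_right n J) n
  exact (h1.trans h2).trans h3.le

end Pool.Agent.Helper65.MT
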