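import Pool.Agent.Helper65.MT.Defs2

/-!
Project MT, piece R1: explicit elements of the coordinate ring of the first secant variety.
-/

namespace Pool.Agent.Helper65.MT

open MvPolynomial

variable {p n m : ℕ}

/-- The product of the `a`-letters of `α` and the `b`-letters of `β` outside `K`. -/
noncomputable def ab (K : Finset (Fin (n + 1))) (α β : Fin (n + 1) → Fin m) : T p n m :=
  ∏ c ∈ Kᶜ, (X (c, Sum.inr false, α c) * X (c, Sum.inr true, β c))

/-- The alternating sum over a powerset. -/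
theorem r1_alt {R κ : Type} [CommRing R] [DecidableEq κ] (K : Finset κ) (hK : K.Nonempty)
    (f g : κ → R) (h : ∀ c ∈ K, f c = g c) :
    ∑ I ∈ K.powerset, (-1) ^ I.card * ((∏ c ∈ K \ I, f c) * ∏ c ∈ I, g c) = 0 := by
  have h1 := Finset.prod_sub f g K
  rw [Finset.prod_eq_zero hK.choose_spec (by rw [h _ hK.choose_spec, sub_self])] at h1
  rw [h1]
  refine Finset.sum_congr rfl fun I _ => ?_
  ring

/-- Products of words with exchanged letters. -/
theorem r1_split {R : Type} [CommRing R] (K I : Finset (Fin (n + 1))) (hI : I ⊆ K)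
    (A B : Fin (n + 1) → Fin m → R) (α β : Fin (n + 1) → Fin m) :
    (∏ c, A c (I.piecewise β α c)) * ∏ c, B c (I.piecewise α β c) =
      ((∏ c ∈ K \ I, (A c (α c) * B c (β c))) * ∏ c ∈ I, (A c (β c) * B c (α c))) *
        ∏ c ∈ Kᶜ, (A c (α c) * B c (β c)) := by
  rw [← Finset.prod_mul_distrib, ← Finset.prod_mul_prod_compl K, ← Finset.prod_sdiff hI]
  congr 1
  · congr 1
    · refine Finset.prod_congr rfl fun c hc => ?_
      have h : c ∉ I := (Finset.mem_sdiff.mp hc).2
      rw [Finset.piecewise_eq_of_notMem _ _ _ h, Finset.piecewise_eq_of_notMem _ _ _ h]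
    · refine Finset.prod_congr rfl fun c hc => ?_
      rw [Finset.piecewise_eq_of_mem _ _ _ hc, Finset.piecewise_eq_of_mem _ _ _ hc]
  · refine Finset.prod_congr rfl fun c hc => ?_
    have h : c ∉ I := fun h => Finset.mem_compl.mp hc (hI h)
    rw [Finset.piecewise_eq_of_notMem _ _ _ h, Finset.piecewise_eq_of_notMem _ _ _ h]

theorem r1_sum {R : Type} [CommRing R] (K : Finset (Fin (n + 1)))
    (A B : Fin (n + 1) → Fin m → R) (α β : Fin (n + 1) → Fin m) :
    ∑ I ∈ K.powerset, (-1) ^ I.card * ((∏ c, A c (I.piecewise β α c)) *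
      ∏ c, B c (I.piecewise α β c)) =
      (∏ c ∈ K, (A c (α c) * B c (β c) - A c (β c) * B c (α c))) *
        ∏ c ∈ Kᶜ, (A c (α c) * B c (β c)) := by
  rw [Finset.prod_sub, Finset.sum_mul]
  refine Finset.sum_congr rfl fun I hI => ?_
  rw [r1_split K I (Finset.mem_powerset.mp hI) A B α β]
  ring

/-- Proof. For `I ⊆ K` let `α^I` be `β` on `I` and `α` elsewhere, and `β^I` the opposite
(`I.piecewise β α`, `I.piecewise α β`). Then
`∑ I ∈ K.powerset, (-1) ^ I.card * (xx (α^I) * xx (β^I))` is the left hand side: write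
`xx α = a_α + b_α`, `a_α = ∏ c, X (c, inr false, α c)`. The product `a_(α^I) * a_(β^I) = a_α * a_β` does not
depend on `I`, and the alternating sum of `1` over `I ⊆ K` is zero (`K ≠ ∅`); the same for `b * b`. In
`a_(α^I) * b_(β^I)` the columns outside `K` contribute `ab K α β`, and
`∑ I ⊆ K, (-1) ^ |I| ∏ c ∈ K \ I, (a_(α c) b_(β c)) ∏ c ∈ I, (a_(β c) b_(α c)) = ∏ c ∈ K, br c (α c) (β c)`
(`Finset.prod_sub` or `Finset.prod_add`); in `b_(α^I) * a_(β^I)` one gets `ab K β α` times
`∏ c ∈ K, (- br c (α c) (β c))`, and `|K|` is even. -/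
theorem blk_mem (K : Finset (Fin (n + 1))) (hK : K.Nonempty) (hev : Even K.card)
    (α β : Fin (n + 1) → Fin m) :
    (∏ c ∈ K, br c (α c) (β c)) * (ab K α β + ab K β α) ∈ Wn p n m ^ 2 := by
  classical
  have key : (∏ c ∈ K, br c (α c) (β c)) * (ab K α β + ab K β α) =
      ∑ I ∈ K.powerset, (-1 : T p n m) ^ I.card *
        (xx (I.piecewise β α) * xx (I.piecewise α β)) := by
    have e : ∀ I ∈ K.powerset, (-1 : T p n m) ^ I.card *
        (xx (I.piecewise β α) * xx (I.piecewise α β)) =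
        (-1) ^ I.card * ((∏ c, X (c, Sum.inr false, I.piecewise β α c)) *
          ∏ c, X (c, Sum.inr false, I.piecewise α β c)) +
        (-1) ^ I.card * ((∏ c, X (c, Sum.inr false, I.piecewise β α c)) *
          ∏ c, X (c, Sum.inr true, I.piecewise α β c)) +
        (-1) ^ I.card * ((∏ c, X (c, Sum.inr true, I.piecewise β α c)) *
          ∏ c, X (c, Sum.inr false, I.piecewise α β c)) +
        (-1) ^ I.card * ((∏ c, X (c, Sum.inr true, I.piecewise β α c)) *
          ∏ c, X (c, Sum.inr true, I.piecewise α β c)) := by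
      intro I _
      rw [xx, xx]
      ring
    rw [Finset.sum_congr rfl e, Finset.sum_add_distrib, Finset.sum_add_distrib,
      Finset.sum_add_distrib]
    rw [r1_sum K (fun c i => (X (c, Sum.inr false, i) : T p n m))
        (fun c i => (X (c, Sum.inr false, i) : T p n m)) α β,
      r1_sum K (fun c i => (X (c, Sum.inr false, i) : T p n m))
        (fun c i => (X (c, Sum.inr true, i) : T p n m)) α β,
      r1_sum K (fun c i => (X (c, Sum.inr true, i) : T p n m))
        (fun c i => (X (c, Sum.inr false, i) : T p n m)) α β,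
      r1_sum K (fun c i => (X (c, Sum.inr true, i) : T p n m))
        (fun c i => (X (c, Sum.inr true, i) : T p n m)) α β]
    have z : ∀ b : Bool, (∏ c ∈ K, ((X (c, Sum.inr b, α c) : T p n m) * X (c, Sum.inr b, β c) -
        X (c, Sum.inr b, β c) * X (c, Sum.inr b, α c))) = 0 := by
      intro b
      refine Finset.prod_eq_zero hK.choose_spec ?_
      ring
    have w : (∏ c ∈ K, ((X (c, Sum.inr true, α c) : T p n m) * X (c, Sum.inr false, β c) -
        X (c, Sum.inr true, β c) * X (c, Sum.inr false, α c))) = ∏ c ∈ K, br c (α c) (β c) := by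
      have w1 : ∀ c ∈ K, (X (c, Sum.inr true, α c) : T p n m) * X (c, Sum.inr false, β c) -
        X (c, Sum.inr true, β c) * X (c, Sum.inr false, α c) = -br c (α c) (β c) := by
        intro c _
        rw [br]
        ring
      rw [Finset.prod_congr rfl w1, Finset.prod_neg, hev.neg_one_pow, one_mul]
    have w2 : ab K β α = (∏ c ∈ Kᶜ, (X (c, Sum.inr true, α c) * X (c, Sum.inr false, β c)) :
        T p n m) := by
      rw [ab]
      refine Finset.prod_congr rfl fun c _ => ?_
      ring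
    rw [z false, z true, w, w2, ab]
    simp only [br]
    ring
  rw [key]
  refine Submodule.sum_mem _ fun I _ => ?_
  have h : xx (I.piecewise β α) * xx (I.piecewise α β) ∈ Wn p n m ^ 2 := by
    rw [pow_two]
    exact Submodule.mul_mem_mul (xx_mem_Wn _) (xx_mem_Wn _)
  rcases neg_one_pow_eq_or (T p n m) I.card with h1 | h1
  · rw [h1, one_mul]
    exact h
  · rw [h1, neg_one_mul]
    exact Submodule.neg_mem _ h

/-- `ab` for a set without one column. -/
theorem r1_ab_erase {J : Finset (Fin (n + 1))} {c : Fin (n + 1)} (hc : c ∈ J)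
    (α β : Fin (n + 1) → Fin m) (i j : Fin m) :
    ab (p := p) (J.erase c) (Function.update α c i) (Function.update β c j) =
      X (c, Sum.inr false, i) * X (c, Sum.inr true, j) * ab J α β := by
  classical
  rw [ab, ab, Finset.compl_erase, Finset.prod_insert (by simpa using hc)]
  congr 1
  · simp
  · refine Finset.prod_congr rfl fun c' hc' => ?_
    have h : c' ≠ c := fun h => Finset.mem_compl.mp hc' (h ▸ hc)
    rw [Function.update_of_ne h, Function.update_of_ne h]

theorem r1_Q {J : Finset (Fin (n + 1))} {c : Fin (n + 1)} (hc : c ∈ J) (hodd : Odd J.card)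
    (h3 : 3 ≤ J.card) (α β : Fin (n + 1) → Fin m) (i j : Fin m) :
    (∏ c' ∈ J.erase c, br c' (α c') (β c')) *
      (X (c, Sum.inr false, i) * X (c, Sum.inr true, j) * ab J α β +
        X (c, Sum.inr false, j) * X (c, Sum.inr true, i) * ab J β α) ∈ Wn p n m ^ 2 := by
  classical
  have hcard : (J.erase c).card = J.card - 1 := Finset.card_erase_of_mem hc
  have h := blk_mem (p := p) (J.erase c) (Finset.card_pos.mp (by omega))
    (by rw [hcard]; exact (Nat.Odd.sub_odd hodd odd_one)) (Function.update α c i)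
    (Function.update β c j)
  rw [r1_ab_erase hc, r1_ab_erase hc] at h
  have e : (∏ c' ∈ J.erase c, br (p := p) c' (Function.update α c i c')
      (Function.update β c j c')) = ∏ c' ∈ J.erase c, br c' (α c') (β c') := by
    refine Finset.prod_congr rfl fun c' hc' => ?_
    have h : c' ≠ c := Finset.ne_of_mem_erase hc'
    rw [Function.update_of_ne h, Function.update_of_ne h]
  rwa [e] at h

/-- Proof. Let `c ∈ J`, `K = J.erase c` (even and nonempty). For letters `i, j` let
`Q_k i j` be the element of `blk_mem` for `K` and the words `Function.update (α_k) c i`,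
`Function.update (β_k) c j`, `k = 1, 2`. With `A_k = ab J (α_k) (β_k)`, `B_k = ab J (β_k) (α_k)`,
`a_i = X (c, inr false, i)`, `b_i = X (c, inr true, i)` and `u_k = ∏ c' ∈ K, br c' (α_k c') (β_k c')` we have
`Q_k i j = u_k * (A_k * a_i * b_j + B_k * b_i * a_j)`. Put `o = α_1 c = α_2 c`, `i = β_1 c`, `j = β_2 c`. Then (by `ring`)
`Q_1 o i * Q_2 j o + Q_1 i o * Q_2 o j - Q_1 o o * (Q_2 i j + Q_2 j i)
  = u_1 * u_2 * br c o i * br c o j * (A_1 * B_2 + B_1 * A_2)`. -/
theorem hblk_mem (J : Finset (Fin (n + 1))) (hodd : Odd J.card) (h3 : 3 ≤ J.card)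
    (α₁ β₁ α₂ β₂ : Fin (n + 1) → Fin m) (hα : ∀ c ∈ J, α₁ c = α₂ c) :
    (∏ c ∈ J, br c (α₁ c) (β₁ c)) * (∏ c ∈ J, br c (α₂ c) (β₂ c)) *
      (ab J α₁ β₁ * ab J β₂ α₂ + ab J β₁ α₁ * ab J α₂ β₂) ∈ Wn p n m ^ 4 := by
  classical
  have hne : J.Nonempty := Finset.card_pos.mp (by omega)
  obtain ⟨c, hc⟩ := hne
  have h1 := r1_Q (p := p) hc hodd h3 α₁ β₁
  have h2 := r1_Q (p := p) hc hodd h3 α₂ β₂
  have e4 : Wn p n m ^ 4 = Wn p n m ^ 2 * Wn p n m ^ 2 := by rw [← pow_add]
  rw [← Finset.mul_prod_erase J _ hc, ← Finset.mul_prod_erase J (fun c => br c (α₂ c) (β₂ c)) hc]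
  rw [hα c hc, e4]
  have m1 := Submodule.mul_mem_mul (h1 (α₂ c) (β₁ c)) (h2 (β₂ c) (α₂ c))
  have m2 := Submodule.mul_mem_mul (h1 (β₁ c) (α₂ c)) (h2 (α₂ c) (β₂ c))
  have m3 := Submodule.mul_mem_mul (h1 (α₂ c) (α₂ c)) (h2 (β₁ c) (β₂ c))
  have m4 := Submodule.mul_mem_mul (h1 (α₂ c) (α₂ c)) (h2 (β₂ c) (β₁ c))
  have hm := Submodule.sub_mem _ (Submodule.add_mem _ m1 m2) (Submodule.add_mem _ m3 m4)
  refine (congrArg (· ∈ Wn p n m ^ 2 * Wn p n m ^ 2) ?_).mp hm
  simp only [br]
  ring

/-- Proof. Let `c ∈ J`, `K = J.erase c` (even and nonempty), and let `β'` be `β` on `J` and `α`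
outside `J`. Let `Q i j` be the element of `blk_mem` for `K` and the words `Function.update α c i`,
`Function.update β' c j`. With `o = α c`, `i = β c`, `u = ∏ c' ∈ K, br c' (α c') (β c')`,
`s = ∏ c' ≠ c, X (c', inr false, α c')`, `t = ∏ c' ≠ c, X (c', inr true, α c')` and
`D = ab J α α` we have `Q i j = u * D * (a_i b_j + b_i a_j)` and
`Q i o * xx α - Q o o * xx (Function.update α c i)
  = u * D * ((a_i b_o + b_i a_o) (s a_o + t b_o) - 2 a_o b_o (s a_i + t b_i))
  = u * D * br c o i * (s a_o - t b_o)`. -/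
theorem oblk_mem (J : Finset (Fin (n + 1))) (hodd : Odd J.card) (h3 : 3 ≤ J.card)
    (α β : Fin (n + 1) → Fin m) :
    (∏ c, X (c, Sum.inr false, α c) - ∏ c, X (c, Sum.inr true, α c)) *
      ((∏ c ∈ J, br c (α c) (β c)) * ab J α α) ∈ Wn p n m ^ 3 := by
  classical
  have hne : J.Nonempty := Finset.card_pos.mp (by omega)
  obtain ⟨c, hc⟩ := hne
  have hQ := r1_Q (p := p) hc hodd h3 α (J.piecewise β α)
  have e1 : ab (p := p) J α (J.piecewise β α) = ab J α α := by
    rw [ab, ab]
    refine Finset.prod_congr rfl fun c' hc' => ?_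
    rw [Finset.piecewise_eq_of_notMem _ _ _ (Finset.mem_compl.mp hc')]
  have e2 : ab (p := p) J (J.piecewise β α) α = ab J α α := by
    rw [ab, ab]
    refine Finset.prod_congr rfl fun c' hc' => ?_
    rw [Finset.piecewise_eq_of_notMem _ _ _ (Finset.mem_compl.mp hc')]
  have e3 : (∏ c' ∈ J.erase c, br (p := p) c' (α c') (J.piecewise β α c')) =
      ∏ c' ∈ J.erase c, br c' (α c') (β c') := by
    refine Finset.prod_congr rfl fun c' hc' => ?_
    rw [Finset.piecewise_eq_of_mem _ _ _ (Finset.mem_of_mem_erase hc')]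
  rw [e1, e2, e3] at hQ
  have ex : ∀ (b : Bool) (γ : Fin (n + 1) → Fin m), (∏ c', X (c', Sum.inr b, γ c') : T p n m) =
      X (c, Sum.inr b, γ c) * ∏ c' ∈ Finset.univ.erase c, X (c', Sum.inr b, γ c') := by
    intro b γ
    exact (Finset.mul_prod_erase Finset.univ _ (Finset.mem_univ c)).symm
  have eu : ∀ b : Bool, (∏ c' ∈ Finset.univ.erase c,
      X (c', Sum.inr b, Function.update α c (β c) c') : T p n m) =
      ∏ c' ∈ Finset.univ.erase c, X (c', Sum.inr b, α c') := by
    intro b
    refine Finset.prod_congr rfl fun c' hc' => ?_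
    rw [Function.update_of_ne (Finset.ne_of_mem_erase hc')]
  have e4 : Wn p n m ^ 3 = Wn p n m ^ 2 * Wn p n m := pow_succ _ _
  rw [← Finset.mul_prod_erase J _ hc, e4]
  have m1 := Submodule.mul_mem_mul (hQ (β c) (α c)) (xx_mem_Wn α)
  have m2 := Submodule.mul_mem_mul (hQ (α c) (α c)) (xx_mem_Wn (Function.update α c (β c)))
  have hm := Submodule.sub_mem _ m1 m2
  refine (congrArg (· ∈ Wn p n m ^ 2 * Wn p n m) ?_).mp hm
  rw [xx, xx, ex false α, ex true α, ex false (Function.update α c (β c)),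
    ex true (Function.update α c (β c)), eu false, eu true, Function.update_self]
  simp only [br]
  ring

end Pool.Agent.Helper65.MT
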