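import Pool.Agent.Helper65.MT.R1
import Pool.Agent.Helper65.MT.R2a

/-!
Project MT, piece R2c: products of blocks, even case.
-/

namespace Pool.Agent.Helper65.MT

open MvPolynomial

variable {p n e : ℕ}

/-- The exponents of a letter. -/
def r2c_ind (L : Fin (e + 1)) (i : Fin e) : ℕ := if L = i.succ then 1 else 0

theorem r2c_ind_zero (i : Fin e) : r2c_ind 0 i = 0 := if_neg (Fin.succ_ne_zero i).symm

theorem r2c_sum (L : Fin (e + 1)) (hL : L ≠ 0) : ∑ i, r2c_ind L i = 1 := by
  obtain ⟨j, rfl⟩ := Fin.exists_succ_eq.mpr hL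
  simp [r2c_ind, Fin.succ_inj]

theorem r2c_prod (c : Fin (n + 1)) (L : Fin (e + 1)) (hL : L ≠ 0) :
    ∏ i, (uu c i : T p n (e + 1)) ^ r2c_ind L i = br c 0 L := by
  obtain ⟨j, rfl⟩ := Fin.exists_succ_eq.mpr hL
  rw [Finset.prod_eq_single j]
  · rw [r2c_ind, if_pos rfl, pow_one]
    rfl
  · intro i _ hij
    rw [r2c_ind, if_neg (fun h => hij (Fin.succ_injective _ h).symm), pow_zero]
  · intro h
    exact absurd (Finset.mem_univ _) h

/-- The factor of a column. -/
noncomputable def r2c_F (j : ℕ) (c : Fin (n + 1)) (b : Fin e → ℕ) : T p n (e + 1) :=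
  X (c, Sum.inr false, 0) ^ (j - ∑ i, b i) * X (c, Sum.inr true, 0) ^ (j - ∑ i, b i) *
    ∏ i, uu c i ^ b i

theorem r2c_Gb (j : ℕ) (β : Fin (n + 1) → Fin e → ℕ) :
    (Gb j j β : T p n (e + 1)) = ∏ c, r2c_F j c (β c) := rfl

theorem r2c_F_in (j : ℕ) (c : Fin (n + 1)) (b b' : Fin e → ℕ) (L : Fin (e + 1)) (hL : L ≠ 0)
    (hb : ∀ i, b i = b' i + r2c_ind L i) :
    (r2c_F (j + 1) c b : T p n (e + 1)) = br c 0 L * r2c_F j c b' := by
  have hs : ∑ i, b i = ∑ i, b' i + 1 := by
    rw [← r2c_sum L hL, ← Finset.sum_add_distrib]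
    exact Finset.sum_congr rfl fun i _ => hb i
  have hp : ∏ i, (uu c i : T p n (e + 1)) ^ b i = br c 0 L * ∏ i, uu c i ^ b' i := by
    rw [← r2c_prod c L hL, ← Finset.prod_mul_distrib]
    refine Finset.prod_congr rfl fun i _ => ?_
    rw [hb i, pow_add, mul_comm]
  rw [r2c_F, r2c_F, hs, hp, Nat.add_sub_add_right]
  ring

theorem r2c_F_out (j : ℕ) (c : Fin (n + 1)) (b : Fin e → ℕ) (hb : ∑ i, b i ≤ j) :
    (r2c_F (j + 1) c b : T p n (e + 1)) =
      X (c, Sum.inr false, 0) * X (c, Sum.inr true, 0) * r2c_F j c b := by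
  rw [r2c_F, r2c_F, Nat.succ_sub hb, pow_succ, pow_succ]
  ring

theorem r2c_step (j : ℕ) (J : Finset (Fin (n + 1))) (L : Fin (n + 1) → Fin (e + 1))
    (β β' : Fin (n + 1) → Fin e → ℕ) (hin : ∀ c ∈ J, L c ≠ 0) (hout : ∀ c ∉ J, L c = 0)
    (hβ : ∀ c i, β c i = β' c i + r2c_ind (L c) i) (hb : ∀ c ∉ J, ∑ i, β c i ≤ j) :
    (Gb (j + 1) (j + 1) β : T p n (e + 1)) =
      (∏ c ∈ J, br c 0 (L c)) * ab J (fun _ => 0) (fun _ => 0) * Gb j j β' := by
  have h1 : ∏ c ∈ J, (r2c_F (j + 1) c (β c) : T p n (e + 1)) =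
      (∏ c ∈ J, br c 0 (L c)) * ∏ c ∈ J, r2c_F j c (β' c) := by
    rw [← Finset.prod_mul_distrib]
    exact Finset.prod_congr rfl fun c hc => r2c_F_in j c _ _ _ (hin c hc) (hβ c)
  have h2 : ∏ c ∈ Jᶜ, (r2c_F (j + 1) c (β c) : T p n (e + 1)) =
      ab J (fun _ => 0) (fun _ => 0) * ∏ c ∈ Jᶜ, r2c_F j c (β' c) := by
    rw [ab, ← Finset.prod_mul_distrib]
    refine Finset.prod_congr rfl fun c hc => ?_
    have hc' : c ∉ J := Finset.mem_compl.mp hc
    have h3 : β' c = β c := by
      funext i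
      rw [hβ c i, hout c hc', r2c_ind_zero, add_zero]
    rw [h3]
    exact r2c_F_out j c _ (hb c hc')
  rw [r2c_Gb, r2c_Gb, ← Finset.prod_mul_prod_compl J, h1, h2,
    ← Finset.prod_mul_prod_compl J (fun c => (r2c_F j c (β' c) : T p n (e + 1)))]
  ring

theorem r2c_choose (b : Fin e → ℕ) (hb : ∑ i, b i ≠ 0) :
    ∃ L : Fin (e + 1), L ≠ 0 ∧ ∃ b' : Fin e → ℕ, ∀ i, b i = b' i + r2c_ind L i := by
  obtain ⟨j, -, hj⟩ := Finset.exists_ne_zero_of_sum_ne_zero hb
  refine ⟨j.succ, Fin.succ_ne_zero j, fun i => b i - r2c_ind j.succ i, fun i => ?_⟩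
  by_cases h : j = i
  · subst h
    have h1 : r2c_ind j.succ j = 1 := if_pos rfl
    change b j = b j - r2c_ind j.succ j + r2c_ind j.succ j
    rw [h1]
    omega
  · have h1 : r2c_ind j.succ i = 0 := if_neg fun h2 => h (Fin.succ_injective _ h2)
    change b i = b i - r2c_ind j.succ i + r2c_ind j.succ i
    rw [h1]
    omega

theorem r2c_word (J : Finset (Fin (n + 1))) (β : Fin (n + 1) → Fin e → ℕ)
    (hβ : ∀ c ∈ J, ∑ i, β c i ≠ 0) :
    ∃ (L : Fin (n + 1) → Fin (e + 1)) (β' : Fin (n + 1) → Fin e → ℕ), (∀ c ∈ J, L c ≠ 0) ∧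
      (∀ c ∉ J, L c = 0) ∧ (∀ c i, β c i = β' c i + r2c_ind (L c) i) ∧
      ∀ c, ∑ i, β c i = ∑ i, β' c i + if c ∈ J then 1 else 0 := by
  have h : ∀ c, ∃ (L : Fin (e + 1)) (b' : Fin e → ℕ), (c ∈ J → L ≠ 0) ∧ (c ∉ J → L = 0) ∧
      ∀ i, β c i = b' i + r2c_ind L i := by
    intro c
    by_cases hc : c ∈ J
    · obtain ⟨L, h1, b', h2⟩ := r2c_choose (β c) (hβ c hc)
      exact ⟨L, b', fun _ => h1, fun h3 => absurd hc h3, h2⟩
    · refine ⟨0, β c, fun h3 => absurd h3 hc, fun _ => rfl, fun i => ?_⟩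
      rw [r2c_ind_zero, add_zero]
  choose L β' h1 h2 h3 using h
  refine ⟨L, β', h1, h2, h3, fun c => ?_⟩
  rw [Finset.sum_congr rfl fun i _ => h3 c i, Finset.sum_add_distrib]
  by_cases hc : c ∈ J
  · rw [if_pos hc, r2c_sum _ (h1 c hc)]
  · rw [if_neg hc, h2 c hc]
    simp [r2c_ind_zero]

theorem r2c_total (J : Finset (Fin (n + 1))) (β β' : Fin (n + 1) → Fin e → ℕ)
    (h : ∀ c, ∑ i, β c i = ∑ i, β' c i + if c ∈ J then 1 else 0) :
    ∑ c, ∑ i, β c i = ∑ c, ∑ i, β' c i + J.card := by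
  rw [Finset.sum_congr rfl fun c _ => h c, Finset.sum_add_distrib]
  simp

theorem r2c_ab_left (J : Finset (Fin (n + 1))) (L : Fin (n + 1) → Fin (e + 1))
    (hout : ∀ c ∉ J, L c = 0) :
    (ab J L (fun _ => 0) : T p n (e + 1)) = ab J (fun _ => 0) (fun _ => 0) :=
  Finset.prod_congr rfl fun c hc => by rw [hout c (Finset.mem_compl.mp hc)]

theorem r2c_ab_right (J : Finset (Fin (n + 1))) (L : Fin (n + 1) → Fin (e + 1))
    (hout : ∀ c ∉ J, L c = 0) :
    (ab J (fun _ => 0) L : T p n (e + 1)) = ab J (fun _ => 0) (fun _ => 0) :=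
  Finset.prod_congr rfl fun c hc => by rw [hout c (Finset.mem_compl.mp hc)]


/-- Proof. Induction on `h` (`h = 0`: `β = 0`), by `peel` for `a = 0`, `b c = ∑ i, β c i`. First
alternative: choose letters `i c` with `β c (i c) ≠ 0`, `c ∈ J`; the element of `blk_mem` for `J`, the word `0` and the chosen letters is `2 * ∏ c ∈ J, uu c (i c) * ab J 0 0`,
and its product with `Gb (h - 1) (h - 1) β'`, `β'` = `β` minus the chosen letters, is `2 * Gb h h β`.
Second alternative: the element of `hblk_mem` is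
`2 * ∏ c ∈ J, (uu c (i c) * uu c (i' c)) * (ab J 0 0) ^ 2`, and its product with `Gb (h - 2) (h - 2) β'` is
`2 * Gb h h β`. -/
theorem ring_even (h : ℕ) (β : Fin (n + 1) → Fin e → ℕ) (h1 : ∀ c, ∑ i, β c i ≤ h)
    (h2 : 2 * h ≤ ∑ c, ∑ i, β c i) (hev : Even (∑ c, ∑ i, β c i)) :
    (Gb h h β : T p n (e + 1)) ∈ Wn p n (e + 1) ^ (2 * h) := by
  induction h using Nat.strong_induction_on generalizing β with
  | _ h ih =>
    rcases Nat.eq_zero_or_pos h with h0 | hh
    · subst h0
      have hz : ∀ c i, β c i = 0 := by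
        intro c i
        have h3 := Finset.single_le_sum (f := fun i => β c i) (fun _ _ => Nat.zero_le _)
          (Finset.mem_univ i)
        have h4 := h1 c
        omega
      have hG : (Gb 0 0 β : T p n (e + 1)) = 1 := by
        simp [Gb, hz]
      rw [hG, mul_zero, pow_zero]
      exact Submodule.mem_one.mpr ⟨1, map_one _⟩
    · rcases peel h hh (fun _ => 0) (fun c => ∑ i, β c i) (fun c => by simpa using h1 c) h2 hev with
        ⟨J, hJ1, hJ2, hJ3, hJ4, hJ5⟩ | ⟨J, hJ1, hJ2, hJ3, hJ4, hJ5⟩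
      · obtain ⟨L, β', hin, hout, hβ, hs⟩ := r2c_word J β hJ3
        have htot := r2c_total J β β' hs
        obtain ⟨k, rfl⟩ : ∃ k, h = k + 1 := ⟨h - 1, by omega⟩
        have hb' : ∀ c, ∑ i, β' c i ≤ k := by
          intro c
          have h3 := hs c
          by_cases hc : c ∈ J
          · rw [if_pos hc] at h3
            have h4 := h1 c
            omega
          · rw [if_neg hc] at h3
            have h4 := hJ4 c hc rfl
            omega
        have hmem := ih k (Nat.lt_succ_self k) β' hb' (by omega) (by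
          rw [htot] at hev
          exact (Nat.even_add.mp hev).mpr hJ1)
        have hstep := r2c_step (p := p) k J L β β' hin hout hβ fun c hc => by
          have h4 := hJ4 c hc rfl
          simpa using h4
        have hQ := blk_mem (p := p) J (Finset.card_pos.mp (by omega)) hJ1 (fun _ => 0) L
        rw [r2c_ab_left J L hout, r2c_ab_right J L hout] at hQ
        have hprod := Submodule.mul_mem_mul hQ hmem
        rw [← pow_add, show 2 + 2 * k = 2 * (k + 1) by ring] at hprod
        have h5 : (∏ c ∈ J, br c 0 (L c)) *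
            (ab J (fun _ => 0) (fun _ => 0) + ab J (fun _ => 0) (fun _ => 0)) * Gb k k β' =
            (2 : ℂ) • (Gb (k + 1) (k + 1) β : T p n (e + 1)) := by
          rw [hstep, two_smul]
          ring
        rw [h5] at hprod
        exact (Submodule.smul_mem_iff _ two_ne_zero).mp hprod
      · have hJ4' : ∀ c ∈ J, ∑ i, β c i = h := hJ4
        have hJ5' : ∀ c ∉ J, ∑ i, β c i = 0 := hJ5
        obtain ⟨L₁, β', hin₁, hout₁, hβ₁, hs₁⟩ := r2c_word J β fun c hc => by
          rw [hJ4' c hc]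
          omega
        have hs₁' : ∀ c ∈ J, ∑ i, β' c i + 1 = h := by
          intro c hc
          have h3 := hs₁ c
          rw [if_pos hc, hJ4' c hc] at h3
          exact h3.symm
        obtain ⟨L₂, β'', hin₂, hout₂, hβ₂, hs₂⟩ := r2c_word J β' fun c hc => by
          have h3 := hs₁' c hc
          omega
        have htot₁ := r2c_total J β β' hs₁
        have htot₂ := r2c_total J β' β'' hs₂
        obtain ⟨k, rfl⟩ : ∃ k, h = k + 1 + 1 := ⟨h - 2, by omega⟩
        have hin'' : ∀ c ∈ J, ∑ i, β'' c i = k := by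
          intro c hc
          have h3 := hs₂ c
          have h4 := hs₁' c hc
          rw [if_pos hc] at h3
          omega
        have hout' : ∀ c ∉ J, ∑ i, β' c i = 0 := by
          intro c hc
          have h3 := hs₁ c
          rw [if_neg hc, hJ5' c hc] at h3
          omega
        have hout'' : ∀ c ∉ J, ∑ i, β'' c i = 0 := by
          intro c hc
          have h3 := hs₂ c
          rw [if_neg hc, hout' c hc] at h3
          omega
        have hsum : J.card * k ≤ ∑ c, ∑ i, β'' c i := by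
          calc J.card * k = ∑ c ∈ J, ∑ i, β'' c i := by
                rw [Finset.sum_congr rfl hin'', Finset.sum_const, smul_eq_mul]
            _ ≤ ∑ c, ∑ i, β'' c i :=
                Finset.sum_le_sum_of_subset_of_nonneg (Finset.subset_univ J)
                  fun _ _ _ => Nat.zero_le _
        have hmem := ih k (by omega) β'' (fun c => by
            by_cases hc : c ∈ J
            · exact (hin'' c hc).le
            · rw [hout'' c hc]
              exact Nat.zero_le _)
          (le_trans (Nat.mul_le_mul_right k (by omega)) hsum) (by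
          rw [htot₁, htot₂, add_assoc] at hev
          exact (Nat.even_add.mp hev).mpr ⟨J.card, rfl⟩)
        have hstep₁ := r2c_step (p := p) (k + 1) J L₁ β β' hin₁ hout₁ hβ₁ fun c hc => by
          rw [hJ5' c hc]
          exact Nat.zero_le _
        have hstep₂ := r2c_step (p := p) k J L₂ β' β'' hin₂ hout₂ hβ₂ fun c hc => by
          rw [hout' c hc]
          exact Nat.zero_le _
        have hQ := hblk_mem (p := p) J hJ1 hJ2 (fun _ => 0) L₁ (fun _ => 0) L₂ fun _ _ => rfl
        rw [r2c_ab_left J L₁ hout₁, r2c_ab_right J L₁ hout₁, r2c_ab_left J L₂ hout₂,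
          r2c_ab_right J L₂ hout₂] at hQ
        have hprod := Submodule.mul_mem_mul hQ hmem
        rw [← pow_add, show 4 + 2 * k = 2 * (k + 1 + 1) by ring] at hprod
        have h5 : (∏ c ∈ J, br c 0 (L₁ c)) * (∏ c ∈ J, br c 0 (L₂ c)) *
            (ab J (fun _ => 0) (fun _ => 0) * ab J (fun _ => 0) (fun _ => 0) +
              ab J (fun _ => 0) (fun _ => 0) * ab J (fun _ => 0) (fun _ => 0)) * Gb k k β'' =
            (2 : ℂ) • (Gb (k + 1 + 1) (k + 1 + 1) β : T p n (e + 1)) := by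
          rw [hstep₁, hstep₂, two_smul]
          ring
        rw [h5] at hprod
        exact (Submodule.smul_mem_iff _ two_ne_zero).mp hprod

end Pool.Agent.Helper65.MT
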