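import Pool.Agent.Helper65.MT.R2c

/-!
Project MT, piece R3: the symmetric elements.
-/

namespace Pool.Agent.Helper65.MT

open MvPolynomial

variable {p n e : ℕ}

/-- The product of the letters `0` of the first factor. -/
noncomputable def r3_s : T p n (e + 1) := ∏ c, X (c, Sum.inr false, 0)

/-- The product of the letters `0` of the second factor. -/
noncomputable def r3_t : T p n (e + 1) := ∏ c, X (c, Sum.inr true, 0)

theorem r3_xx : (xx (fun _ => 0) : T p n (e + 1)) = r3_s + r3_t := rfl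

theorem r3_swp_uu (c : Fin (n + 1)) (i : Fin e) : swp (uu c i : T p n (e + 1)) = -uu c i := by
  simp only [uu, br, map_sub, map_mul, swp_X, swv, Sum.map_inr, Bool.not_false, Bool.not_true]
  ring

theorem r3_swp_Gb (j1 j2 : ℕ) (β : Fin (n + 1) → Fin e → ℕ) :
    swp (Gb j1 j2 β : T p n (e + 1)) = (-1) ^ (∑ c, ∑ i, β c i) * Gb j2 j1 β := by
  rw [Gb, Gb, map_prod, ← Finset.prod_pow_eq_pow_sum, ← Finset.prod_mul_distrib]
  refine Finset.prod_congr rfl fun c _ => ?_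
  have h1 : ∏ i, (-uu c i : T p n (e + 1)) ^ β c i =
      (-1) ^ (∑ i, β c i) * ∏ i, uu c i ^ β c i := by
    rw [← Finset.prod_pow_eq_pow_sum, ← Finset.prod_mul_distrib]
    refine Finset.prod_congr rfl fun i _ => ?_
    rw [← mul_pow, neg_one_mul]
  have h2 : ∀ b : Bool, swv ((c, Sum.inr b, 0) : Var p n (e + 1)) = (c, Sum.inr (!b), 0) :=
    fun b => rfl
  rw [map_mul, map_mul, map_pow, map_pow, swp_X, swp_X, map_prod, h2, h2, Bool.not_false,
    Bool.not_true]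
  have h3 : ∏ i, swp (uu c i ^ β c i : T p n (e + 1)) = ∏ i, (-uu c i) ^ β c i :=
    Finset.prod_congr rfl fun i _ => by rw [map_pow, r3_swp_uu]
  rw [h3, h1]
  ring

theorem r3_Gb_add (r l : ℕ) (β : Fin (n + 1) → Fin e → ℕ) (h1 : ∀ c, ∑ i, β c i ≤ r) :
    (Gb (r + l) r β : T p n (e + 1)) = r3_s ^ l * Gb r r β := by
  rw [Gb, Gb, r3_s, ← Finset.prod_pow, ← Finset.prod_mul_distrib]
  refine Finset.prod_congr rfl fun c _ => ?_
  rw [show r + l - ∑ i, β c i = l + (r - ∑ i, β c i) from by have := h1 c; omega, pow_add]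
  ring

theorem r3_Gb_add' (r l : ℕ) (β : Fin (n + 1) → Fin e → ℕ) (h1 : ∀ c, ∑ i, β c i ≤ r) :
    (Gb r (r + l) β : T p n (e + 1)) = r3_t ^ l * Gb r r β := by
  rw [Gb, Gb, r3_t, ← Finset.prod_pow, ← Finset.prod_mul_distrib]
  refine Finset.prod_congr rfl fun c _ => ?_
  rw [show r + l - ∑ i, β c i = l + (r - ∑ i, β c i) from by have := h1 c; omega, pow_add]
  ring

theorem r3_Gb_succ (r : ℕ) (β : Fin (n + 1) → Fin e → ℕ) (h1 : ∀ c, ∑ i, β c i ≤ r) :
    (Gb (r + 1) (r + 1) β : T p n (e + 1)) = r3_s * r3_t * Gb r r β := by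
  rw [Gb, Gb, r3_s, r3_t, ← Finset.prod_mul_distrib, ← Finset.prod_mul_distrib]
  refine Finset.prod_congr rfl fun c _ => ?_
  rw [show r + 1 - ∑ i, β c i = (r - ∑ i, β c i) + 1 from by have := h1 c; omega, pow_succ,
    pow_succ]
  ring

/-- Proof. `peel_odd`, `oblk_mem` for the word `0` and letters chosen in `J`, and `ring_even` for `h - 1`. -/
theorem ring_odd (h : ℕ) (hh : 1 ≤ h) (β : Fin (n + 1) → Fin e → ℕ) (h1 : ∀ c, ∑ i, β c i ≤ h)
    (h2 : 2 * h + 1 ≤ ∑ c, ∑ i, β c i) (hodd : Odd (∑ c, ∑ i, β c i)) :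
    ((∏ c, X (c, Sum.inr false, 0) - ∏ c, X (c, Sum.inr true, 0)) * Gb h h β : T p n (e + 1)) ∈
      Wn p n (e + 1) ^ (2 * h + 1) := by
  obtain ⟨J, hJ1, hJ2, hJ3, hJ4, hJ5⟩ := peel_odd h hh (fun c => ∑ i, β c i) h1 h2 hodd
  obtain ⟨L, β', hin, hout, hβ, hs⟩ := r2c_word J β hJ3
  have htot := r2c_total J β β' hs
  obtain ⟨k, rfl⟩ : ∃ k, h = k + 1 := ⟨h - 1, by omega⟩
  have hb' : ∀ c, ∑ i, β' c i ≤ k := by
    intro c
    have h3 := hs c
    by_cases hc : c ∈ J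
    · rw [if_pos hc] at h3
      have h4 := h1 c
      omega
    · rw [if_neg hc] at h3
      have h4 := hJ4 c hc
      omega
  have hmem := ring_even (p := p) k β' hb' (by omega) (by
    rw [htot] at hodd
    rcases Nat.even_or_odd (∑ c, ∑ i, β' c i) with h3 | h3
    · exact h3
    · exact absurd hodd (Nat.not_odd_iff_even.mpr (h3.add_odd hJ1)))
  have hstep := r2c_step (p := p) k J L β β' hin hout hβ fun c hc => by
    have h4 := hJ4 c hc
    simpa using h4
  have hQ := oblk_mem (p := p) J hJ1 hJ2 (fun _ => 0) L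
  have hprod := Submodule.mul_mem_mul hQ hmem
  rw [← pow_add, show 3 + 2 * k = 2 * (k + 1) + 1 by ring] at hprod
  refine (congrArg (· ∈ Wn p n (e + 1) ^ (2 * (k + 1) + 1)) ?_).mp hprod
  rw [hstep]
  ring

theorem r3_key (l : ℕ) : ∀ (r : ℕ) (β : Fin (n + 1) → Fin e → ℕ), (∀ c, ∑ i, β c i ≤ r) →
    2 * r + l ≤ ∑ c, ∑ i, β c i →
    ((r3_s ^ l + (-1) ^ (∑ c, ∑ i, β c i) * r3_t ^ l) * Gb r r β : T p n (e + 1)) ∈
      Wn p n (e + 1) ^ (2 * r + l) := by
  induction l using Nat.strong_induction_on with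
  | _ l ih =>
    intro r β h1 h2
    rcases l with _ | _ | l
    · rcases Nat.even_or_odd (∑ c, ∑ i, β c i) with hev | hodd
      · have h3 := ring_even (p := p) r β h1 (by omega) hev
        rw [hev.neg_one_pow, pow_zero, pow_zero, add_zero]
        have h4 : ((1 + 1 * 1) * Gb r r β : T p n (e + 1)) = Gb r r β + Gb r r β := by ring
        rw [h4]
        exact Submodule.add_mem _ h3 h3
      · rw [hodd.neg_one_pow, pow_zero, pow_zero]
        have h4 : ((1 + -1 * 1) * Gb r r β : T p n (e + 1)) = 0 := by ring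
        rw [h4]
        exact Submodule.zero_mem _
    · rcases Nat.even_or_odd (∑ c, ∑ i, β c i) with hev | hodd
      · have h3 := ring_even (p := p) r β h1 (by omega) hev
        rw [hev.neg_one_pow, zero_add, pow_one, pow_one, one_mul, ← r3_xx, pow_succ']
        exact Submodule.mul_mem_mul (xx_mem_Wn _) h3
      · rw [hodd.neg_one_pow, zero_add, pow_one, pow_one, neg_one_mul, ← sub_eq_add_neg]
        have hr : 1 ≤ r := by
          by_contra hr
          have h3 : ∑ c, ∑ i, β c i = 0 := by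
            refine Finset.sum_eq_zero fun c _ => ?_
            have := h1 c
            omega
          rw [h3] at hodd
          exact absurd hodd (by decide)
        exact ring_odd r hr β h1 (by omega) hodd
    · have e1 : ((r3_s ^ (l + 1 + 1) + (-1) ^ (∑ c, ∑ i, β c i) * r3_t ^ (l + 1 + 1)) *
          Gb r r β : T p n (e + 1)) =
          xx (fun _ => 0) * ((r3_s ^ (l + 1) + (-1) ^ (∑ c, ∑ i, β c i) * r3_t ^ (l + 1)) *
            Gb r r β) -
          (r3_s ^ l + (-1) ^ (∑ c, ∑ i, β c i) * r3_t ^ l) * Gb (r + 1) (r + 1) β := by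
        rw [r3_xx, r3_Gb_succ r β h1]
        ring
      rw [e1]
      refine Submodule.sub_mem _ ?_ ?_
      · have h3 := ih (l + 1) (by omega) r β h1 (by omega)
        rw [show 2 * r + (l + 1 + 1) = (2 * r + (l + 1)) + 1 by ring, pow_succ']
        exact Submodule.mul_mem_mul (xx_mem_Wn _) h3
      · have h3 := ih l (by omega) (r + 1) β (fun c => (h1 c).trans (Nat.le_succ r)) (by omega)
        rwa [show 2 * (r + 1) + l = 2 * r + (l + 1 + 1) by ring] at h3

theorem r3_sym (j1 j2 : ℕ) (hj : j2 ≤ j1) (β : Fin (n + 1) → Fin e → ℕ)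
    (h1 : ∀ c, ∑ i, β c i ≤ j2) (h2 : j1 + j2 ≤ ∑ c, ∑ i, β c i) :
    (Gb j1 j2 β + (-1) ^ (∑ c, ∑ i, β c i) * Gb j2 j1 β : T p n (e + 1)) ∈
      Wn p n (e + 1) ^ (j1 + j2) := by
  obtain ⟨l, rfl⟩ := Nat.exists_eq_add_of_le hj
  have h3 := r3_key (p := p) l j2 β h1 (by omega)
  rw [r3_Gb_add j2 l β h1, r3_Gb_add' j2 l β h1, show j2 + l + j2 = 2 * j2 + l by ring]
  refine (congrArg (· ∈ Wn p n (e + 1) ^ (2 * j2 + l)) ?_).mp h3
  ring

/-- Proof. Let `s = ∏ c, X (c, inr false, 0)`, `t = ∏ c, X (c, inr true, 0)`. We may assume `j2 ≤ j1` (exchange: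
`swp (Gb j1 j2 β) = (-1) ^ |β| * Gb j2 j1 β`, as `swp (uu c i) = - uu c i`). With `r = j2`, `l = j1 - j2`, `|β| = ∑ c, ∑ i, β c i` the
element is `(s ^ l + (-1) ^ |β| * t ^ l) * Gb r r β`. Prove by strong induction on `l`, for all `r`: if
`∑ i, β c i ≤ r` for all `c` and `2 r + l ≤ |β|` then
`(s ^ l + t ^ l) * Gb r r β ∈ Wn ^ (2 r + l)` if `|β|` is even and `(s ^ l - t ^ l) * Gb r r β ∈ Wn ^ (2 r + l)`
if `|β|` is odd. For `l ≥ 2`:
`s ^ l ± t ^ l = (s + t) * (s ^ (l-1) ± t ^ (l-1)) - s t * (s ^ (l-2) ± t ^ (l-2))`, `s + t = xx 0`, and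
`s t * Gb r r β = Gb (r + 1) (r + 1) β`. `l = 0`: `ring_even` (or zero in the odd case). `l = 1`: even
case `xx 0 * Gb r r β` and `ring_even`; odd case `ring_odd` (for `r ≥ 1`; if `r = 0` then `β = 0`, not odd). -/
theorem ring_sym (j1 j2 : ℕ) (β : Fin (n + 1) → Fin e → ℕ) (h1 : ∀ c, ∑ i, β c i ≤ min j1 j2)
    (h2 : j1 + j2 ≤ ∑ c, ∑ i, β c i) :
    (Gb j1 j2 β + swp (Gb j1 j2 β) : T p n (e + 1)) ∈ Wn p n (e + 1) ^ (j1 + j2) := by
  rw [r3_swp_Gb]
  rcases le_total j2 j1 with hj | hj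
  · exact r3_sym j1 j2 hj β (fun c => (h1 c).trans (min_le_right _ _)) h2
  · have h3 := r3_sym (p := p) j2 j1 hj β (fun c => (h1 c).trans (min_le_left _ _)) (by omega)
    rw [add_comm j2 j1] at h3
    rcases neg_one_pow_eq_or (T p n (e + 1)) (∑ c, ∑ i, β c i) with h4 | h4
    · rw [h4, one_mul] at h3 ⊢
      rwa [add_comm (Gb j1 j2 β)]
    · rw [h4, neg_one_mul] at h3 ⊢
      have h5 := Submodule.neg_mem _ h3
      refine (congrArg (· ∈ Wn p n (e + 1) ^ (j1 + j2)) ?_).mp h5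
      ring

end Pool.Agent.Helper65.MT
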