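import Pool.Agent.Helper65.MT.Defs2

/-!
Project MT, piece R4: the invariants of the raising operators in `S ⊗ S`.
-/

namespace Pool.Agent.Helper65.MT

open MvPolynomial

variable {p n e : ℕ}

theorem r4_scale {j1 j2 : ℕ} {D : T p n (e + 1)} (hD : D ∈ Sk p n (e + 1) j1 j2)
    (l : Fin (n + 1) × Slot p → ℂ) (z : Var p n (e + 1) → ℂ) :
    eval (fun x => l (x.1, x.2.1) * z x) D = (∏ y, l y ^ ty0 (p := p) (n := n) j1 j2 y) *
      eval z D := by
  rw [mem_Sk] at hD
  rw [eval_eq', eval_eq', Finset.mul_sum]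
  refine Finset.sum_congr rfl fun μ hμ => ?_
  have h1 := hD μ (mem_support_iff.mp hμ)
  have h2 : ∏ x : Var p n (e + 1), l (x.1, x.2.1) ^ μ x =
      ∏ y, l y ^ ty0 (p := p) (n := n) j1 j2 y := by
    rw [← h1, Fintype.prod_prod_type, Fintype.prod_prod_type]
    refine Finset.prod_congr rfl fun c _ => ?_
    rw [Fintype.prod_prod_type]
    refine Finset.prod_congr rfl fun r _ => ?_
    exact Finset.prod_pow_eq_pow_sum Finset.univ (fun i => μ (c, r, i)) (l (c, r))
  have h3 : ∏ x : Var p n (e + 1), (l (x.1, x.2.1) * z x) ^ μ x =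
      (∏ y, l y ^ ty0 (p := p) (n := n) j1 j2 y) * ∏ x : Var p n (e + 1), z x ^ μ x := by
    rw [← h2, ← Finset.prod_mul_distrib]
    exact Finset.prod_congr rfl fun x _ => mul_pow _ _ _
  rw [h3]
  ring

/-- Two elements of `S_{j1} ⊗ S_{j2}` which agree at all points with `a_0 = b_0 = 1` in all columns agree.
Proof. By multihomogeneity (scale the variables of each column and slot) they agree at all points with all
`X (c, inr b, 0) ≠ 0`; so their difference times the product of these variables vanishes at all points, and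
it is zero (`MvPolynomial.funext`). -/
theorem eq_of_deh {j1 j2 : ℕ} {F G : T p n (e + 1)} (hF : F ∈ Sk p n (e + 1) j1 j2)
    (hG : G ∈ Sk p n (e + 1) j1 j2)
    (h : ∀ z : Var p n (e + 1) → ℂ, (∀ c b, z (c, Sum.inr b, 0) = 1) → eval z F = eval z G) :
    F = G := by
  rw [← sub_eq_zero]
  have hD : F - G ∈ Sk p n (e + 1) j1 j2 := Submodule.sub_mem _ hF hG
  have hne : (∏ c : Fin (n + 1), ∏ b : Bool, X (c, Sum.inr b, 0) : T p n (e + 1)) ≠ 0 := by
    rw [Finset.prod_ne_zero_iff]
    intro c _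
    rw [Finset.prod_ne_zero_iff]
    intro b _
    exact X_ne_zero _
  have h0 : (F - G) * (∏ c : Fin (n + 1), ∏ b : Bool, X (c, Sum.inr b, 0)) = 0 := by
    apply MvPolynomial.funext
    intro z
    rw [map_mul, map_zero, map_prod]
    simp only [map_prod, eval_X]
    by_cases hz : ∀ c b, z (c, Sum.inr b, 0) ≠ 0
    · have h1 : eval z (F - G) = 0 := by
        obtain ⟨l, hl⟩ : ∃ l : Fin (n + 1) × Slot p → ℂ, l = fun y =>
          Sum.elim (fun _ => 1) (fun b => z (y.1, Sum.inr b, 0)) y.2 := ⟨_, rfl⟩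
        have hl0 : ∀ y, l y ≠ 0 := by
          rintro ⟨c, r | b⟩
          · rw [hl]
            simp
          · rw [hl]
            exact hz c b
        have h2 : z = fun x => l (x.1, x.2.1) * ((l (x.1, x.2.1))⁻¹ * z x) := by
          funext x
          rw [← mul_assoc, mul_inv_cancel₀ (hl0 _), one_mul]
        rw [h2, r4_scale hD l, map_sub, h, sub_self, mul_zero]
        intro c b
        rw [hl]
        simp only [Sum.elim_inr]
        exact inv_mul_cancel₀ (hz c b)
      rw [h1, zero_mul]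
    · push Not at hz
      obtain ⟨c, b, hcb⟩ := hz
      rw [Finset.prod_eq_zero (Finset.mem_univ c) (Finset.prod_eq_zero (Finset.mem_univ b) hcb),
        mul_zero]
  exact (mul_eq_zero.1 h0).resolve_right hne

theorem Gb_mem_Sk {j1 j2 : ℕ} {β : Fin (n + 1) → Fin e → ℕ} (h : ∀ c, ∑ i, β c i ≤ min j1 j2) :
    (Gb j1 j2 β : T p n (e + 1)) ∈ Sk p n (e + 1) j1 j2 := by
  have hX : ∀ (c : Fin (n + 1)) (b : Bool) (i : Fin (e + 1)),
      (X (c, Sum.inr b, i) : T p n (e + 1)) ∈ restrictSupport ℂ {ν | mdH p n (e + 1) ν =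
        fun x => if x = (c, Sum.inr b) then 1 else 0} := by
    intro c b i
    refine restrictSupport_mono ℂ ?_ (X_mem_rs (mdH p n (e + 1)) (c, Sum.inr b, i))
    intro ν hν
    change md ν = _
    rw [show md ν = _ from hν]
    funext x
    rw [mdH_apply, md_single]
  have hmul : ∀ {F G : T p n (e + 1)} {D E : Fin (n + 1) × Slot p → ℕ},
      F ∈ restrictSupport ℂ {ν | mdH p n (e + 1) ν = D} →
      G ∈ restrictSupport ℂ {ν | mdH p n (e + 1) ν = E} →
      F * G ∈ restrictSupport ℂ {ν | mdH p n (e + 1) ν = D + E} := by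
    intro F G D E hF hG
    refine mul_mem_rs ?_ hF hG
    intro x hx y hy
    change mdH p n (e + 1) (x + y) = _
    rw [map_add, show mdH p n (e + 1) x = D from hx, show mdH p n (e + 1) y = E from hy]
  have huu : ∀ (c : Fin (n + 1)) (i : Fin e), (uu c i : T p n (e + 1)) ∈
      restrictSupport ℂ {ν | mdH p n (e + 1) ν =
        (fun x => if x = (c, Sum.inr false) then 1 else 0) +
        fun x => if x = (c, Sum.inr true) then 1 else 0} := by
    intro c i
    exact Submodule.sub_mem _ (hmul (hX c false 0) (hX c true i.succ))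
      (hmul (hX c false i.succ) (hX c true 0))
  have hc : ∀ c ∈ (Finset.univ : Finset (Fin (n + 1))),
      (X (c, Sum.inr false, 0) ^ (j1 - ∑ i, β c i) * X (c, Sum.inr true, 0) ^ (j2 - ∑ i, β c i) *
        ∏ i, uu c i ^ β c i : T p n (e + 1)) ∈ restrictSupport ℂ {ν | mdH p n (e + 1) ν =
          fun x => (if x = (c, Sum.inr false) then j1 else 0) +
            if x = (c, Sum.inr true) then j2 else 0} := by
    intro c _
    have h1 := hmul (hmul (pow_mem_rs (mdH p n (e + 1)) _ _ (hX c false 0) (j1 - ∑ i, β c i))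
      (pow_mem_rs (mdH p n (e + 1)) _ _ (hX c true 0) (j2 - ∑ i, β c i)))
      (prod_mem_rs (mdH p n (e + 1)) Finset.univ (fun i => uu c i ^ β c i) _
        (fun i _ => pow_mem_rs (mdH p n (e + 1)) _ _ (huu c i) (β c i)))
    refine restrictSupport_mono ℂ ?_ h1
    intro ν hν
    change mdH p n (e + 1) ν = _
    rw [show mdH p n (e + 1) ν = _ from hν]
    have h2 := h c
    have h3 : ∑ i, β c i ≤ j1 := h2.trans (min_le_left _ _)
    have h4 : ∑ i, β c i ≤ j2 := h2.trans (min_le_right _ _)
    funext x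
    simp only [Pi.add_apply, Pi.smul_apply, Finset.sum_apply, smul_eq_mul]
    rw [← Finset.sum_mul]
    have h5 : ¬ (x = (c, Sum.inr false) ∧ x = (c, Sum.inr true)) := by
      rintro ⟨h6, h7⟩
      rw [h6] at h7
      simp at h7
    by_cases h6 : x = (c, Sum.inr false)
    · rw [if_pos h6, if_neg (fun h7 => h5 ⟨h6, h7⟩), if_pos h6, if_neg (fun h7 => h5 ⟨h6, h7⟩)]
      omega
    · rw [if_neg h6, if_neg h6]
      by_cases h7 : x = (c, Sum.inr true)
      · rw [if_pos h7, if_pos h7]
        omega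
      · rw [if_neg h7, if_neg h7]
        omega
  have h1 := prod_mem_rs (mdH p n (e + 1)) Finset.univ _ _ hc
  refine restrictSupport_mono ℂ ?_ h1
  intro ν hν
  change md ν = _
  rw [show md ν = _ from hν]
  funext x
  rw [Finset.sum_apply]
  obtain ⟨c, r | b⟩ := x
  · simp [ty0]
  · cases b <;> simp [ty0]

/-- The shift of the letters `i + 1` by multiples of the letter `0`. -/
noncomputable def r4_sh (τ : Fin (n + 1) → Fin e → ℂ) (z : Var p n (e + 1) → ℂ) :
    Var p n (e + 1) → ℂ :=
  fun x => z x + Fin.cases (motive := fun _ => ℂ) 0 (fun i => τ x.1 i) x.2.2 * z (x.1, x.2.1, 0)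

theorem r4_sh_zero (τ : Fin (n + 1) → Fin e → ℂ) (z : Var p n (e + 1) → ℂ) (c : Fin (n + 1))
    (r : Slot p) : r4_sh τ z (c, r, 0) = z (c, r, 0) := by
  simp [r4_sh]

theorem r4_sh_succ (τ : Fin (n + 1) → Fin e → ℂ) (z : Var p n (e + 1) → ℂ) (c : Fin (n + 1))
    (r : Slot p) (i : Fin e) :
    r4_sh τ z (c, r, i.succ) = z (c, r, i.succ) + τ c i * z (c, r, 0) := by
  simp [r4_sh]

theorem r4_sh_add (σ τ : Fin (n + 1) → Fin e → ℂ) (z : Var p n (e + 1) → ℂ) :
    r4_sh σ (r4_sh τ z) = r4_sh (fun c i => σ c i + τ c i) z := by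
  funext ⟨c, r, i⟩
  refine Fin.cases ?_ (fun i => ?_) i
  · rw [r4_sh_zero, r4_sh_zero, r4_sh_zero]
  · rw [r4_sh_succ, r4_sh_succ, r4_sh_succ, r4_sh_zero]
    ring

theorem r4_eval_aeval {σ τ : Type} (g : σ → MvPolynomial τ ℂ) (z : τ → ℂ)
    (G : MvPolynomial σ ℂ) : eval z (aeval g G) = eval (fun x => eval z (g x)) G := by
  induction G using MvPolynomial.induction_on with
  | C a => simp
  | add F G hF hG => rw [map_add, map_add, map_add, hF, hG]
  | mul_X F x hF => rw [map_mul, map_mul, map_mul, hF, aeval_X, eval_X]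

theorem r4_one (c : Fin (n + 1)) (i : Fin e) (t : ℂ) (z : Var p n (e + 1) → ℂ)
    (G : T p n (e + 1)) (hG : lin (tv c 0 i.succ t) G = G) :
    eval (r4_sh (fun c' i' => if (c', i') = (c, i) then t else 0) z) G = eval z G := by
  conv_rhs => rw [← hG]
  unfold lin
  rw [r4_eval_aeval]
  congr 2
  funext ⟨c', r, i'⟩
  rw [map_sum]
  simp only [map_mul, eval_C, eval_X, tv, add_mul, Finset.sum_add_distrib, ite_mul, one_mul,
    zero_mul, Finset.sum_ite_eq', Finset.mem_univ, if_true]
  have h1 : ∑ x : Fin (e + 1), (if c' = c ∧ x = 0 ∧ i' = i.succ then t * z (c', r, x) else 0) =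
      if c' = c ∧ i' = i.succ then t * z (c', r, 0) else 0 := by
    rw [Finset.sum_eq_single 0]
    · simp
    · intro x _ hx
      rw [if_neg]
      rintro ⟨_, h2, _⟩
      exact hx h2
    · intro h
      exact absurd (Finset.mem_univ _) h
  rw [h1]
  refine Fin.cases ?_ (fun i' => ?_) i'
  · rw [r4_sh_zero, if_neg (fun h => (Fin.succ_ne_zero i) h.2.symm), add_zero]
  · rw [r4_sh_succ]
    congr 1
    by_cases h : c' = c ∧ i' = i
    · rw [if_pos (by rw [h.1, h.2]), if_pos ⟨h.1, by rw [h.2]⟩]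
    · rw [if_neg (fun h2 => h ⟨congrArg Prod.fst h2, congrArg Prod.snd h2⟩), zero_mul,
        if_neg (fun h2 => h ⟨h2.1, Fin.succ_injective _ h2.2⟩)]

theorem r4_all {G : T p n (e + 1)}
    (hinv : ∀ (c : Fin (n + 1)) (i : Fin e) (τ : ℂ), lin (tv c 0 i.succ τ) G = G)
    (τ : Fin (n + 1) → Fin e → ℂ) (z : Var p n (e + 1) → ℂ) :
    eval (r4_sh τ z) G = eval z G := by
  classical
  have key : ∀ S : Finset (Fin (n + 1) × Fin e),
      eval (r4_sh (fun c i => if (c, i) ∈ S then τ c i else 0) z) G = eval z G := by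
    intro S
    induction S using Finset.induction_on with
    | empty =>
      congr 2
      funext ⟨c, r, i⟩
      refine Fin.cases ?_ (fun i => ?_) i
      · rw [r4_sh_zero]
      · rw [r4_sh_succ]
        simp
    | insert a S ha ih =>
      obtain ⟨c, i⟩ := a
      have h5 := r4_one c i (τ c i)
        (r4_sh (fun c i => if (c, i) ∈ S then τ c i else 0) z) G (hinv c i _)
      rw [r4_sh_add, ih] at h5
      refine Eq.trans (congrArg (fun τ' => eval (r4_sh τ' z) G) ?_) h5
      funext c' i'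
      by_cases h : (c', i') = (c, i)
      · rw [if_pos h, if_pos (by rw [h]; exact Finset.mem_insert_self _ _),
          if_neg (by rw [h]; exact ha), add_zero]
        obtain ⟨rfl, rfl⟩ := Prod.mk.inj h
        rfl
      · rw [if_neg h, zero_add]
        by_cases h2 : (c', i') ∈ S
        · rw [if_pos h2, if_pos (Finset.mem_insert_of_mem h2)]
        · rw [if_neg h2, if_neg]
          intro h3
          rcases Finset.mem_insert.1 h3 with h4 | h4
          · exact h h4
          · exact h2 h4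
  have h := key Finset.univ
  simpa using h

theorem r4_congr {j1 j2 : ℕ} {G : T p n (e + 1)} (hG : G ∈ Sk p n (e + 1) j1 j2)
    (z w : Var p n (e + 1) → ℂ) (h : ∀ c b i, z (c, Sum.inr b, i) = w (c, Sum.inr b, i)) :
    eval z G = eval w G := by
  rw [mem_Sk] at hG
  rw [eval_eq', eval_eq']
  refine Finset.sum_congr rfl fun μ hμ => ?_
  have h1 := hG μ (mem_support_iff.mp hμ)
  congr 1
  refine Finset.prod_congr rfl fun x _ => ?_
  obtain ⟨c, r | b, i⟩ := x
  · have h2 := congrFun h1 (c, Sum.inl r)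
    have h3 : μ (c, Sum.inl r, i) = 0 := by
      have h4 : μ (c, Sum.inl r, i) ≤ md μ (c, Sum.inl r) :=
        Finset.single_le_sum (f := fun i => μ (c, Sum.inl r, i)) (fun _ _ => Nat.zero_le _)
          (Finset.mem_univ i)
      rw [h2] at h4
      simpa [ty0] using h4
    rw [h3, pow_zero, pow_zero]
  · rw [h]

/-- The points `a = (1, u)`, `b = (1, 0)` or `a = (1, 0)`, `b = (1, u)`. -/
noncomputable def r4_v (b0 : Bool) (x : Var p n (e + 1)) : MvPolynomial (Fin (n + 1) × Fin e) ℂ :=
  match x with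
  | (_, Sum.inl _, _) => 0
  | (c, Sum.inr b, i) => Fin.cases (motive := fun _ => MvPolynomial (Fin (n + 1) × Fin e) ℂ) 1
      (fun i => if b = b0 then X (c, i) else 0) i

/-- `G` at these points. -/
noncomputable def r4_h (b0 : Bool) (G : T p n (e + 1)) : MvPolynomial (Fin (n + 1) × Fin e) ℂ :=
  aeval (r4_v b0) G

theorem r4_h_eval {j1 j2 : ℕ} {G : T p n (e + 1)} (hG : G ∈ Sk p n (e + 1) j1 j2)
    (hinv : ∀ (c : Fin (n + 1)) (i : Fin e) (τ : ℂ), lin (tv c 0 i.succ τ) G = G) (b0 : Bool)
    (z : Var p n (e + 1) → ℂ) (hz : ∀ c b, z (c, Sum.inr b, 0) = 1) :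
    eval z G = eval (fun x => z (x.1, Sum.inr b0, x.2.succ) - z (x.1, Sum.inr (!b0), x.2.succ))
      (r4_h b0 G) := by
  rw [r4_h, r4_eval_aeval, ← r4_all hinv (fun c i => -z (c, Sum.inr (!b0), i.succ)) z]
  refine r4_congr hG _ _ ?_
  intro c b i
  refine Fin.cases ?_ (fun i => ?_) i
  · rw [r4_sh_zero, hz]
    simp [r4_v]
  · rw [r4_sh_succ, hz]
    by_cases h : b = b0
    · subst h
      simp [r4_v, sub_eq_add_neg]
    · have h2 : b = !b0 := by
        cases b <;> cases b0 <;> simp_all
      rw [h2]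
      simp [r4_v]

theorem r4_pow {D : Fin (n + 1) → ℕ} {F : MvPolynomial (Fin (n + 1) × Fin e) ℂ}
    (h : F ∈ restrictSupport ℂ {β | ∀ c, ∑ i, β (c, i) ≤ D c}) (k : ℕ) :
    F ^ k ∈ restrictSupport ℂ {β | ∀ c, ∑ i, β (c, i) ≤ k * D c} := by
  induction k with
  | zero =>
    rw [pow_zero]
    refine one_mem_rs ?_
    intro c
    simp
  | succ k ih =>
    rw [pow_succ]
    refine mul_mem_rs ?_ ih h
    intro a ha b hb c
    have h1 := ha c
    have h2 := hb c
    simp only [Finsupp.add_apply, Finset.sum_add_distrib]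
    rw [Nat.succ_mul]
    exact Nat.add_le_add h1 h2

theorem r4_v_mem (b0 : Bool) (x : Var p n (e + 1)) :
    r4_v b0 x ∈ restrictSupport ℂ {β | ∀ c, ∑ i, β (c, i) ≤
      md (Finsupp.single x 1) (c, Sum.inr b0)} := by
  classical
  obtain ⟨c, r | b, i⟩ := x
  · exact Submodule.zero_mem _
  · have h1 : (1 : MvPolynomial (Fin (n + 1) × Fin e) ℂ) ∈ restrictSupport ℂ
        {β | ∀ c', ∑ i, β (c', i) ≤ md (Finsupp.single (c, (Sum.inr b : Slot p), i) 1)
          (c', Sum.inr b0)} := by
      refine one_mem_rs ?_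
      intro c'
      simp
    revert h1
    refine Fin.cases ?_ (fun i => ?_) i
    · intro h1
      exact h1
    · intro _
      change (if b = b0 then X (c, i) else 0) ∈ _
      split_ifs with h
      · rw [X, monomial_mem_restrictSupport]
        left
        intro c'
        rw [md_single]
        by_cases h2 : c' = c
        · subst h2
          rw [if_pos (by rw [h])]
          rw [Finset.sum_eq_single i]
          · simp
          · intro j _ hj
            rw [Finsupp.single_apply, if_neg]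
            intro h3
            exact hj (congrArg Prod.snd h3).symm
          · intro h3
            exact absurd (Finset.mem_univ _) h3
        · rw [Finset.sum_eq_zero]
          · exact Nat.zero_le _
          · intro j _
            rw [Finsupp.single_apply, if_neg]
            intro h3
            exact h2 (congrArg Prod.fst h3).symm
      · exact Submodule.zero_mem _

theorem r4_mono_mem (b0 : Bool) (μ : Var p n (e + 1) →₀ ℕ) (a : ℂ) :
    aeval (r4_v b0) (monomial μ a) ∈ restrictSupport ℂ {β | ∀ c, ∑ i, β (c, i) ≤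
      md μ (c, Sum.inr b0)} := by
  induction μ using Finsupp.induction_linear generalizing a with
  | zero =>
    change aeval (r4_v b0) (C a) ∈ _
    rw [← algebraMap_eq, AlgHom.commutes, Algebra.algebraMap_eq_smul_one]
    refine Submodule.smul_mem _ _ (one_mem_rs ?_)
    intro c
    simp
  | add μ ν hμ hν =>
    have h1 : (monomial (μ + ν) a : T p n (e + 1)) = monomial μ a * monomial ν 1 := by
      rw [monomial_mul, mul_one]
    rw [h1, map_mul]
    refine mul_mem_rs ?_ (hμ a) (hν 1)
    intro x hx y hy c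
    rw [md_add]
    simp only [Finsupp.add_apply, Finset.sum_add_distrib, Pi.add_apply]
    exact Nat.add_le_add (hx c) (hy c)
  | single x k =>
    have h1 : (monomial (Finsupp.single x k) a : T p n (e + 1)) = a • X x ^ k := by
      rw [X_pow_eq_monomial, smul_monomial, smul_eq_mul, mul_one]
    rw [h1, map_smul, map_pow, aeval_X]
    refine Submodule.smul_mem _ _ (restrictSupport_mono ℂ ?_ (r4_pow (r4_v_mem b0 x) k))
    intro β hβ c
    refine (hβ c).trans (le_of_eq ?_)
    rw [md_single, md_single]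
    split_ifs <;> simp

theorem r4_h_mem {j1 j2 : ℕ} {G : T p n (e + 1)} (hG : G ∈ Sk p n (e + 1) j1 j2) (b0 : Bool) :
    r4_h b0 G ∈ restrictSupport ℂ {β | ∀ c, ∑ i, β (c, i) ≤ if b0 then j2 else j1} := by
  have h1 : (aeval (r4_v b0) : T p n (e + 1) →ₐ[ℂ] _).toLinearMap G ∈
      restrictSupport ℂ {β : Fin (n + 1) × Fin e →₀ ℕ |
        ∀ c, ∑ i, β (c, i) ≤ if b0 then j2 else j1} := by
    refine map_mem_rs _ ?_ hG
    intro μ hμ a
    refine restrictSupport_mono ℂ ?_ (r4_mono_mem b0 μ a)
    intro β hβ c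
    refine (hβ c).trans (le_of_eq ?_)
    rw [show md μ = _ from hμ]
    cases b0 <;> simp [ty0]
  exact h1

theorem r4_neg {σ : Type} (μ : σ →₀ ℕ) (a : ℂ) :
    aeval (fun x => -X x : σ → MvPolynomial σ ℂ) (monomial μ a) =
      monomial μ (a * μ.prod fun _ k => (-1) ^ k) := by
  rw [aeval_monomial, monomial_eq (s := μ), map_mul, algebraMap_eq, mul_assoc]
  congr 1
  unfold Finsupp.prod
  rw [map_prod, ← Finset.prod_mul_distrib]
  refine Finset.prod_congr rfl fun x _ => ?_
  rw [map_pow, ← mul_pow]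
  simp

/-- Proof. For points with `a_0 = b_0 = 1` write `y_i = a_(i+1)`, `z_i = b_(i+1)`. The invariance gives
`G(y + τ, z + τ) = G(y, z)`, so (`τ = - y`) `G(y, z) = h (z - y)` with `h (u) = G(0, u)`, and (`τ = - z`)
`h (- u) = G (u, 0)`. So `h`, a polynomial in the variables `u (c, i)`, has degree at most `j2` and at most `j1`
in the variables `u (c, ·)` of each column: `h = ∑ β, h_β u^β` with `∑ i, β c i ≤ min j1 j2`. Put
`G' = ∑ β, h_β • Gb j1 j2 β`. At points with `a_0 = b_0 = 1` it has the value `h (z - y)`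
(`uu c i = a_0 b_(i+1) - a_(i+1) b_0`), so `G' = G` by `eq_of_deh`. (The variables of the slots `inl r` do
not occur in `G`.) -/
theorem inv_span {j1 j2 : ℕ} {G : T p n (e + 1)} (hG : G ∈ Sk p n (e + 1) j1 j2)
    (hinv : ∀ (c : Fin (n + 1)) (i : Fin e) (τ : ℂ), lin (tv c 0 i.succ τ) G = G) :
    G ∈ Submodule.span ℂ {F : T p n (e + 1) | ∃ β : Fin (n + 1) → Fin e → ℕ,
      (∀ c, ∑ i, β c i ≤ min j1 j2) ∧ F = Gb j1 j2 β} := by
  have hT := r4_h_eval hG hinv true
  have hF := r4_h_eval hG hinv false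
  -- the two polynomials
  have hneg : r4_h true G = aeval (fun x => -X x) (r4_h false G) := by
    apply MvPolynomial.funext
    intro u
    obtain ⟨z, hz⟩ : ∃ z : Var p n (e + 1) → ℂ, z = fun x => match x with
        | (_, Sum.inl _, _) => 0
        | (c, Sum.inr b, i) => Fin.cases (motive := fun _ => ℂ) 1
          (fun i => if b = true then u (c, i) else 0) i := ⟨_, rfl⟩
    have hz1 : ∀ c b, z (c, Sum.inr b, 0) = 1 := by
      intro c b
      rw [hz]
      simp
    have e1 := hT z hz1
    have e2 := hF z hz1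
    rw [r4_eval_aeval]
    have e3 : (fun x : Fin (n + 1) × Fin e => z (x.1, Sum.inr true, x.2.succ) -
        z (x.1, Sum.inr (!true), x.2.succ)) = u := by
      funext x
      rw [hz]
      simp
    have e4 : (fun x : Fin (n + 1) × Fin e => z (x.1, Sum.inr false, x.2.succ) -
        z (x.1, Sum.inr (!false), x.2.succ)) = fun x => eval u (-X x) := by
      funext x
      rw [hz]
      simp
    rw [e3] at e1
    rw [e4] at e2
    rw [← e1, e2]
  have hmT := mem_rs.1 (r4_h_mem hG true)
  have hmT2 : r4_h true G ∈ restrictSupport ℂ {β | ∀ c, ∑ i, β (c, i) ≤ j1} := by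
    rw [hneg]
    have h1 : (aeval (fun x => -X x) : MvPolynomial (Fin (n + 1) × Fin e) ℂ →ₐ[ℂ] _).toLinearMap
        (r4_h false G) ∈ restrictSupport ℂ {β : Fin (n + 1) × Fin e →₀ ℕ |
          ∀ c, ∑ i, β (c, i) ≤ j1} := by
      refine map_mem_rs _ ?_ (r4_h_mem hG false)
      intro μ hμ a
      change aeval (fun x => -X x) (monomial μ a) ∈ _
      rw [r4_neg, monomial_mem_restrictSupport]
      left
      intro c
      simpa using hμ c
    exact h1
  have hmT3 := mem_rs.1 hmT2
  have hβ : ∀ β ∈ (r4_h true G).support, ∀ c, ∑ i, β (c, i) ≤ min j1 j2 := by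
    intro β hβ c
    rw [mem_support_iff] at hβ
    refine le_min (hmT3 β hβ c) ?_
    have := hmT β hβ c
    simpa using this
  have hGeq : G = ∑ β ∈ (r4_h true G).support, coeff β (r4_h true G) •
      (Gb j1 j2 (fun c i => β (c, i)) : T p n (e + 1)) := by
    refine eq_of_deh hG (Submodule.sum_mem _ fun β hb => Submodule.smul_mem _ _
      (Gb_mem_Sk (hβ β hb))) ?_
    intro z hz
    rw [hT z hz, eval_eq', map_sum]
    refine Finset.sum_congr rfl fun β _ => ?_
    rw [smul_eval]
    congr 1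
    rw [Gb, map_prod, Fintype.prod_prod_type]
    refine Finset.prod_congr rfl fun c _ => ?_
    rw [map_mul, map_mul, map_pow, map_pow, eval_X, eval_X, hz, hz, one_pow, one_pow, one_mul,
      one_mul, map_prod]
    refine Finset.prod_congr rfl fun i _ => ?_
    rw [map_pow, uu, br]
    congr 1
    rw [map_sub, map_mul, map_mul, eval_X, eval_X, eval_X, eval_X, hz, hz, one_mul, mul_one]
    rfl
  rw [hGeq]
  refine Submodule.sum_mem _ fun β hb => Submodule.smul_mem _ _ (Submodule.subset_span ?_)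
  exact ⟨fun c i => β (c, i), hβ β hb, rfl⟩

end Pool.Agent.Helper65.MT
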