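import Pool.Agent.Helper65.MT.R4
import Pool.Agent.Helper65.MT.F1
import Pool.Agent.Helper65.MT.H2

/-!
Project MT, piece S1: reduction to invariant elements of `S ⊗ S`.
-/

namespace Pool.Agent.Helper65.MT

open MvPolynomial Helper77.DI

variable {p n e : ℕ}

/-- The elements of `Sk` are homogeneous. -/
theorem s1_homog {j1 j2 : ℕ} {F : T p n (e + 1)} (hF : F ∈ Sk p n (e + 1) j1 j2) :
    F.IsHomogeneous ((n + 1) * (j1 + j2)) := by
  intro μ hμ
  have h2 : md μ = ty0 j1 j2 := mem_Sk.mp hF μ hμ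
  have h3 : μ.degree = (n + 1) * (j1 + j2) := by
    rw [degree_eq_sum_md, h2, Fintype.sum_prod_type]
    simp [ty0, Fintype.sum_sum_type, add_comm]
  rw [← h3, Finsupp.degree_eq_weight_one]
  rfl

/-- The elements of `Sk` annihilated by `F` on the multiples in `N'`. -/
noncomputable def s1_G (F : T p n (e + 1)) (N' : Submodule ℂ (T p n (e + 1))) (j1 j2 : ℕ) :
    Submodule ℂ (T p n (e + 1)) where
  carrier := {G | G ∈ Sk p n (e + 1) j1 j2 ∧ ∀ H ∈ N', fis F (G * H) = 0}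
  zero_mem' := by
    refine ⟨Submodule.zero_mem _, fun H _ => ?_⟩
    rw [zero_mul, fis_zero_right]
  add_mem' := by
    intro G G' h h'
    refine ⟨Submodule.add_mem _ h.1 h'.1, fun H hH => ?_⟩
    rw [add_mul, fis_add_right, h.2 H hH, h'.2 H hH, add_zero]
  smul_mem' := by
    intro a G h
    refine ⟨Submodule.smul_mem _ a h.1, fun H hH => ?_⟩
    rw [smul_mul_assoc, fis_smul_right, h.2 H hH, mul_zero]

/-- The elements of `Sk` orthogonal to `V`. -/
noncomputable def s1_Q (V : Submodule ℂ (T p n (e + 1))) (j1 j2 : ℕ) :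
    Submodule ℂ (T p n (e + 1)) where
  carrier := {v | v ∈ Sk p n (e + 1) j1 j2 ∧ ∀ G ∈ V, fis v G = 0}
  zero_mem' := by
    refine ⟨Submodule.zero_mem _, fun G _ => ?_⟩
    rw [fis_zero_left]
  add_mem' := by
    intro v v' h h'
    refine ⟨Submodule.add_mem _ h.1 h'.1, fun G hG => ?_⟩
    rw [fis_add_left, h.2 G hG, h'.2 G hG, add_zero]
  smul_mem' := by
    intro a v h
    refine ⟨Submodule.smul_mem _ a h.1, fun G hG => ?_⟩
    rw [fis_smul_left, h.2 G hG, mul_zero]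

/-- Proof. Suppose that `fis F (Gb j1 j2 β * H') = 0` for all admissible `β` and all `H' ∈ N'`. Let
`𝒢` be the submodule of all `G ∈ Sk p n (e + 1) j1 j2` with `fis F (G * H) = 0` for all `H ∈ N'`
(`fis` is conjugate linear in the second argument, so this is a submodule). It is closed under
`g = lin (tv c i.succ 0 τ)`: with `g' = lin (tv c i.succ 0 (-τ))`, `g (g' H) = H` (`lin_tv_neg`),
`fis F (g G * H) = fis F (g (G * g' H)) = fis (lin (tv c 0 i.succ (conj τ)) F) (G * g' H)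
= fis F (G * g' H) = 0` (`fis_tv`, `hF`, `g' H ∈ N'`). By assumption there is an element of
`Sk p n (e + 1) j1 j2` outside `𝒢`, so by `exists_orth` (the elements of `Sk p n (e + 1) j1 j2` are homogeneous
of degree `(n + 1) * (j1 + j2)`) the submodule `Q` of
all `v ∈ Sk p n (e + 1) j1 j2` with `fis v G = 0` for all `G ∈ 𝒢` is nonzero. It is closed under
`lin (tv c 0 i.succ τ)` (`fis_tv`, and `𝒢` is closed under `lin (tv c i.succ 0 _)`; `lin_mem_Sk`). By `unip_fixed`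
with `P c i j := i = 0 ∧ j ≠ 0` there is a nonzero `v ∈ Q` fixed by all `lin (tv c 0 i.succ τ)`. By `inv_span` it is
a linear combination of the `Gb j1 j2 β`, which lie in `𝒢` by assumption (`Gb_mem_Sk`). So `fis v v = 0`,
contradiction. -/
theorem exists_Gb {F : T p n (e + 1)}
    (hF : ∀ (c : Fin (n + 1)) (i : Fin e) (τ : ℂ), lin (tv c 0 i.succ τ) F = F)
    (N' : Submodule ℂ (T p n (e + 1)))
    (hN' : ∀ A : Fin (n + 1) → Fin (e + 1) → Fin (e + 1) → ℂ, ∀ H ∈ N', lin A H ∈ N')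
    {j1 j2 : ℕ} {G H : T p n (e + 1)} (hG : G ∈ Sk p n (e + 1) j1 j2) (hH : H ∈ N')
    (hne : fis F (G * H) ≠ 0) :
    ∃ β : Fin (n + 1) → Fin e → ℕ, (∀ c, ∑ i, β c i ≤ min j1 j2) ∧
      ∃ H' ∈ N', fis F (Gb j1 j2 β * H') ≠ 0 := by
  by_contra hcon
  push Not at hcon
  have hlin : ∀ (c : Fin (n + 1)) (i : Fin e) (τ : ℂ), ∀ G' ∈ s1_G F N' j1 j2,
      lin (tv c i.succ 0 τ) G' ∈ s1_G F N' j1 j2 := by
    intro c i τ G' hG'
    refine ⟨lin_mem_Sk _ hG'.1, fun H' hH' => ?_⟩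
    have h1 := lin_tv_neg c (Fin.succ_ne_zero i) τ H'
    have h2 := fis_tv c 0 i.succ ((starRingEnd ℂ) τ) F (G' * lin (tv c i.succ 0 (-τ)) H')
    rw [Complex.conj_conj, hF, map_mul, h1] at h2
    rw [← h2]
    exact hG'.2 _ (hN' _ H' hH')
  have hle : s1_G F N' j1 j2 ≤ Sk p n (e + 1) j1 j2 := fun G' hG' => hG'.1
  obtain ⟨g, hg, hg0, hgV⟩ := exists_orth (s1_G F N' j1 j2) (Sk p n (e + 1) j1 j2) hle
    ((n + 1) * (j1 + j2)) (fun f hf => s1_homog hf) (fun h => hne ((h hG).2 H hH))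
  have hQ0 : s1_Q (s1_G F N' j1 j2) j1 j2 ≠ ⊥ := by
    intro h
    have h1 : g ∈ s1_Q (s1_G F N' j1 j2) j1 j2 := ⟨hg, hgV⟩
    rw [h, Submodule.mem_bot] at h1
    exact hg0 h1
  obtain ⟨v, hv, hv0, hvfix⟩ := unip_fixed (fun _ i j => i = 0 ∧ j ≠ 0) (by
      rintro c i j ⟨rfl, hj⟩
      exact Fin.pos_of_ne_zero hj) (s1_Q (s1_G F N' j1 j2) j1 j2) (by
      rintro c i j ⟨rfl, hj⟩ τ v hv
      obtain ⟨i', rfl⟩ := Fin.exists_succ_eq.mpr hj
      refine ⟨lin_mem_Sk _ hv.1, fun G' hG' => ?_⟩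
      rw [fis_tv]
      exact hv.2 _ (hlin c i' _ G' hG')) hQ0
  have h1 := inv_span hv.1 fun c i τ => hvfix c 0 i.succ ⟨rfl, Fin.succ_ne_zero i⟩ τ
  have h2 : v ∈ s1_G F N' j1 j2 := by
    refine (Submodule.span_le.mpr ?_) h1
    rintro _ ⟨β, hβ, rfl⟩
    exact ⟨Gb_mem_Sk hβ, fun H' hH' => hcon β hβ H' hH'⟩
  exact fis_self_ne hv0 (hv.2 v h2)

end Pool.Agent.Helper65.MT
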