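import Pool.Agent.Helper65.MT.S1
import Pool.Agent.Helper65.MT.R3
import Pool.Agent.Helper65.MT.L2

/-!
Project MT, piece S2: new elements occur only in weights with at most two big columns.
-/

namespace Pool.Agent.Helper65.MT

open MvPolynomial Helper77.DI

variable {p e : ℕ}

section Aux

variable {n : ℕ}

/-- The weights of the letters different from `0`, as a homomorphism. -/
noncomputable def s2_w (p n e : ℕ) : (Var p n (e + 1) →₀ ℕ) →+ (Fin (n + 1) → Fin e → ℕ) where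
  toFun ν := fun c i => wt ν c i.succ
  map_zero' := by
    funext c i
    have h := congrFun (congrFun (wtH p n (e + 1)).map_zero c) i.succ
    simpa using h
  map_add' μ ν := by
    funext c i
    rw [wt_add]
    rfl

theorem s2_w_single (x : Var p n (e + 1)) (c : Fin (n + 1)) (i : Fin e) :
    s2_w p n e (Finsupp.single x 1) c i = if c = x.1 ∧ i.succ = x.2.2 then 1 else 0 :=
  wt_single x 1 c i.succ

theorem s2_X0 (c : Fin (n + 1)) (r : Slot p) :
    (X (c, r, 0) : T p n (e + 1)) ∈ restrictSupport ℂ {ν | s2_w p n e ν = 0} := by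
  have h := X_mem_rs (s2_w p n e) (c, r, (0 : Fin (e + 1)))
  have h1 : s2_w p n e (Finsupp.single (c, r, (0 : Fin (e + 1))) 1) = 0 := by
    funext c' i
    rw [s2_w_single, if_neg fun h => Fin.succ_ne_zero i h.2]
    rfl
  rw [h1] at h
  exact h

/-- One letter. -/
noncomputable def s2_d (c : Fin (n + 1)) (i : Fin e) : Fin (n + 1) → Fin e → ℕ :=
  fun c' i' => if c' = c ∧ i' = i then 1 else 0

theorem s2_X1 (c : Fin (n + 1)) (r : Slot p) (i : Fin e) :
    (X (c, r, i.succ) : T p n (e + 1)) ∈ restrictSupport ℂ {ν | s2_w p n e ν = s2_d c i} := by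
  have h := X_mem_rs (s2_w p n e) (c, r, i.succ)
  have h1 : s2_w p n e (Finsupp.single (c, r, i.succ) 1) = s2_d c i := by
    funext c' i'
    rw [s2_w_single]
    unfold s2_d
    simp only [Fin.succ_inj]
  rw [h1] at h
  exact h

theorem s2_mul {a b : Fin (n + 1) → Fin e → ℕ} {F G : T p n (e + 1)}
    (hF : F ∈ restrictSupport ℂ {ν | s2_w p n e ν = a})
    (hG : G ∈ restrictSupport ℂ {ν | s2_w p n e ν = b}) :
    F * G ∈ restrictSupport ℂ {ν | s2_w p n e ν = a + b} := by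
  refine mul_mem_rs (fun x hx y hy => ?_) hF hG
  change s2_w p n e (x + y) = a + b
  rw [map_add, hx, hy]

theorem s2_uu (c : Fin (n + 1)) (i : Fin e) :
    (uu c i : T p n (e + 1)) ∈ restrictSupport ℂ {ν | s2_w p n e ν = s2_d c i} := by
  unfold uu br
  refine Submodule.sub_mem _ ?_ ?_
  · have h := s2_mul (s2_X0 (p := p) c (Sum.inr false)) (s2_X1 c (Sum.inr true) i)
    rw [zero_add] at h
    exact h
  · have h := s2_mul (s2_X1 (p := p) c (Sum.inr false) i) (s2_X0 c (Sum.inr true))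
    rw [add_zero] at h
    exact h

theorem s2_Gb (j1 j2 : ℕ) (β : Fin (n + 1) → Fin e → ℕ) :
    (Gb j1 j2 β : T p n (e + 1)) ∈ restrictSupport ℂ {ν | s2_w p n e ν = β} := by
  have h : (Gb j1 j2 β : T p n (e + 1)) ∈ restrictSupport ℂ {ν | s2_w p n e ν =
      ∑ c, ∑ i, β c i • s2_d c i} := by
    unfold Gb
    refine prod_mem_rs (s2_w p n e) Finset.univ _ (fun c => ∑ i, β c i • s2_d c i) fun c _ => ?_
    have h1 := pow_mem_rs (s2_w p n e) _ _ (s2_X0 (p := p) (e := e) c (Sum.inr false))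
      (j1 - ∑ i, β c i)
    have h2 := pow_mem_rs (s2_w p n e) _ _ (s2_X0 (p := p) (e := e) c (Sum.inr true))
      (j2 - ∑ i, β c i)
    have h3 := prod_mem_rs (s2_w p n e) Finset.univ (fun i => (uu c i : T p n (e + 1)) ^ β c i)
      (fun i => β c i • s2_d c i) fun i _ => pow_mem_rs (s2_w p n e) _ _ (s2_uu c i) (β c i)
    have h4 := s2_mul (s2_mul h1 h2) h3
    simpa using h4
  have h5 : ∑ c, ∑ i, β c i • s2_d c i = β := by
    funext c i
    rw [Finset.sum_apply, Finset.sum_apply, Finset.sum_eq_single c]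
    · rw [Finset.sum_apply, Finset.sum_apply, Finset.sum_eq_single i]
      · simp [s2_d]
      · intro i' _ hi
        simp [s2_d, hi.symm]
      · intro h
        exact absurd (Finset.mem_univ _) h
    · intro c' _ hc
      rw [Finset.sum_apply, Finset.sum_apply]
      refine Finset.sum_eq_zero fun i' _ => ?_
      simp [s2_d, hc.symm]
    · intro h
      exact absurd (Finset.mem_univ _) h
  rw [h5] at h
  exact h

/-- The elements of `W` orthogonal to `V`. -/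
noncomputable def s2_Q (W V : Submodule ℂ (T p n (e + 1))) :
    Submodule ℂ (T p n (e + 1)) where
  carrier := {v | v ∈ W ∧ ∀ G ∈ V, fis v G = 0}
  zero_mem' := by
    refine ⟨Submodule.zero_mem _, fun G _ => ?_⟩
    rw [fis_zero_left]
  add_mem' := by
    intro v v' h h'
    refine ⟨Submodule.add_mem _ h.1 h'.1, fun G hG => ?_⟩
    rw [fis_add_left, h.2 G hG, h'.2 G hG, add_zero]
  smul_mem' := by
    intro a v h
    refine ⟨Submodule.smul_mem _ a h.1, fun G hG => ?_⟩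
    rw [fis_smul_left, h.2 G hG, mul_zero]

theorem s2_gen {N : ∀ n k : ℕ, Submodule ℂ (T p n (e + 1))} {κ k : ℕ} {F F' : T p n (e + 1)}
    (hF : F' ∈ sgen N κ n k)
    (h0 : ∀ k' ≤ κ, ∀ j1 j2, j1 + j2 + k' = k → ∀ G ∈ Sk p n (e + 1) j1 j2, ∀ H ∈ N n k',
      fis F (G * H) = 0) : fis F F' = 0 := by
  unfold sgen at hF
  induction hF using Submodule.span_induction with
  | mem x hx =>
    obtain ⟨k', hk', j1, j2, hj, G, hG, H, hH, rfl⟩ := hx
    exact h0 k' hk' j1 j2 hj G hG H hH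
  | zero => exact fis_zero_right _
  | add x y _ _ hx hy => rw [fis_add_right, hx, hy, add_zero]
  | smul a x _ hx => rw [fis_smul_right, hx, mul_zero]

/-- The weights of `F`. -/
theorem s2_bound {F H' : T p n (e + 1)} {lam : Fin (n + 1) → Fin (e + 1) → ℕ}
    (hlam : ∀ μ, coeff μ F ≠ 0 → wt μ = lam) {j1 j2 k' : ℕ} {β : Fin (n + 1) → Fin e → ℕ}
    (hH : H' ∈ Mk p n (e + 1) k') (hne : fis F (Gb j1 j2 β * H') ≠ 0) (c : Fin (n + 1)) :
    ∑ i : Fin e, lam c i.succ ≤ ∑ i, β c i + (p + k') := by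
  have h1 : H' ∈ restrictSupport ℂ {μ | ∀ c, ∑ i : Fin e, wt μ c i.succ ≤ p + k'} := by
    refine mem_rs.mpr fun μ hμ => ?_
    obtain ⟨k1, k2, hk, hmd⟩ := mem_Mk.mp hH μ hμ
    intro c
    have h2 := sum_wt_of_ty hmd c
    rw [Fin.sum_univ_succ] at h2
    omega
  have h2 : Gb j1 j2 β * H' ∈ restrictSupport ℂ
      {μ | ∀ c, ∑ i : Fin e, wt μ c i.succ ≤ ∑ i, β c i + (p + k')} := by
    refine mul_mem_rs (fun a ha b hb => ?_) (s2_Gb j1 j2 β) h1
    intro c
    have h3 : ∀ i : Fin e, wt a c i.succ = β c i := fun i => congrFun (congrFun ha c) i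
    rw [wt_add]
    simp only [Pi.add_apply]
    rw [Finset.sum_add_distrib, Finset.sum_congr rfl fun i _ => h3 i]
    exact Nat.add_le_add_left (hb c) _
  by_contra hcon
  refine hne (fis_eq_zero_of_disjoint _ _ fun μ hμ => ?_)
  by_contra h3
  have h4 := mem_rs.mp h2 μ h3 c
  rw [hlam μ hμ] at h4
  exact hcon h4

end Aux

/-- Proof. Let `κ` be the number of `gen0` for `N.N` and `K = p + κ`. Let `K ≤ k` and
`V = Wn p n (e + 1) * N.N n k ≤ N.N n (k + 1)` (`Wn_mul_le`), a proper submodule. Let `Q` be the submodule of all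
`F ∈ N.N n (k + 1)` with `fis F G = 0` for all `G ∈ V`. It is nonzero (`exists_orth`, `homog_of_mem_Mk`) and
closed under all `lin A` (`fis_lin`, `lin_mem_Wn_mul`). By `exists_hw` it contains a nonzero weight vector `F`
fixed by all `lin (tv c i j τ)`, `i < j`, of weight `lam'`; put `lam c i = lam' c i.succ`. `F ∉ V`, since
otherwise `fis F F = 0`. By `gen0` `F` is a linear combination of products `G * H`,
`G ∈ Sk p n (e + 1) j1 j2`, `H ∈ N.N n k'`, `k' ≤ κ`, `j1 + j2 + k' = k + 1`; as `fis F F ≠ 0`, one of them has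
`fis F (G * H) ≠ 0`. By `exists_Gb` there are `β` and `H' ∈ N.N n k'` with `fis F (Gb j1 j2 β * H') ≠ 0`,
`b c = ∑ i, β c i ≤ min j1 j2`.
So some exponent of `F` is a sum of an exponent of `Gb j1 j2 β` and an exponent `μ'` of `H'`
(`fis_eq_zero_of_disjoint`); all exponents `ν` of `Gb j1 j2 β` have `wt ν c i.succ = β c i`, and
`∑ i, wt μ' c i = p + k'` (`sum_wt_of_ty`). So `∑ i, lam c i ≤ b c + K` for all `c`. In particular
`2 * ∑ i, lam c i ≤ 2 * min j1 j2 + 2 * K ≤ k + 1 + 2 * K`. Suppose that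
`∑ c, (∑ i, lam c i - K) ≥ k + 1` (truncated subtraction). Then `∑ c, b c ≥ k + 1 ≥ j1 + j2`, and by `ring_sym`
`Gb j1 j2 β + swp (Gb j1 j2 β) ∈ Wn ^ (j1 + j2)`, where `j1 + j2 = k + 1 - k' ≥ 1`. So
`(Gb j1 j2 β + swp (Gb j1 j2 β)) * H' ∈ V` (`Wn_pow_succ_mul_le`), and
`0 = fis F ((Gb j1 j2 β + swp (Gb j1 j2 β)) * H') = fis F (Gb j1 j2 β * H') + fis F (swp (Gb j1 j2 β * H'))
= 2 * fis F (Gb j1 j2 β * H')`, as `swp H' = H'`, `swp F = F` (`N.sym`, `fis_swp`), contradiction. -/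
theorem few_big (N : SFam p e) : ∃ K, ∀ n k, K ≤ k →
    ¬ (N.N n (k + 1) ≤ Wn p n (e + 1) * N.N n k) →
    ∃ F ∈ N.N n (k + 1), F ∉ Wn p n (e + 1) * N.N n k ∧ ∃ lam : Fin (n + 1) → Fin e → ℕ,
      (∀ μ, coeff μ F ≠ 0 → ∀ c i, wt μ c i.succ = lam c i) ∧
      (∀ c, 2 * ∑ i, lam c i ≤ k + 1 + 2 * K) ∧ ∑ c, (∑ i, lam c i - K) < k + 1 := by
  obtain ⟨κ, hκ⟩ := gen0 N.N N.le fun n n' k s π hs F hF =>
    N.col n n' k s (fun c => ⟨π c, hs.inv c⟩) F hF
  refine ⟨p + κ, fun n k hk hne => ?_⟩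
  have hV : Wn p n (e + 1) * N.N n k ≤ N.N n (k + 1) := Wn_mul_le N.toFam n k
  obtain ⟨g, hg, hg0, hgV⟩ := exists_orth (Wn p n (e + 1) * N.N n k) (N.N n (k + 1)) hV
    ((n + 1) * (p + (k + 1))) (fun f hf => homog_of_mem_Mk (N.le n (k + 1) hf)) hne
  have hQ0 : s2_Q (N.N n (k + 1)) (Wn p n (e + 1) * N.N n k) ≠ ⊥ := by
    intro h
    have h1 : g ∈ s2_Q (N.N n (k + 1)) (Wn p n (e + 1) * N.N n k) := ⟨hg, hgV⟩
    rw [h] at h1
    exact hg0 ((Submodule.mem_bot ℂ).mp h1)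
  have hQl : ∀ A : Fin (n + 1) → Fin (e + 1) → Fin (e + 1) → ℂ,
      ∀ F ∈ s2_Q (N.N n (k + 1)) (Wn p n (e + 1) * N.N n k),
      lin A F ∈ s2_Q (N.N n (k + 1)) (Wn p n (e + 1) * N.N n k) := by
    intro A F hF
    refine ⟨N.lin n (k + 1) A F hF.1, fun G hG => ?_⟩
    rw [fis_lin]
    exact hF.2 _ (lin_mem_Wn_mul (N.N n k) (N.N n k) _ (fun H hH => N.lin n k _ H hH) hG)
  obtain ⟨F, hFQ, hF0, ⟨lam, hlam⟩, hfix⟩ := exists_hw _ hQl hQ0
  have hFV : F ∉ Wn p n (e + 1) * N.N n k := fun h => fis_self_ne hF0 (hFQ.2 F h)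
  have hgen : ∃ k' ≤ κ, ∃ j1 j2, j1 + j2 + k' = k + 1 ∧ ∃ G ∈ Sk p n (e + 1) j1 j2,
      ∃ H ∈ N.N n k', fis F (G * H) ≠ 0 := by
    by_contra hcon
    refine fis_self_ne hF0 (s2_gen (hκ n (k + 1) hFQ.1) fun k' hk' j1 j2 hj G hG H hH => ?_)
    by_contra h
    exact hcon ⟨k', hk', j1, j2, hj, G, hG, H, hH, h⟩
  obtain ⟨k', hk', j1, j2, hj, G, hG, H, hH, hGH⟩ := hgen
  obtain ⟨β, hβ, H', hH', hne'⟩ := exists_Gb
    (fun c i τ => hfix c 0 i.succ (Fin.succ_pos i) τ) (N.N n k')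
    (fun A H hH => N.lin n k' A H hH) hG hH hGH
  have hb : ∀ c, ∑ i : Fin e, lam c i.succ ≤ ∑ i, β c i + (p + k') :=
    fun c => s2_bound hlam (N.le n k' hH') hne' c
  refine ⟨F, hFQ.1, hFV, fun c i => lam c i.succ, fun μ hμ c i => by rw [hlam μ hμ],
    fun c => ?_, ?_⟩
  · change 2 * ∑ i : Fin e, lam c i.succ ≤ k + 1 + 2 * (p + κ)
    have h1 := hb c
    have h2 := hβ c
    have h3 : 2 * min j1 j2 ≤ j1 + j2 := by omega
    omega
  · by_contra hcon
    have h1 : k + 1 ≤ ∑ c, ∑ i, β c i := by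
      refine (not_lt.mp hcon).trans (Finset.sum_le_sum fun c _ => ?_)
      change (∑ i : Fin e, lam c i.succ) - (p + κ) ≤ ∑ i, β c i
      have h2 := hb c
      omega
    have h2 : (Gb j1 j2 β + swp (Gb j1 j2 β) : T p n (e + 1)) ∈ Wn p n (e + 1) ^ (j1 + j2) :=
      ring_sym j1 j2 β hβ (by omega)
    obtain ⟨ρ, hρ⟩ : ∃ ρ, j1 + j2 = ρ + 1 := ⟨j1 + j2 - 1, by omega⟩
    rw [hρ] at h2
    have h3 : (Gb j1 j2 β + swp (Gb j1 j2 β)) * H' ∈ Wn p n (e + 1) * N.N n k := by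
      have h4 := Wn_pow_succ_mul_le N.toFam n k' ρ (Submodule.mul_mem_mul h2 hH')
      have h5 : k' + ρ = k := by omega
      rw [h5] at h4
      exact h4
    have h4 := hFQ.2 _ h3
    have h5 : swp (Gb j1 j2 β) * H' = swp (Gb j1 j2 β * H') := by
      rw [map_mul, N.sym n k' H' hH']
    rw [add_mul, fis_add_right, h5, ← fis_swp, N.sym n (k + 1) F hFQ.1, ← two_mul] at h4
    exact hne' ((mul_eq_zero.mp h4).resolve_left two_ne_zero)

end Pool.Agent.Helper65.MT
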