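import Mathlib

/-!
Project MT, piece W1: Maclagan's theorem for upper sets of `ℕ^ι`.
-/

namespace Pool.Agent.Helper65.MT

/-- Maclagan's theorem for `Fin d` -/
private theorem w1_fin (d : ℕ) : ∀ U : ℕ → Set (Fin d → ℕ), (∀ j, IsUpperSet (U j)) →
    ∃ i j, i < j ∧ U j ⊆ U i := by
  induction d with
  | zero =>
    intro U _
    by_cases h : (U 0).Nonempty
    · refine ⟨0, 1, zero_lt_one, ?_⟩
      intro x _
      obtain ⟨y, hy⟩ := h
      rwa [Subsingleton.elim x y]
    · by_cases h1 : (U 1).Nonempty
      · refine ⟨1, 2, by norm_num, ?_⟩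
        intro x _
        obtain ⟨y, hy⟩ := h1
        rwa [Subsingleton.elim x y]
      · exact ⟨0, 1, zero_lt_one, fun x hx => absurd ⟨x, hx⟩ h1⟩
  | succ d ih =>
    intro U hU
    by_contra hbad
    have hbad' : ∀ i j, i < j → ¬ U j ⊆ U i := fun i j hij hsub => hbad ⟨i, j, hij, hsub⟩
    set sl : Set (Fin (d + 1) → ℕ) → ℕ → Set (Fin d → ℕ) :=
      fun A t => {x | (Fin.cons t x : Fin (d + 1) → ℕ) ∈ A} with hsl
    have mem_sl : ∀ A t x, x ∈ sl A t ↔ (Fin.cons t x : Fin (d + 1) → ℕ) ∈ A :=
      fun A t x => Iff.rfl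
    have cons_le : ∀ (t t' : ℕ) (x x' : Fin d → ℕ), t ≤ t' → x ≤ x' →
        (Fin.cons t x : Fin (d + 1) → ℕ) ≤ Fin.cons t' x' := by
      intro t t' x x' ht hx i
      refine Fin.cases ?_ (fun k => ?_) i
      · simpa using ht
      · simpa using hx k
    have sl_up : ∀ j t, IsUpperSet (sl (U j) t) := by
      intro j t x y hxy hx
      exact hU j (cons_le t t x y le_rfl hxy) hx
    have sl_mono : ∀ j t t', t ≤ t' → sl (U j) t ⊆ sl (U j) t' := by
      intro j t t' htt x hx
      exact hU j (cons_le t t' x x htt le_rfl) hx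
    have stab : ∀ j, ∃ T, ∀ t, T ≤ t → sl (U j) t ⊆ sl (U j) T := by
      intro j
      by_contra hcon
      push Not at hcon
      choose F hF1 hF2 using hcon
      set s : ℕ → ℕ := fun k => F^[k] 0 with hs
      have hsucc : ∀ k, s (k + 1) = F (s k) := fun k => Function.iterate_succ_apply' F k 0
      have hsmono : Monotone s := monotone_nat_of_le_succ fun k => by
        rw [hsucc]; exact hF1 _
      obtain ⟨a, b, hab, hsub⟩ := ih (fun k => sl (U j) (s k)) (fun k => sl_up j _)
      apply hF2 (s a)
      rw [← hsucc]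
      exact (sl_mono j _ _ (hsmono hab)).trans hsub
    choose T hT using stab
    obtain ⟨g, hg⟩ := exists_increasing_or_nonincreasing_subseq
      (fun A B : Set (Fin d → ℕ) => B ⊆ A) (fun j => sl (U j) (T j))
    have hg1 : ∀ m n, m < n → sl (U (g n)) (T (g n)) ⊆ sl (U (g m)) (T (g m)) := by
      rcases hg with hg | hg
      · exact hg
      · exfalso
        obtain ⟨a, b, hab, hsub⟩ := ih (fun k => sl (U (g k)) (T (g k))) (fun k => sl_up _ _)
        exact hg a b hab hsub
    have key : ∀ i j, i < j → ∃ t < T (g i), ¬ sl (U (g j)) t ⊆ sl (U (g i)) t := by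
      intro i j hij
      have h1 := hbad' (g i) (g j) (g.strictMono hij)
      rw [Set.not_subset] at h1
      obtain ⟨x, hx1, hx2⟩ := h1
      have hx : x = Fin.cons (x 0) (Fin.tail x) := (Fin.cons_self_tail x).symm
      have h2 : ¬ sl (U (g j)) (x 0) ⊆ sl (U (g i)) (x 0) := by
        intro hsub
        apply hx2
        rw [hx]
        apply hsub
        rw [mem_sl, ← hx]
        exact hx1
      refine ⟨x 0, ?_, h2⟩
      by_contra hge
      push Not at hge
      apply h2
      have h3 : sl (U (g j)) (x 0) ⊆ sl (U (g j)) (T (g j)) := by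
        by_cases h4 : T (g j) ≤ x 0
        · exact hT (g j) _ h4
        · exact sl_mono _ _ _ (by omega)
      exact h3.trans ((hg1 i j hij).trans (sl_mono _ _ _ hge))
    have key2 : ∀ i, ∃ t, ∀ᶠ j in (Filter.hyperfilter ℕ : Filter ℕ),
        i < j ∧ ¬ sl (U (g j)) t ⊆ sl (U (g i)) t := by
      intro i
      have h1 : ∀ᶠ j in (Filter.hyperfilter ℕ : Filter ℕ), i < j := by
        have h2 : {j : ℕ | i < j}ᶜ.Finite := by
          apply (Set.finite_Iic i).subset
          intro j hj
          simpa using hj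
        exact Filter.mem_hyperfilter_of_finite_compl h2
      have h2 : ∀ᶠ j in (Filter.hyperfilter ℕ : Filter ℕ), ∃ t ∈ Set.Iio (T (g i)),
          i < j ∧ ¬ sl (U (g j)) t ⊆ sl (U (g i)) t := by
        filter_upwards [h1] with j hj
        obtain ⟨t, ht, h3⟩ := key i j hj
        exact ⟨t, ht, hj, h3⟩
      rw [Ultrafilter.eventually_exists_mem_iff (Set.finite_Iio _)] at h2
      obtain ⟨t, -, ht⟩ := h2
      exact ⟨t, ht⟩
    choose t ht using key2
    obtain ⟨f, -, hf⟩ := exists_seq_of_forall_finset_exists (fun _ : ℕ => True)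
      (fun i j => i < j ∧ ¬ sl (U (g j)) (t i) ⊆ sl (U (g i)) (t i)) (by
        intro s _
        have h1 : ∀ᶠ j in (Filter.hyperfilter ℕ : Filter ℕ), ∀ i ∈ s,
            i < j ∧ ¬ sl (U (g j)) (t i) ⊆ sl (U (g i)) (t i) := by
          rw [Filter.eventually_all_finset]
          exact fun i _ => ht i
        obtain ⟨j, hj⟩ := h1.exists
        exact ⟨j, trivial, hj⟩)
    obtain ⟨g2, hg2⟩ := exists_increasing_or_nonincreasing_subseq
      (fun a b : ℕ => a ≤ b) (fun n => t (f n))
    have hg3 : ∀ m n, m < n → t (f (g2 m)) ≤ t (f (g2 n)) := by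
      rcases hg2 with hg2 | hg2
      · exact hg2
      · exfalso
        have h1 : StrictAnti (fun n => t (f (g2 n))) := fun m n hmn => by
          have := hg2 m n hmn
          simpa using this
        have h2 : ∀ n, t (f (g2 n)) + n ≤ t (f (g2 0)) := by
          intro n
          induction n with
          | zero => simp
          | succ n ihn =>
            have h3 : t (f (g2 (n + 1))) < t (f (g2 n)) := h1 (Nat.lt_succ_self n)
            omega
        have h4 := h2 (t (f (g2 0)) + 1)
        omega
    obtain ⟨a, b, hab, hsub⟩ := ih (fun n => sl (U (g (f (g2 n)))) (t (f (g2 n))))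
      (fun k => sl_up _ _)
    have h5 := (hf (g2 a) (g2 b) (g2.strictMono hab)).2
    exact h5 ((sl_mono _ _ _ (hg3 a b hab)).trans hsub)

/-- (Maclagan.) Proof. It is enough to treat `ι = Fin d`, by induction on `d` (or use
`Finite.induction_empty_option`). For `d = 0` there are only two upper sets, so two members of the
sequence agree. Step from `d` to `d + 1`: write an upper set `U` of `ℕ^(d+1)` as the increasing
sequence of its slices `U(t) = {x | (t, x) ∈ U}`, `t ∈ ℕ`, upper sets of `ℕ^d`. By Dickson (`ℕ^d` is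
well quasi-ordered, so there is no strictly increasing sequence of upper sets of `ℕ^d`) the slices
stabilise, `U(t) = U(∞)` for `t ≥ T(U)`. Suppose that the sequence `U_j` is bad: `U_j ⊄ U_i` for all
`i < j`. The upper sets of `ℕ^d` are well quasi-ordered by reverse inclusion by the induction
hypothesis, so after passing to a subsequence `U_j(∞) ⊆ U_i(∞)` for all `i < j`. For `i < j` choose
`t(i, j)` with `U_j(t) ⊄ U_i(t)`, `t = t(i, j)`. Then `t(i, j) < T(U_i)`, because for `t ≥ T(U_i)` we
have `U_j(t) ⊆ U_j(∞) ⊆ U_i(∞) = U_i(t)`. So for fixed `i` the numbers `t(i, j)` take only finitely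
many values; by the pigeonhole principle (and a diagonal argument) we may pass to a subsequence such
that `t(i, j) = t_i` only depends on `i`, and then to a subsequence such that `t_i ≤ t_j` for
`i < j`. Put `W_i = U_i(t_i)`. For `i < j` we have `U_j(t_i) ⊄ U_i(t_i) = W_i` and
`U_j(t_i) ⊆ U_j(t_j) = W_j`, so `W_j ⊄ W_i`: a bad sequence of upper sets of `ℕ^d`, contradiction.

(The diagonal argument: construct recursively a decreasing sequence of infinite sets
`A_0 ⊇ A_1 ⊇ …`, elements `i_k ∈ A_k` and values `t_k` with `t(i_k, j) = t_k` for all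
`j ∈ A_(k+1)`, `i_k < min A_(k+1)`. Alternatively use Ramsey's theorem for pairs in the form
`exists_increasing_or_nonincreasing_subseq` on suitable relations, or an ultrafilter on `ℕ`: let `𝓤`
be a nonprincipal ultrafilter (`Filter.hyperfilter ℕ`); for each `i` the finitely many values
`t(i, j)`, `j > i`, are constant, `= t_i`, for `𝓤`-almost all `j`; then choose
`i_0 < i_1 < …` with `t(i_a, i_b) = t_(i_a)` for `a < b`, which is possible since finitely many
conditions that hold for almost all `j` hold simultaneously for some large `j`.) -/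
theorem maclagan {ι : Type} [Finite ι] (U : ℕ → Set (ι → ℕ)) (hU : ∀ j, IsUpperSet (U j)) :
    ∃ i j, i < j ∧ U j ⊆ U i := by
  obtain ⟨d, ⟨e⟩⟩ := Finite.exists_equiv_fin ι
  obtain ⟨i, j, hij, hsub⟩ := w1_fin d (fun j => {x | (fun k => x (e k)) ∈ U j}) (by
    intro j x y hxy hx
    exact hU j (fun k => hxy (e k)) hx)
  refine ⟨i, j, hij, ?_⟩
  intro x hx
  have h1 : (fun k => x (e.symm k)) ∈ {y : Fin d → ℕ | (fun k => y (e k)) ∈ U j} := by
    show (fun k => x (e.symm (e k))) ∈ U j
    simpa using hx
  have h2 := hsub h1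
  have h3 : (fun k => x (e.symm (e k))) ∈ U i := h2
  simpa using h3

end Pool.Agent.Helper65.MT
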