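import Mathlib

/-!
Project MT, piece W2: Higman's lemma for words given as functions on `Fin n`.
-/

namespace Pool.Agent.Helper65.MT

private theorem w2_get {Λ : Type} {r : Λ → Λ → Prop} {l₁ l₂ : List Λ}
    (h : List.SublistForall₂ r l₁ l₂) :
    ∃ π : Fin l₁.length → Fin l₂.length, StrictMono π ∧ ∀ c, r (l₁.get c) (l₂.get (π c)) := by
  obtain ⟨l, h1, h2⟩ := List.sublistForall₂_iff.1 h
  obtain ⟨f, hf⟩ := List.sublist_iff_exists_fin_orderEmbedding_get_eq.1 h2
  obtain ⟨hlen, hr⟩ := List.forall₂_iff_get.1 h1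
  refine ⟨fun c => f (Fin.cast hlen c), ?_, ?_⟩
  · intro a b hab
    exact f.strictMono (show Fin.cast hlen a < Fin.cast hlen b from hab)
  · intro c
    rw [← hf]
    exact hr c.1 c.2 (hlen ▸ c.2)

/-- (Higman.) Proof. Mathlib has Higman's lemma for lists:
`Set.PartiallyWellOrderedOn.partiallyWellOrderedOn_sublistForall₂` (for a reflexive and transitive
relation on a set, here the set `Set.univ`). Apply it to the lists `List.ofFn (w j)`: there are
`i < j` with `List.SublistForall₂ r (List.ofFn (w i)) (List.ofFn (w j))`. By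
`List.sublistForall₂_iff` this means `∃ l, List.Forall₂ r (List.ofFn (w i)) l ∧ l <+ List.ofFn (w j)`,
and a sublist is given by a strictly increasing map of indices
(`List.sublist_iff_exists_fin_orderEmbedding_get_eq` or similar). -/
theorem higman_fin {Λ : Type} (r : Λ → Λ → Prop) (hrefl : ∀ x, r x x)
    (htrans : ∀ x y z, r x y → r y z → r x z)
    (hwqo : ∀ f : ℕ → Λ, ∃ i j, i < j ∧ r (f i) (f j)) (n : ℕ → ℕ) (w : ∀ j, Fin (n j) → Λ) :
    ∃ i j, i < j ∧ ∃ π : Fin (n i) → Fin (n j), StrictMono π ∧ ∀ c, r (w i c) (w j (π c)) := by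
  have : IsPreorder Λ r := { refl := hrefl, trans := htrans }
  have hu : (Set.univ : Set Λ).PartiallyWellOrderedOn r := by
    rw [Set.partiallyWellOrderedOn_iff_exists_lt]
    intro f _
    exact hwqo f
  have hl := hu.partiallyWellOrderedOn_sublistForall₂ r
  rw [Set.partiallyWellOrderedOn_iff_exists_lt] at hl
  obtain ⟨i, j, hij, hs⟩ := hl (fun j => List.ofFn (w j)) (fun j => by simp)
  obtain ⟨π, hπ, hr⟩ := w2_get hs
  have li : n i = (List.ofFn (w i)).length := (List.length_ofFn).symm
  have lj : (List.ofFn (w j)).length = n j := List.length_ofFn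
  refine ⟨i, j, hij, fun c => Fin.cast lj (π (Fin.cast li c)), ?_, ?_⟩
  · intro a b hab
    exact hπ (show Fin.cast li a < Fin.cast li b from hab)
  · intro c
    have h3 := hr (Fin.cast li c)
    rw [List.get_ofFn, List.get_ofFn] at h3
    exact h3

end Pool.Agent.Helper65.MT
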