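import Pool.Agent.Helper65.MT.W1
import Pool.Agent.Helper65.MT.W2
import Pool.Agent.Helper65.MT.Defs

/-!
Project MT, piece W3: words with inserted letters.
-/

namespace Pool.Agent.Helper65.MT

/-- Common part of `comb0` and `comb3`: `R` is the relation of the letters that are matched by
`π`, `Q` is the relation of the inserted letters. -/
theorem w3_core {X : Type} (R Q : X → X → Prop) (hRr : ∀ x, R x x)
    (hRt : ∀ x y z, R x y → R y z → R x z) (hRQ : ∀ x y, R x y → Q x y)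
    (hQt : ∀ x y z, Q x y → Q y z → Q x z)
    (hRw : ∀ f : ℕ → X, ∃ i j, i < j ∧ R (f i) (f j))
    (hQw : ∀ V : ℕ → Set X, (∀ k a b, a ∈ V k → Q a b → b ∈ V k) → ∃ i j, i < j ∧ V j ⊆ V i)
    (n : ℕ → ℕ) (x : ∀ j, Fin (n j + 1) → X) :
    ∃ i j, i < j ∧ ∃ (s : Fin (n j + 1) → Fin (n i + 1)) (π : Fin (n i + 1) → Fin (n j + 1)),
      IsIns s π ∧ (∀ q, Q (x i (s q)) (x j q)) ∧ ∀ c, R (x i c) (x j (π c)) := by
  classical
  -- the upper sets
  let Up : Type := {V : Set X // ∀ a b, a ∈ V → Q a b → b ∈ V}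
  let rU : Up → Up → Prop := fun V V' => V'.1 ⊆ V.1
  have hU : IsPreorder Up rU :=
    { refl := fun V => Set.Subset.refl V.1
      trans := fun V V' V'' h h' => Set.Subset.trans h' h }
  have hR : IsPreorder X R :=
    { refl := hRr
      trans := fun a b c => hRt a b c }
  have wU : WellQuasiOrdered rU := by
    intro f
    obtain ⟨i, j, hij, h⟩ := hQw (fun k => (f k).1) (fun k a b => (f k).2 a b)
    exact ⟨i, j, hij, h⟩
  have wR : WellQuasiOrdered R := hRw
  have w2 : WellQuasiOrdered fun a b : Up × Up => rU a.1 b.1 ∧ rU a.2 b.2 := wU.prod wU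
  have : IsPreorder (Up × Up) fun a b : Up × Up => rU a.1 b.1 ∧ rU a.2 b.2 :=
    { refl := fun V => ⟨Set.Subset.refl V.1.1, Set.Subset.refl V.2.1⟩
      trans := fun V V' V'' h h' => ⟨Set.Subset.trans h'.1 h.1, Set.Subset.trans h'.2 h.2⟩ }
  have w3 : WellQuasiOrdered fun a b : X × (Up × Up) =>
      R a.1 b.1 ∧ (rU a.2.1 b.2.1 ∧ rU a.2.2 b.2.2) := wR.prod w2
  -- the labels
  let clo : Set X → Up := fun A => ⟨{y | ∃ a ∈ A, Q a y}, by
    rintro a b ⟨a', ha', h⟩ hab
    exact ⟨a', ha', hQt _ _ _ h hab⟩⟩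
  let lab : ∀ j, Fin (n j + 1) → X × (Up × Up) := fun j c =>
    (x j c, (clo {y | ∃ c' < c, y = x j c'}, clo {y | ∃ c', y = x j c'}))
  obtain ⟨i, j, hij, π, hπ, hlab⟩ := higman_fin
    (fun a b : X × (Up × Up) => R a.1 b.1 ∧ (rU a.2.1 b.2.1 ∧ rU a.2.2 b.2.2))
    (fun a => ⟨hRr _, Set.Subset.refl _, Set.Subset.refl _⟩)
    (fun a b c h h' => ⟨hRt _ _ _ h.1 h'.1, Set.Subset.trans h'.2.1 h.2.1,
      Set.Subset.trans h'.2.2 h.2.2⟩)
    w3 (fun j => n j + 1) lab
  have hR' : ∀ c, R (x i c) (x j (π c)) := fun c => (hlab c).1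
  have hleft : ∀ c q, q < π c → ∃ c' < c, Q (x i c') (x j q) := by
    intro c q hq
    have h1 : x j q ∈ (clo {y | ∃ c' < π c, y = x j c'}).1 :=
      ⟨x j q, ⟨q, hq, rfl⟩, hRQ _ _ (hRr _)⟩
    obtain ⟨a, ⟨c', hc', rfl⟩, h2⟩ := (hlab c).2.1 h1
    exact ⟨c', hc', h2⟩
  have hall : ∀ q, ∃ c', Q (x i c') (x j q) := by
    intro q
    have h1 : x j q ∈ (clo {y | ∃ c', y = x j c'}).1 :=
      ⟨x j q, ⟨q, rfl⟩, hRQ _ _ (hRr _)⟩
    obtain ⟨a, ⟨c', rfl⟩, h2⟩ := (hlab 0).2.2 h1
    exact ⟨c', h2⟩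
  have key : ∀ q, ∃ c', π c' ≤ q ∧ Q (x i c') (x j q) ∧ ∀ c, π c = q → c' = c := by
    intro q
    by_cases h1 : ∃ c, π c = q
    · obtain ⟨c, rfl⟩ := h1
      exact ⟨c, le_rfl, hRQ _ _ (hR' c), fun c' hc' => (hπ.injective hc').symm⟩
    · by_cases h2 : ∃ c, q < π c
      · obtain ⟨c, hc, hmin⟩ := WellFounded.has_min (wellFounded_lt (α := Fin (n i + 1)))
          {c | q < π c} h2
        obtain ⟨c', hc', hQ⟩ := hleft c q hc
        refine ⟨c', ?_, hQ, fun c'' hc'' => absurd ⟨c'', hc''⟩ h1⟩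
        by_contra h3
        exact hmin c' (lt_of_not_ge h3) hc'
      · obtain ⟨c', hQ⟩ := hall q
        refine ⟨c', ?_, hQ, fun c'' hc'' => absurd ⟨c'', hc''⟩ h1⟩
        by_contra h3
        exact h2 ⟨c', lt_of_not_ge h3⟩
  choose s hs1 hs2 hs3 using key
  exact ⟨i, j, hij, s, π, ⟨hπ, fun c => hs3 (π c) c rfl, hs1⟩, hs2, hR'⟩

/-- Proof. Attach to the position `c` of the word `w j` the pair
`(w j c, U)`, `U ⊆ ℕ^ι` the upper closure of the letters `w j c'`, `c' < c`, and moreover the upper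
closure `E` of all letters of the word. The set of triples `(v, U, E)`, `v ∈ ℕ^ι`, `U, E` upper sets
(take the subtype `{U : Set (ι → ℕ) // IsUpperSet U}`), is well quasi-ordered by
`v ≤ v' ∧ U' ⊆ U ∧ E' ⊆ E`: from a sequence of triples first take a subsequence with increasing
first components (Dickson: `exists_monotone_subseq` for the well quasi-order `ℕ^ι`), then
subsequences with decreasing second and third components (`maclagan`; a sequence in a well
quasi-order has a monotone subsequence). By `higman_fin` there are `i < j` and a strictly increasing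
`π` with `w i c ≤ w j (π c)`, and such that every letter of `w j` at the left of `π c` is in the upper
closure of the letters of `w i` at the left of `c`, and every letter of `w j` is in the upper closure
of the letters of `w i`. Then `π 0 = 0`, since there is no letter of `w i` at the left of `0`. Put
`s q = c` for `q = π c`. If `q` is not in the range of `π` and there is `c` with `q < π c`, let `c` be
minimal; then `w j q` is above a letter `w i c'` with `c' < c`, so `π c' < q` (minimality of `c`), and we put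
`s q = c'`. If `q` is larger than all `π c` then `w j q` is above some letter `w i c'`, and
`s q = c'`. -/
theorem comb0 {ι : Type} [Finite ι] (n : ℕ → ℕ) (w : ∀ j, Fin (n j + 1) → ι → ℕ) :
    ∃ i j, i < j ∧ ∃ (s : Fin (n j + 1) → Fin (n i + 1)) (π : Fin (n i + 1) → Fin (n j + 1)),
      IsIns s π ∧ ∀ q, w i (s q) ≤ w j q := by
  obtain ⟨i, j, hij, s, π, h, hQ, _⟩ := w3_core (X := ι → ℕ) (fun a b => a ≤ b) (fun a b => a ≤ b)
    (fun _ => le_rfl) (fun _ _ _ h h' => h.trans h') (fun _ _ h => h)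
    (fun _ _ _ h h' => h.trans h') (fun f => wellQuasiOrdered_le f)
    (fun V hV => maclagan V fun k a b hab ha => hV k a b ha hab) n w
  exact ⟨i, j, hij, s, π, h, hQ⟩

/-- Proof. As for `comb0`, with the labels `(f j c, w j c, U, E)`, where `U ⊆ S` is the set of the
`f j c'`, `c' < c`, and `E` the set of all `f j c'`; the relation is
`f = f' ∧ w ≤ w' ∧ U = U' ∧ E = E'` (a finite type times `ℕ^ι`). A letter `q` of the word `j` outside the
range of `π` has the same value of `f` as some letter `c'` of the word `i` with `π c' < q`. -/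
theorem comb3 {S ι : Type} [Finite S] [Finite ι] (n : ℕ → ℕ) (f : ∀ j, Fin (n j + 1) → S)
    (w : ∀ j, Fin (n j + 1) → ι → ℕ) :
    ∃ i j, i < j ∧ ∃ (s : Fin (n j + 1) → Fin (n i + 1)) (π : Fin (n i + 1) → Fin (n j + 1)),
      IsIns s π ∧ (∀ q, f i (s q) = f j q) ∧ ∀ c, w i c ≤ w j (π c) := by
  have wS : WellQuasiOrdered fun a b : S => a = b := Finite.wellQuasiOrdered _
  have wP : WellQuasiOrdered fun a b : Set S => a = b := Finite.wellQuasiOrdered _
  have wR : WellQuasiOrdered fun a b : S × (ι → ℕ) => a.1 = b.1 ∧ a.2 ≤ b.2 :=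
    wS.prod wellQuasiOrdered_le
  obtain ⟨i, j, hij, s, π, h, hQ, hR⟩ := w3_core (X := S × (ι → ℕ))
    (fun a b => a.1 = b.1 ∧ a.2 ≤ b.2) (fun a b => a.1 = b.1)
    (fun _ => ⟨rfl, le_rfl⟩) (fun _ _ _ h h' => ⟨h.1.trans h'.1, h.2.trans h'.2⟩)
    (fun _ _ h => h.1) (fun _ _ _ h h' => h.trans h') wR
    (fun V hV => by
      obtain ⟨i, j, hij, he⟩ := wP fun k => {a | (a, (0 : ι → ℕ)) ∈ V k}
      refine ⟨i, j, hij, ?_⟩
      rintro ⟨a, v⟩ ha
      have h1 : (a, (0 : ι → ℕ)) ∈ V j := hV j _ _ ha rfl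
      have h2 : a ∈ {a | (a, (0 : ι → ℕ)) ∈ V i} := by
        rw [he]
        exact h1
      exact hV i _ _ h2 rfl)
    n (fun j c => (f j c, w j c))
  exact ⟨i, j, hij, s, π, h, hQ, fun c => (hR c).2⟩

end Pool.Agent.Helper65.MT
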